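import Pool.Agent.Helper56.EX.St2

/-!
# Project EX (MP_d629b1): module A2 (the second window profile `bw`)
-/

set_option autoImplicit false

open Matrix MeasureTheory
open scoped ContDiff ComplexConjugate FourierTransform SchwartzMap
open Pool.Agent.Helper54.Wav

noncomputable section

namespace Pool.Agent.Helper56.EX

private lemma bw_zero_A2 (h : StA1) (x : ℝ) (hx : |x| ≤ 1 / 3) : bw x = 0 := by
  have h1 : ph (1 - |x|) = 0 := by
    apply h.2.2.2.1
    rw [abs_of_nonneg (by linarith)]
    linarith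
  simp [bw, h1]

private lemma bw_contDiff_A2 (h : StA1) : ContDiff ℝ ∞ bw := by
  rw [contDiff_iff_contDiffAt]
  intro x
  by_cases hx : x = 0
  · subst hx
    have h0 : bw =ᶠ[nhds 0] fun _ => (0 : ℝ) := by
      have hmem : Metric.ball (0 : ℝ) (1 / 3) ∈ nhds (0 : ℝ) := Metric.ball_mem_nhds _ (by norm_num)
      filter_upwards [hmem] with y hy
      apply bw_zero_A2 h
      rw [Metric.mem_ball, Real.dist_eq, sub_zero] at hy
      exact hy.le
    exact contDiffAt_const.congr_of_eventuallyEq h0
  · have habs : ContDiffAt ℝ ∞ (fun y : ℝ => |y|) x := contDiffAt_abs hx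
    have h1 : ContDiffAt ℝ ∞ (fun y : ℝ => ph (y / 2)) x :=
      (h.2.2.2.2.1.comp (contDiff_id.div_const (2 : ℝ))).contDiffAt
    have h2 : ContDiffAt ℝ ∞ (fun y : ℝ => ph (1 - |y|)) x :=
      ContDiffAt.comp (f := fun y : ℝ => 1 - |y|) (g := ph) x h.2.2.2.2.1.contDiffAt
        (contDiffAt_const.sub habs)
    exact h1.mul h2

theorem m_A2 (h : StA1) : StA2 := by
  refine ⟨?_, ?_, bw_zero_A2 h, ?_, bw_contDiff_A2 h, ?_, ?_⟩
  · intro x
    exact mul_nonneg (h.1 _) (h.1 _)
  · intro x
    simp only [bw, abs_neg, neg_div, h.2.1]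
  · intro x hx
    have h1 : ph (x / 2) = 0 := by
      apply h.2.2.2.1
      rw [abs_div, abs_of_pos (by norm_num : (0 : ℝ) < 2)]
      linarith
    simp [bw, h1]
  · intro x hx hx'
    have h1 : ph (x / 2) = 1 := by
      apply h.2.2.1
      rw [abs_of_nonneg (by linarith)]
      linarith
    simp only [bw, h1, one_mul, abs_of_nonneg (show (0 : ℝ) ≤ x by linarith)]
  · intro x hx hx'
    have h1 : ph (1 - |x|) = 1 := by
      apply h.2.2.1
      rw [abs_of_nonneg (show (0 : ℝ) ≤ x by linarith), abs_le]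
      constructor <;> linarith
    simp only [bw, h1, mul_one]

end Pool.Agent.Helper56.EX
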