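import Pool.Agent.Helper56.EX.St2

set_option autoImplicit false

open Matrix MeasureTheory
open scoped ContDiff ComplexConjugate FourierTransform SchwartzMap
open Pool.Agent.Helper54.Wav

noncomputable section

namespace Pool.Agent.Helper56.EX

private lemma Om0_A3 (x : ℝ) : Om 0 x = (ph x : ℂ) := rfl
private lemma Om1_A3 (x : ℝ) : Om 1 x = ee (x / 4) * (bw (x / 2) / Real.sqrt 2 : ℝ) := rfl
private lemma Om2_A3 (x : ℝ) : Om 2 x = ee (3 * x / 8) * (bw (x / 4) / 2 : ℝ) := rfl
private lemma Om3_A3 (x : ℝ) : Om 3 x = ee (7 * x / 8) * (bw (x / 4) / 2 : ℝ) := rfl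

private lemma cd_A3 {f : ℝ → ℝ} (hf : ContDiff ℝ ∞ f) {e : ℝ → ℂ} (he : ContDiff ℝ ∞ e) :
    ContDiff ℝ ∞ (fun x => e x * ((f x : ℝ) : ℂ)) :=
  he.mul (Complex.ofRealCLM.contDiff.comp hf)

theorem m_A3 (h1 : StA1) (h2 : StA2) : StA3 := by
  obtain ⟨p1, p2, p3, p4, p5, p6⟩ := h1
  obtain ⟨b1, b2, b3, b4, b5, b6, b7⟩ := h2
  intro a
  have hee : ContDiff ℝ ∞ ee := ee_contDiff
  have ha : a = 0 ∨ a = 1 ∨ a = 2 ∨ a = 3 := by fin_cases a <;> simp
  rcases ha with rfl | rfl | rfl | rfl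
  · refine ⟨?_, ?_, fun h => absurd rfl h, ?_, ?_⟩
    · have : Om 0 = fun x => ((ph x : ℝ) : ℂ) := by funext x; exact Om0_A3 x
      rw [this]
      exact Complex.ofRealCLM.contDiff.comp p5
    · intro x hx
      rw [Om0_A3, p4 x (by linarith)]
      simp
    · intro _ x hx
      rw [Om0_A3, p3 x hx]
      simp
    · intro _ x hx
      rw [Om0_A3, p4 x hx]
      simp
  · refine ⟨?_, ?_, ?_, fun h => absurd h (by decide), fun h => absurd h (by decide)⟩
    · have : Om 1 = fun x => ee (x / 4) * ((bw (x / 2) / Real.sqrt 2 : ℝ) : ℂ) := by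
        funext x; exact Om1_A3 x
      rw [this]
      exact cd_A3 ((b5.comp (by fun_prop)).div_const _) (hee.comp (by fun_prop))
    · intro x hx
      rw [Om1_A3, b4 (x / 2) (by rw [abs_div, abs_two]; linarith)]
      simp
    · intro _ x hx
      rw [Om1_A3, b3 (x / 2) (by rw [abs_div, abs_two]; linarith)]
      simp
  · refine ⟨?_, ?_, ?_, fun h => absurd h (by decide), fun h => absurd h (by decide)⟩
    · have : Om 2 = fun x => ee (3 * x / 8) * ((bw (x / 4) / 2 : ℝ) : ℂ) := by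
        funext x; exact Om2_A3 x
      rw [this]
      exact cd_A3 ((b5.comp (by fun_prop)).div_const _) (hee.comp (by fun_prop))
    · intro x hx
      rw [Om2_A3, b4 (x / 4) (by rw [abs_div, abs_of_pos (by norm_num : (0 : ℝ) < 4)]; linarith)]
      simp
    · intro _ x hx
      rw [Om2_A3, b3 (x / 4) (by rw [abs_div, abs_of_pos (by norm_num : (0 : ℝ) < 4)]; linarith)]
      simp
  · refine ⟨?_, ?_, ?_, fun h => absurd h (by decide), fun h => absurd h (by decide)⟩
    · have : Om 3 = fun x => ee (7 * x / 8) * ((bw (x / 4) / 2 : ℝ) : ℂ) := by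
        funext x; exact Om3_A3 x
      rw [this]
      exact cd_A3 ((b5.comp (by fun_prop)).div_const _) (hee.comp (by fun_prop))
    · intro x hx
      rw [Om3_A3, b4 (x / 4) (by rw [abs_div, abs_of_pos (by norm_num : (0 : ℝ) < 4)]; linarith)]
      simp
    · intro _ x hx
      rw [Om3_A3, b3 (x / 4) (by rw [abs_div, abs_of_pos (by norm_num : (0 : ℝ) < 4)]; linarith)]
      simp

end Pool.Agent.Helper56.EX
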