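import Pool.Agent.Helper56.EX.St2

/-!
# Module A4 of the project EX: the basic periodizations of the windows
-/

set_option autoImplicit false

open Matrix MeasureTheory
open scoped ContDiff ComplexConjugate FourierTransform SchwartzMap
open Pool.Agent.Helper54.Wav

noncomputable section

namespace Pool.Agent.Helper56.EX

/-- Shift of the summation index to the fractional part. -/
theorem finsum_fract_A4 (f : ℝ → ℝ) (x : ℝ) :
    ∑ᶠ l : ℤ, f (x + l) = ∑ᶠ l : ℤ, f (Int.fract x + l) := by
  have h := finsum_comp_equiv (Equiv.addRight (-⌊x⌋)) (f := fun l : ℤ => f (x + l))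
  rw [← h]
  apply finsum_congr
  intro l
  congr 1
  have := Int.self_sub_floor x
  simp only [Equiv.coe_addRight, Int.cast_add, Int.cast_neg]
  linarith

/-- A function vanishing for `4/3 ≤ |x|`: only four terms contribute. -/
theorem finsum_four_A4 (f : ℝ → ℝ) (hf : ∀ x, 4 / 3 ≤ |x| → f x = 0) (y : ℝ) (h0 : 0 ≤ y)
    (h1 : y < 1) : ∑ᶠ l : ℤ, f (y + l) = f (y - 2) + f (y - 1) + f y + f (y + 1) := by
  have hs : (Function.support (fun l : ℤ => f (y + l))) ⊆
      (({-2, -1, 0, 1} : Finset ℤ) : Set ℤ) := by
    intro l hl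
    rw [Function.mem_support] at hl
    have hl' : ¬ (4 / 3 ≤ |y + l|) := fun h => hl (hf _ h)
    push Not at hl'
    rw [abs_lt] at hl'
    have a1 : (-3 : ℝ) < l := by linarith
    have a2 : (l : ℝ) < 2 := by linarith
    have b1 : (-3 : ℤ) < l := by exact_mod_cast a1
    have b2 : l < (2 : ℤ) := by exact_mod_cast a2
    have : l = -2 ∨ l = -1 ∨ l = 0 ∨ l = 1 := by omega
    rcases this with h | h | h | h <;> simp [h]
  rw [finsum_eq_sum_of_support_subset _ hs]
  rw [Finset.sum_insert (by decide), Finset.sum_insert (by decide), Finset.sum_insert (by decide),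
    Finset.sum_singleton]
  push_cast
  rw [show y + -2 = y - 2 by ring, show y + -1 = y - 1 by ring, add_zero]
  ring

/-- Module A4. -/
theorem m_A4 (h1 : StA1) (h2 : StA2) : StA4 := by
  obtain ⟨-, pe, -, ps, -, pp⟩ := h1
  obtain ⟨-, be, b0, bs, -, b1, b2⟩ := h2
  constructor
  · intro x
    rw [finsum_fract_A4 (fun t => ph t ^ 2) x]
    have hy0 := Int.fract_nonneg x
    have hy1 := Int.fract_lt_one x
    generalize Int.fract x = y at hy0 hy1
    rw [finsum_four_A4 (fun t => ph t ^ 2) (fun t ht => by
      have : ph t = 0 := ps t (by linarith)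
      simp [this]) y hy0 hy1]
    have e1 : ph (y - 2) = 0 := ps _ (by rw [abs_of_nonpos (by linarith)]; linarith)
    have e2 : ph (y + 1) = 0 := ps _ (by rw [abs_of_nonneg (by linarith)]; linarith)
    have e3 : ph (y - 1) = ph (1 - y) := by rw [← pe (1 - y)]; congr 1; ring
    have e4 := pp y hy0 hy1.le
    rw [e1, e2, e3]
    linarith
  · intro x
    rw [finsum_fract_A4 (fun t => bw t ^ 2) x]
    have hy0 := Int.fract_nonneg x
    have hy1 := Int.fract_lt_one x
    generalize Int.fract x = y at hy0 hy1
    rw [finsum_four_A4 (fun t => bw t ^ 2) (fun t ht => by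
      have : bw t = 0 := bs t ht
      simp [this]) y hy0 hy1]
    have e3 : bw (y - 1) = bw (1 - y) := by rw [← be (1 - y)]; congr 1; ring
    have e5 : bw (y - 2) = bw (2 - y) := by rw [← be (2 - y)]; congr 1; ring
    rw [e3, e5]
    rcases le_total y (1 / 3) with c1 | c1
    · have f1 : bw (2 - y) = 0 := bs _ (by rw [abs_of_nonneg (by linarith)]; linarith)
      have f2 : bw y = 0 := b0 _ (by rw [abs_of_nonneg hy0]; exact c1)
      have f3 : bw (1 - y) = ph ((1 - y) / 2) := b2 _ (by linarith) (by linarith)
      have f4 : bw (y + 1) = ph ((y + 1) / 2) := b2 _ (by linarith) (by linarith)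
      have f5 := pp ((y + 1) / 2) (by linarith) (by linarith)
      rw [show 1 - (y + 1) / 2 = (1 - y) / 2 by ring] at f5
      rw [f1, f2, f3, f4]
      linarith
    · rcases le_total y (2 / 3) with c2 | c2
      · have f1 : bw (2 - y) = 0 := bs _ (by rw [abs_of_nonneg (by linarith)]; linarith)
        have f2 : bw (y + 1) = 0 := bs _ (by rw [abs_of_nonneg (by linarith)]; linarith)
        have f3 : bw y = ph (1 - y) := b1 _ c1 c2
        have f4 : bw (1 - y) = ph y := by
          rw [b1 (1 - y) (by linarith) (by linarith)]; congr 1; ring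
        have f5 := pp y hy0 hy1.le
        rw [f1, f2, f3, f4]
        linarith
      · have f1 : bw (y + 1) = 0 := bs _ (by rw [abs_of_nonneg (by linarith)]; linarith)
        have f2 : bw (1 - y) = 0 := b0 _ (by rw [abs_of_nonneg (by linarith)]; linarith)
        have f3 : bw y = ph (y / 2) := b2 _ c2 (by linarith)
        have f4 : bw (2 - y) = ph ((2 - y) / 2) := b2 _ (by linarith) (by linarith)
        have f5 := pp (y / 2) (by linarith) (by linarith)
        rw [show 1 - y / 2 = (2 - y) / 2 by ring] at f5
        rw [f1, f2, f3, f4]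
        linarith

end Pool.Agent.Helper56.EX
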