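import Pool.Agent.Helper56.EX.St2

/-!
# Module A5 of the project EX: the four windows are orthonormal over the integers
-/

set_option autoImplicit false

open Matrix MeasureTheory
open scoped ContDiff ComplexConjugate FourierTransform SchwartzMap
open Pool.Agent.Helper54.Wav

noncomputable section

namespace Pool.Agent.Helper56.EX

private lemma conj_ee_A5 (a : ℝ) : conj (ee a) = ee (-a) := by
  unfold ee
  rw [← Complex.exp_conj]
  congr 1
  simp only [map_mul, Complex.conj_ofReal, Complex.conj_I, Complex.ofReal_neg]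
  rw [Complex.conj_ofNat]
  ring

private lemma prod_A5 (x y c r s : ℝ) (h : c = x - y) :
    (ee x * (r : ℂ)) * conj (ee y * (s : ℂ)) = ee c * ((r * s : ℝ) : ℂ) := by
  rw [map_mul, conj_ee_A5, Complex.conj_ofReal, h, sub_eq_add_neg, ee_add]
  push_cast
  ring

private lemma ee_half_A5 : ee (1 / 2) = -1 := by
  unfold ee
  have : (2 * Real.pi * ((1 / 2 : ℝ) : ℂ) * Complex.I : ℂ) = Real.pi * Complex.I := by
    push_cast; ring
  rw [this, Complex.exp_pi_mul_I]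

private lemma ee_half_int_A5 (k : ℤ) : ee (k + 1 / 2) = -1 := by
  rw [ee_add, ee_int, ee_half_A5]; ring

/-- Integers `l` with `|x + l| < R`. -/
private lemma fin_A5 (x R : ℝ) (f : ℤ → ℂ) (hf : ∀ l : ℤ, R ≤ |x + l| → f l = 0) :
    f.HasFiniteSupport := by
  refine (Set.finite_Icc (⌊-R - x⌋) (⌈R - x⌉)).subset ?_
  intro l hl
  rw [Function.mem_support] at hl
  have h : |x + l| < R := by
    by_contra hc
    exact hl (hf l (not_lt.mp hc))
  rw [abs_lt] at h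
  constructor
  · have h1 : ((⌊-R - x⌋ : ℤ) : ℝ) ≤ -R - x := Int.floor_le _
    have h2 : ((⌊-R - x⌋ : ℤ) : ℝ) ≤ l := by linarith [h.1]
    exact_mod_cast h2
  · have h1 : R - x ≤ ((⌈R - x⌉ : ℤ) : ℝ) := Int.le_ceil _
    have h2 : (l : ℝ) ≤ ((⌈R - x⌉ : ℤ) : ℝ) := by linarith [h.2]
    exact_mod_cast h2

/-- Splitting a sum over the integers into residue classes. -/
private lemma split_A5 (M : ℕ) [NeZero M] (f : ℤ → ℂ) (hf : f.HasFiniteSupport) :
    ∑ᶠ l, f l = ∑ r : Fin M, ∑ᶠ m : ℤ, f (m * M + (r : ℕ)) := by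
  let e : Fin M × ℤ ≃ ℤ := (Equiv.prodComm (Fin M) ℤ).trans (Int.divModEquiv M).symm
  have h1 : ∑ᶠ l, f l = ∑ᶠ p : Fin M × ℤ, f (e p) := (finsum_comp_equiv e).symm
  have h2 : (fun p : Fin M × ℤ => f (e p)).HasFiniteSupport := by
    have : Function.support (fun p : Fin M × ℤ => f (e p)) = e ⁻¹' Function.support f := rfl
    unfold Function.HasFiniteSupport
    rw [this]
    exact Set.Finite.preimage e.injective.injOn hf
  rw [h1, finsum_curry _ h2, finsum_eq_sum_of_fintype]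
  rfl

/-- The squares of the shifts of `bw`, with a periodic weight. -/
private lemma per_A5 (h2 : StA2) (h4 : StA4) (M : ℕ) [NeZero M] (x : ℝ) (p : ℤ → ℂ)
    (hp : ∀ m r : ℤ, p (m * M + r) = p r) :
    ∑ᶠ l : ℤ, p l * ((bw ((x + l) / M) ^ 2 : ℝ) : ℂ) = ∑ r : Fin M, p ((r : ℕ) : ℤ) := by
  obtain ⟨-, -, -, hs, -, -, -⟩ := h2
  have hM : (0 : ℝ) < M := by exact_mod_cast Nat.pos_of_ne_zero (NeZero.ne M)
  rw [split_A5 M]
  · refine Finset.sum_congr rfl fun r _ => ?_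
    have e1 : ∀ m : ℤ, p (m * M + ((r : ℕ) : ℤ)) *
        ((bw ((x + ((m * M + ((r : ℕ) : ℤ) : ℤ) : ℝ)) / M) ^ 2 : ℝ) : ℂ) =
        p ((r : ℕ) : ℤ) * ((bw ((x + (r : ℕ)) / M + m) ^ 2 : ℝ) : ℂ) := by
      intro m
      rw [hp]
      congr 4
      push_cast
      field_simp
      ring
    rw [finsum_congr e1]
    have hfr : (fun m : ℤ => bw ((x + (r : ℕ)) / M + m) ^ 2).HasFiniteSupport := by
      have := fin_A5 ((x + (r : ℕ)) / M) (4 / 3)
        (fun m : ℤ => ((bw ((x + (r : ℕ)) / M + m) ^ 2 : ℝ) : ℂ)) (fun m hm => by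
          rw [hs _ hm]; simp)
      refine this.subset ?_
      intro m hm
      rw [Function.mem_support] at hm ⊢
      exact_mod_cast hm
    have hfc : (fun m : ℤ => ((bw ((x + (r : ℕ)) / M + m) ^ 2 : ℝ) : ℂ)).HasFiniteSupport := by
      refine hfr.subset ?_
      intro m hm
      rw [Function.mem_support] at hm ⊢
      exact_mod_cast hm
    rw [← mul_finsum' _ _ hfc]
    have h5 := map_finsum Complex.ofRealHom hfr
    rw [h4.2] at h5
    have h6 : (∑ᶠ m : ℤ, ((bw ((x + (r : ℕ)) / M + m) ^ 2 : ℝ) : ℂ)) = 1 := by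
      rw [← Complex.ofReal_one]
      exact h5.symm
    rw [h6, mul_one]
  · refine fin_A5 x (4 / 3 * M) _ fun l hl => ?_
    rw [hs]
    · simp
    · rw [abs_div, abs_of_pos hM, le_div_iff₀ hM]
      exact hl

/-- The product of the two band windows. -/
private def G_A5 (y : ℝ) : ℝ := bw (y / 2) * bw (y / 4)

private lemma G_zero1_A5 (h2 : StA2) {y : ℝ} (h : |y| ≤ 4 / 3) : G_A5 y = 0 := by
  obtain ⟨-, -, h0, hs, -, -, -⟩ := h2
  unfold G_A5
  rw [h0 (y / 4), mul_zero]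
  rw [abs_div, abs_of_pos (show (0 : ℝ) < 4 by norm_num)]
  linarith

private lemma G_zero2_A5 (h2 : StA2) {y : ℝ} (h : 8 / 3 ≤ |y|) : G_A5 y = 0 := by
  obtain ⟨-, -, h0, hs, -, -, -⟩ := h2
  unfold G_A5
  rw [hs (y / 2), zero_mul]
  rw [abs_div, abs_of_pos (show (0 : ℝ) < 2 by norm_num)]
  linarith

private lemma G_even_A5 (h2 : StA2) (y : ℝ) : G_A5 (-y) = G_A5 y := by
  obtain ⟨-, he, -, -, -, -, -⟩ := h2
  unfold G_A5
  rw [neg_div, neg_div, he, he]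

private lemma G_refl_A5 (h2 : StA2) {y : ℝ} (h0 : 0 ≤ y) (h4 : y ≤ 4) :
    G_A5 (4 - y) = G_A5 y := by
  by_cases c1 : y ≤ 4 / 3
  · rw [G_zero1_A5 h2 (y := y) (by rw [abs_of_nonneg h0]; exact c1),
      G_zero2_A5 h2 (y := 4 - y) (by rw [abs_of_nonneg (by linarith)]; linarith)]
  · push Not at c1
    by_cases c2 : 8 / 3 ≤ y
    · rw [G_zero2_A5 h2 (y := y) (by rw [abs_of_nonneg h0]; exact c2),
        G_zero1_A5 h2 (y := 4 - y) (by rw [abs_of_nonneg (by linarith)]; linarith)]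
    · push Not at c2
      obtain ⟨-, -, -, -, -, h1, h3⟩ := h2
      unfold G_A5
      rw [h3 (y / 2) (by linarith) (by linarith), h1 (y / 4) (by linarith) (by linarith),
        h3 ((4 - y) / 2) (by linarith) (by linarith), h1 ((4 - y) / 4) (by linarith) (by linarith)]
      rw [show (4 - y) / 2 / 2 = 1 - y / 4 by ring, show 1 - (4 - y) / 4 = y / 2 / 2 by ring]
      ring

private lemma pair_A5 (h2 : StA2) (x : ℝ) (P : ℤ → ℂ) (hP : ∀ l, P (l + 4) = -P l) :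
    ∑ᶠ l : ℤ, P l * (G_A5 (x + l) : ℂ) = 0 := by
  classical
  let h : ℤ → ℂ := fun l => if 0 < x + l then P l * (G_A5 (x + l) : ℂ) else 0
  have hh : ∀ l : ℤ, P l * (G_A5 (x + l) : ℂ) = h l - h (l + 4) := by
    intro l
    simp only [h]
    push_cast
    by_cases c : 0 < x + l
    · have c' : 0 < x + (l + 4) := by linarith
      rw [if_pos c, if_pos c']
      have : G_A5 (x + (l + 4)) = 0 :=
        G_zero2_A5 h2 (by rw [abs_of_pos c']; linarith)
      rw [this]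
      simp
    · rw [if_neg c]
      push Not at c
      by_cases c' : 0 < x + (l + 4)
      · rw [if_pos c', hP]
        have e := G_refl_A5 h2 (y := -(x + l)) (by linarith) (by linarith)
        rw [G_even_A5 h2, show 4 - -(x + l) = x + (l + 4) by ring] at e
        rw [e]
        ring
      · rw [if_neg c']
        push Not at c'
        have : G_A5 (x + l) = 0 :=
          G_zero2_A5 h2 (by rw [abs_of_nonpos c]; linarith)
        rw [this]
        simp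
  have hf : h.HasFiniteSupport := by
    refine fin_A5 x (8 / 3) h fun l hl => ?_
    simp only [h]
    rw [G_zero2_A5 h2 hl]
    simp
  have hf4 : (fun l : ℤ => h (l + 4)).HasFiniteSupport := by
    refine fin_A5 (x + 4) (8 / 3) _ fun l hl => ?_
    simp only [h]
    rw [G_zero2_A5 h2 (y := x + ((l + 4 : ℤ) : ℝ)) (by
      push_cast
      rw [show x + ((l : ℝ) + 4) = x + 4 + l by ring]
      exact hl)]
    simp
  rw [finsum_congr hh, finsum_sub_distrib hf hf4]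
  have := finsum_comp_equiv (Equiv.addRight (4 : ℤ)) (f := h)
  simp only [Equiv.coe_addRight] at this
  rw [this, sub_self]

private lemma ph_bw_A5 (h1 : StA1) (h2 : StA2) (y : ℝ) :
    ph y * bw (y / 2) = 0 ∧ ph y * bw (y / 4) = 0 := by
  obtain ⟨-, -, -, ps, -, -⟩ := h1
  obtain ⟨-, -, b0, -, -, -, -⟩ := h2
  by_cases c : 2 / 3 ≤ |y|
  · rw [ps y c]; simp
  · push Not at c
    constructor
    · rw [b0 (y / 2), mul_zero]
      rw [abs_div, abs_of_pos (show (0 : ℝ) < 2 by norm_num)]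
      linarith
    · rw [b0 (y / 4), mul_zero]
      rw [abs_div, abs_of_pos (show (0 : ℝ) < 4 by norm_num)]
      linarith

private lemma Om0_A5 (x : ℝ) : Om 0 x = ee 0 * (ph x : ℝ) := by
  rw [ee_zero, one_mul]; rfl

private lemma Om1_A5 (x : ℝ) : Om 1 x = ee (x / 4) * ((bw (x / 2) / Real.sqrt 2 : ℝ) : ℂ) := rfl

private lemma Om2_A5 (x : ℝ) : Om 2 x = ee (3 * x / 8) * ((bw (x / 4) / 2 : ℝ) : ℂ) := rfl

private lemma Om3_A5 (x : ℝ) : Om 3 x = ee (7 * x / 8) * ((bw (x / 4) / 2 : ℝ) : ℂ) := rfl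

private lemma c00_A5 (h1 : StA1) (h4 : StA4) (x : ℝ) :
    ∑ᶠ l : ℤ, Om 0 (x + l) * conj (Om 0 (x + l)) = 1 := by
  obtain ⟨-, -, -, ps, -, -⟩ := h1
  have e1 : ∀ l : ℤ, Om 0 (x + l) * conj (Om 0 (x + l)) = ((ph (x + l) ^ 2 : ℝ) : ℂ) := by
    intro l
    rw [Om0_A5, prod_A5 0 0 0 _ _ (by ring), ee_zero, one_mul, sq]
  rw [finsum_congr e1]
  have hfr : (fun m : ℤ => ph (x + m) ^ 2).HasFiniteSupport := by
    have := fin_A5 x (2 / 3)
      (fun m : ℤ => ((ph (x + m) ^ 2 : ℝ) : ℂ)) (fun m hm => by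
        rw [ps _ hm]; simp)
    refine this.subset ?_
    intro m hm
    rw [Function.mem_support] at hm ⊢
    exact_mod_cast hm
  have h5 := map_finsum Complex.ofRealHom hfr
  rw [h4.1] at h5
  rw [← Complex.ofReal_one]
  exact h5.symm

private lemma c11_A5 (h2 : StA2) (h4 : StA4) (x : ℝ) :
    ∑ᶠ l : ℤ, Om 1 (x + l) * conj (Om 1 (x + l)) = 1 := by
  have hs : Real.sqrt 2 * Real.sqrt 2 = 2 := Real.mul_self_sqrt (by norm_num)
  have e1 : ∀ l : ℤ, Om 1 (x + l) * conj (Om 1 (x + l)) =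
      (1 / 2 : ℂ) * ((bw ((x + l) / (2 : ℕ)) ^ 2 : ℝ) : ℂ) := by
    intro l
    rw [Om1_A5, prod_A5 _ _ 0 _ _ (by ring), ee_zero, one_mul, div_mul_div_comm, hs]
    push_cast
    ring
  rw [finsum_congr e1, per_A5 h2 h4 2 x (fun _ => 1 / 2) (fun _ _ => rfl)]
  simp

private lemma c22_A5 (h2 : StA2) (h4 : StA4) (x : ℝ) :
    ∑ᶠ l : ℤ, Om 2 (x + l) * conj (Om 2 (x + l)) = 1 := by
  have e1 : ∀ l : ℤ, Om 2 (x + l) * conj (Om 2 (x + l)) =
      (1 / 4 : ℂ) * ((bw ((x + l) / (4 : ℕ)) ^ 2 : ℝ) : ℂ) := by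
    intro l
    rw [Om2_A5, prod_A5 _ _ 0 _ _ (by ring), ee_zero, one_mul]
    push_cast
    ring
  rw [finsum_congr e1, per_A5 h2 h4 4 x (fun _ => 1 / 4) (fun _ _ => rfl)]
  simp

private lemma c33_A5 (h2 : StA2) (h4 : StA4) (x : ℝ) :
    ∑ᶠ l : ℤ, Om 3 (x + l) * conj (Om 3 (x + l)) = 1 := by
  have e1 : ∀ l : ℤ, Om 3 (x + l) * conj (Om 3 (x + l)) =
      (1 / 4 : ℂ) * ((bw ((x + l) / (4 : ℕ)) ^ 2 : ℝ) : ℂ) := by
    intro l
    rw [Om3_A5, prod_A5 _ _ 0 _ _ (by ring), ee_zero, one_mul]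
    push_cast
    ring
  rw [finsum_congr e1, per_A5 h2 h4 4 x (fun _ => 1 / 4) (fun _ _ => rfl)]
  simp

private lemma alt_A5 (h2 : StA2) (h4 : StA4) (x : ℝ) (s : ℝ) (hs : s = 1 / 2 ∨ s = -(1 / 2)) :
    ∑ᶠ l : ℤ, (ee (s * (x + l)) * (1 / 4)) * ((bw ((x + l) / (4 : ℕ)) ^ 2 : ℝ) : ℂ) = 0 := by
  have hstep : ∀ y : ℝ, ee (y + s) = -ee y := by
    intro y
    rcases hs with rfl | rfl
    · rw [ee_add, ee_half_A5]; ring
    · rw [show y + -(1 / 2) = y + ((-1 : ℤ) : ℝ) + 1 / 2 by push_cast; ring, ee_add, ee_add,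
        ee_int, ee_half_A5]
      ring
  rw [per_A5 h2 h4 4 x (fun l => ee (s * (x + l)) * (1 / 4))]
  · rw [Fin.sum_univ_four]
    have e1 : s * (x + ((((1 : Fin 4) : ℕ) : ℤ) : ℝ)) = s * x + s := by
      simp; ring
    have e2 : s * (x + ((((2 : Fin 4) : ℕ) : ℤ) : ℝ)) = s * x + s + s := by
      simp; ring
    have e3 : s * (x + ((((3 : Fin 4) : ℕ) : ℤ) : ℝ)) = s * x + s + s + s := by
      have : (((3 : Fin 4) : ℕ) : ℤ) = 3 := rfl
      rw [this]; push_cast; ring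
    have e0 : s * (x + ((((0 : Fin 4) : ℕ) : ℤ) : ℝ)) = s * x := by
      simp
    rw [e0, e1, e2, e3, hstep (s * x + s + s), hstep (s * x + s), hstep (s * x)]
    ring
  · intro m r
    congr 1
    rcases hs with rfl | rfl
    · rw [show (1 / 2 : ℝ) * (x + ((m * (4 : ℕ) + r : ℤ) : ℝ)) =
        1 / 2 * (x + r) + ((2 * m : ℤ) : ℝ) by push_cast; ring, ee_add, ee_int, mul_one]
    · rw [show (-(1 / 2) : ℝ) * (x + ((m * (4 : ℕ) + r : ℤ) : ℝ)) =
        -(1 / 2) * (x + r) + ((-2 * m : ℤ) : ℝ) by push_cast; ring, ee_add, ee_int, mul_one]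

private lemma c23_A5 (h2 : StA2) (h4 : StA4) (x : ℝ) :
    ∑ᶠ l : ℤ, Om 2 (x + l) * conj (Om 3 (x + l)) = 0 := by
  rw [← alt_A5 h2 h4 x (-(1 / 2)) (Or.inr rfl)]
  refine finsum_congr fun l => ?_
  rw [Om2_A5, Om3_A5, prod_A5 _ _ (-(1 / 2) * (x + l)) _ _ (by ring)]
  push_cast
  ring

private lemma c32_A5 (h2 : StA2) (h4 : StA4) (x : ℝ) :
    ∑ᶠ l : ℤ, Om 3 (x + l) * conj (Om 2 (x + l)) = 0 := by
  rw [← alt_A5 h2 h4 x (1 / 2) (Or.inl rfl)]
  refine finsum_congr fun l => ?_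
  rw [Om2_A5, Om3_A5, prod_A5 _ _ (1 / 2 * (x + l)) _ _ (by ring)]
  push_cast
  ring

private lemma cG_A5 (h2 : StA2) (x c : ℝ) (r : ℂ) (hc : ∃ k : ℤ, 4 * c = k + 1 / 2) :
    ∑ᶠ l : ℤ, (ee (c * (x + l)) * r) * (G_A5 (x + l) : ℂ) = 0 := by
  obtain ⟨k, hk⟩ := hc
  refine pair_A5 h2 x (fun l => ee (c * (x + l)) * r) fun l => ?_
  have : c * (x + ((l + 4 : ℤ) : ℝ)) = c * (x + l) + (k + 1 / 2) := by
    rw [← hk]; push_cast; ring
  simp only [this]
  rw [ee_add, ee_half_int_A5]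
  ring

private lemma c1b_A5 (h2 : StA2) (x : ℝ) :
    ∑ᶠ l : ℤ, Om 1 (x + l) * conj (Om 2 (x + l)) = 0 ∧
    ∑ᶠ l : ℤ, Om 2 (x + l) * conj (Om 1 (x + l)) = 0 ∧
    ∑ᶠ l : ℤ, Om 1 (x + l) * conj (Om 3 (x + l)) = 0 ∧
    ∑ᶠ l : ℤ, Om 3 (x + l) * conj (Om 1 (x + l)) = 0 := by
  refine ⟨?_, ?_, ?_, ?_⟩
  · rw [← cG_A5 h2 x (-(1 / 8)) (((1 / (Real.sqrt 2 * 2) : ℝ) : ℂ)) ⟨-1, by norm_num⟩]
    refine finsum_congr fun l => ?_
    rw [Om1_A5, Om2_A5, prod_A5 _ _ (-(1 / 8) * (x + l)) _ _ (by ring), mul_assoc,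
      ← Complex.ofReal_mul]
    congr 2
    unfold G_A5
    ring
  · rw [← cG_A5 h2 x (1 / 8) (((1 / (Real.sqrt 2 * 2) : ℝ) : ℂ)) ⟨0, by norm_num⟩]
    refine finsum_congr fun l => ?_
    rw [Om1_A5, Om2_A5, prod_A5 _ _ (1 / 8 * (x + l)) _ _ (by ring), mul_assoc,
      ← Complex.ofReal_mul]
    congr 2
    unfold G_A5
    ring
  · rw [← cG_A5 h2 x (-(5 / 8)) (((1 / (Real.sqrt 2 * 2) : ℝ) : ℂ)) ⟨-3, by norm_num⟩]
    refine finsum_congr fun l => ?_
    rw [Om1_A5, Om3_A5, prod_A5 _ _ (-(5 / 8) * (x + l)) _ _ (by ring), mul_assoc,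
      ← Complex.ofReal_mul]
    congr 2
    unfold G_A5
    ring
  · rw [← cG_A5 h2 x (5 / 8) (((1 / (Real.sqrt 2 * 2) : ℝ) : ℂ)) ⟨2, by norm_num⟩]
    refine finsum_congr fun l => ?_
    rw [Om1_A5, Om3_A5, prod_A5 _ _ (5 / 8 * (x + l)) _ _ (by ring), mul_assoc,
      ← Complex.ofReal_mul]
    congr 2
    unfold G_A5
    ring

private lemma c0b_A5 (h1 : StA1) (h2 : StA2) (x : ℝ) (b : Fin 4) (hb : b ≠ 0) :
    Om 0 x * conj (Om b x) = 0 ∧ Om b x * conj (Om 0 x) = 0 := by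
  obtain ⟨p2, p4⟩ := ph_bw_A5 h1 h2 x
  have hb' : b = 1 ∨ b = 2 ∨ b = 3 := by revert b; decide
  rcases hb' with rfl | rfl | rfl
  · rw [Om0_A5, Om1_A5, prod_A5 _ _ _ _ _ rfl, prod_A5 _ _ _ _ _ rfl]
    have e : ph x * (bw (x / 2) / Real.sqrt 2) = 0 := by rw [← mul_div_assoc, p2, zero_div]
    have e' : bw (x / 2) / Real.sqrt 2 * ph x = 0 := by rw [mul_comm, e]
    rw [e, e']
    simp
  · rw [Om0_A5, Om2_A5, prod_A5 _ _ _ _ _ rfl, prod_A5 _ _ _ _ _ rfl]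
    have e : ph x * (bw (x / 4) / 2) = 0 := by rw [← mul_div_assoc, p4, zero_div]
    have e' : bw (x / 4) / 2 * ph x = 0 := by rw [mul_comm, e]
    rw [e, e']
    simp
  · rw [Om0_A5, Om3_A5, prod_A5 _ _ _ _ _ rfl, prod_A5 _ _ _ _ _ rfl]
    have e : ph x * (bw (x / 4) / 2) = 0 := by rw [← mul_div_assoc, p4, zero_div]
    have e' : bw (x / 4) / 2 * ph x = 0 := by rw [mul_comm, e]
    rw [e, e']
    simp

/-- Module A5. -/
theorem m_A5 (h1 : StA1) (h2 : StA2) (h4 : StA4) : StA5 := by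
  intro a b x
  by_cases h0 : a = 0
  · subst h0
    by_cases hb : b = 0
    · subst hb
      rw [if_pos rfl]; exact c00_A5 h1 h4 x
    · rw [if_neg (Ne.symm hb), finsum_congr fun l : ℤ => (c0b_A5 h1 h2 (x + l) b hb).1]
      exact finsum_zero
  by_cases hb : b = 0
  · subst hb
    rw [if_neg h0, finsum_congr fun l : ℤ => (c0b_A5 h1 h2 (x + l) a h0).2]
    exact finsum_zero
  have ha' : a = 1 ∨ a = 2 ∨ a = 3 := by clear * - h0; revert a; decide
  have hb' : b = 1 ∨ b = 2 ∨ b = 3 := by clear * - hb; revert b; decide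
  obtain ⟨q1, q2, q3, q4⟩ := c1b_A5 h2 x
  rcases ha' with rfl | rfl | rfl <;> rcases hb' with rfl | rfl | rfl
  · rw [if_pos rfl]; exact c11_A5 h2 h4 x
  · rw [if_neg (by decide)]; exact q1
  · rw [if_neg (by decide)]; exact q3
  · rw [if_neg (by decide)]; exact q2
  · rw [if_pos rfl]; exact c22_A5 h2 h4 x
  · rw [if_neg (by decide)]; exact c23_A5 h2 h4 x
  · rw [if_neg (by decide)]; exact q4
  · rw [if_neg (by decide)]; exact c32_A5 h2 h4 x
  · rw [if_pos rfl]; exact c33_A5 h2 h4 x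

end Pool.Agent.Helper56.EX
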