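import Pool.Agent.Helper56.EX.St2

set_option autoImplicit false

open Matrix MeasureTheory
open scoped ContDiff ComplexConjugate FourierTransform SchwartzMap
open Pool.Agent.Helper54.Wav

noncomputable section

namespace Pool.Agent.Helper56.EX

private lemma conj_ee_A6 (a : ℝ) : conj (ee a) = ee (-a) := by
  unfold ee
  rw [← Complex.exp_conj]
  congr 1
  simp only [map_mul, Complex.conj_ofReal, Complex.conj_I, map_ofNat]
  push_cast
  ring

private lemma ee_half_A6 : ee (1 / 2) = -1 := by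
  unfold ee
  rw [show (2 * (Real.pi : ℂ) * ((1 / 2 : ℝ) : ℂ) * Complex.I) = Real.pi * Complex.I by
    push_cast; ring]
  exact Complex.exp_pi_mul_I

private lemma ee_odd_A6 (k : ℤ) : ee (k + 1 / 2) = -1 := by
  rw [ee_add, ee_int, ee_half_A6, one_mul]

private lemma key_one_A6 (h1 : StA1) (h2 : StA2) (v : ℝ) :
    ph v * ph (v + 1) = bw v * bw (v + 1) := by
  obtain ⟨-, pe, -, pz, -, -⟩ := h1
  obtain ⟨-, be, bz1, bz2, -, b1, -⟩ := h2
  rcases le_total v (-(4 / 3)) with a | a
  · rw [pz v (by rw [abs_of_nonpos (by linarith)]; linarith),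
      bz2 v (by rw [abs_of_nonpos (by linarith)]; linarith)]
    ring
  rcases le_total v (-(2 / 3)) with b | b
  · rw [pz v (by rw [abs_of_nonpos (by linarith)]; linarith),
      bz1 (v + 1) (by rw [abs_le]; constructor <;> linarith)]
    ring
  rcases le_total v (-(1 / 3)) with c | c
  · have e1 : bw v = ph (1 + v) := by
      rw [← be v, b1 (-v) (by linarith) (by linarith)]
      congr 1; ring
    have e2 : bw (v + 1) = ph v := by
      rw [b1 (v + 1) (by linarith) (by linarith), ← pe v]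
      congr 1; ring
    rw [e1, e2, add_comm v 1, mul_comm]
  rcases le_total v (1 / 3) with d | d
  · rw [pz (v + 1) (by rw [abs_of_nonneg (by linarith)]; linarith),
      bz1 v (by rw [abs_le]; constructor <;> linarith)]
    ring
  · rw [pz (v + 1) (by rw [abs_of_nonneg (by linarith)]; linarith),
      bz2 (v + 1) (by rw [abs_of_nonneg (by linarith)]; linarith)]
    ring

private lemma key_two_A6 (h1 : StA1) (h2 : StA2) (v : ℝ) :
    ph v * ph (v + 2) + bw v * bw (v + 2) = ph (v / 2) * ph ((v + 2) / 2) := by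
  obtain ⟨-, pe, -, pz, -, -⟩ := h1
  obtain ⟨-, be, bz1, bz2, -, -, b2⟩ := h2
  rcases le_total v (-(4 / 3)) with a | a
  · rw [pz v (by rw [abs_of_nonpos (by linarith)]; linarith),
      bz2 v (by rw [abs_of_nonpos (by linarith)]; linarith),
      pz (v / 2) (by rw [abs_of_nonpos (by linarith)]; linarith)]
    ring
  rcases le_total v (-(2 / 3)) with b | b
  · have e1 : bw v = ph (v / 2) := by
      rw [← be v, b2 (-v) (by linarith) (by linarith), neg_div, pe]
    have e2 : bw (v + 2) = ph ((v + 2) / 2) := b2 (v + 2) (by linarith) (by linarith)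
    rw [e1, e2, pz v (by rw [abs_of_nonpos (by linarith)]; linarith)]
    ring
  · rw [pz (v + 2) (by rw [abs_of_nonneg (by linarith)]; linarith),
      bz2 (v + 2) (by rw [abs_of_nonneg (by linarith)]; linarith),
      pz ((v + 2) / 2) (by rw [abs_of_nonneg (by linarith)]; linarith)]
    ring

private lemma key_zero_A6 (h1 : StA1) (h2 : StA2) (v : ℝ) :
    ph v * ph v + bw v * bw v = ph (v / 2) * ph (v / 2) := by
  obtain ⟨-, pe, p1, pz, -, ps⟩ := h1
  obtain ⟨-, be, bz1, bz2, -, b1, b2⟩ := h2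
  wlog hv : 0 ≤ v with H
  · have := H (-v) pe p1 pz ps be bz1 bz2 b1 b2 (by linarith)
    rw [pe, be, neg_div, pe] at this
    exact this
  rcases le_total v (1 / 3) with a | a
  · rw [p1 v (by rw [abs_of_nonneg hv]; exact a), p1 (v / 2) (by rw [abs_of_nonneg (by linarith)]; linarith),
      bz1 v (by rw [abs_of_nonneg hv]; exact a)]
    ring
  rcases le_total v (2 / 3) with b | b
  · rw [b1 v a b, p1 (v / 2) (by rw [abs_of_nonneg (by linarith)]; linarith)]
    have := ps v hv (by linarith)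
    linear_combination this
  rcases le_total v (4 / 3) with c | c
  · rw [b2 v b c, pz v (by rw [abs_of_nonneg hv]; exact b)]
    ring
  · rw [pz v (by rw [abs_of_nonneg hv]; exact b), bz2 v (by rw [abs_of_nonneg hv]; exact c),
      pz (v / 2) (by rw [abs_of_nonneg (by linarith)]; linarith)]
    ring

private lemma key_far_A6 (h1 : StA1) (h2 : StA2) (v w : ℝ) (h : 8 / 3 ≤ |w - v|) :
    ph v * ph w = 0 ∧ bw v * bw w = 0 ∧ ph (v / 2) * ph (w / 2) = 0 := by
  obtain ⟨-, pe, -, pz, -, -⟩ := h1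
  obtain ⟨-, be, bz1, bz2, -, -, b2⟩ := h2
  have h3 : 4 / 3 ≤ |v| ∨ 4 / 3 ≤ |w| := by
    by_contra hc
    push Not at hc
    have := abs_sub w v
    have h4 : |w - v| ≤ |w| + |v| := abs_sub w v
    linarith
  rcases h3 with h3 | h3
  · refine ⟨?_, ?_, ?_⟩
    · rw [pz v (by linarith), zero_mul]
    · rw [bz2 v h3, zero_mul]
    · rw [pz (v / 2) (by rw [abs_div, abs_two]; linarith), zero_mul]
  · refine ⟨?_, ?_, ?_⟩
    · rw [pz w (by linarith), mul_zero]
    · rw [bz2 w h3, mul_zero]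
    · rw [pz (w / 2) (by rw [abs_div, abs_two]; linarith), mul_zero]

/-- even shifts -/
private lemma key_even_A6 (h1 : StA1) (h2 : StA2) (v : ℝ) (k : ℤ) :
    ph v * ph (v + (2 * k : ℤ)) + bw v * bw (v + (2 * k : ℤ)) =
      ph (v / 2) * ph ((v + (2 * k : ℤ)) / 2) := by
  rcases lt_trichotomy k 0 with hk | hk | hk
  · rcases eq_or_ne k (-1) with h | h
    · subst h
      have := key_two_A6 h1 h2 (v - 2)
      rw [sub_add_cancel] at this
      push_cast
      rw [show v + -2 = v - 2 by ring]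
      linear_combination this
    · have hk2 : k ≤ -2 := by omega
      have hk3 : (k : ℝ) ≤ -2 := by exact_mod_cast hk2
      obtain ⟨a, b, c⟩ := key_far_A6 h1 h2 v (v + (2 * k : ℤ)) (by
        push_cast
        rw [abs_of_nonpos (by linarith)]; linarith)
      rw [a, b, c, add_zero]
  · subst hk
    simpa using key_zero_A6 h1 h2 v
  · rcases eq_or_ne k 1 with h | h
    · subst h
      have := key_two_A6 h1 h2 v
      push_cast
      simpa using this
    · have hk2 : 2 ≤ k := by omega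
      have hk3 : (2 : ℝ) ≤ k := by exact_mod_cast hk2
      obtain ⟨a, b, c⟩ := key_far_A6 h1 h2 v (v + (2 * k : ℤ)) (by
        push_cast
        rw [abs_of_nonneg (by linarith)]; linarith)
      rw [a, b, c, add_zero]

/-- odd shifts -/
private lemma key_odd_A6 (h1 : StA1) (h2 : StA2) (v : ℝ) (k : ℤ) :
    ph v * ph (v + (2 * k + 1 : ℤ)) = bw v * bw (v + (2 * k + 1 : ℤ)) := by
  rcases lt_trichotomy k 0 with hk | hk | hk
  · rcases eq_or_ne k (-1) with h | h
    · subst h
      have := key_one_A6 h1 h2 (v - 1)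
      rw [sub_add_cancel] at this
      push_cast
      rw [show v + -1 = v - 1 by ring]
      linear_combination this
    · have hk2 : k ≤ -2 := by omega
      have hk3 : (k : ℝ) ≤ -2 := by exact_mod_cast hk2
      obtain ⟨a, b, c⟩ := key_far_A6 h1 h2 v (v + (2 * k + 1 : ℤ)) (by
        push_cast
        rw [abs_of_nonpos (by linarith)]; linarith)
      rw [a, b]
  · subst hk
    simpa using key_one_A6 h1 h2 v
  · have hk2 : 1 ≤ k := by omega
    have hk3 : (1 : ℝ) ≤ k := by exact_mod_cast hk2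
    obtain ⟨a, b, c⟩ := key_far_A6 h1 h2 v (v + (2 * k + 1 : ℤ)) (by
      push_cast
      rw [abs_of_nonneg (by linarith)]; linarith)
    rw [a, b]

private lemma prod_A6 (x y c r s : ℝ) (h : c = x - y) :
    (ee x * (r : ℂ)) * conj (ee y * (s : ℂ)) = ee c * ((r * s : ℝ) : ℂ) := by
  rw [map_mul, conj_ee_A6, Complex.conj_ofReal, h, sub_eq_add_neg, ee_add]
  push_cast
  ring

private lemma P1_A6 (z l : ℝ) : Om 1 (z / 4) * conj (Om 1 ((z + l) / 4)) =
    ee (-(l / 16)) * ((bw (z / 8) * bw ((z + l) / 8) / 2 : ℝ) : ℂ) := by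
  have e1 : Om 1 (z / 4) = ee (z / 16) * (bw (z / 8) / Real.sqrt 2 : ℝ) := by
    simp only [Om, Matrix.cons_val_one, Matrix.cons_val_zero]
    congr 2 <;> ring_nf
  have e2 : Om 1 ((z + l) / 4) = ee ((z + l) / 16) * (bw ((z + l) / 8) / Real.sqrt 2 : ℝ) := by
    simp only [Om, Matrix.cons_val_one, Matrix.cons_val_zero]
    congr 2 <;> ring_nf
  rw [e1, e2, prod_A6 _ _ (-(l / 16)) _ _ (by ring)]
  congr 2
  have h2 : Real.sqrt 2 * Real.sqrt 2 = 2 := Real.mul_self_sqrt (by norm_num)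
  rw [div_mul_div_comm, h2]

private lemma P2_A6 (z l : ℝ) : Om 2 (z / 2) * conj (Om 2 ((z + l) / 2)) =
    ee (-(3 * l / 16)) * ((bw (z / 8) * bw ((z + l) / 8) / 4 : ℝ) : ℂ) := by
  have e1 : Om 2 (z / 2) = ee (3 * z / 16) * (bw (z / 8) / 2 : ℝ) := by
    simp only [Om, Matrix.cons_val]
    congr 2 <;> ring_nf
  have e2 : Om 2 ((z + l) / 2) = ee (3 * (z + l) / 16) * (bw ((z + l) / 8) / 2 : ℝ) := by
    simp only [Om, Matrix.cons_val]
    congr 2 <;> ring_nf
  rw [e1, e2, prod_A6 _ _ (-(3 * l / 16)) _ _ (by ring)]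
  congr 2
  ring

private lemma P3_A6 (z l : ℝ) : Om 3 (z / 2) * conj (Om 3 ((z + l) / 2)) =
    ee (-(7 * l / 16)) * ((bw (z / 8) * bw ((z + l) / 8) / 4 : ℝ) : ℂ) := by
  have e1 : Om 3 (z / 2) = ee (7 * z / 16) * (bw (z / 8) / 2 : ℝ) := by
    simp only [Om, Matrix.cons_val]
    congr 2 <;> ring_nf
  have e2 : Om 3 ((z + l) / 2) = ee (7 * (z + l) / 16) * (bw ((z + l) / 8) / 2 : ℝ) := by
    simp only [Om, Matrix.cons_val]
    congr 2 <;> ring_nf
  rw [e1, e2, prod_A6 _ _ (-(7 * l / 16)) _ _ (by ring)]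
  congr 2
  ring

private lemma P0_A6 (x y : ℝ) : Om 0 x * conj (Om 0 y) = ((ph x * ph y : ℝ) : ℂ) := by
  simp only [Om, Matrix.cons_val_zero, Complex.conj_ofReal]
  push_cast
  ring

private lemma KZpos_A6 (a b : Fin 4) (M z l : ℝ) (n : ℤ) (h : l = M * n) :
    KZ a b M z l = Om a (z / M) * conj (Om b ((z + l) / M)) := by
  unfold KZ
  rw [if_pos ⟨n, h⟩]

private lemma KZneg_A6 (a b : Fin 4) (M z l : ℝ) (h : ¬ ∃ n : ℤ, l = M * n) :
    KZ a b M z l = 0 := by
  unfold KZ
  rw [if_neg h]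

theorem m_A6 (h1 : StA1) (h2 : StA2) : StA6 := by
  intro z l
  by_cases hl : ∃ n : ℤ, l = 2 * n
  · obtain ⟨n, hn⟩ := hl
    rw [KZpos_A6 2 2 2 z l n hn, KZpos_A6 3 3 2 z l n hn, P2_A6, P3_A6]
    rcases Int.even_or_odd' n with ⟨m, hm | hm⟩
    · have hl4 : l = 4 * m := by rw [hn, hm]; push_cast; ring
      rw [KZpos_A6 1 1 4 z l m hl4, P1_A6]
      rcases Int.even_or_odd' m with ⟨k, hk | hk⟩
      · have hl8 : l = 8 * k := by rw [hl4, hk]; push_cast; ring
        rw [KZpos_A6 0 0 8 z l k hl8, P0_A6]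
        have e2 : ee (-(3 * l / 16)) = ee (-(l / 16)) * ee (-(k : ℝ)) := by
          rw [← ee_add]; congr 1; rw [hl8]; ring
        have e3 : ee (-(7 * l / 16)) = ee (-(l / 16)) * ee (-(3 * k : ℝ)) := by
          rw [← ee_add]; congr 1; rw [hl8]; ring
        have e4 : ee (-(k : ℝ)) = 1 := by exact_mod_cast ee_int (-k)
        have e5 : ee (-(3 * k : ℝ)) = 1 := by exact_mod_cast ee_int (-(3 * k))
        rw [e2, e3, e4, e5]
        have ez : (z + l) / 8 = z / 8 + k := by rw [hl8]; ring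
        rw [ez]
        rcases Int.even_or_odd' k with ⟨j, hj | hj⟩
        · have hl16 : l = 16 * j := by rw [hl8, hj]; push_cast; ring
          rw [KZpos_A6 0 0 16 z l j hl16, P0_A6]
          have e6 : ee (-(l / 16)) = 1 := by
            rw [hl16, mul_div_cancel_left₀ _ (by norm_num : (16 : ℝ) ≠ 0)]
            exact_mod_cast ee_int (-j)
          have hk2 := key_even_A6 h1 h2 (z / 8) j
          rw [← hj] at hk2
          have ez1 : z / 16 = z / 8 / 2 := by ring
          have ez2 : (z + l) / 16 = (z / 8 + k) / 2 := by rw [hl8]; ring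
          rw [e6, ez1, ez2, ← hk2]
          push_cast
          ring
        · have hn16 : ¬ ∃ n : ℤ, l = 16 * n := by
            rintro ⟨i, hi⟩
            have : (2 * j + 1 : ℤ) = 2 * i := by
              have h5 : (8 : ℝ) * ((2 * j + 1 : ℤ) : ℝ) = 8 * ((2 * i : ℤ) : ℝ) := by
                rw [← hj, ← hl8, hi]; push_cast; ring
              exact_mod_cast mul_left_cancel₀ (by norm_num : (8 : ℝ) ≠ 0) h5
            omega
          rw [KZneg_A6 0 0 16 z l hn16]
          have e6 : ee (-(l / 16)) = -1 := by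
            have : -(l / 16) = ((-j - 1 : ℤ) : ℝ) + 1 / 2 := by
              rw [hl8, hj]; push_cast; ring
            rw [this]; exact ee_odd_A6 _
          have hk2 := key_odd_A6 h1 h2 (z / 8) j
          rw [← hj] at hk2
          rw [e6, hk2]
          push_cast
          ring
      · have hn8 : ¬ ∃ n : ℤ, l = 8 * n := by
          rintro ⟨i, hi⟩
          have : (2 * k + 1 : ℤ) = 2 * i := by
            have h5 : (4 : ℝ) * ((2 * k + 1 : ℤ) : ℝ) = 4 * ((2 * i : ℤ) : ℝ) := by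
              rw [← hk, ← hl4, hi]; push_cast; ring
            exact_mod_cast mul_left_cancel₀ (by norm_num : (4 : ℝ) ≠ 0) h5
          omega
        have hn16 : ¬ ∃ n : ℤ, l = 16 * n := by
          rintro ⟨i, hi⟩
          exact hn8 ⟨2 * i, by rw [hi]; push_cast; ring⟩
        rw [KZneg_A6 0 0 8 z l hn8, KZneg_A6 0 0 16 z l hn16]
        have e2 : ee (-(3 * l / 16)) = ee (-(l / 16)) * -1 := by
          rw [← ee_odd_A6 (-k - 1), ← ee_add]; congr 1; rw [hl4, hk]; push_cast; ring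
        have e3 : ee (-(7 * l / 16)) = ee (-(l / 16)) * -1 := by
          rw [← ee_odd_A6 (-3 * k - 2), ← ee_add]; congr 1; rw [hl4, hk]; push_cast; ring
        rw [e2, e3]
        push_cast
        ring
    · have hn4 : ¬ ∃ n : ℤ, l = 4 * n := by
        rintro ⟨i, hi⟩
        have : (2 * m + 1 : ℤ) = 2 * i := by
          have h5 : (2 : ℝ) * ((2 * m + 1 : ℤ) : ℝ) = 2 * ((2 * i : ℤ) : ℝ) := by
            rw [← hm, ← hn, hi]; push_cast; ring
          exact_mod_cast mul_left_cancel₀ (by norm_num : (2 : ℝ) ≠ 0) h5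
        omega
      have hn8 : ¬ ∃ n : ℤ, l = 8 * n := by
        rintro ⟨i, hi⟩
        exact hn4 ⟨2 * i, by rw [hi]; push_cast; ring⟩
      have hn16 : ¬ ∃ n : ℤ, l = 16 * n := by
        rintro ⟨i, hi⟩
        exact hn4 ⟨4 * i, by rw [hi]; push_cast; ring⟩
      rw [KZneg_A6 0 0 8 z l hn8, KZneg_A6 0 0 16 z l hn16, KZneg_A6 1 1 4 z l hn4]
      have e3 : ee (-(7 * l / 16)) = ee (-(3 * l / 16)) * -1 := by
        rw [← ee_odd_A6 (-m - 1), ← ee_add]; congr 1; rw [hn, hm]; push_cast; ring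
      rw [e3]
      push_cast
      ring
  · have h4 : ¬ ∃ n : ℤ, l = 4 * n := by
      rintro ⟨i, hi⟩
      exact hl ⟨2 * i, by rw [hi]; push_cast; ring⟩
    have h8 : ¬ ∃ n : ℤ, l = 8 * n := by
      rintro ⟨i, hi⟩
      exact hl ⟨4 * i, by rw [hi]; push_cast; ring⟩
    have h16 : ¬ ∃ n : ℤ, l = 16 * n := by
      rintro ⟨i, hi⟩
      exact hl ⟨8 * i, by rw [hi]; push_cast; ring⟩
    rw [KZneg_A6 _ _ _ _ _ hl, KZneg_A6 _ _ _ _ _ hl, KZneg_A6 _ _ _ _ _ h4, KZneg_A6 _ _ _ _ _ h8,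
      KZneg_A6 _ _ _ _ _ h16]
    ring

end Pool.Agent.Helper56.EX
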