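import Pool.Agent.Helper56.EX.St

/-!
# Project EX, module ALL
-/

set_option autoImplicit false

open Matrix
open scoped ContDiff

noncomputable section

namespace Pool.Agent.Helper56.EX

theorem m_ALL (h1 : StAllt) (h2 : StAlle) (h3 : StMirBlk) : StAll := by
  intro ℓ γ hP w hw a
  fin_cases a
  · exact h2 ℓ γ hP w hw
  · refine h3 ℓ γ hP w 1 ?_
    have e : mir 1 = 2 := by decide
    rw [e]
    exact h1 ℓ γ hP (-w) (Pl_neg hw)
  · exact h1 ℓ γ hP w hw

end Pool.Agent.Helper56.EX
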