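import Pool.Agent.Helper56.EX.St

/-!
# Project EX: module ALLE
-/

set_option autoImplicit false

open Matrix
open scoped ContDiff

noncomputable section

namespace Pool.Agent.Helper56.EX

/-- corner blocks -/
private lemma corner_ALLE (h1 : StBT) {ℓ γ : Fin 3 → ℝ} (hP : Par ℓ γ) (i : Fin 3) (w y : W3)
    (hy : Pl y) (hy5 : ∀ k, |y k| ≤ 1 / 5) (hw : w = y + uu ℓ (Ee i)) : InBlk ℓ γ w 0 := by
  refine ⟨4, _, _, _, y, i.castSucc, hy, h1 ℓ γ hP y hy hy5, ?_, ?_⟩
  · fin_cases i <;> rfl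
  · rw [hw]
    fin_cases i <;> rfl

private lemma neg_ALLE (h9 : StMirBlk) {ℓ γ : Fin 3 → ℝ} (hP : Par ℓ γ) {w : W3}
    (h : InBlk ℓ γ (-w) 0) : InBlk ℓ γ w 0 := by
  apply h9 ℓ γ hP w 0
  have : mir 0 = 0 := by simp [mir]
  rw [this]
  exact h

/-- outside, near the ray of `u_i` -/
private lemma ray_ALLE (h1 : StBT) (h2 : StBA) (h3 : StBQ) (h5 : StBD) {ℓ γ : Fin 3 → ℝ}
    (hP : Par ℓ γ) (i : Fin 3) (w : W3) (hw : Pl w) (hi : |w i| < 1 / 50)
    (h2i : 103 / 100 ≤ w (i + 2)) : InBlk ℓ γ w 0 := by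
  have hl := abs_le.1 (hP.l i)
  have hl0 : 0 < ℓ i := by linarith
  have hsum := Pl_cyc hw i
  have hi' := abs_lt.1 hi
  set x := XX ℓ i w with hx
  have hxe : x * (2 * ℓ i) = w (i + 2) - w (i + 1) := by
    rw [hx]
    unfold XX
    field_simp
  set v : W3 := w - uu ℓ (Ee i) with hv
  have hvP : Pl v := Pl_sub hw (Pl_uu ℓ (Ee i))
  have hv0 : v i = w i := by
    rw [hv, Pi.sub_apply, uu_self, sub_zero]
  have hv1 : v (i + 1) = w (i + 1) + ℓ i := by
    rw [hv, Pi.sub_apply, uu_one]; ring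
  have hv2 : v (i + 2) = w (i + 2) - ℓ i := by
    rw [hv, Pi.sub_apply, uu_two]
  have hXv : XX ℓ i v = x - 1 := by
    unfold XX
    rw [hv1, hv2, div_eq_iff (by positivity)]
    rw [sub_mul, hxe]
    ring
  have hwv : w = v + uu ℓ (Ee i) := by
    rw [hv]; simp
  by_cases hx1 : 3 / 2 ≤ x
  · refine ⟨2, _, _, _, w, 1, hw, h5 ℓ γ hP i w hw hi.le hx1, rfl, ?_⟩
    change w = w + uu ℓ 0
    rw [uu_zero, add_zero]
  · push Not at hx1
    by_cases hx2 : 4 / 3 ≤ x
    · refine ⟨4, _, _, _, v, 2, hvP, h3 ℓ γ hP i v hvP (by rw [hv0]; exact hi.le)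
        (by rw [hXv]; linarith) (by rw [hXv]; linarith), rfl, ?_⟩
      exact hwv
    · push Not at hx2
      by_cases hx3 : 3 / 20 ≤ x - 1
      · refine ⟨2, _, _, _, v, 1, hvP, h2 ℓ γ hP i v hvP (by rw [hv0]; exact hi.le)
          (by rw [hXv]; exact hx3) (by rw [hXv]; linarith), rfl, ?_⟩
        exact hwv
      · push Not at hx3
        refine corner_ALLE h1 hP i w v hvP ?_ hwv
        have e1 : w (i + 2) - w (i + 1) < 23 / 20 * (2 * ℓ i) := by
          rw [← hxe]
          apply mul_lt_mul_of_pos_right _ (by positivity)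
          linarith
        intro k
        rcases cyc_cases i k with rfl | rfl | rfl
        · rw [hv0]; linarith
        · rw [hv1, abs_le]
          constructor <;> linarith
        · rw [hv2, abs_le]
          constructor <;> linarith

theorem m_ALLE (h0 : StCases) (h1 : StBT) (h2 : StBA) (h3 : StBQ) (h5 : StBD) (h6 : StB1i)
    (h7 : StB1o) (h8 : StBS) (h9 : StMirBlk) : StAlle := by
  intro ℓ γ hP w hw
  have huu0 : w = w + uu ℓ 0 := by rw [uu_zero, add_zero]
  have hstrip : ∀ (k : Fin 3) (z : W3), Pl z → Strip k z → InBlk ℓ γ z 0 := by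
    intro k z hz hs
    refine ⟨2, _, _, _, z, 0, hz, h8 ℓ γ hP k z hz hs, rfl, ?_⟩
    change z = z + uu ℓ 0
    rw [uu_zero, add_zero]
  rcases h0 ℓ γ hP w hw with hA | hB | hC | hD
  · exact ⟨1, _, _, _, w, 0, hw, h6 ℓ γ hP w hw hA, rfl, huu0⟩
  · by_cases hall : ∀ i, 1 / 50 ≤ |w i|
    · obtain ⟨k, hk⟩ := h7 ℓ γ hP w hw hB hall
      exact ⟨1, _, _, _, w, 0, hw, hk, rfl, huu0⟩
    · push Not at hall
      obtain ⟨i, hi⟩ := hall
      obtain ⟨k, hk⟩ := hB
      have hsum := Pl_cyc hw i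
      have hi' := abs_lt.1 hi
      have hkey : 103 / 100 ≤ w (i + 2) ∨ 103 / 100 ≤ -w (i + 2) := by
        rcases cyc_cases i k with rfl | rfl | rfl
        · exfalso; linarith
        · rcases le_abs.1 hk with h | h
          · right; linarith
          · left; linarith
        · rcases le_abs.1 hk with h | h
          · left; linarith
          · right; linarith
      rcases hkey with h | h
      · exact ray_ALLE h1 h2 h3 h5 hP i w hw hi h
      · apply neg_ALLE h9 hP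
        apply ray_ALLE h1 h2 h3 h5 hP i (-w) (Pl_neg hw)
        · rw [Pi.neg_apply, abs_neg]; exact hi
        · rw [Pi.neg_apply]; exact h
  · obtain ⟨i, y, hy, hy5, h | h⟩ := hC
    · exact corner_ALLE h1 hP i w y hy hy5 (by rw [h, add_comm])
    · apply neg_ALLE h9 hP
      exact corner_ALLE h1 hP i (-w) y hy hy5 (by rw [h, neg_neg, add_comm])
  · obtain ⟨k, h | h⟩ := hD
    · exact hstrip k w hw h
    · exact neg_ALLE h9 hP (hstrip k (-w) (Pl_neg hw) h)

end Pool.Agent.Helper56.EX
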