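import Pool.Agent.Helper56.EX.St

set_option autoImplicit false

open Matrix
open scoped ContDiff

noncomputable section

namespace Pool.Agent.Helper56.EX

lemma XX_sub_ALLT {ℓ : Fin 3 → ℝ} {i : Fin 3} (h : 0 < ℓ i) (w : W3) :
    XX ℓ i (w - uu ℓ (Ee i)) = XX ℓ i w - 1 := by
  unfold XX
  simp only [Pi.sub_apply, uu_one, uu_two]
  have : ℓ i ≠ 0 := h.ne'
  field_simp
  ring

lemma XX_rev_ALLT {ℓ : Fin 3 → ℝ} {i : Fin 3} (h : 0 < ℓ i) (w : W3) :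
    XX ℓ i (uu ℓ (Ee i) - w) = 1 - XX ℓ i w := by
  unfold XX
  simp only [Pi.sub_apply, uu_one, uu_two]
  have : ℓ i ≠ 0 := h.ne'
  field_simp
  ring

lemma inblk_ALLT {ℓ γ : Fin 3 → ℝ} {w w' : W3} {a : Fin 3} {N : ℕ} {P : Fin N → Fin 3 × Z3}
    {col : Fin N → Fin 4} {O : Matrix (Fin N) (Fin N) ℝ} (hB : Blk ℓ γ w' P col O) (hp : Pl w')
    (i : Fin N) (ha : (P i).1 = a) (hw : w = w' + uu ℓ (P i).2) : InBlk ℓ γ w a :=
  ⟨N, P, col, O, w', i, hp, hB, ha, hw⟩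

theorem m_ALLT (h1 : StBT) (h2 : StBA) (h3 : StBQ) (h4 : StBC) (h5 : StBD) (h6 : StB1t)
    (h7 : StMirBlk) : StAllt := by
  intro ℓ γ hP w hw
  by_cases hc : ∀ k, |w k| ≤ 1 / 5
  · exact inblk_ALLT (h1 ℓ γ hP w hw hc) hw 3 rfl (by
      show w = w + uu ℓ (0 : Z3)
      rw [uu_zero, add_zero])
  by_cases hs : ∀ i, si i w = 0
  · obtain ⟨k, hB⟩ := h6 ℓ γ hP w hw hs
    exact inblk_ALLT hB hw 0 rfl (by
      show w = w + uu ℓ (0 : Z3)
      rw [uu_zero, add_zero])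
  push Not at hs
  obtain ⟨i, hi⟩ := hs
  obtain ⟨b1, b2, b3⟩ := si_ne hi
  have hl := abs_le.1 (hP.l i)
  have hl0 : 0 < ℓ i := by linarith [hl.1]
  have hl1 : ℓ i ≤ 1001 / 1000 := by linarith [hl.2]
  have hsum := Pl_cyc hw i
  have b1' := abs_lt.1 b1
  have hx : w (i + 2) - w (i + 1) = 2 * ℓ i * XX ℓ i w := by
    unfold XX
    field_simp
  rcases lt_or_ge (XX ℓ i w) (3 / 20) with hx1 | hx1
  · exfalso
    apply hc
    have e1 : 2 * ℓ i * XX ℓ i w ≤ 2 * (1001 / 1000) * (3 / 20) := by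
      rcases le_total 0 (XX ℓ i w) with h0 | h0
      · nlinarith
      · nlinarith
    intro k
    rcases cyc_cases i k with rfl | rfl | rfl
    · rw [abs_le]; constructor <;> linarith
    · rw [abs_le]; constructor <;> linarith
    · rw [abs_le]; constructor <;> linarith
  rcases le_total (XX ℓ i w) (1 / 3) with hx2 | hx2
  · exact inblk_ALLT (h2 ℓ γ hP i w hw b1.le hx1 hx2) hw 0 rfl (by
      show w = w + uu ℓ (0 : Z3)
      rw [uu_zero, add_zero])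
  rcases le_total (XX ℓ i w) (1 / 2) with hx3 | hx3
  · exact inblk_ALLT (h3 ℓ γ hP i w hw b1.le hx2 hx3) hw 0 rfl (by
      show w = w + uu ℓ (0 : Z3)
      rw [uu_zero, add_zero])
  rcases le_total (XX ℓ i w) (2 / 3) with hx4 | hx4
  · apply h7 ℓ γ hP w 2
    have hv : Pl (uu ℓ (Ee i) - w) := Pl_sub (Pl_uu ℓ _) hw
    have hvi : |(uu ℓ (Ee i) - w) i| ≤ 1 / 50 := by
      rw [Pi.sub_apply, uu_self, zero_sub, abs_neg]
      exact b1.le
    have hX := XX_rev_ALLT hl0 w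
    exact inblk_ALLT (h3 ℓ γ hP i _ hv hvi (by rw [hX]; linarith) (by rw [hX]; linarith)) hv 3 rfl (by
      show -w = uu ℓ (Ee i) - w + uu ℓ (-Ee i)
      rw [uu_neg]
      abel)
  rcases le_total (XX ℓ i w) (4 / 3) with hx5 | hx5
  · exact inblk_ALLT (h4 ℓ γ hP i w hw b1.le hx4 hx5) hw 0 rfl (by
      show w = w + uu ℓ (0 : Z3)
      rw [uu_zero, add_zero])
  rcases le_total (XX ℓ i w) (3 / 2) with hx6 | hx6
  · have hv : Pl (w - uu ℓ (Ee i)) := Pl_sub hw (Pl_uu ℓ _)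
    have hvi : |(w - uu ℓ (Ee i)) i| ≤ 1 / 50 := by
      rw [Pi.sub_apply, uu_self, sub_zero]
      exact b1.le
    have hX := XX_sub_ALLT hl0 w
    exact inblk_ALLT (h3 ℓ γ hP i _ hv hvi (by rw [hX]; linarith) (by rw [hX]; linarith)) hv 1 rfl (by
      show w = w - uu ℓ (Ee i) + uu ℓ (Ee i)
      abel)
  · exact inblk_ALLT (h5 ℓ γ hP i w hw b1.le hx6) hw 0 rfl (by
      show w = w + uu ℓ (0 : Z3)
      rw [uu_zero, add_zero])

end Pool.Agent.Helper56.EX
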