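import Pool.Agent.Helper56.EX.St

/-!
# Project EX, module B1I: a single point in the interior of the tile
-/

set_option autoImplicit false

open Matrix
open scoped ContDiff

noncomputable section

namespace Pool.Agent.Helper56.EX

private lemma par_l_B1I {ℓ γ : Fin 3 → ℝ} (h : Par ℓ γ) (i : Fin 3) : 999 / 1000 ≤ ℓ i ∧ ℓ i ≤ 1001 / 1000 := by
  have h1 := abs_le.1 (h.l i)
  constructor <;> linarith [h1.1, h1.2]

private lemma XX_lt_B1I {ℓ γ : Fin 3 → ℝ} (h : Par ℓ γ) (i : Fin 3) (w : W3) (hw : ∀ k, |w k| ≤ 19 / 20) :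
    ¬ 4 / 3 < XX ℓ i w := by
  have hl := par_l_B1I h i
  have h1 := abs_le.1 (hw (i + 1))
  have h2 := abs_le.1 (hw (i + 2))
  unfold XX
  rw [not_lt, div_le_iff₀ (by linarith [hl.1])]
  linarith [hl.1, h1.1, h2.2]

theorem m_B1I (hI : StIn) (hO : StOut) : StB1i := by
  intro ℓ γ hP w hw hwk
  have hl := par_l_B1I hP
  have hwk' : ∀ k, |(-w) k| ≤ 19 / 20 := fun k => by rw [Pi.neg_apply, abs_neg]; exact hwk k
  refine ⟨fun i j _ => Subsingleton.elim i j, by simp, ?_, ?_⟩
  · intro i c b m hne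
    have hi : i = 0 := Subsingleton.elim i 0
    subst hi
    have hne0 := hne 0
    simp only [Matrix.cons_val_zero, Matrix.cons_val_fin_one, zero_add] at hne0 ⊢
    rw [uu_zero, add_zero]
    by_contra hc
    rcases link_of_ne hc with ⟨h1, h2⟩ | ⟨-, hb, -, hg, i, j, hij, hm⟩ | ⟨i, h3⟩
    · exact hne0 (by rw [← h1, h2])
    · refine hg (hO ℓ γ hP _ (Pl_add hw (Pl_uu ℓ m)) ?_)
      rcases cyc_cases i j with h | h | h
      · exact absurd h.symm hij
      · subst h
        refine ⟨i + 2, ?_⟩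
        have e1 : (w + uu ℓ m) (i + 2) = w (i + 2) + (ℓ i + ℓ (i + 1)) := by
          have e2 := uu_one ℓ (i + 1)
          rw [c11] at e2
          rw [hm, uu_sub, Pi.add_apply, Pi.sub_apply, uu_two, e2]
          ring
        rw [e1]
        have h5 := abs_le.1 (hwk (i + 2))
        refine le_trans ?_ (le_abs_self _)
        linarith [(hl i).1, (hl (i + 1)).1, h5.1]
      · subst h
        refine ⟨i + 1, ?_⟩
        have e1 : (w + uu ℓ m) (i + 1) = w (i + 1) - (ℓ i + ℓ (i + 2)) := by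
          have e2 := uu_two ℓ (i + 2)
          rw [c22] at e2
          rw [hm, uu_sub, Pi.add_apply, Pi.sub_apply, uu_one, e2]
          ring
        rw [e1]
        have h5 := abs_le.1 (hwk (i + 1))
        refine le_trans ?_ (neg_le_abs _)
        linarith [(hl i).1, (hl (i + 2)).1, h5.2]
    · rcases h3 with ⟨h, -⟩ | ⟨h, -⟩ | ⟨h, -⟩ | ⟨-, -, ⟨hm, hs, -⟩ | ⟨-, -, hx⟩⟩ | ⟨-, -, ⟨hm, hs, -⟩ | ⟨-, -, hx⟩⟩
      · exact absurd h (by decide)
      · exact absurd h (by decide)
      · exact absurd h (by decide)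
      · have h4 := (si_ne hs).2.1
        rw [hm, uu_neg, Pi.add_apply, Pi.neg_apply, uu_one] at h4
        have h5 := abs_le.1 (hwk (i + 1))
        linarith [(hl i).1, h5.1]
      · exact XX_lt_B1I hP i w hwk hx
      · have h4 := (si_ne hs).2.1
        rw [hm, Pi.neg_apply, Pi.add_apply, uu_one] at h4
        have h5 := abs_le.1 (hwk (i + 1))
        linarith [(hl i).1, h5.2]
      · exact XX_lt_B1I hP i (-w) hwk' hx
  · intro i j c
    have hi : i = 0 := Subsingleton.elim i 0
    have hj : j = 0 := Subsingleton.elim j 0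
    subst hi
    subst hj
    simp only [Matrix.cons_val_zero, Matrix.cons_val_fin_one, sub_self, Finset.univ_unique,
      Finset.sum_singleton, Fin.default_eq_zero, Fin.isValue]
    rw [uu_zero, add_zero, v_ee]
    obtain ⟨h1, h2⟩ := hI ℓ γ hP w hw hwk
    unfold Dg
    refine Fin.cases ?_ (fun k => ?_) c
    · simp [h1]
    · simp [h2 k, (Fin.succ_ne_zero k).symm]

end Pool.Agent.Helper56.EX
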