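import Pool.Agent.Helper56.EX.St

/-!
# Project EX, module B1T
-/

set_option autoImplicit false

open Matrix
open scoped ContDiff

noncomputable section

namespace Pool.Agent.Helper56.EX

private lemma exists_B1T {w : W3} (hw : Pl w) (hs : ∀ i, si i w = 0) :
    ∃ k : Fin 3, ∀ j, pp j w ^ 2 = if k = j then 1 else 0 := by
  have hsum := pp_sq_sum hw
  have h0 : pp 1 w * pp 2 w = 0 := hs 0
  have h1 : pp 2 w * pp 0 w = 0 := hs 1
  have h2 : pp 0 w * pp 1 w = 0 := hs 2
  have key : ∀ k : Fin 3, (pp 0 w ^ 2 = if k = 0 then 1 else 0) →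
      (pp 1 w ^ 2 = if k = 1 then 1 else 0) → (pp 2 w ^ 2 = if k = 2 then 1 else 0) →
      ∃ k : Fin 3, ∀ j, pp j w ^ 2 = if k = j then 1 else 0 := by
    intro k a0 a1 a2
    refine ⟨k, fun j => ?_⟩
    have hj : j = 0 ∨ j = 1 ∨ j = 2 := by fin_cases j <;> decide
    rcases hj with rfl | rfl | rfl
    · exact a0
    · exact a1
    · exact a2
  have e01 : (0 : Fin 3) ≠ 1 := by decide
  have e02 : (0 : Fin 3) ≠ 2 := by decide
  have e12 : (1 : Fin 3) ≠ 2 := by decide
  rcases mul_eq_zero.mp h0 with a | a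
  · rcases mul_eq_zero.mp h1 with b | b
    · rw [a, b] at hsum
      refine key 0 ?_ ?_ ?_
      · rw [if_pos rfl]; linarith
      · rw [if_neg e01, a]; norm_num
      · rw [if_neg e02, b]; norm_num
    · rw [a, b] at hsum
      refine key 2 ?_ ?_ ?_
      · rw [if_neg e02.symm, b]; norm_num
      · rw [if_neg e12.symm, a]; norm_num
      · rw [if_pos rfl]; linarith
  · rcases mul_eq_zero.mp h2 with b | b
    · rw [a, b] at hsum
      refine key 1 ?_ ?_ ?_
      · rw [if_neg e01.symm, b]; norm_num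
      · rw [if_pos rfl]; linarith
      · rw [if_neg e12, a]; norm_num
    · rw [a, b] at hsum
      refine key 0 ?_ ?_ ?_
      · rw [if_pos rfl]; linarith
      · rw [if_neg e01, b]; norm_num
      · rw [if_neg e02, a]; norm_num

theorem m_B1T : StB1t := by
  intro ℓ γ hp w hw hs
  obtain ⟨k, hk⟩ := exists_B1T hw hs
  refine ⟨k, ⟨Function.injective_of_subsingleton _, by simp, ?_, ?_⟩⟩
  · intro i c b m hP
    obtain rfl : i = 0 := Subsingleton.elim _ _
    by_contra hne
    have hL := link_of_ne hne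
    have h2 := hP 0
    simp only [Matrix.cons_val_zero, Matrix.cons_val_fin_one, uu_zero, add_zero, zero_add] at hL h2
    rcases hL with ⟨h3, h4⟩ | ⟨h3, _⟩ | ⟨j, h3⟩
    · exact h2 (by rw [← h3, h4])
    · exact absurd h3 (by decide)
    · rcases h3 with ⟨_, h4, _⟩ | ⟨h4, _⟩ | ⟨h4, _⟩ | ⟨h4, _⟩ | ⟨h4, _⟩
      · exact h4 (hs j)
      · exact absurd h4 (by decide)
      · exact absurd h4 (by decide)
      · exact absurd h4 (by decide)
      · exact absurd h4 (by decide)
  · intro i j c
    obtain rfl : i = 0 := Subsingleton.elim _ _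
    obtain rfl : j = 0 := Subsingleton.elim _ _
    simp only [Matrix.cons_val_zero, Matrix.cons_val_fin_one, uu_zero, add_zero, sub_self, v_tt,
      Finset.univ_unique, Finset.sum_singleton, Matrix.one_apply_eq, mul_one, Fin.default_eq_zero]
    unfold Dg
    refine Fin.cases ?_ (fun l => ?_) c
    · simp
    · simp [hk l]

end Pool.Agent.Helper56.EX
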