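import Pool.Agent.Helper56.EX.St2

/-!
# Project EX, module B2 (helper41): global frames of families of quaternionic projections over the plane
-/

set_option autoImplicit false
set_option linter.unusedSectionVars false

open Matrix MeasureTheory
open scoped ContDiff ComplexConjugate FourierTransform SchwartzMap
open Pool.Agent.Helper54.Wav

noncomputable section

namespace Pool.Agent.Helper56.EX

section pointwise_B2

variable {D : ℕ}

/-- the inner product, linear in the second argument -/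
private def ip_B2 {ι : Type*} [Fintype ι] (x y : ι → ℂ) : ℂ := ∑ p, conj (x p) * y p

/-- the matrix `x y*` -/
private def op_B2 {ι : Type*} (x y : ι → ℂ) : Matrix ι ι ℂ := Matrix.of fun p p' => x p * conj (y p')

variable {ι : Type*} [Fintype ι] [DecidableEq ι]

private lemma ip_conj_B2 (x y : ι → ℂ) : conj (ip_B2 x y) = ip_B2 y x := by
  unfold ip_B2
  rw [map_sum]
  refine Finset.sum_congr rfl fun p _ => ?_
  rw [map_mul, Complex.conj_conj, mul_comm]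

private lemma ip_sub_B2 (x y z : ι → ℂ) : ip_B2 x (y - z) = ip_B2 x y - ip_B2 x z := by
  unfold ip_B2
  rw [← Finset.sum_sub_distrib]
  exact Finset.sum_congr rfl fun p _ => by rw [Pi.sub_apply, mul_sub]

private lemma ip_smul_B2 (c : ℂ) (x y : ι → ℂ) : ip_B2 x (c • y) = c * ip_B2 x y := by
  unfold ip_B2
  rw [Finset.mul_sum]
  exact Finset.sum_congr rfl fun p _ => by rw [Pi.smul_apply, smul_eq_mul]; ring

private lemma ip_smul_left_B2 (c : ℂ) (x y : ι → ℂ) : ip_B2 (c • x) y = conj c * ip_B2 x y := by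
  rw [← ip_conj_B2, ip_smul_B2, map_mul, ip_conj_B2]

private lemma ip_self_B2 (x : ι → ℂ) : ip_B2 x x = ((∑ p, ‖x p‖ ^ 2 : ℝ) : ℂ) := by
  unfold ip_B2
  push_cast
  refine Finset.sum_congr rfl fun p _ => ?_
  rw [mul_comm, Complex.mul_conj, Complex.normSq_eq_norm_sq]
  push_cast
  rfl

private lemma ip_self_pos_B2 {x : ι → ℂ} (hx : x ≠ 0) : 0 < ∑ p, ‖x p‖ ^ 2 := by
  obtain ⟨p, hp⟩ := Function.ne_iff.1 hx
  refine Finset.sum_pos' (fun _ _ => by positivity) ⟨p, Finset.mem_univ _, ?_⟩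
  have : 0 < ‖x p‖ := norm_pos_iff.2 hp
  positivity

private lemma mulVec_op_B2 (x y v : ι → ℂ) : op_B2 x y *ᵥ v = ip_B2 y v • x := by
  ext p
  simp only [Matrix.mulVec, dotProduct, op_B2, Matrix.of_apply, Pi.smul_apply, smul_eq_mul, ip_B2]
  rw [Finset.sum_mul]
  exact Finset.sum_congr rfl fun q _ => by ring

private lemma mul_op_B2 (T : Matrix ι ι ℂ) (x y : ι → ℂ) : T * op_B2 x y = op_B2 (T *ᵥ x) y := by
  ext p q
  simp only [Matrix.mul_apply, op_B2, Matrix.of_apply, Matrix.mulVec, dotProduct]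
  rw [Finset.sum_mul]
  exact Finset.sum_congr rfl fun q _ => by ring

private lemma op_H_B2 (x y : ι → ℂ) : (op_B2 x y)ᴴ = op_B2 y x := by
  ext p q
  simp only [Matrix.conjTranspose_apply, op_B2, Matrix.of_apply]
  rw [star_mul', RCLike.star_def, Complex.conj_conj, mul_comm]

private lemma op_mul_B2 (T : Matrix ι ι ℂ) (x y : ι → ℂ) : op_B2 x y * T = op_B2 x (Tᴴ *ᵥ y) := by
  have h := mul_op_B2 Tᴴ y x
  have h2 := congrArg Matrix.conjTranspose h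
  rw [Matrix.conjTranspose_mul, op_H_B2, op_H_B2, Matrix.conjTranspose_conjTranspose] at h2
  exact h2

private lemma op_op_B2 (x y z w : ι → ℂ) : op_B2 x y * op_B2 z w = ip_B2 y z • op_B2 x w := by
  rw [mul_op_B2, mulVec_op_B2]
  ext p q
  simp only [op_B2, Matrix.of_apply, Pi.smul_apply, smul_eq_mul, Matrix.smul_apply]
  ring

private lemma trace_op_B2 (x y : ι → ℂ) : (op_B2 x y).trace = ip_B2 y x := by
  simp only [Matrix.trace, Matrix.diag_apply, op_B2, Matrix.of_apply, ip_B2]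
  exact Finset.sum_congr rfl fun p _ => by ring

/-- the trace of an idempotent matrix is its rank -/
private lemma trace_rank_B2 {T : Matrix ι ι ℂ} (hT : T * T = T) : T.trace = (T.rank : ℂ) := by
  have h1 : IsIdempotentElem (Matrix.toLin' T) := by
    unfold IsIdempotentElem
    rw [Module.End.mul_eq_comp, ← Matrix.toLin'_mul, hT]
  have h2 := (LinearMap.IsIdempotentElem.isProj_range _ h1).trace
  rw [Matrix.trace_toLin'_eq] at h2
  rw [h2]
  rfl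

private lemma ip_prod_B2 (x y : Fin D × Fin 2 → ℂ) :
    ip_B2 x y = ∑ d, (conj (x (d, 0)) * y (d, 0) + conj (x (d, 1)) * y (d, 1)) := by
  unfold ip_B2
  rw [Fintype.sum_prod_type]
  exact Finset.sum_congr rfl fun d _ => by rw [Fin.sum_univ_two]

private lemma Jq0_B2 (v : Fin D × Fin 2 → ℂ) (d : Fin D) : Jq v (d, 0) = -conj (v (d, 1)) := by
  simp [Jq]

private lemma Jq1_B2 (v : Fin D × Fin 2 → ℂ) (d : Fin D) : Jq v (d, 1) = conj (v (d, 0)) := by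
  simp [Jq]

private lemma ext_B2 {v w : Fin D × Fin 2 → ℂ} (h0 : ∀ d, v (d, 0) = w (d, 0))
    (h1 : ∀ d, v (d, 1) = w (d, 1)) : v = w := by
  ext ⟨d, e⟩
  fin_cases e
  · exact h0 d
  · exact h1 d

private lemma ip_J_self_B2 (x : Fin D × Fin 2 → ℂ) : ip_B2 x (Jq x) = 0 := by
  rw [ip_prod_B2]
  refine Finset.sum_eq_zero fun d _ => ?_
  rw [Jq0_B2, Jq1_B2]
  ring

private lemma ip_J_J_B2 (x y : Fin D × Fin 2 → ℂ) :
    ip_B2 (Jq x) (Jq y) = conj (ip_B2 x y) := by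
  rw [ip_prod_B2, ip_prod_B2, map_sum]
  refine Finset.sum_congr rfl fun d _ => ?_
  rw [Jq0_B2, Jq1_B2, Jq0_B2, Jq1_B2, map_add, map_mul, map_mul, map_neg, Complex.conj_conj,
    Complex.conj_conj]
  ring

private lemma Jq_Jq_B2 (v : Fin D × Fin 2 → ℂ) : Jq (Jq v) = -v := by
  refine ext_B2 (fun d => ?_) (fun d => ?_)
  · rw [Jq0_B2, Jq1_B2, Complex.conj_conj]
    rfl
  · rw [Jq1_B2, Jq0_B2, map_neg, Complex.conj_conj]
    rfl

private lemma Jq_sub_B2 (v w : Fin D × Fin 2 → ℂ) : Jq (v - w) = Jq v - Jq w := by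
  refine ext_B2 (fun d => ?_) (fun d => ?_)
  · rw [Jq0_B2, Pi.sub_apply, Pi.sub_apply, Jq0_B2, Jq0_B2, map_sub]
    ring
  · rw [Jq1_B2, Pi.sub_apply, Pi.sub_apply, Jq1_B2, Jq1_B2, map_sub]

private lemma Jq_add_B2 (v w : Fin D × Fin 2 → ℂ) : Jq (v + w) = Jq v + Jq w := by
  refine ext_B2 (fun d => ?_) (fun d => ?_)
  · rw [Jq0_B2, Pi.add_apply, Pi.add_apply, Jq0_B2, Jq0_B2, map_add]
    ring
  · rw [Jq1_B2, Pi.add_apply, Pi.add_apply, Jq1_B2, Jq1_B2, map_add]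

private lemma Jq_smul_B2 (c : ℂ) (v : Fin D × Fin 2 → ℂ) : Jq (c • v) = conj c • Jq v := by
  refine ext_B2 (fun d => ?_) (fun d => ?_)
  · rw [Jq0_B2, Pi.smul_apply, Pi.smul_apply, Jq0_B2, smul_eq_mul, smul_eq_mul, map_mul]
    ring
  · rw [Jq1_B2, Pi.smul_apply, Pi.smul_apply, Jq1_B2, smul_eq_mul, smul_eq_mul, map_mul]

private lemma ip_J_right_B2 (x v : Fin D × Fin 2 → ℂ) :
    ip_B2 x (Jq v) = -conj (ip_B2 (Jq x) v) := by
  have h := ip_J_J_B2 x (Jq v)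
  rw [Jq_Jq_B2] at h
  have h2 := congrArg conj h
  rw [Complex.conj_conj] at h2
  rw [← h2]
  have h3 : ip_B2 (Jq x) (-v) = -ip_B2 (Jq x) v := by
    have := ip_smul_B2 (-1) (Jq x) v
    rw [neg_one_smul, neg_one_mul] at this
    exact this
  rw [h3, map_neg]

/-- the projection onto the span of `x` and `Jq x` -/
private def PP_B2 (x : Fin D × Fin 2 → ℂ) : Matrix (Fin D × Fin 2) (Fin D × Fin 2) ℂ :=
  op_B2 x x + op_B2 (Jq x) (Jq x)

private lemma PP_J_B2 (x v : Fin D × Fin 2 → ℂ) : PP_B2 x *ᵥ Jq v = Jq (PP_B2 x *ᵥ v) := by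
  unfold PP_B2
  rw [Matrix.add_mulVec, Matrix.add_mulVec, mulVec_op_B2, mulVec_op_B2, mulVec_op_B2,
    mulVec_op_B2, Jq_add_B2, Jq_smul_B2, Jq_smul_B2, Jq_Jq_B2, ip_J_J_B2, ip_J_right_B2, smul_neg,
    neg_smul, add_comm]

/-- one step: splitting off `x` and `Jq x` -/
private lemma step_B2 {T : Matrix (Fin D × Fin 2) (Fin D × Fin 2) ℂ} (hH : Tᴴ = T)
    (hT : T * T = T) (hJ : ∀ v, T *ᵥ Jq v = Jq (T *ᵥ v)) {x : Fin D × Fin 2 → ℂ}
    (hx : T *ᵥ x = x) (h1 : ip_B2 x x = 1) :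
    (T - PP_B2 x)ᴴ = T - PP_B2 x ∧ (T - PP_B2 x) * (T - PP_B2 x) = T - PP_B2 x ∧
    (∀ v, (T - PP_B2 x) *ᵥ Jq v = Jq ((T - PP_B2 x) *ᵥ v)) ∧
    (T - PP_B2 x).trace = T.trace - 2 ∧ (T - PP_B2 x) *ᵥ x = 0 ∧
    (T - PP_B2 x) *ᵥ Jq x = 0 := by
  have hx' : T *ᵥ Jq x = Jq x := by rw [hJ, hx]
  have i1 : ip_B2 (Jq x) (Jq x) = 1 := by rw [ip_J_J_B2, h1, map_one]
  have i2 : ip_B2 x (Jq x) = 0 := ip_J_self_B2 x
  have i3 : ip_B2 (Jq x) x = 0 := by rw [← ip_conj_B2, i2, map_zero]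
  have hTP : T * PP_B2 x = PP_B2 x := by
    unfold PP_B2
    rw [Matrix.mul_add, mul_op_B2, mul_op_B2, hx, hx']
  have hPT : PP_B2 x * T = PP_B2 x := by
    unfold PP_B2
    rw [Matrix.add_mul, op_mul_B2, op_mul_B2, hH, hx, hx']
  have hPP : PP_B2 x * PP_B2 x = PP_B2 x := by
    unfold PP_B2
    rw [Matrix.mul_add, Matrix.add_mul, Matrix.add_mul, op_op_B2, op_op_B2, op_op_B2, op_op_B2,
      h1, i1, i2, i3, one_smul, one_smul, zero_smul, zero_smul, add_zero, zero_add]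
  have hPx : PP_B2 x *ᵥ x = x := by
    unfold PP_B2
    rw [Matrix.add_mulVec, mulVec_op_B2, mulVec_op_B2, h1, i3, one_smul, zero_smul, add_zero]
  have hPx' : PP_B2 x *ᵥ Jq x = Jq x := by rw [PP_J_B2, hPx]
  refine ⟨?_, ?_, ?_, ?_, ?_, ?_⟩
  · rw [Matrix.conjTranspose_sub, hH]
    congr 1
    unfold PP_B2
    rw [Matrix.conjTranspose_add, op_H_B2, op_H_B2]
  · rw [Matrix.mul_sub, Matrix.sub_mul, Matrix.sub_mul, hT, hTP, hPT, hPP]
    abel
  · intro v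
    rw [Matrix.sub_mulVec, Matrix.sub_mulVec, hJ, PP_J_B2, Jq_sub_B2]
  · rw [Matrix.trace_sub]
    unfold PP_B2
    rw [Matrix.trace_add, trace_op_B2, trace_op_B2, h1, i1]
    norm_num
  · rw [Matrix.sub_mulVec, hx, hPx, sub_self]
  · rw [Matrix.sub_mulVec, hx', hPx', sub_self]

/-- a nonzero quaternionic projection has rank at least two -/
private lemma rank_two_B2 {T : Matrix (Fin D × Fin 2) (Fin D × Fin 2) ℂ} (hH : Tᴴ = T)
    (hT : T * T = T) (hJ : ∀ v, T *ᵥ Jq v = Jq (T *ᵥ v)) (h0 : T ≠ 0) : 2 ≤ T.rank := by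
  obtain ⟨v, hv⟩ : ∃ v, T *ᵥ v ≠ 0 := by
    by_contra h
    push Not at h
    refine h0 ?_
    ext i j
    have := congrFun (h (Pi.single j 1)) i
    rw [Matrix.mulVec_single_one] at this
    exact this
  set w := T *ᵥ v with hw
  have hTw : T *ᵥ w = w := by rw [hw, Matrix.mulVec_mulVec, hT]
  have hpos := ip_self_pos_B2 hv
  set t : ℝ := ∑ p, ‖w p‖ ^ 2 with ht
  set c : ℂ := (((Real.sqrt t)⁻¹ : ℝ) : ℂ) with hc
  have h1 : ip_B2 (c • w) (c • w) = 1 := by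
    rw [ip_smul_B2, ip_smul_left_B2, ip_self_B2, ← ht, hc, Complex.conj_ofReal]
    have h2 : (Real.sqrt t)⁻¹ * ((Real.sqrt t)⁻¹ * t) = 1 := by
      have h3 : Real.sqrt t * Real.sqrt t = t := Real.mul_self_sqrt hpos.le
      have h4 : Real.sqrt t ≠ 0 := (Real.sqrt_pos.2 hpos).ne'
      rw [← mul_assoc, ← mul_inv, h3]
      exact inv_mul_cancel₀ hpos.ne'
    exact_mod_cast h2
  have h2 : T *ᵥ (c • w) = c • w := by rw [Matrix.mulVec_smul, hTw]
  obtain ⟨-, s2, -, s4, -, -⟩ := step_B2 hH hT hJ h2 h1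
  rw [trace_rank_B2 s2, trace_rank_B2 hT] at s4
  have s5 : ((T - PP_B2 (c • w)).rank : ℂ) + 2 = (T.rank : ℂ) := by rw [s4]; ring
  have s6 : (T - PP_B2 (c • w)).rank + 2 = T.rank := by exact_mod_cast s5
  omega

private lemma ip_sum_B2 {κ : Type*} (x : ι → ℂ) (S : Finset κ) (y : κ → ι → ℂ) :
    ip_B2 x (∑ n ∈ S, y n) = ∑ n ∈ S, ip_B2 x (y n) := by
  unfold ip_B2
  rw [Finset.sum_comm]
  refine Finset.sum_congr rfl fun p _ => ?_
  rw [Finset.sum_apply, Finset.mul_sum]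

end pointwise_B2

section global_B2

variable {D : ℕ}

/-- a frame of a family -/
private structure Fr_B2 (T : (Fin 2 → ℝ) → Matrix (Fin D × Fin 2) (Fin D × Fin 2) ℂ) (q : ℕ)
    (s : Fin q → (Fin 2 → ℝ) → (Fin D × Fin 2 → ℂ)) : Prop where
  smooth : ∀ n p, ContDiff ℝ ∞ (fun ξ => s n ξ p)
  per : ∀ n, Per (s n)
  orth : ∀ ξ n m, ip_B2 (s n ξ) (s m ξ) = if n = m then 1 else 0
  val : ∀ ξ, T ξ = ∑ n, op_B2 (s n ξ) (s n ξ)

/-- adding one vector to a frame -/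
private lemma add_B2 {T : (Fin 2 → ℝ) → Matrix (Fin D × Fin 2) (Fin D × Fin 2) ℂ} {q : ℕ}
    {s : Fin q → (Fin 2 → ℝ) → (Fin D × Fin 2 → ℂ)} (h : Fr_B2 T q s)
    {u : (Fin 2 → ℝ) → (Fin D × Fin 2 → ℂ)} (hu : ∀ p, ContDiff ℝ ∞ (fun ξ => u ξ p))
    (hp : Per u) (h1 : ∀ ξ, ip_B2 (u ξ) (u ξ) = 1) (h0 : ∀ ξ, T ξ *ᵥ u ξ = 0) :
    Fr_B2 (fun ξ => T ξ + op_B2 (u ξ) (u ξ)) (q + 1) (Fin.cons u s) := by
  have key : ∀ ξ m, ip_B2 (s m ξ) (u ξ) = 0 := by
    intro ξ m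
    have h2 : ip_B2 (s m ξ) (T ξ *ᵥ u ξ) = ip_B2 (s m ξ) (u ξ) := by
      rw [h.val ξ, Matrix.sum_mulVec, ip_sum_B2]
      simp only [mulVec_op_B2, ip_smul_B2, h.orth]
      simp
    rw [← h2, h0]
    unfold ip_B2
    simp
  have key' : ∀ ξ m, ip_B2 (u ξ) (s m ξ) = 0 := by
    intro ξ m
    rw [← ip_conj_B2, key, map_zero]
  refine ⟨?_, ?_, ?_, ?_⟩
  · intro n
    refine Fin.cases ?_ (fun n => ?_) n
    · exact hu
    · exact h.smooth n
  · intro n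
    refine Fin.cases ?_ (fun n => ?_) n
    · exact hp
    · exact h.per n
  · intro ξ n m
    refine Fin.cases ?_ (fun n => ?_) n
    · refine Fin.cases ?_ (fun m => ?_) m
      · simpa using h1 ξ
      · rw [Fin.cons_zero, Fin.cons_succ, key', if_neg (Fin.succ_ne_zero m).symm]
    · refine Fin.cases ?_ (fun m => ?_) m
      · rw [Fin.cons_zero, Fin.cons_succ, key, if_neg (Fin.succ_ne_zero n)]
      · rw [Fin.cons_succ, Fin.cons_succ, h.orth]
        simp only [Fin.succ_inj]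
  · intro ξ
    rw [Fin.sum_univ_succ]
    simp only [Fin.cons_zero, Fin.cons_succ]
    rw [h.val ξ, add_comm]

private lemma Jq_smooth_B2 {u : (Fin 2 → ℝ) → (Fin D × Fin 2 → ℂ)}
    (hu : ∀ p, ContDiff ℝ ∞ (fun ξ => u ξ p)) (p : Fin D × Fin 2) :
    ContDiff ℝ ∞ (fun ξ => Jq (u ξ) p) := by
  have hc : ∀ p, ContDiff ℝ ∞ (fun ξ => conj (u ξ p)) := fun p =>
    Complex.conjCLE.contDiff.comp (hu p)
  obtain ⟨d, e⟩ := p
  fin_cases e
  · simp only [Fin.zero_eta, Jq0_B2]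
    exact (hc _).neg
  · simp only [Fin.mk_one, Jq1_B2]
    exact hc _

/-- the unit vector field -/
private lemma unit_B2 (h1 : StB1) {T : (Fin 2 → ℝ) → Matrix (Fin D × Fin 2) (Fin D × Fin 2) ℂ}
    (hs : ∀ i j, ContDiff ℝ ∞ (fun ξ => T ξ i j)) (hP : Per T)
    (hT : ∀ ξ, T ξ * T ξ = T ξ) (hr : ∀ ξ, 2 ≤ (T ξ).rank) :
    ∃ u : (Fin 2 → ℝ) → (Fin D × Fin 2 → ℂ), (∀ p, ContDiff ℝ ∞ (fun ξ => u ξ p)) ∧ Per u ∧
      (∀ ξ, ip_B2 (u ξ) (u ξ) = 1) ∧ ∀ ξ, T ξ *ᵥ u ξ = u ξ := by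
  set e : Fin D × Fin 2 ≃ Fin (D * 2) := finProdFinEquiv
  obtain ⟨v, hv⟩ := h1 2 (D * 2) (fun ξ => (T ξ).submatrix e.symm e.symm)
    (fun i j => hs _ _)
    (fun ξ => by rw [Matrix.submatrix_mul_equiv, hT])
    (fun ξ => by
      rw [Matrix.rank_submatrix]
      have := hr ξ
      omega)
  set w : (Fin 2 → ℝ) → (Fin D × Fin 2 → ℂ) := fun ξ => T ξ *ᵥ (v ∘ e) with hw
  have hw0 : ∀ ξ, w ξ ≠ 0 := by
    intro ξ h
    refine hv ξ ?_
    rw [Matrix.submatrix_mulVec_equiv, Equiv.symm_symm]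
    have : T ξ *ᵥ (v ∘ e) = 0 := h
    rw [this]
    rfl
  have hws : ∀ p, ContDiff ℝ ∞ (fun ξ => w ξ p) := by
    intro p
    simp only [hw, Matrix.mulVec, dotProduct]
    exact ContDiff.sum fun i _ => (hs p i).mul contDiff_const
  have hwP : Per w := by
    intro ξ m
    simp only [hw, hP ξ m]
  have hTw : ∀ ξ, T ξ *ᵥ w ξ = w ξ := by
    intro ξ
    simp only [hw]
    rw [Matrix.mulVec_mulVec, hT]
  set t : (Fin 2 → ℝ) → ℝ := fun ξ => ∑ p, ‖w ξ p‖ ^ 2 with ht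
  have htpos : ∀ ξ, 0 < t ξ := fun ξ => ip_self_pos_B2 (hw0 ξ)
  have hts : ContDiff ℝ ∞ t := ContDiff.sum fun p _ => (hws p).norm_sq ℝ
  have hcs : ContDiff ℝ ∞ (fun ξ => (((Real.sqrt (t ξ))⁻¹ : ℝ) : ℂ)) := by
    refine Complex.ofRealCLM.contDiff.comp ?_
    exact (hts.sqrt fun ξ => (htpos ξ).ne').inv fun ξ => (Real.sqrt_pos.2 (htpos ξ)).ne'
  refine ⟨fun ξ => (((Real.sqrt (t ξ))⁻¹ : ℝ) : ℂ) • w ξ, ?_, ?_, ?_, ?_⟩
  · intro p
    simp only [Pi.smul_apply, smul_eq_mul]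
    exact hcs.mul (hws p)
  · intro ξ m
    simp only [ht, hwP ξ m]
  · intro ξ
    rw [ip_smul_B2, ip_smul_left_B2, ip_self_B2, Complex.conj_ofReal]
    have h2 : (Real.sqrt (t ξ))⁻¹ * ((Real.sqrt (t ξ))⁻¹ * t ξ) = 1 := by
      have h3 : Real.sqrt (t ξ) * Real.sqrt (t ξ) = t ξ := Real.mul_self_sqrt (htpos ξ).le
      rw [← mul_assoc, ← mul_inv, h3]
      exact inv_mul_cancel₀ (htpos ξ).ne'
    exact_mod_cast h2
  · intro ξ
    rw [Matrix.mulVec_smul, hTw]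

private lemma main_B2 (h1 : StB1) (r : ℕ) :
    ∀ T : (Fin 2 → ℝ) → Matrix (Fin D × Fin 2) (Fin D × Fin 2) ℂ,
      (∀ i j, ContDiff ℝ ∞ (fun ξ => T ξ i j)) → Per T → (∀ ξ, (T ξ)ᴴ = T ξ) →
      (∀ ξ, T ξ * T ξ = T ξ) → (∀ ξ v, T ξ *ᵥ Jq v = Jq (T ξ *ᵥ v)) →
      (∀ ξ, (T ξ).trace = (r : ℂ)) → ∃ (q : ℕ) (s : _), Fr_B2 T q s := by
  induction r using Nat.strong_induction_on with
  | _ r ih =>
  intro T hs hP hH hT hJ htr
  rcases Nat.eq_zero_or_pos r with rfl | hr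
  · refine ⟨0, fun n => n.elim0, ⟨fun n => n.elim0, fun n => n.elim0, fun _ n => n.elim0, ?_⟩⟩
    intro ξ
    have h2 : (T ξ).rank = 0 := by
      have := htr ξ
      rw [trace_rank_B2 (hT ξ)] at this
      exact_mod_cast this
    by_contra h3
    rw [Finset.univ_eq_empty, Finset.sum_empty] at h3
    have := rank_two_B2 (hH ξ) (hT ξ) (hJ ξ) h3
    omega
  · have hrk : ∀ ξ, 2 ≤ (T ξ).rank := by
      intro ξ
      refine rank_two_B2 (hH ξ) (hT ξ) (hJ ξ) ?_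
      intro h0
      have := htr ξ
      rw [h0, Matrix.trace_zero] at this
      have h2 : (r : ℂ) = 0 := this.symm
      rw [Nat.cast_eq_zero] at h2
      omega
    have hr2 : 2 ≤ r := by
      have h2 := hrk 0
      have h3 := htr 0
      rw [trace_rank_B2 (hT 0)] at h3
      have h4 : (T 0).rank = r := by exact_mod_cast h3
      omega
    obtain ⟨u, u1, u2, u3, u4⟩ := unit_B2 h1 hs hP hT hrk
    have hst := fun ξ => step_B2 (hH ξ) (hT ξ) (hJ ξ) (u4 ξ) (u3 ξ)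
    have hop : ∀ {a b : (Fin 2 → ℝ) → (Fin D × Fin 2 → ℂ)},
        (∀ p, ContDiff ℝ ∞ (fun ξ => a ξ p)) → (∀ p, ContDiff ℝ ∞ (fun ξ => b ξ p)) →
        ∀ i j, ContDiff ℝ ∞ (fun ξ => op_B2 (a ξ) (b ξ) i j) := by
      intro a b ha hb i j
      simp only [op_B2, Matrix.of_apply]
      exact (ha i).mul (Complex.conjCLE.contDiff.comp (hb j))
    have uJ := Jq_smooth_B2 u1
    obtain ⟨q, s, hs'⟩ := ih (r - 2) (by omega) (fun ξ => T ξ - PP_B2 (u ξ)) (by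
        intro i j
        simp only [Matrix.sub_apply, PP_B2, Matrix.add_apply]
        exact (hs i j).sub ((hop u1 u1 i j).add (hop uJ uJ i j)))
      (fun ξ m => by simp only [hP ξ m, u2 ξ m])
      (fun ξ => (hst ξ).1) (fun ξ => (hst ξ).2.1) (fun ξ => (hst ξ).2.2.1)
      (fun ξ => by rw [(hst ξ).2.2.2.1, htr ξ, Nat.cast_sub hr2]; norm_num)
    have hA := add_B2 hs' uJ (fun ξ m => by simp only [u2 ξ m])
      (fun ξ => by rw [ip_J_J_B2, u3 ξ, map_one]) (fun ξ => (hst ξ).2.2.2.2.2)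
    have hB := add_B2 hA u1 u2 u3 (fun ξ => by
      rw [Matrix.add_mulVec, (hst ξ).2.2.2.2.1, mulVec_op_B2, ← ip_conj_B2, ip_J_self_B2, map_zero,
        zero_smul, add_zero])
    refine ⟨_, _, ⟨hB.smooth, hB.per, hB.orth, fun ξ => ?_⟩⟩
    rw [← hB.val ξ]
    unfold PP_B2
    abel

end global_B2

theorem m_B2 (h1 : StB1) : StB2 := by
  intro D T hs hP hH hT hJ
  have hcont : Continuous fun ξ => (T ξ).rank := by
    have h2 : Continuous fun ξ => (((T ξ).rank : ℕ) : ℝ) := by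
      have h3 : (fun ξ => (((T ξ).rank : ℕ) : ℝ)) = fun ξ => ((T ξ).trace).re := by
        ext ξ
        rw [trace_rank_B2 (hT ξ), Complex.natCast_re]
      rw [h3]
      refine Complex.continuous_re.comp ?_
      simp only [Matrix.trace, Matrix.diag_apply]
      exact continuous_finsetSum _ fun i _ => (hs i i).continuous
    exact Nat.isClosedEmbedding_coe_real.isInducing.continuous_iff.2 h2
  have hconst : ∀ ξ, (T ξ).rank = (T 0).rank := fun ξ =>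
    PreconnectedSpace.constant inferInstance hcont
  obtain ⟨q, s, h⟩ := main_B2 h1 (T 0).rank T hs hP hH hT hJ
    (fun ξ => by rw [trace_rank_B2 (hT ξ), hconst ξ])
  refine ⟨q, s, h.smooth, h.per, h.orth, fun ξ p p' => ?_⟩
  rw [h.val ξ, Matrix.sum_apply]
  rfl

end Pool.Agent.Helper56.EX
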