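import Pool.Agent.Helper56.EX.St2

/-!
# Project EX (MP_d629b1), module B3 (helper64)
-/

set_option autoImplicit false

open Matrix MeasureTheory
open scoped ContDiff ComplexConjugate FourierTransform SchwartzMap
open Pool.Agent.Helper54.Wav

noncomputable section

namespace Pool.Agent.Helper56.EX

private lemma ee_re_B3 (t : ℝ) : (ee t).re = Real.cos (2 * Real.pi * t) := by
  unfold ee
  have : (2 * Real.pi * t * Complex.I : ℂ) = ((2 * Real.pi * t : ℝ) : ℂ) * Complex.I := by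
    push_cast
    ring
  rw [this, Complex.exp_ofReal_mul_I_re]

private lemma sumcos_B3 (N : ℕ) (hN : 0 < N) (m : Fin 2 → ℤ) :
    ∑ p : Fin N × Fin N, Real.cos (2 * Real.pi * ((p.1 : ℕ) * ((m 0 : ℝ) / N) + (p.2 : ℕ) * ((m 1 : ℝ) / N))) =
      if (N : ℤ) ∣ m 0 ∧ (N : ℤ) ∣ m 1 then (N : ℝ) ^ 2 else 0 := by
  have h1 : ∑ p : Fin N × Fin N, Real.cos (2 * Real.pi * ((p.1 : ℕ) * ((m 0 : ℝ) / N) + (p.2 : ℕ) * ((m 1 : ℝ) / N))) =
      ((∑ a : Fin N, ee ((a : ℕ) * ((m 0 : ℝ) / N))) * (∑ b : Fin N, ee ((b : ℕ) * ((m 1 : ℝ) / N)))).re := by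
    rw [Finset.sum_mul_sum, Fintype.sum_prod_type, Complex.re_sum]
    refine Finset.sum_congr rfl (fun a _ => ?_)
    rw [Complex.re_sum]
    refine Finset.sum_congr rfl (fun b _ => ?_)
    rw [← ee_add, ee_re_B3]
  rw [h1, sum_ee_fin N hN, sum_ee_fin N hN]
  by_cases h0 : (N : ℤ) ∣ m 0
  · by_cases h2 : (N : ℤ) ∣ m 1
    · rw [if_pos h0, if_pos h2, if_pos ⟨h0, h2⟩, ← Complex.ofReal_natCast, ← Complex.ofReal_mul,
        Complex.ofReal_re]
      ring
    · have hn : ¬ ((N : ℤ) ∣ m 0 ∧ (N : ℤ) ∣ m 1) := fun h => h2 h.2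
      rw [if_neg h2, if_neg hn, mul_zero, Complex.zero_re]
  · have hn : ¬ ((N : ℤ) ∣ m 0 ∧ (N : ℤ) ∣ m 1) := fun h => h0 h.1
    rw [if_neg h0, if_neg hn, zero_mul, Complex.zero_re]

/-- The phase. -/
private def ph_B3 (N : ℕ) (p : Fin N × Fin N) (η : Fin 2 → ℝ) : ℝ :=
  2 * Real.pi * ((p.1 : ℕ) * (η 0 / N) + (p.2 : ℕ) * (η 1 / N))

/-- The functions. -/
private def g_B3 (N : ℕ) (χ : (Fin 2 → ℝ) → ℝ) (p : (Fin N × Fin N) × Bool) (η : Fin 2 → ℝ) : ℝ :=
  χ η * (if p.2 then Real.cos (ph_B3 N p.1 η) else Real.sin (ph_B3 N p.1 η)) / N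

theorem m_B3 : StB3 := by
  intro R
  have hs : IsClosed {x : Fin 2 → ℝ | R + 1 ≤ ‖x‖} := isClosed_le continuous_const continuous_norm
  have ht : IsClosed {x : Fin 2 → ℝ | ‖x‖ ≤ R} := isClosed_le continuous_norm continuous_const
  have hd : Disjoint {x : Fin 2 → ℝ | R + 1 ≤ ‖x‖} {x : Fin 2 → ℝ | ‖x‖ ≤ R} := by
    rw [Set.disjoint_left]
    intro x hx hx'
    simp only [Set.mem_setOf_eq] at hx hx'
    linarith
  obtain ⟨χ, hχ, hχ0, hχ1⟩ := exists_cutoff hs ht hd
  simp only [Set.mem_setOf_eq] at hχ0 hχ1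
  set N : ℕ := ⌈2 * (R + 1)⌉₊ + 1 with hNdef
  have hN : 0 < N := by omega
  have hNR : 2 * (R + 1) < (N : ℝ) := by
    have := Nat.le_ceil (2 * (R + 1))
    rw [hNdef]
    push_cast
    linarith
  have hN' : (N : ℝ) ≠ 0 := by positivity
  let e := Fintype.equivFin ((Fin N × Fin N) × Bool)
  refine ⟨Fintype.card ((Fin N × Fin N) × Bool), fun b => g_B3 N χ (e.symm b), ?_, ⟨R + 1, ?_⟩, ?_⟩
  · intro b
    show ContDiff ℝ ∞ (g_B3 N χ (e.symm b))
    generalize e.symm b = p
    obtain ⟨p, c⟩ := p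
    cases c
    · have : ContDiff ℝ ∞ (fun η : Fin 2 → ℝ => χ η * Real.sin (ph_B3 N p η) / N) := by
        unfold ph_B3
        fun_prop
      have h : g_B3 N χ (p, false) = fun η : Fin 2 → ℝ => χ η * Real.sin (ph_B3 N p η) / N := by
        funext η
        simp [g_B3]
      rw [h]
      exact this
    · have : ContDiff ℝ ∞ (fun η : Fin 2 → ℝ => χ η * Real.cos (ph_B3 N p η) / N) := by
        unfold ph_B3
        fun_prop
      have h : g_B3 N χ (p, true) = fun η : Fin 2 → ℝ => χ η * Real.cos (ph_B3 N p η) / N := by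
        funext η
        simp [g_B3]
      rw [h]
      exact this
  · intro b η hη
    show g_B3 N χ (e.symm b) η = 0
    unfold g_B3
    rw [hχ0 η hη, zero_mul, zero_div]
  · intro η hη m
    have h1 : ∑ b, g_B3 N χ (e.symm b) η * g_B3 N χ (e.symm b) (η + zv m) =
        ∑ p, g_B3 N χ p η * g_B3 N χ p (η + zv m) :=
      Equiv.sum_comp e.symm (fun p => g_B3 N χ p η * g_B3 N χ p (η + zv m))
    rw [h1, Fintype.sum_prod_type]
    have h2 : ∀ p : Fin N × Fin N, ∑ c : Bool, g_B3 N χ (p, c) η * g_B3 N χ (p, c) (η + zv m) =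
        χ η * χ (η + zv m) / (N : ℝ) ^ 2 *
          Real.cos (2 * Real.pi * ((p.1 : ℕ) * ((m 0 : ℝ) / N) + (p.2 : ℕ) * ((m 1 : ℝ) / N))) := by
      intro p
      have h3 : Real.cos (2 * Real.pi * ((p.1 : ℕ) * ((m 0 : ℝ) / N) + (p.2 : ℕ) * ((m 1 : ℝ) / N))) =
          Real.cos (ph_B3 N p (η + zv m)) * Real.cos (ph_B3 N p η) +
            Real.sin (ph_B3 N p (η + zv m)) * Real.sin (ph_B3 N p η) := by
        rw [← Real.cos_sub]
        congr 1
        unfold ph_B3 zv
        simp only [Pi.add_apply]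
        ring
      rw [h3, Fintype.sum_bool]
      simp only [g_B3, if_true, if_false, Bool.false_eq_true]
      field_simp
    simp_rw [h2]
    rw [← Finset.mul_sum, sumcos_B3 N hN m]
    by_cases hm : m = 0
    · subst hm
      rw [if_pos rfl, if_pos (by simp)]
      have hz : η + zv (0 : Fin 2 → ℤ) = η := by
        funext i
        simp [zv]
      rw [hz, hχ1 η hη]
      field_simp
    · rw [if_neg hm]
      split_ifs with hdiv
      · have hex : ∃ i, m i ≠ 0 := by
          by_contra hcon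
          push Not at hcon
          exact hm (funext hcon)
        obtain ⟨i, hi⟩ := hex
        have hdi : (N : ℤ) ∣ m i := by
          fin_cases i
          · exact hdiv.1
          · exact hdiv.2
        have h4 : (N : ℤ) ≤ |m i| := Int.le_of_dvd (abs_pos.mpr hi) ((dvd_abs _ _).mpr hdi)
        have h5 : (N : ℝ) ≤ |(m i : ℝ)| := by
          rw [← Int.cast_abs]
          exact_mod_cast h4
        have h6 : |(m i : ℝ)| ≤ ‖zv m‖ := by
          have := norm_le_pi_norm (zv m) i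
          simpa [zv] using this
        have h7 : ‖zv m‖ ≤ ‖η + zv m‖ + ‖η‖ := by
          have := norm_sub_le (η + zv m) η
          rwa [add_sub_cancel_left] at this
        have h8 : 0 ≤ R := (norm_nonneg η).trans hη
        have h9 : χ (η + zv m) = 0 := hχ0 _ (by linarith)
        rw [h9]
        ring
      · ring

end Pool.Agent.Helper56.EX
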