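import Pool.Agent.Helper56.EX.St2

/-!
# Project EX (MP_d629b1): module B4, from the kernel to a periodic real matrix
-/

set_option autoImplicit false

open Matrix MeasureTheory
open scoped ContDiff ComplexConjugate FourierTransform SchwartzMap
open Pool.Agent.Helper54.Wav

noncomputable section

namespace Pool.Agent.Helper56.EX

/-- all integer vectors in a box -/
private def Lb_B4 (C : ℝ) : Finset (Fin 2 → ℤ) :=
  Fintype.piFinset fun _ => Finset.Icc (-⌈C⌉) ⌈C⌉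

private theorem mem_Lb_B4 (C : ℝ) (l : Fin 2 → ℤ) (h : ‖zv l‖ ≤ C) : l ∈ Lb_B4 C := by
  unfold Lb_B4
  rw [Fintype.mem_piFinset]
  intro i
  have h1 : |(l i : ℝ)| ≤ C := (norm_le_pi_norm (zv l) i).trans h
  rw [Finset.mem_Icc]
  have h2 := abs_le.mp h1
  have h3 := Int.le_ceil C
  constructor
  · have h4 : ((-⌈C⌉ : ℤ) : ℝ) ≤ l i := by
      push_cast
      linarith
    exact_mod_cast h4
  · have h4 : (l i : ℝ) ≤ ⌈C⌉ := h2.2.trans h3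
    exact_mod_cast h4

private theorem mem_Lb_of_B4 (C D : ℝ) (ξ : Fin 2 → ℝ) (l : Fin 2 → ℤ) (h1 : ‖ξ + zv l‖ < C)
    (h2 : ‖ξ‖ ≤ D) : l ∈ Lb_B4 (C + D) := by
  apply mem_Lb_B4
  calc ‖zv l‖ = ‖(ξ + zv l) - ξ‖ := by rw [add_sub_cancel_left]
    _ ≤ ‖ξ + zv l‖ + ‖ξ‖ := norm_sub_le _ _
    _ ≤ C + D := by linarith

section
variable {s B : ℕ} {Q : (Fin 2 → ℝ) → (Fin 2 → ℤ) → Matrix (Fin s) (Fin s) ℝ}
  {Λ : Finset (Fin 2 → ℤ)} {R : ℝ} {h : Fin B → (Fin 2 → ℝ) → ℝ}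

/-- the kernel between two lattice points -/
private def qk_B4 (Q : (Fin 2 → ℝ) → (Fin 2 → ℤ) → Matrix (Fin s) (Fin s) ℝ) (ξ : Fin 2 → ℝ)
    (l l' : Fin 2 → ℤ) : Matrix (Fin s) (Fin s) ℝ := Q (ξ + zv l) (l' - l)

private theorem qk_symm_B4 (hQ : PK Q Λ R) (ξ : Fin 2 → ℝ) (l l' : Fin 2 → ℤ) :
    qk_B4 Q ξ l' l = (qk_B4 Q ξ l l')ᵀ := by
  unfold qk_B4
  rw [← hQ.symm]
  have e1 : ξ + zv l + zv (l' - l) = ξ + zv l' := by
    rw [add_assoc, ← zv_add, add_sub_cancel]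
  rw [e1, neg_sub]

private theorem qk_left_B4 (hQ : PK Q Λ R) (ξ : Fin 2 → ℝ) (l l' : Fin 2 → ℤ)
    (hne : qk_B4 Q ξ l l' ≠ 0) : ‖ξ + zv l‖ < R := by
  by_contra hc
  push Not at hc
  exact hne (hQ.bdd _ _ hc)

private theorem qk_right_B4 (hQ : PK Q Λ R) (ξ : Fin 2 → ℝ) (l l' : Fin 2 → ℤ)
    (hne : qk_B4 Q ξ l l' ≠ 0) : ‖ξ + zv l'‖ < R := by
  apply qk_left_B4 hQ ξ l' l
  rw [qk_symm_B4 hQ]
  intro h0
  apply hne
  have h1 := congrArg Matrix.transpose h0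
  rwa [Matrix.transpose_transpose, Matrix.transpose_zero] at h1

private theorem qk_idem_B4 (hQ : PK Q Λ R) (ξ : Fin 2 → ℝ) (L : Finset (Fin 2 → ℤ))
    (hL : ∀ l, ‖ξ + zv l‖ < R → l ∈ L) (l l'' : Fin 2 → ℤ) :
    ∑ l' ∈ L, qk_B4 Q ξ l l' * qk_B4 Q ξ l' l'' = qk_B4 Q ξ l l'' := by
  have h1 := hQ.idem (ξ + zv l) (l'' - l)
  have h2 : ∀ m, Q (ξ + zv l) m * Q (ξ + zv l + zv m) (l'' - l - m) =
      qk_B4 Q ξ l (l + m) * qk_B4 Q ξ (l + m) l'' := by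
    intro m
    unfold qk_B4
    rw [add_sub_cancel_left, zv_add, ← add_assoc, sub_sub]
  have hz : ∀ l', qk_B4 Q ξ l l' * qk_B4 Q ξ l' l'' ≠ 0 → qk_B4 Q ξ l l' ≠ 0 := by
    intro l' hl' h0
    exact hl' (by rw [h0, zero_mul])
  calc ∑ l' ∈ L, qk_B4 Q ξ l l' * qk_B4 Q ξ l' l''
      = ∑ᶠ l', qk_B4 Q ξ l l' * qk_B4 Q ξ l' l'' := by
        symm
        apply finsum_eq_sum_of_support_subset
        intro l' hl'
        exact Finset.mem_coe.mpr (hL l' (qk_right_B4 hQ ξ l l' (hz l' hl')))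
    _ = ∑ᶠ m, qk_B4 Q ξ l (l + m) * qk_B4 Q ξ (l + m) l'' :=
        (finsum_comp_equiv (Equiv.addLeft l)
          (f := fun l' => qk_B4 Q ξ l l' * qk_B4 Q ξ l' l'')).symm
    _ = ∑ m ∈ Λ, qk_B4 Q ξ l (l + m) * qk_B4 Q ξ (l + m) l'' := by
        apply finsum_eq_sum_of_support_subset
        intro m hm
        by_contra hmΛ
        apply hm
        have h3 : qk_B4 Q ξ l (l + m) = 0 := by
          unfold qk_B4
          rw [add_sub_cancel_left]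
          exact hQ.supp _ _ hmΛ
        change qk_B4 Q ξ l (l + m) * qk_B4 Q ξ (l + m) l'' = 0
        rw [h3, zero_mul]
    _ = qk_B4 Q ξ l l'' := by
        rw [← Finset.sum_congr rfl (fun m _ => h2 m)]
        exact h1

/-- the periodic matrix -/
private def GG_B4 (Q : (Fin 2 → ℝ) → (Fin 2 → ℤ) → Matrix (Fin s) (Fin s) ℝ)
    (h : Fin B → (Fin 2 → ℝ) → ℝ) (ξ : Fin 2 → ℝ) :
    Matrix (Fin s × Fin B) (Fin s × Fin B) ℝ :=
  fun x y => ∑ᶠ p : (Fin 2 → ℤ) × (Fin 2 → ℤ),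
    h x.2 (ξ + zv p.1) * qk_B4 Q ξ p.1 p.2 x.1 y.1 * h y.2 (ξ + zv p.2)

private theorem GG_sum_B4 (hQ : PK Q Λ R) (ξ : Fin 2 → ℝ) (L : Finset (Fin 2 → ℤ))
    (hL : ∀ l, ‖ξ + zv l‖ < R → l ∈ L) (x y : Fin s × Fin B) :
    GG_B4 Q h ξ x y = ∑ l ∈ L, ∑ l' ∈ L,
      h x.2 (ξ + zv l) * qk_B4 Q ξ l l' x.1 y.1 * h y.2 (ξ + zv l') := by
  unfold GG_B4
  rw [finsum_eq_sum_of_support_subset (s := L ×ˢ L), Finset.sum_product]
  intro p hp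
  have hne : qk_B4 Q ξ p.1 p.2 ≠ 0 := by
    intro h0
    apply hp
    change h x.2 (ξ + zv p.1) * qk_B4 Q ξ p.1 p.2 x.1 y.1 * h y.2 (ξ + zv p.2) = 0
    rw [h0, Matrix.zero_apply, mul_zero, zero_mul]
  rw [Finset.mem_coe, Finset.mem_product]
  exact ⟨hL _ (qk_left_B4 hQ ξ _ _ hne), hL _ (qk_right_B4 hQ ξ _ _ hne)⟩

/-- the kernel as a finite matrix -/
private def QL_B4 (Q : (Fin 2 → ℝ) → (Fin 2 → ℤ) → Matrix (Fin s) (Fin s) ℝ) (ξ : Fin 2 → ℝ)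
    (L : Finset (Fin 2 → ℤ)) : Matrix (L × Fin s) (L × Fin s) ℝ :=
  fun x y => qk_B4 Q ξ (x.1 : Fin 2 → ℤ) (y.1 : Fin 2 → ℤ) x.2 y.2

/-- the family as a finite matrix -/
private def HL_B4 (s : ℕ) (h : Fin B → (Fin 2 → ℝ) → ℝ) (ξ : Fin 2 → ℝ)
    (L : Finset (Fin 2 → ℤ)) : Matrix (L × Fin s) (Fin s × Fin B) ℝ :=
  fun x y => if x.2 = y.1 then h y.2 (ξ + zv (x.1 : Fin 2 → ℤ)) else 0

private theorem QL_symm_B4 (hQ : PK Q Λ R) (ξ : Fin 2 → ℝ) (L : Finset (Fin 2 → ℤ)) :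
    (QL_B4 Q ξ L)ᵀ = QL_B4 Q ξ L := by
  ext x y
  change qk_B4 Q ξ (y.1 : Fin 2 → ℤ) (x.1 : Fin 2 → ℤ) y.2 x.2 = qk_B4 Q ξ (x.1 : Fin 2 → ℤ) (y.1 : Fin 2 → ℤ) x.2 y.2
  rw [qk_symm_B4 hQ ξ (x.1 : Fin 2 → ℤ) (y.1 : Fin 2 → ℤ)]
  rfl

private theorem QL_idem_B4 (hQ : PK Q Λ R) (ξ : Fin 2 → ℝ) (L : Finset (Fin 2 → ℤ))
    (hL : ∀ l, ‖ξ + zv l‖ < R → l ∈ L) : QL_B4 Q ξ L * QL_B4 Q ξ L = QL_B4 Q ξ L := by
  ext x y
  rw [Matrix.mul_apply, Fintype.sum_prod_type]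
  change ∑ l : L, ∑ c, qk_B4 Q ξ (x.1 : Fin 2 → ℤ) (l : Fin 2 → ℤ) x.2 c *
      qk_B4 Q ξ (l : Fin 2 → ℤ) (y.1 : Fin 2 → ℤ) c y.2 = qk_B4 Q ξ (x.1 : Fin 2 → ℤ) (y.1 : Fin 2 → ℤ) x.2 y.2
  rw [Finset.sum_coe_sort L (fun l : Fin 2 → ℤ => ∑ c, qk_B4 Q ξ (x.1 : Fin 2 → ℤ) l x.2 c *
      qk_B4 Q ξ l (y.1 : Fin 2 → ℤ) c y.2),
    ← qk_idem_B4 hQ ξ L hL (x.1 : Fin 2 → ℤ) (y.1 : Fin 2 → ℤ), Matrix.sum_apply]
  rfl

private theorem HH_apply_B4 (ξ : Fin 2 → ℝ) (L : Finset (Fin 2 → ℤ)) (x y : L × Fin s) :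
    (HL_B4 s h ξ L * (HL_B4 s h ξ L)ᵀ) x y =
      if x.2 = y.2 then ∑ b, h b (ξ + zv (x.1 : Fin 2 → ℤ)) * h b (ξ + zv (y.1 : Fin 2 → ℤ)) else 0 := by
  rw [Matrix.mul_apply, Fintype.sum_prod_type]
  change ∑ c, ∑ b, (if x.2 = c then h b (ξ + zv (x.1 : Fin 2 → ℤ)) else 0) *
    (if y.2 = c then h b (ξ + zv (y.1 : Fin 2 → ℤ)) else 0) = _
  rw [Finset.sum_eq_single x.2]
  · by_cases hxy : x.2 = y.2
    · simp [hxy]
    · simp [hxy, Ne.symm hxy]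
  · intro c _ hc
    simp [Ne.symm hc]
  · intro hx
    exact absurd (Finset.mem_univ _) hx

private theorem QHH_B4 (hQ : PK Q Λ R)
    (hpar : ∀ η, ‖η‖ ≤ R → ∀ m : Fin 2 → ℤ, ∑ b, h b η * h b (η + zv m) = if m = 0 then 1 else 0)
    (ξ : Fin 2 → ℝ) (L : Finset (Fin 2 → ℤ)) :
    QL_B4 Q ξ L * (HL_B4 s h ξ L * (HL_B4 s h ξ L)ᵀ) = QL_B4 Q ξ L := by
  ext x y
  rw [Matrix.mul_apply, Finset.sum_eq_single y]
  · by_cases h0 : QL_B4 Q ξ L x y = 0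
    · rw [h0, zero_mul]
    · rw [HH_apply_B4, if_pos rfl]
      have hne : qk_B4 Q ξ (x.1 : Fin 2 → ℤ) (y.1 : Fin 2 → ℤ) ≠ 0 := by
        intro h1
        apply h0
        change qk_B4 Q ξ (x.1 : Fin 2 → ℤ) (y.1 : Fin 2 → ℤ) x.2 y.2 = 0
        rw [h1]
        rfl
      have h2 := hpar (ξ + zv (y.1 : Fin 2 → ℤ)) (qk_right_B4 hQ ξ _ _ hne).le 0
      rw [zv_zero, add_zero, if_pos rfl] at h2
      rw [h2, mul_one]
  · intro z _ hz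
    by_cases h0 : QL_B4 Q ξ L x z = 0
    · rw [h0, zero_mul]
    · rw [HH_apply_B4]
      split_ifs with hzy
      · have hne : qk_B4 Q ξ (x.1 : Fin 2 → ℤ) (z.1 : Fin 2 → ℤ) ≠ 0 := by
          intro h1
          apply h0
          change qk_B4 Q ξ (x.1 : Fin 2 → ℤ) (z.1 : Fin 2 → ℤ) x.2 z.2 = 0
          rw [h1]
          rfl
        have h2 := hpar (ξ + zv (z.1 : Fin 2 → ℤ)) (qk_right_B4 hQ ξ _ _ hne).le
          ((y.1 : Fin 2 → ℤ) - (z.1 : Fin 2 → ℤ))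
        have h3 : ξ + zv (z.1 : Fin 2 → ℤ) + zv ((y.1 : Fin 2 → ℤ) - (z.1 : Fin 2 → ℤ)) =
            ξ + zv (y.1 : Fin 2 → ℤ) := by
          rw [add_assoc, ← zv_add, add_sub_cancel]
        have h4 : ((y.1 : Fin 2 → ℤ) - (z.1 : Fin 2 → ℤ)) ≠ 0 := by
          intro h5
          apply hz
          rw [sub_eq_zero] at h5
          exact Prod.ext (Subtype.ext h5.symm) hzy
        rw [h3, if_neg h4] at h2
        rw [h2, mul_zero]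
      · rw [mul_zero]
  · intro hy
    exact absurd (Finset.mem_univ _) hy

private theorem HHQ_B4 (hQ : PK Q Λ R)
    (hpar : ∀ η, ‖η‖ ≤ R → ∀ m : Fin 2 → ℤ, ∑ b, h b η * h b (η + zv m) = if m = 0 then 1 else 0)
    (ξ : Fin 2 → ℝ) (L : Finset (Fin 2 → ℤ)) :
    HL_B4 s h ξ L * (HL_B4 s h ξ L)ᵀ * QL_B4 Q ξ L = QL_B4 Q ξ L := by
  have h1 := congrArg Matrix.transpose (QHH_B4 hQ hpar ξ L)
  rw [Matrix.transpose_mul, Matrix.transpose_mul, Matrix.transpose_transpose, QL_symm_B4 hQ] at h1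
  exact h1

private theorem GG_eq_B4 (hQ : PK Q Λ R) (ξ : Fin 2 → ℝ) (L : Finset (Fin 2 → ℤ))
    (hL : ∀ l, ‖ξ + zv l‖ < R → l ∈ L) :
    GG_B4 Q h ξ = (HL_B4 s h ξ L)ᵀ * QL_B4 Q ξ L * HL_B4 s h ξ L := by
  ext x y
  rw [GG_sum_B4 hQ ξ L hL, Matrix.mul_apply, Fintype.sum_prod_type]
  simp only [Matrix.mul_apply, Fintype.sum_prod_type]
  change _ = ∑ l' : L, ∑ c', (∑ l : L, ∑ c,
    (if c = x.1 then h x.2 (ξ + zv (l : Fin 2 → ℤ)) else 0) *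
    qk_B4 Q ξ (l : Fin 2 → ℤ) (l' : Fin 2 → ℤ) c c') *
    (if c' = y.1 then h y.2 (ξ + zv (l' : Fin 2 → ℤ)) else 0)
  have h1 : ∀ l' : L, (∑ c', (∑ l : L, ∑ c,
      (if c = x.1 then h x.2 (ξ + zv (l : Fin 2 → ℤ)) else 0) *
      qk_B4 Q ξ (l : Fin 2 → ℤ) (l' : Fin 2 → ℤ) c c') *
      (if c' = y.1 then h y.2 (ξ + zv (l' : Fin 2 → ℤ)) else 0)) =
      ∑ l ∈ L, h x.2 (ξ + zv l) * qk_B4 Q ξ l (l' : Fin 2 → ℤ) x.1 y.1 *
        h y.2 (ξ + zv (l' : Fin 2 → ℤ)) := by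
    intro l'
    rw [Finset.sum_eq_single y.1, if_pos rfl, Finset.sum_mul,
      ← Finset.sum_coe_sort L (fun l => h x.2 (ξ + zv l) *
        qk_B4 Q ξ l (l' : Fin 2 → ℤ) x.1 y.1 * h y.2 (ξ + zv (l' : Fin 2 → ℤ)))]
    · apply Finset.sum_congr rfl
      intro l _
      rw [Finset.sum_eq_single x.1, if_pos rfl]
      · intro c _ hc
        rw [if_neg hc, zero_mul]
      · intro hx
        exact absurd (Finset.mem_univ _) hx
    · intro c _ hc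
      rw [if_neg hc, mul_zero]
    · intro hy
      exact absurd (Finset.mem_univ _) hy
  rw [Finset.sum_congr rfl (fun l' _ => h1 l'),
    Finset.sum_coe_sort L (fun l' : Fin 2 → ℤ => ∑ l ∈ L, h x.2 (ξ + zv l) *
        qk_B4 Q ξ l l' x.1 y.1 * h y.2 (ξ + zv l')), Finset.sum_comm]

private theorem HtH_apply_B4 (ξ : Fin 2 → ℝ) (L : Finset (Fin 2 → ℤ)) (x y : Fin s × Fin B) :
    ((HL_B4 s h ξ L)ᵀ * HL_B4 s h ξ L) x y =
      if x.1 = y.1 then ∑ l ∈ L, h x.2 (ξ + zv l) * h y.2 (ξ + zv l) else 0 := by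
  rw [Matrix.mul_apply, Fintype.sum_prod_type]
  change ∑ l : L, ∑ c, (if c = x.1 then h x.2 (ξ + zv (l : Fin 2 → ℤ)) else 0) *
    (if c = y.1 then h y.2 (ξ + zv (l : Fin 2 → ℤ)) else 0) = _
  by_cases hxy : x.1 = y.1
  · rw [if_pos hxy, ← Finset.sum_coe_sort L (fun l => h x.2 (ξ + zv l) * h y.2 (ξ + zv l))]
    apply Finset.sum_congr rfl
    intro l _
    rw [Finset.sum_eq_single x.1, if_pos rfl, if_pos hxy]
    · intro c _ hc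
      rw [if_neg hc, zero_mul]
    · intro hx
      exact absurd (Finset.mem_univ _) hx
  · rw [if_neg hxy]
    apply Finset.sum_eq_zero
    intro l _
    apply Finset.sum_eq_zero
    intro c _
    by_cases hc : c = x.1
    · rw [if_neg (fun h2 => hxy (hc.symm.trans h2)), mul_zero]
    · rw [if_neg hc, zero_mul]

private theorem GG_smooth_B4 (hQ : PK Q Λ R) (hsm : ∀ b, ContDiff ℝ ∞ (h b))
    (x y : Fin s × Fin B) : ContDiff ℝ ∞ (fun ξ => GG_B4 Q h ξ x y) := by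
  rw [contDiff_iff_contDiffAt]
  intro ξ₀
  set L := Lb_B4 (R + (‖ξ₀‖ + 1)) with hLdef
  have hev : (fun ξ => GG_B4 Q h ξ x y) =ᶠ[nhds ξ₀] fun ξ => ∑ l ∈ L, ∑ l' ∈ L,
      h x.2 (ξ + zv l) * qk_B4 Q ξ l l' x.1 y.1 * h y.2 (ξ + zv l') := by
    have h1 : ∀ᶠ ξ in nhds ξ₀, ξ ∈ Metric.ball ξ₀ 1 := Metric.ball_mem_nhds ξ₀ one_pos
    filter_upwards [h1] with ξ hξ
    apply GG_sum_B4 hQ
    intro l hl
    apply mem_Lb_of_B4 R (‖ξ₀‖ + 1) ξ l hl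
    rw [Metric.mem_ball, dist_eq_norm] at hξ
    calc ‖ξ‖ = ‖ξ₀ + (ξ - ξ₀)‖ := by rw [add_sub_cancel]
      _ ≤ ‖ξ₀‖ + ‖ξ - ξ₀‖ := norm_add_le _ _
      _ ≤ ‖ξ₀‖ + 1 := by linarith
  refine ContDiffAt.congr_of_eventuallyEq ?_ hev
  apply ContDiff.contDiffAt
  apply ContDiff.sum
  intro l _
  apply ContDiff.sum
  intro l' _
  have ht : ∀ m : Fin 2 → ℤ, ContDiff ℝ ∞ (fun ξ : Fin 2 → ℝ => ξ + zv m) :=
    fun m => contDiff_id.add contDiff_const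
  have h1 : ContDiff ℝ ∞ (fun ξ : Fin 2 → ℝ => h x.2 (ξ + zv l)) := (hsm x.2).comp (ht l)
  have h2 : ContDiff ℝ ∞ (fun ξ : Fin 2 → ℝ => h y.2 (ξ + zv l')) := (hsm y.2).comp (ht l')
  have h3 : ContDiff ℝ ∞ (fun ξ : Fin 2 → ℝ => qk_B4 Q ξ l l' x.1 y.1) :=
    (hQ.smooth (l' - l) x.1 y.1).comp (ht l)
  exact (h1.mul h3).mul h2

end

theorem m_B4 : StB4 := by
  intro s Q Λ R hQ B h hsm hbd hpar
  obtain ⟨R', hR'⟩ := hbd
  refine ⟨GG_B4 Q h, GG_smooth_B4 hQ hsm, ?_, ?_, ?_, ?_, ?_⟩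
  · -- periodic
    intro ξ k
    ext x y
    unfold GG_B4
    have h1 := finsum_comp_equiv (Equiv.addRight ((k, k) : (Fin 2 → ℤ) × (Fin 2 → ℤ)))
      (f := fun p : (Fin 2 → ℤ) × (Fin 2 → ℤ) =>
        h x.2 (ξ + zv p.1) * qk_B4 Q ξ p.1 p.2 x.1 y.1 * h y.2 (ξ + zv p.2))
    rw [← h1]
    apply finsum_congr
    intro p
    have e1 : ∀ m : Fin 2 → ℤ, ξ + zv k + zv m = ξ + zv (m + k) := by
      intro m
      rw [zv_add]
      abel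
    have e2 : qk_B4 Q (ξ + zv k) p.1 p.2 = qk_B4 Q ξ (p.1 + k) (p.2 + k) := by
      unfold qk_B4
      rw [e1, add_sub_add_right_eq_sub]
    rw [e1, e1, e2]
    rfl
  · -- symmetric
    intro ξ
    set L := Lb_B4 (R + ‖ξ‖) with hLdef
    rw [GG_eq_B4 hQ ξ L (fun l hl => mem_Lb_of_B4 R ‖ξ‖ ξ l hl le_rfl)]
    rw [Matrix.transpose_mul, Matrix.transpose_mul, Matrix.transpose_transpose, QL_symm_B4 hQ,
      Matrix.mul_assoc]
  · -- idempotent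
    intro ξ
    set L := Lb_B4 (R + ‖ξ‖) with hLdef
    have hL : ∀ l, ‖ξ + zv l‖ < R → l ∈ L := fun l hl => mem_Lb_of_B4 R ‖ξ‖ ξ l hl le_rfl
    rw [GG_eq_B4 hQ ξ L hL]
    calc (HL_B4 s h ξ L)ᵀ * QL_B4 Q ξ L * HL_B4 s h ξ L *
          ((HL_B4 s h ξ L)ᵀ * QL_B4 Q ξ L * HL_B4 s h ξ L)
        = (HL_B4 s h ξ L)ᵀ * (QL_B4 Q ξ L * (HL_B4 s h ξ L * (HL_B4 s h ξ L)ᵀ) * QL_B4 Q ξ L) *
          HL_B4 s h ξ L := by simp only [Matrix.mul_assoc]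
      _ = (HL_B4 s h ξ L)ᵀ * QL_B4 Q ξ L * HL_B4 s h ξ L := by
          rw [QHH_B4 hQ hpar, QL_idem_B4 hQ ξ L hL]
  · -- recovery
    intro η m a a'
    set L := Lb_B4 (R + ‖η‖) ∪ {0, m} with hLdef
    have hL : ∀ l, ‖η + zv l‖ < R → l ∈ L := fun l hl =>
      Finset.mem_union_left _ (mem_Lb_of_B4 R ‖η‖ η l hl le_rfl)
    have h0 : (0 : Fin 2 → ℤ) ∈ L := Finset.mem_union_right _ (by simp)
    have hm : m ∈ L := Finset.mem_union_right _ (by simp)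
    have key : HL_B4 s h η L * GG_B4 Q h η * (HL_B4 s h η L)ᵀ = QL_B4 Q η L := by
      rw [GG_eq_B4 hQ η L hL]
      calc HL_B4 s h η L * ((HL_B4 s h η L)ᵀ * QL_B4 Q η L * HL_B4 s h η L) * (HL_B4 s h η L)ᵀ
          = (HL_B4 s h η L * (HL_B4 s h η L)ᵀ * QL_B4 Q η L) *
            (HL_B4 s h η L * (HL_B4 s h η L)ᵀ) := by simp only [Matrix.mul_assoc]
        _ = QL_B4 Q η L := by rw [HHQ_B4 hQ hpar, QHH_B4 hQ hpar]
    have h1 := congrFun (congrFun key (⟨0, h0⟩, a)) (⟨m, hm⟩, a')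
    have h2 : QL_B4 Q η L (⟨0, h0⟩, a) (⟨m, hm⟩, a') = Q η m a a' := by
      change Q (η + zv (0 : Fin 2 → ℤ)) (m - 0) a a' = Q η m a a'
      rw [zv_zero, add_zero, sub_zero]
    rw [h2] at h1
    rw [← h1, Matrix.mul_apply, Fintype.sum_prod_type]
    simp only [Matrix.mul_apply, Fintype.sum_prod_type]
    change ∑ c', ∑ b', (∑ c, ∑ b, (if a = c then h b (η + zv (0 : Fin 2 → ℤ)) else 0) *
      GG_B4 Q h η (c, b) (c', b')) * (if a' = c' then h b' (η + zv m) else 0) = _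
    rw [Finset.sum_eq_single a']
    · rw [Finset.sum_comm]
      apply Finset.sum_congr rfl
      intro b' _
      rw [if_pos rfl, Finset.sum_eq_single a, Finset.sum_mul]
      · apply Finset.sum_congr rfl
        intro b _
        rw [if_pos rfl, zv_zero, add_zero]
      · intro c _ hc
        apply Finset.sum_eq_zero
        intro b _
        rw [if_neg (Ne.symm hc), zero_mul]
      · intro hx
        exact absurd (Finset.mem_univ _) hx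
    · intro c _ hc
      apply Finset.sum_eq_zero
      intro b _
      rw [if_neg (Ne.symm hc), mul_zero]
    · intro hx
      exact absurd (Finset.mem_univ _) hx
  · -- the Gram matrix
    intro ξ a b p
    set L := Lb_B4 (max R R' + ‖ξ‖) with hLdef
    have hLL : ∀ l, ‖ξ + zv l‖ < max R R' → l ∈ L := fun l hl =>
      mem_Lb_of_B4 (max R R') ‖ξ‖ ξ l hl le_rfl
    have hL : ∀ l, ‖ξ + zv l‖ < R → l ∈ L := fun l hl => hLL l (hl.trans_le (le_max_left _ _))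
    have hL' : ∀ l, ‖ξ + zv l‖ < R' → l ∈ L := fun l hl => hLL l (hl.trans_le (le_max_right _ _))
    have h1 : (HL_B4 s h ξ L)ᵀ * HL_B4 s h ξ L * GG_B4 Q h ξ = GG_B4 Q h ξ := by
      rw [GG_eq_B4 hQ ξ L hL]
      calc (HL_B4 s h ξ L)ᵀ * HL_B4 s h ξ L *
            ((HL_B4 s h ξ L)ᵀ * QL_B4 Q ξ L * HL_B4 s h ξ L)
          = (HL_B4 s h ξ L)ᵀ * (HL_B4 s h ξ L * (HL_B4 s h ξ L)ᵀ * QL_B4 Q ξ L) *
            HL_B4 s h ξ L := by simp only [Matrix.mul_assoc]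
        _ = _ := by rw [HHQ_B4 hQ hpar]
    have h2 := congrFun (congrFun h1 (a, b)) p
    rw [← h2, finsum_eq_sum_of_support_subset (s := L)]
    · rw [Matrix.mul_apply, Fintype.sum_prod_type, Finset.sum_eq_single a]
      · rw [Finset.sum_comm]
        apply Finset.sum_congr rfl
        intro b' _
        rw [HtH_apply_B4, if_pos rfl, Finset.sum_mul]
      · intro c _ hc
        apply Finset.sum_eq_zero
        intro b' _
        rw [HtH_apply_B4, if_neg (Ne.symm hc), zero_mul]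
      · intro hx
        exact absurd (Finset.mem_univ _) hx
    · intro l hl
      by_contra hlL
      apply hl
      change ∑ b', h b (ξ + zv l) * h b' (ξ + zv l) * _ = 0
      apply Finset.sum_eq_zero
      intro b' _
      have h3 : R' ≤ ‖ξ + zv l‖ := by
        by_contra h4
        push Not at h4
        exact hlL (hL' l h4)
      rw [hR' b _ h3, zero_mul, zero_mul]

end Pool.Agent.Helper56.EX
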