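import Pool.Agent.Helper56.EX.St2

/-!
# Project EX (MP_d629b1), module B5
-/

set_option autoImplicit false

open Matrix MeasureTheory
open scoped ContDiff ComplexConjugate FourierTransform SchwartzMap
open Pool.Agent.Helper54.Wav

noncomputable section

namespace Pool.Agent.Helper56.EX

/-- the doubled complex matrix of a real matrix -/
private def T_B5 {s B : ℕ} (Γ : (Fin 2 → ℝ) → Matrix (Fin s × Fin B) (Fin s × Fin B) ℝ)
    (ξ : Fin 2 → ℝ) : Matrix (Fin (s * B) × Fin 2) (Fin (s * B) × Fin 2) ℂ :=
  fun p p' => if p.2 = p'.2 then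
    (Γ ξ (finProdFinEquiv.symm p.1) (finProdFinEquiv.symm p'.1) : ℂ) else 0

private lemma sum_T_B5 {s B : ℕ} (Γ : (Fin 2 → ℝ) → Matrix (Fin s × Fin B) (Fin s × Fin B) ℝ)
    (ξ : Fin 2 → ℝ) (a : Fin s) (b : Fin B) (e : Fin 2) (v : Fin (s * B) × Fin 2 → ℂ) :
    ∑ p, T_B5 Γ ξ (finProdFinEquiv (a, b), e) p * v p =
      ∑ a', ∑ b', (Γ ξ (a, b) (a', b') : ℂ) * v (finProdFinEquiv (a', b'), e) := by
  rw [Fintype.sum_prod_type, ← Equiv.sum_comp finProdFinEquiv, Fintype.sum_prod_type]
  refine Finset.sum_congr rfl fun a' _ => Finset.sum_congr rfl fun b' _ => ?_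
  rw [Finset.sum_eq_single e]
  · simp [T_B5]
  · intro e' _ he'
    simp [T_B5, he'.symm]
  · intro h; exact absurd (Finset.mem_univ _) h

theorem m_B5 (h2 : StB2) (h3 : StB3) (h4 : StB4) : StB5 := by
  intro s Q Λ R hPK
  obtain ⟨B, h, hsm, ⟨R', hR'⟩, hPars⟩ := h3 R
  obtain ⟨Γ, Γsm, Γper, Γsym, Γid, Γrec, Γabs⟩ := h4 s Q Λ R hPK B h hsm ⟨R', hR'⟩ hPars
  have T1 : ∀ i j, ContDiff ℝ ∞ (fun ξ => T_B5 Γ ξ i j) := by
    intro i j
    by_cases hij : i.2 = j.2
    · simp only [T_B5, hij, if_true]
      exact Complex.ofRealCLM.contDiff.comp (Γsm _ _)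
    · simp only [T_B5, hij, if_false]
      exact contDiff_const
  have T2 : Per (T_B5 Γ) := by
    intro ξ m
    ext i j
    simp only [T_B5]
    rw [Γper ξ m]
  have T3 : ∀ ξ, (T_B5 Γ ξ)ᴴ = T_B5 Γ ξ := by
    intro ξ
    ext i j
    rw [Matrix.conjTranspose_apply]
    simp only [T_B5]
    have e1 : Γ ξ (finProdFinEquiv.symm j.1) (finProdFinEquiv.symm i.1) =
        Γ ξ (finProdFinEquiv.symm i.1) (finProdFinEquiv.symm j.1) := by
      conv_lhs => rw [← Γsym ξ]
      rfl
    rw [e1]
    by_cases hij : j.2 = i.2
    · rw [if_pos hij, if_pos hij.symm]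
      exact Complex.conj_ofReal _
    · rw [if_neg hij, if_neg (Ne.symm hij), star_zero]
  have T4 : ∀ ξ, T_B5 Γ ξ * T_B5 Γ ξ = T_B5 Γ ξ := by
    intro ξ
    ext ⟨i, e⟩ ⟨j, e'⟩
    obtain ⟨⟨a, b⟩, rfl⟩ := finProdFinEquiv.surjective i
    obtain ⟨⟨a', b'⟩, rfl⟩ := finProdFinEquiv.surjective j
    rw [Matrix.mul_apply, sum_T_B5 Γ ξ a b e (fun p => T_B5 Γ ξ p (finProdFinEquiv (a', b'), e'))]
    simp only [T_B5, Equiv.symm_apply_apply]
    by_cases hee : e = e'
    · simp only [hee, if_true]
      have e1 := congrFun (congrFun (Γid ξ) (a, b)) (a', b')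
      rw [Matrix.mul_apply, Fintype.sum_prod_type] at e1
      rw [← e1]
      push_cast
      rfl
    · simp [hee]
  have T5 : ∀ ξ v, T_B5 Γ ξ *ᵥ Jq v = Jq (T_B5 Γ ξ *ᵥ v) := by
    intro ξ v
    ext ⟨i, e⟩
    obtain ⟨⟨a, b⟩, rfl⟩ := finProdFinEquiv.surjective i
    have key : ∀ (w : Fin (s * B) × Fin 2 → ℂ) (e : Fin 2),
        (T_B5 Γ ξ *ᵥ w) (finProdFinEquiv (a, b), e) =
          ∑ a', ∑ b', (Γ ξ (a, b) (a', b') : ℂ) * w (finProdFinEquiv (a', b'), e) :=
      fun w e => sum_T_B5 Γ ξ a b e w
    rw [key]
    have he : e = 0 ∨ e = 1 := by fin_cases e <;> simp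
    rcases he with rfl | rfl
    · simp only [Jq, if_true]
      rw [key, map_sum, ← Finset.sum_neg_distrib]
      refine Finset.sum_congr rfl fun a' _ => ?_
      rw [map_sum, ← Finset.sum_neg_distrib]
      refine Finset.sum_congr rfl fun b' _ => ?_
      rw [map_mul, Complex.conj_ofReal]
      ring
    · have h10 : ¬ ((1 : Fin 2) = 0) := by decide
      simp only [Jq, h10, if_false]
      rw [key, map_sum]
      refine Finset.sum_congr rfl fun a' _ => ?_
      rw [map_sum]
      refine Finset.sum_congr rfl fun b' _ => ?_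
      rw [map_mul, Complex.conj_ofReal]
  obtain ⟨q, t, tsm, tper, ton, tT⟩ := h2 (s * B) (T_B5 Γ) T1 T2 T3 T4 T5
  -- the frame absorbs the matrix
  have tabs : ∀ ξ n p, ∑ p', T_B5 Γ ξ p p' * t n ξ p' = t n ξ p := by
    intro ξ n p
    calc ∑ p', T_B5 Γ ξ p p' * t n ξ p' = ∑ p', ∑ m, t m ξ p * (conj (t m ξ p') * t n ξ p') := by
          refine Finset.sum_congr rfl fun p' _ => ?_
          rw [tT, Finset.sum_mul]
          refine Finset.sum_congr rfl fun m _ => ?_
          ring
      _ = ∑ m, t m ξ p * ∑ p', conj (t m ξ p') * t n ξ p' := by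
          rw [Finset.sum_comm]
          refine Finset.sum_congr rfl fun m _ => ?_
          rw [Finset.mul_sum]
      _ = ∑ m, t m ξ p * (if m = n then 1 else 0) := by
          refine Finset.sum_congr rfl fun m _ => ?_
          rw [ton]
      _ = t n ξ p := by simp
  refine ⟨q, fun n η a e => ∑ b, (h b η : ℂ) * t n η (finProdFinEquiv (a, b), e), ?_, ?_, ?_, ?_⟩
  · intro n a e
    refine ContDiff.sum fun b _ => ?_
    exact (Complex.ofRealCLM.contDiff.comp (hsm b)).mul (tsm n _)
  · refine ⟨R', fun n η hη => ?_⟩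
    funext a e
    show ∑ b, (h b η : ℂ) * t n η (finProdFinEquiv (a, b), e) = 0
    refine Finset.sum_eq_zero fun b _ => ?_
    rw [hR' b η hη, Complex.ofReal_zero, zero_mul]
  · intro η n
    -- the finite set of shifts
    have hfin := finite_shift η R'
    set F := hfin.toFinset with hF
    have hz : ∀ l, l ∉ F → ∀ b, h b (η + zv l) = 0 := by
      intro l hl b
      refine hR' b _ ?_
      rw [hF, Set.Finite.mem_toFinset, Set.mem_setOf_eq] at hl
      exact (not_le.1 hl).le
    set G : Fin B → Fin B → ℝ := fun b b' => ∑ l ∈ F, h b (η + zv l) * h b' (η + zv l) with hG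
    have hGs : ∀ b b', G b b' = G b' b := by
      intro b b'
      simp only [hG]
      exact Finset.sum_congr rfl fun l _ => mul_comm _ _
    have hGΓ : ∀ a b p, ∑ b', G b b' * Γ η (a, b') p = Γ η (a, b) p := by
      intro a b p
      have e1 := Γabs η a b p
      rw [finsum_eq_sum_of_support_subset (s := F)] at e1
      · rw [← e1, Finset.sum_comm]
        refine Finset.sum_congr rfl fun b' _ => ?_
        simp only [hG, Finset.sum_mul]
      · intro l hl
        by_contra hl'
        refine hl ?_
        refine Finset.sum_eq_zero fun b' _ => ?_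
        rw [hz l (fun hh => hl' (Finset.mem_coe.2 hh)) b]
        ring
    have hGt : ∀ a b e, ∑ b', (G b b' : ℂ) * t n η (finProdFinEquiv (a, b'), e) =
        t n η (finProdFinEquiv (a, b), e) := by
      intro a b e
      have e1 : ∀ b', t n η (finProdFinEquiv (a, b'), e) =
          ∑ a'', ∑ b'', (Γ η (a, b') (a'', b'') : ℂ) * t n η (finProdFinEquiv (a'', b''), e) := by
        intro b'
        rw [← sum_T_B5, tabs]
      calc ∑ b', (G b b' : ℂ) * t n η (finProdFinEquiv (a, b'), e)
          = ∑ b', ∑ a'', ∑ b'', ((G b b' * Γ η (a, b') (a'', b'') : ℝ) : ℂ) *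
              t n η (finProdFinEquiv (a'', b''), e) := by
            refine Finset.sum_congr rfl fun b' _ => ?_
            rw [e1 b', Finset.mul_sum]
            refine Finset.sum_congr rfl fun a'' _ => ?_
            rw [Finset.mul_sum]
            refine Finset.sum_congr rfl fun b'' _ => ?_
            push_cast
            ring
        _ = ∑ a'', ∑ b'', ((∑ b', G b b' * Γ η (a, b') (a'', b'') : ℝ) : ℂ) *
              t n η (finProdFinEquiv (a'', b''), e) := by
            rw [Finset.sum_comm]
            refine Finset.sum_congr rfl fun a'' _ => ?_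
            rw [Finset.sum_comm]
            refine Finset.sum_congr rfl fun b'' _ => ?_
            rw [Complex.ofReal_sum, Finset.sum_mul]
        _ = t n η (finProdFinEquiv (a, b), e) := by
            rw [e1 b]
            refine Finset.sum_congr rfl fun a'' _ => Finset.sum_congr rfl fun b'' _ => ?_
            rw [hGΓ]
    rw [finsum_eq_sum_of_support_subset (s := F)]
    · calc ∑ l ∈ F, ∑ a, ∑ e, (∑ b, (h b (η + zv l) : ℂ) *
            t n (η + zv l) (finProdFinEquiv (a, b), e)) *
            conj (∑ b, (h b (η + zv l) : ℂ) * t n (η + zv l) (finProdFinEquiv (a, b), e))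
          = ∑ l ∈ F, ∑ a, ∑ e, ∑ b, ∑ b', ((h b (η + zv l) * h b' (η + zv l) : ℝ) : ℂ) *
              (t n η (finProdFinEquiv (a, b), e) * conj (t n η (finProdFinEquiv (a, b'), e))) := by
            refine Finset.sum_congr rfl fun l _ => Finset.sum_congr rfl fun a _ =>
              Finset.sum_congr rfl fun e _ => ?_
            rw [tper n η l, Finset.sum_mul]
            refine Finset.sum_congr rfl fun b _ => ?_
            rw [map_sum, Finset.mul_sum]
            refine Finset.sum_congr rfl fun b' _ => ?_
            rw [map_mul, Complex.conj_ofReal]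
            push_cast
            ring
        _ = ∑ a, ∑ e, ∑ b, ∑ b', (G b b' : ℂ) *
              (t n η (finProdFinEquiv (a, b), e) * conj (t n η (finProdFinEquiv (a, b'), e))) := by
            rw [Finset.sum_comm]
            refine Finset.sum_congr rfl fun a _ => ?_
            rw [Finset.sum_comm]
            refine Finset.sum_congr rfl fun e _ => ?_
            rw [Finset.sum_comm]
            refine Finset.sum_congr rfl fun b _ => ?_
            rw [Finset.sum_comm]
            refine Finset.sum_congr rfl fun b' _ => ?_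
            simp only [hG]
            rw [Complex.ofReal_sum, Finset.sum_mul]
        _ = ∑ a, ∑ e, ∑ b', t n η (finProdFinEquiv (a, b'), e) *
              conj (t n η (finProdFinEquiv (a, b'), e)) := by
            refine Finset.sum_congr rfl fun a _ => Finset.sum_congr rfl fun e _ => ?_
            rw [Finset.sum_comm]
            refine Finset.sum_congr rfl fun b' _ => ?_
            conv_rhs => rw [← hGt a b' e, Finset.sum_mul]
            refine Finset.sum_congr rfl fun b _ => ?_
            rw [hGs b b']
            have e2 := hGt a b' e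
            rw [e2]
            ring
        _ = ∑ p, conj (t n η p) * t n η p := by
            rw [Fintype.sum_prod_type, ← Equiv.sum_comp finProdFinEquiv, Fintype.sum_prod_type]
            refine Finset.sum_congr rfl fun a _ => ?_
            rw [Finset.sum_comm]
            refine Finset.sum_congr rfl fun b _ => Finset.sum_congr rfl fun e _ => ?_
            ring
        _ = 1 := by rw [ton]; simp
    · intro l hl
      by_contra hl'
      refine hl ?_
      refine Finset.sum_eq_zero fun a _ => Finset.sum_eq_zero fun e _ => ?_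
      have e1 : ∑ b, (h b (η + zv l) : ℂ) * t n (η + zv l) (finProdFinEquiv (a, b), e) = 0 := by
        refine Finset.sum_eq_zero fun b _ => ?_
        rw [hz l (fun hh => hl' (Finset.mem_coe.2 hh)) b, Complex.ofReal_zero, zero_mul]
      exact mul_eq_zero_of_left e1 _
  · intro η m a a' e e'
    calc ∑ n, (∑ b, (h b η : ℂ) * t n η (finProdFinEquiv (a, b), e)) *
          conj (∑ b, (h b (η + zv m) : ℂ) * t n (η + zv m) (finProdFinEquiv (a', b), e'))
        = ∑ n, ∑ b, ∑ b', ((h b η * h b' (η + zv m) : ℝ) : ℂ) *
            (t n η (finProdFinEquiv (a, b), e) * conj (t n η (finProdFinEquiv (a', b'), e'))) := by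
          refine Finset.sum_congr rfl fun n _ => ?_
          rw [tper n η m, Finset.sum_mul]
          refine Finset.sum_congr rfl fun b _ => ?_
          rw [map_sum, Finset.mul_sum]
          refine Finset.sum_congr rfl fun b' _ => ?_
          rw [map_mul, Complex.conj_ofReal]
          push_cast
          ring
      _ = ∑ b, ∑ b', ((h b η * h b' (η + zv m) : ℝ) : ℂ) *
            T_B5 Γ η (finProdFinEquiv (a, b), e) (finProdFinEquiv (a', b'), e') := by
          rw [Finset.sum_comm]
          refine Finset.sum_congr rfl fun b _ => ?_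
          rw [Finset.sum_comm]
          refine Finset.sum_congr rfl fun b' _ => ?_
          rw [tT, Finset.mul_sum]
      _ = if e = e' then (Q η m a a' : ℂ) else 0 := by
          by_cases hee : e = e'
          · rw [if_pos hee, Γrec η m a a']
            push_cast
            refine Finset.sum_congr rfl fun b _ => Finset.sum_congr rfl fun b' _ => ?_
            simp only [T_B5, Equiv.symm_apply_apply, hee, if_true]
            ring
          · rw [if_neg hee]
            refine Finset.sum_eq_zero fun b _ => Finset.sum_eq_zero fun b' _ => ?_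
            simp only [T_B5, hee, if_false, mul_zero]

end Pool.Agent.Helper56.EX
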