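import Pool.Agent.Helper56.EX.St

set_option autoImplicit false

open Matrix
open scoped ContDiff

noncomputable section

namespace Pool.Agent.Helper56.EX

private lemma blk2_BA {ℓ γ : Fin 3 → ℝ} {w : W3} (a0 a1 : Fin 3) (n0 n1 : Z3) (k0 k1 : Fin 4)
    (O : Matrix (Fin 2) (Fin 2) ℝ) (hne : (a0, n0) ≠ (a1, n1)) (orth : O * Oᵀ = 1)
    (out0 : ∀ (c : Fin 4) (b : Fin 3) (m : Z3), (a0, n0) ≠ (b, n0 + m) → (a1, n1) ≠ (b, n0 + m) →
      Kr ℓ γ c (w + uu ℓ n0) m a0 b = 0)
    (out1 : ∀ (c : Fin 4) (b : Fin 3) (m : Z3), (a0, n0) ≠ (b, n1 + m) → (a1, n1) ≠ (b, n1 + m) →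
      Kr ℓ γ c (w + uu ℓ n1) m a1 b = 0)
    (v00 : ∀ c, Kr ℓ γ c (w + uu ℓ n0) 0 a0 a0 =
      (if k0 = c then O 0 0 * O 0 0 else 0) + (if k1 = c then O 1 0 * O 1 0 else 0))
    (v01 : ∀ c, Kr ℓ γ c (w + uu ℓ n0) (n1 - n0) a0 a1 =
      (if k0 = c then O 0 0 * O 0 1 else 0) + (if k1 = c then O 1 0 * O 1 1 else 0))
    (v11 : ∀ c, Kr ℓ γ c (w + uu ℓ n1) 0 a1 a1 =
      (if k0 = c then O 0 1 * O 0 1 else 0) + (if k1 = c then O 1 1 * O 1 1 else 0)) :
    Blk ℓ γ w ![(a0, n0), (a1, n1)] ![k0, k1] O := by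
  refine ⟨?_, orth, ?_, ?_⟩
  · intro x y hxy
    fin_cases x <;> fin_cases y
    · rfl
    · exact absurd hxy hne
    · exact absurd hxy hne.symm
    · rfl
  · intro x c b m h
    have h0 := h 0
    have h1 := h 1
    fin_cases x
    · exact out0 c b m h0 h1
    · exact out1 c b m h0 h1
  · intro x y c
    rw [Fin.sum_univ_two]
    fin_cases x <;> fin_cases y
    · have := v00 c
      simpa using this
    · have := v01 c
      simpa using this
    · have := v01 c
      have e : Kr ℓ γ c (w + uu ℓ n1) (n0 - n1) a1 a0 =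
          Kr ℓ γ c (w + uu ℓ n0) (n1 - n0) a0 a1 := by
        have b1 : w + uu ℓ n1 + uu ℓ (n0 - n1) = w + uu ℓ n0 := by rw [uu_sub]; abel
        have b2 : -(n0 - n1) = n1 - n0 := neg_sub _ _
        rw [Kr_symm', b1, b2]
      simp only [Fin.mk_one, Fin.isValue, Matrix.cons_val_one, Matrix.cons_val_zero,
        Fin.zero_eta]
      rw [e, this]
      simp only [mul_comm]
    · have := v11 c
      simpa using this

theorem m_BA (hO : StOut') : StBA := by
  intro ℓ γ hP i w hw hwi hx1 hx2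
  have hl := abs_le.1 (hP.l i)
  have hwi' := abs_le.1 hwi
  have hs := Pl_cyc hw i
  have hlpos : 0 < ℓ i := by linarith [hl.1]
  -- the coordinates
  set x := XX ℓ i w with hx
  have hxe : w (i + 2) - w (i + 1) = 2 * ℓ i * x := by
    rw [hx, XX]; field_simp
  have hlx1 : 999 / 1000 * (3 / 20) ≤ ℓ i * x := by
    apply mul_le_mul (by linarith [hl.1]) hx1 (by norm_num) hlpos.le
  have hlx2 : ℓ i * x ≤ 1001 / 1000 * (1 / 3) := by
    apply mul_le_mul (by linarith [hl.2]) hx2 (by linarith) (by norm_num)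
  have h2 : 1 / 10 ≤ w (i + 2) := by linarith [hwi'.2, hwi'.1]
  have h1 : w (i + 1) ≤ -(1 / 10) := by linarith [hwi'.2, hwi'.1]
  have hRp : Rp i w := ⟨by linarith, by linarith⟩
  obtain ⟨p0, p1, p2⟩ := pp_Rp hRp
  -- the second point
  set w' := w + uu ℓ (Ee i) with hw'
  have e0 : w' i = w i := by rw [hw', Pi.add_apply, uu_self, add_zero]
  have e1 : w' (i + 1) = w (i + 1) - ℓ i := by rw [hw', Pi.add_apply, uu_one]; ring
  have e2 : w' (i + 2) = w (i + 2) + ℓ i := by rw [hw', Pi.add_apply, uu_two]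
  have hPl' : Pl w' := Pl_add hw (Pl_uu _ _)
  have hx' : XX ℓ i w' = x + 1 := by
    rw [XX, e1, e2, hx, XX]; field_simp; ring
  obtain ⟨hg, hE⟩ := hO ℓ γ hP w' hPl' ⟨i + 2, by
    rw [e2, abs_of_pos (by linarith)]; linarith [hl.1]⟩
  have hsq := Nn_sq_add (w i)
  -- the lines
  have line : ∀ j : Fin 3, |w j| < 1 / 50 → j = i := by
    intro j hj
    rw [abs_lt] at hj
    rcases cyc_cases i j with h | h | h
    · exact h
    · rw [h] at hj; linarith [hj.1]
    · rw [h] at hj; linarith [hj.2]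
  have line' : ∀ j : Fin 3, |w' j| < 1 / 50 → j = i := by
    intro j hj
    rw [abs_lt] at hj
    rcases cyc_cases i j with h | h | h
    · exact h
    · rw [h, e1] at hj; linarith [hj.1]
    · rw [h, e2] at hj; linarith [hj.2]
  have n1 : (i + 1).succ ≠ i.succ := fun h => ne1 i (Fin.succ_injective _ h)
  have n2 : (i + 2).succ ≠ i.succ := fun h => ne2 i (Fin.succ_injective _ h)
  have n3 : (i + 1).succ ≠ (i + 2).succ := fun h => ne12 i (Fin.succ_injective _ h)
  apply blk2_BA
  · intro h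
    exact (by decide : (2 : Fin 3) ≠ 0) (congrArg Prod.fst h)
  · ext a b
    fin_cases a <;> fin_cases b <;> simp [Matrix.mul_apply, Fin.sum_univ_two] <;>
      nlinarith [hsq]
  · -- out of t@w
    intro c b m h3 h4
    rw [uu_zero, add_zero]
    rw [zero_add] at h3 h4
    by_contra hne
    have hL := link_of_ne hne
    rcases hL with ⟨hb, hm⟩ | ⟨ha, -⟩ | ⟨j, hj⟩
    · exact h3 (by rw [← hb, hm])
    · exact absurd ha (by decide)
    · rcases hj with ⟨-, hsi, hj⟩ | ⟨ha, -⟩ | ⟨ha, -⟩ | ⟨ha, -⟩ | ⟨ha, -⟩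
      · have hji := line j (si_ne hsi).1
        subst hji
        rcases hj with ⟨hb, hm, -⟩ | ⟨-, -, hX⟩ | ⟨-, -, hX, -⟩ | ⟨-, -, hX, -⟩
        · exact h4 (by rw [hb, hm])
        · linarith
        · linarith
        · linarith
      all_goals exact absurd ha (by decide)
  · -- out of e@w'
    intro c b m h3 h4
    rw [← hw']
    by_contra hne
    have hL := link_of_ne hne
    rcases hL with ⟨hb, hm⟩ | ⟨-, -, hgg, -⟩ | ⟨j, hj⟩
    · exact h4 (by rw [← hb, hm, add_zero])
    · exact hgg hg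
    · have coord : ∀ n : Z3, (n = Ee j ∨ n = -Ee j) → (w' + uu ℓ n) j = w' j := by
        rintro n (rfl | rfl)
        · rw [Pi.add_apply, uu_self, add_zero]
        · rw [uu_neg, Pi.add_apply, Pi.neg_apply, uu_self, neg_zero, add_zero]
      rcases hj with ⟨ha, -⟩ | ⟨ha, -⟩ | ⟨ha, -⟩ | ⟨-, hb, hj⟩ | ⟨-, hb, hj⟩
      · exact absurd ha (by decide)
      · exact absurd ha (by decide)
      · exact absurd ha (by decide)
      · rcases hj with ⟨hm, hsi, -⟩ | ⟨hm, hsi, hX⟩
        · have hji := line' j (by rw [← coord m (Or.inr hm)]; exact (si_ne hsi).1)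
          subst hji
          exact h3 (by rw [hb, hm, add_neg_cancel])
        · have hji := line' j (si_ne hsi).1
          subst hji
          linarith
      · rcases hj with ⟨hm, hsi, -⟩ | ⟨hm, hsi, -⟩
        · have hji := line' j (by
            have := (si_ne hsi).1
            rw [Pi.neg_apply, abs_neg, coord m (Or.inl hm)] at this
            exact this)
          subst hji
          have h5 := (si_ne hsi).2.1
          rw [Pi.neg_apply, hm, Pi.add_apply, uu_one, e1] at h5
          linarith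
        · have hji := line' j (by
            have := (si_ne hsi).1
            rw [Pi.neg_apply, abs_neg] at this
            exact this)
          subst hji
          have h5 := (si_ne hsi).2.1
          rw [Pi.neg_apply, e1] at h5
          linarith
  · -- value 00
    intro c
    rw [uu_zero, add_zero, v_tt]
    refine Fin.cases ?_ (fun k => ?_) c
    · simp [Dg, Fin.succ_ne_zero]
    · rcases cyc_cases i k with h | h | h
      · rw [h, if_neg n1, if_neg n2]
        simp [Dg, p0]
      · rw [h, if_pos rfl, if_neg n3.symm]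
        simp [Dg, p1, sq]
      · rw [h, if_neg n3, if_pos rfl]
        simp [Dg, p2, sq]
  · -- value 01
    intro c
    rw [uu_zero, add_zero, sub_zero, v_tA, si_Rp hRp, ← hx, fA_low hx2]
    refine Fin.cases ?_ (fun k => ?_) c
    · simp [sg, Fin.succ_ne_zero, (Fin.succ_ne_zero _).symm]
    · unfold sg
      rcases cyc_cases i k with h | h | h
      · rw [h, if_neg n1, if_neg n2, if_neg n1.symm, if_neg n2.symm]
        simp
      · rw [h, if_pos rfl, if_neg n3.symm, if_pos rfl]
        simp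
      · rw [h, if_neg n3, if_pos rfl, if_neg n3.symm, if_pos rfl]
        simp; ring
  · -- value 11
    intro c
    rw [← hw', v_ee]
    have q1 : Nn (w' (i + 1)) = 1 := Nn_low (by rw [e1]; linarith)
    have q1' : Pp (w' (i + 1)) = 0 := Pp_low (by rw [e1]; linarith)
    have q2 : Nn (w' (i + 2)) = 0 := Nn_high (by rw [e2]; linarith)
    have q2' : Pp (w' (i + 2)) = 1 := Pp_high (by rw [e2]; linarith)
    have A0 : AA i w' = 0 := by
      unfold AA; rw [q1', q2]; ring
    have A1 : AA (i + 1) w' = Pp (w i) := by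
      unfold AA; rw [c11, c12, q1, q1', q2, q2', e0]; ring
    have A2 : AA (i + 2) w' = Nn (w i) := by
      unfold AA; rw [c21, c22, q1, q1', q2, q2', e0]; ring
    refine Fin.cases ?_ (fun k => ?_) c
    · simp [Dg, Fin.succ_ne_zero, hg]
    · rcases cyc_cases i k with h | h | h
      · rw [h, if_neg n1, if_neg n2]
        simp [Dg, hE, A0]
      · rw [h, if_pos rfl, if_neg n3.symm]
        simp [Dg, hE, A1, sq]
      · rw [h, if_neg n3, if_pos rfl]
        simp [Dg, hE, A2, sq]

end Pool.Agent.Helper56.EX
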