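import Pool.Agent.Helper56.EX.St

set_option autoImplicit false

open Matrix
open scoped ContDiff

noncomputable section

namespace Pool.Agent.Helper56.EX

private lemma u2_BC (ℓ : Fin 3 → ℝ) (i : Fin 3) :
    uu ℓ (-(Ee i + Ee i)) i = 0 ∧ uu ℓ (-(Ee i + Ee i)) (i + 1) = 2 * ℓ i ∧
    uu ℓ (-(Ee i + Ee i)) (i + 2) = -(2 * ℓ i) := by
  rw [uu_neg, uu_add]
  simp only [Pi.neg_apply, Pi.add_apply, uu_self, uu_one, uu_two]
  refine ⟨by ring, by ring, by ring⟩

theorem m_BC : StBC := by
  intro ℓ γ hp i w hw hwi hx1 hx2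
  have hl1 : 999 / 1000 ≤ ℓ i := by have := abs_le.mp (hp.l i); linarith
  have hl2 : ℓ i ≤ 1001 / 1000 := by have := abs_le.mp (hp.l i); linarith
  have hlpos : 0 < 2 * ℓ i := by linarith
  have hs := Pl_cyc hw i
  have hwi' := abs_le.mp hwi
  set x := XX ℓ i w with hxdef
  have hxe : w (i + 2) - w (i + 1) = x * (2 * ℓ i) := by
    rw [hxdef]; unfold XX
    field_simp
  have hxl1 : 2 / 3 * (999 / 1000) ≤ x * ℓ i := by
    apply mul_le_mul hx1 hl1 (by norm_num) (by linarith)
  have hxl2 : x * ℓ i ≤ 4 / 3 * (1001 / 1000) := by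
    apply mul_le_mul hx2 hl2 (by linarith) (by norm_num)
  have hw2 : w (i + 2) = x * ℓ i - w i / 2 := by linarith
  have hw1 : w (i + 1) = -(x * ℓ i) - w i / 2 := by linarith
  have hRp : Rp i w := ⟨by linarith, by linarith⟩
  obtain ⟨hp0, hp1, hp2⟩ := pp_Rp hRp
  have hsi := si_Rp hRp
  have e0 : w + uu ℓ 0 = w := by rw [uu_zero, add_zero]
  -- the second point
  obtain ⟨hu0, hu1, hu2⟩ := u2_BC ℓ i
  set v := w + uu ℓ (-(Ee i + Ee i)) with hvdef
  have hv0 : v i = w i := by rw [hvdef, Pi.add_apply, hu0, add_zero]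
  have hv1 : v (i + 1) = w (i + 1) + 2 * ℓ i := by rw [hvdef, Pi.add_apply, hu1]
  have hv2 : v (i + 2) = w (i + 2) - 2 * ℓ i := by rw [hvdef, Pi.add_apply, hu2]; ring
  have hxv : XX ℓ i (-v) = 2 - x := by
    unfold XX
    simp only [Pi.neg_apply]
    rw [hv1, hv2, hw1, hw2]
    field_simp
    ring
  have h2l : 2 / 3 * (999 / 1000) ≤ (2 - x) * ℓ i := by
    apply mul_le_mul (by linarith) hl1 (by norm_num) (by linarith)
  have hRv : Rp i (-v) := by
    refine ⟨?_, ?_⟩
    · rw [Pi.neg_apply, hv1]; linarith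
    · rw [Pi.neg_apply, hv2]; linarith
  obtain ⟨hq0, hq1, hq2⟩ := pp_Rp hRv
  rw [Pi.neg_apply, hv0, Nn_neg] at hq1
  rw [Pi.neg_apply, hv0, Pp_neg] at hq2
  have hsq := Nn_sq_add (w i)
  have hi : ∀ i', |w i'| < 1 / 50 → i' = i := by
    intro i' h
    have h' := abs_lt.mp h
    rcases cyc_cases i i' with h0 | h0 | h0
    · exact h0
    · exfalso; rw [h0] at h'; linarith [h'.1, h'.2]
    · exfalso; rw [h0] at h'; linarith [h'.1, h'.2]
  have hiv : ∀ i', |v i'| < 1 / 50 → i' = i := by
    intro i' h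
    have h' := abs_lt.mp h
    rcases cyc_cases i i' with h0 | h0 | h0
    · exact h0
    · exfalso; rw [h0, hv1] at h'; linarith [h'.1, h'.2]
    · exfalso; rw [h0, hv2] at h'; linarith [h'.1, h'.2]
  have hcol : ∀ (c : Fin 4) (y : W3) (A B : ℝ), pp i y = 0 → pp (i + 1) y = A →
      pp (i + 2) y = B → (Fin.cases 0 (fun k => pp k y ^ 2) c : ℝ) =
        (if (i + 1).succ = c then A * A else 0) + (if (i + 2).succ = c then B * B else 0) := by
    intro c y A B h0 h1 h2
    refine Fin.cases ?_ (fun k => ?_) c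
    · simp
    · simp only [Fin.cases_succ, Fin.succ_inj]
      rcases cyc_cases i k with hk | hk | hk
      · subst hk
        rw [h0, if_neg (ne1 k), if_neg (ne2 k)]; ring
      · subst hk
        rw [h1, if_pos rfl, if_neg (ne12 i).symm]; ring
      · subst hk
        rw [h2, if_pos rfl, if_neg (ne12 i)]; ring
  have hD2 : ∀ c, Dg ℓ c w 2 =
      (if (i + 1).succ = c then Nn (w i) * Nn (w i) else 0) +
      (if (i + 2).succ = c then Pp (w i) * Pp (w i) else 0) := by
    intro c
    rw [← hcol c w _ _ hp0 hp1 hp2]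
    unfold Dg
    refine Fin.cases ?_ (fun k => ?_) c
    · simp
    · simp
  have hD1 : ∀ c, Dg ℓ c v 1 =
      (if (i + 1).succ = c then Pp (w i) * Pp (w i) else 0) +
      (if (i + 2).succ = c then Nn (w i) * Nn (w i) else 0) := by
    intro c
    rw [← hcol c (-v) _ _ hq0 hq1 hq2]
    unfold Dg
    refine Fin.cases ?_ (fun k => ?_) c
    · simp
    · simp
  have hC : ∀ c, Kr ℓ γ c w (-(Ee i + Ee i)) 2 1 =
      (if (i + 1).succ = c then Nn (w i) * Pp (w i) else 0) +
      (if (i + 2).succ = c then Pp (w i) * (-Nn (w i)) else 0) := by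
    intro c
    rw [v_tC, ← hxdef, fC_mid hx1 hx2, hsi]
    unfold sg
    by_cases h1 : c = (i + 1).succ
    · subst h1
      rw [if_pos rfl, if_pos rfl, if_neg]
      · ring
      · rw [Fin.succ_inj]; exact (ne12 i).symm
    · rw [if_neg h1, if_neg (Ne.symm h1)]
      by_cases h2 : c = (i + 2).succ
      · subst h2
        rw [if_pos rfl, if_pos rfl]; ring
      · rw [if_neg h2, if_neg (Ne.symm h2)]; ring
  refine ⟨?_, ?_, ?_, ?_⟩
  · intro a b hab
    fin_cases a <;> fin_cases b <;> simp at hab ⊢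
  · ext a b
    fin_cases a <;> fin_cases b <;>
      simp [Matrix.mul_apply, Fin.sum_univ_two] <;> nlinarith [hsq]
  · intro a c b m hj
    by_contra hne
    have hL := link_of_ne hne
    have hj0 := hj 0
    have hj1 := hj 1
    fin_cases a
    · simp only [Fin.zero_eta, Fin.isValue, Matrix.cons_val_zero, Matrix.cons_val_one, zero_add, e0] at hL hj0 hj1
      unfold Link at hL
      rcases hL with ⟨h1, h2⟩ | ⟨h1, _⟩ | ⟨i', h⟩
      · exact hj0 (by rw [← h1, h2])
      · exact absurd h1 (by decide)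
      · rcases h with ⟨_, hsi', h⟩ | ⟨h1, _⟩ | ⟨h1, _⟩ | ⟨h1, _⟩ | ⟨h1, _⟩
        · have hii := hi i' (si_ne hsi').1
          subst hii
          rw [← hxdef] at h
          rcases h with ⟨_, _, h⟩ | ⟨_, _, h⟩ | ⟨_, _, _, h⟩ | ⟨h1, h2, _⟩
          · linarith
          · linarith
          · linarith
          · exact hj1 (by rw [h1, h2])
        · exact absurd h1 (by decide)
        · exact absurd h1 (by decide)
        · exact absurd h1 (by decide)
        · exact absurd h1 (by decide)
    · simp only [Fin.mk_one, Fin.isValue, Matrix.cons_val_zero, Matrix.cons_val_one] at hL hj0 hj1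
      rw [← hvdef] at hL
      unfold Link at hL
      rcases hL with ⟨h1, h2⟩ | ⟨h1, _⟩ | ⟨i', h⟩
      · exact hj1 (by rw [← h1, h2, add_zero])
      · exact absurd h1 (by decide)
      · rcases h with ⟨h1, _⟩ | ⟨_, hsi', h⟩ | ⟨_, hb, hsi', h⟩ | ⟨h1, _⟩ | ⟨h1, _⟩
        · exact absurd h1 (by decide)
        · have h0 := (si_ne hsi').1
          rw [Pi.neg_apply, abs_neg] at h0
          have hii := hiv i' h0
          subst hii
          rw [hxv] at h
          rcases h with ⟨_, _, h⟩ | ⟨_, _, h⟩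
          · linarith
          · linarith
        · have h0 := (si_ne hsi').1
          rcases h with ⟨hm, h3, _⟩ | ⟨hm, _⟩
          · rw [hm, Pi.add_apply, uu_self, add_zero] at h0
            have hii := hiv i' h0
            subst hii
            rw [hm] at h3
            have : XX ℓ i' (v + uu ℓ (Ee i')) = x - 1 := by
              unfold XX
              rw [Pi.add_apply, Pi.add_apply, uu_one, uu_two, hv1, hv2, hw1, hw2]
              field_simp
              ring
            rw [this] at h3
            linarith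
          · rw [hm, Pi.add_apply, uu_add, Pi.add_apply, uu_self, add_zero, add_zero] at h0
            have hii := hiv i' h0
            subst hii
            exact hj0 (by rw [hb, hm, neg_add_cancel])
        · exact absurd h1 (by decide)
        · exact absurd h1 (by decide)
  · intro a b c
    fin_cases a <;> fin_cases b
    · simp only [Fin.zero_eta, Fin.isValue, Matrix.cons_val_zero, Matrix.cons_val_one, sub_zero, e0,
        Fin.sum_univ_two, Matrix.of_apply, Matrix.cons_val']
      rw [v_tt, hD2]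
    · simp only [Fin.zero_eta, Fin.mk_one, Fin.isValue, Matrix.cons_val_zero, Matrix.cons_val_one, sub_zero, e0,
        Fin.sum_univ_two, Matrix.of_apply, Matrix.cons_val']
      rw [hC]
    · simp only [Fin.zero_eta, Fin.mk_one, Fin.isValue, Matrix.cons_val_zero, Matrix.cons_val_one,
        Fin.sum_univ_two, Matrix.of_apply, Matrix.cons_val']
      rw [zero_sub, ← Kr_symm' c w (-(Ee i + Ee i)) 2 1, hC]
      congr 1
      · split_ifs <;> ring
      · split_ifs <;> ring
    · simp only [Fin.zero_eta, Fin.mk_one, Fin.isValue, Matrix.cons_val_zero, Matrix.cons_val_one,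
        Fin.sum_univ_two, Matrix.of_apply, Matrix.cons_val']
      rw [sub_self, ← hvdef, v_ss, hD1]
      congr 1
      split_ifs <;> ring

end Pool.Agent.Helper56.EX
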