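import Pool.Agent.Helper56.EX.St

set_option autoImplicit false

open Matrix
open scoped ContDiff

noncomputable section

namespace Pool.Agent.Helper56.EX

theorem m_BD (hO : StOut') : StBD := by
  intro ℓ γ hPar i w hw hwi hx
  have hl := hPar.l i
  have hg := hPar.g i
  rw [abs_le] at hl hwi
  have hs := Pl_cyc hw i
  have hl0 : 0 < ℓ i := by linarith [hl.1]
  have hxe : w (i + 2) - w (i + 1) = 2 * ℓ i * XX ℓ i w := by
    unfold XX
    field_simp
  have hbig : 2999 / 1000 - 3 / 1000 ≤ w (i + 2) - w (i + 1) := by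
    rw [hxe]
    nlinarith [hl.1]
  have h2 : 5 / 4 ≤ w (i + 2) := by linarith [hwi.1, hwi.2]
  have h1 : w (i + 1) ≤ -(5 / 4) := by linarith [hwi.1, hwi.2]
  have hRp : Rp i w := ⟨by linarith, by linarith⟩
  have hout := hO ℓ γ hPar w hw ⟨i + 2, by rw [abs_of_nonneg (by linarith)]; linarith⟩
  have hgg : gg ℓ w = 0 := hout.1
  have hA0 : AA i w = 0 := by
    unfold AA
    rw [Nn_high (w := w (i + 2)) (by linarith), Pp_low (w := w (i + 1)) (by linarith)]
    ring
  have hA1 : AA (i + 1) w = Pp (w i) := by
    unfold AA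
    rw [c11, c12, Pp_low (w := w (i + 1)) (by linarith), Nn_low (w := w (i + 1)) (by linarith),
      Pp_high (w := w (i + 2)) (by linarith)]
    ring
  have hA2 : AA (i + 2) w = Nn (w i) := by
    unfold AA
    rw [c21, c22, Nn_low (w := w (i + 1)) (by linarith),
      Pp_high (w := w (i + 2)) (by linarith), Nn_high (w := w (i + 2)) (by linarith)]
    ring
  obtain ⟨hp0, hp1, hp2⟩ := pp_Rp hRp
  have hNP := Nn_sq_add (w i)
  have hg2 : γ i ^ 2 = 1 := by rcases hg with h | h <;> rw [h] <;> norm_num
  -- other lines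
  have hoth : ∀ j, |w j| < 1 / 50 → j = i := by
    intro j hj
    rcases cyc_cases i j with rfl | rfl | rfl
    · rfl
    · rw [abs_lt] at hj; exfalso; linarith [hj.1]
    · rw [abs_lt] at hj; exfalso; linarith [hj.2]
  have hD : ∀ c : Fin 4, Kr ℓ γ c w 0 2 0 = sg c i * (Nn (w i) * Pp (w i) * γ i) := by
    intro c
    rw [v_tD]
    rw [Finset.sum_eq_single i]
    · rw [si_Rp hRp, fD_high hx]
    · intro j _ hj
      have : si j w = 0 := by
        by_contra hc
        exact hj (hoth j (si_ne hc).1)
      rw [this]; ring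
    · intro h; exact absurd (Finset.mem_univ _) h
  have hD' : ∀ c : Fin 4, Kr ℓ γ c w 0 0 2 = sg c i * (Nn (w i) * Pp (w i) * γ i) := by
    intro c
    rw [Kr_symm', uu_zero, add_zero, neg_zero, hD]
  have hXm : XX ℓ i (w + uu ℓ (-Ee i)) = XX ℓ i w - 1 := by
    unfold XX
    rw [uu_neg]
    simp only [Pi.add_apply, Pi.neg_apply, uu_one, uu_two]
    field_simp
    ring
  refine ⟨?_, ?_, ?_, ?_⟩
  · intro a b hab
    fin_cases a <;> fin_cases b <;> simp at hab ⊢
  · ext a b
    fin_cases a <;> fin_cases b <;>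
      simp [Matrix.mul_apply, Fin.sum_univ_two]
    · linear_combination hNP + Pp (w i) ^ 2 * hg2
    · linear_combination (-(Nn (w i) * Pp (w i))) * hg2
    · linear_combination (-(Nn (w i) * Pp (w i))) * hg2
    · linear_combination hNP + Nn (w i) ^ 2 * hg2
  · intro a c b m hm
    by_contra hne
    have hL := link_of_ne hne
    fin_cases a
    · -- t @ w
      have m0 := hm 0
      have m1 := hm 1
      simp only [Fin.zero_eta, Fin.isValue, Matrix.cons_val_zero, Matrix.cons_val_one, zero_add, ne_eq,
        Prod.mk.injEq, uu_zero, add_zero] at m0 m1 hL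
      unfold Link at hL
      rcases hL with ⟨h, h'⟩ | ⟨h, -⟩ | ⟨j, ⟨-, hsi, hh⟩ | ⟨h, -⟩ | ⟨h, -⟩ | ⟨h, -⟩ | ⟨h, -⟩⟩
      · exact m0 ⟨h, h'.symm⟩
      · exact absurd h (by decide)
      · have hj := hoth j (si_ne hsi).1
        subst hj
        rcases hh with ⟨_, _, h⟩ | ⟨h, h', _⟩ | ⟨_, _, _, h⟩ | ⟨_, _, _, h⟩
        · linarith
        · exact m1 ⟨h.symm, h'.symm⟩
        · linarith
        · linarith
      · exact absurd h (by decide)
      · exact absurd h (by decide)
      · exact absurd h (by decide)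
      · exact absurd h (by decide)
    · have m0 := hm 0
      have m1 := hm 1
      simp only [Fin.mk_one, Fin.isValue, Matrix.cons_val_zero, Matrix.cons_val_one, zero_add, ne_eq,
        Prod.mk.injEq, uu_zero, add_zero] at m0 m1 hL
      unfold Link at hL
      rcases hL with ⟨h, h'⟩ | ⟨-, -, h, -⟩ | ⟨j, ⟨h, -⟩ | ⟨h, -⟩ | ⟨h, -⟩ | ⟨-, hb, hh⟩ | ⟨-, hb, hh⟩⟩
      · exact m1 ⟨h, h'.symm⟩
      · exact h hgg
      · exact absurd h (by decide)
      · exact absurd h (by decide)
      · exact absurd h (by decide)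
      · rcases hh with ⟨hmj, hsi, hX⟩ | ⟨hm0, _⟩
        · subst hmj
          have h3 := (si_ne hsi).1
          rw [uu_neg] at h3
          simp only [Pi.add_apply, Pi.neg_apply, uu_self, neg_zero, add_zero] at h3
          have hj := hoth j h3
          subst hj
          rw [hXm] at hX
          linarith
        · exact m0 ⟨hb.symm, hm0.symm⟩
      · rcases hh with ⟨hmj, hsi, _⟩ | ⟨hm0, hsi, _⟩
        · subst hmj
          have h3 := (si_ne hsi).1
          simp only [Pi.add_apply, Pi.neg_apply, uu_self, add_zero, abs_neg] at h3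
          have hj := hoth j h3
          subst hj
          have h4 := (si_ne hsi).2.1
          simp only [Pi.add_apply, Pi.neg_apply, uu_one] at h4
          linarith
        · have h3 := (si_ne hsi).1
          simp only [Pi.neg_apply, abs_neg] at h3
          have hj := hoth j h3
          subst hj
          have h4 := (si_ne hsi).2.1
          simp only [Pi.neg_apply] at h4
          linarith
  · intro a b c
    have e1 : (i + 1).succ ≠ (i + 2).succ := fun h => ne12 i (Fin.succ_injective _ h)
    have e2 : (i + 2).succ ≠ (i + 1).succ := fun h => ne12 i (Fin.succ_injective _ h).symm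
    have e3 : (i + 1).succ ≠ i.succ := fun h => ne1 i (Fin.succ_injective _ h)
    have e4 : (i + 2).succ ≠ i.succ := fun h => ne2 i (Fin.succ_injective _ h)
    have key : c = 0 ∨ c = i.succ ∨ c = (i + 1).succ ∨ c = (i + 2).succ := by
      refine Fin.cases (Or.inl rfl) (fun k => ?_) c
      rcases cyc_cases i k with rfl | rfl | rfl <;> simp
    fin_cases a <;> fin_cases b <;>
      simp only [Fin.zero_eta, Fin.mk_one, Fin.isValue, Matrix.cons_val_zero, Matrix.cons_val_one, sub_self,
        uu_zero, add_zero, Fin.sum_univ_two, Matrix.of_apply, Matrix.cons_val', Matrix.cons_val_fin_one]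
    · rw [v_tt]
      rcases key with rfl | rfl | rfl | rfl
      · simp [Dg]
      · simp [Dg, e3, e4, hp0]
      · simp [Dg, e2, hp1]; ring
      · simp [Dg, e1, hp2]; ring
    · rw [hD]
      rcases key with rfl | rfl | rfl | rfl
      · simp [sg, (Fin.succ_ne_zero _).symm]
      · simp [sg, e3, e4, e3.symm, e4.symm]
      · simp [sg, e2]; ring
      · simp [sg, e2]; ring
    · rw [hD']
      rcases key with rfl | rfl | rfl | rfl
      · simp [sg, (Fin.succ_ne_zero _).symm]
      · simp [sg, e3, e4, e3.symm, e4.symm]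
      · simp [sg, e1, e2]; ring
      · simp [sg, e1, e2]; ring
    · rw [v_ee]
      rcases key with rfl | rfl | rfl | rfl
      · simp [Dg, hgg]
      · simp [Dg, e3, e4, hout.2, hA0]
      · simp [Dg, e2, hout.2, hA1]; linear_combination (-(Pp (w i)) ^ 2) * hg2
      · simp [Dg, e1, hout.2, hA2]; linear_combination (-(Nn (w i)) ^ 2) * hg2

end Pool.Agent.Helper56.EX
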