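import Pool.Agent.Helper56.EX.St

/-!
# Project EX, module BQ
-/

set_option autoImplicit false

open Matrix
open scoped ContDiff

noncomputable section

namespace Pool.Agent.Helper56.EX

/-- Basic data of the module. -/
private structure Dat_BQ (ℓ γ : Fin 3 → ℝ) (i : Fin 3) (w : W3) : Prop where
  par : Par ℓ γ
  pl : Pl w
  lo : -(1 / 50) ≤ w i
  hi : w i ≤ 1 / 50
  l1 : 999 / 1000 ≤ ℓ i
  l2 : ℓ i ≤ 1001 / 1000
  a1 : w (i + 1) ≤ -(1 / 5)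
  a2 : 1 / 5 ≤ w (i + 2)
  x1 : 1 / 3 ≤ XX ℓ i w
  x2 : XX ℓ i w ≤ 1 / 2

private lemma XX_add_BQ {ℓ : Fin 3 → ℝ} {i : Fin 3} (w : W3) (hl : 0 < ℓ i) :
    XX ℓ i (w + uu ℓ (Ee i)) = XX ℓ i w + 1 := by
  unfold XX
  simp only [Pi.add_apply, uu_one, uu_two]
  field_simp
  ring

private lemma dat_BQ {ℓ γ : Fin 3 → ℝ} (hp : Par ℓ γ) {i : Fin 3} {w : W3} (hw : Pl w)
    (h : |w i| ≤ 1 / 50) (x1 : 1 / 3 ≤ XX ℓ i w) (x2 : XX ℓ i w ≤ 1 / 2) :
    Dat_BQ ℓ γ i w ∧ w (i + 2) - w (i + 1) ≤ ℓ i ∧ w i + w (i + 1) + w (i + 2) = 0 := by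
  have hl := abs_le.mp (hp.l i)
  have h' := abs_le.mp h
  have hs := Pl_cyc hw i
  have hl0 : 0 < ℓ i := by linarith [hl.1]
  have y1 := x1
  have y2 := x2
  unfold XX at y1 y2
  rw [le_div_iff₀ (by linarith)] at y1
  rw [div_le_iff₀ (by linarith)] at y2
  refine ⟨⟨hp, hw, h'.1, h'.2, by linarith, by linarith, ?_, ?_, x1, x2⟩, by linarith, hs⟩
  · linarith
  · linarith

private lemma si_other_BQ {i : Fin 3} {v : W3} (h1 : 1 / 5 ≤ |v (i + 1)|)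
    (h2 : 1 / 5 ≤ |v (i + 2)|) {j : Fin 3} (h : si j v ≠ 0) : j = i := by
  have h' := (si_ne h).1
  rcases cyc_cases i j with rfl | rfl | rfl
  · rfl
  · linarith
  · linarith

private lemma sum_one_BQ {i : Fin 3} (f : Fin 3 → ℝ) (h1 : f (i + 1) = 0) (h2 : f (i + 2) = 0) :
    ∑ j, f j = f i := by
  rw [sum3 i, h1, h2]; ring

private lemma col_cases_BQ (i : Fin 3) (c : Fin 4) :
    c = 0 ∨ c = i.succ ∨ c = (i + 1).succ ∨ c = (i + 2).succ := by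
  revert i c; decide

private lemma Dg_zero_BQ (ℓ : Fin 3 → ℝ) (w : W3) : Dg ℓ 0 w = ![gg ℓ w ^ 2, 0, 0] := rfl

private lemma Dg_succ_BQ (ℓ : Fin 3 → ℝ) (k : Fin 3) (w : W3) :
    Dg ℓ k.succ w = ![EE ℓ k w, pp k (-w) ^ 2, pp k w ^ 2] := rfl

/-- The colour coefficients. -/
private lemma sg_BQ (i : Fin 3) :
    sg 0 i = 0 ∧ sg i.succ i = 0 ∧ sg (i + 1).succ i = 1 ∧ sg (i + 2).succ i = -1 := by
  unfold sg
  fin_cases i <;> simp

private lemma Kr_swap_BQ {ℓ γ : Fin 3 → ℝ} (c : Fin 4) (w : W3) (p q : Z3) (a b : Fin 3) :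
    Kr ℓ γ c (w + uu ℓ p) (q - p) a b = Kr ℓ γ c (w + uu ℓ q) (p - q) b a := by
  rw [Kr_symm']
  have e : w + uu ℓ p + uu ℓ (q - p) = w + uu ℓ q := by rw [uu_sub]; abel
  rw [e, neg_sub]

private lemma Rp_A_BQ {ℓ γ : Fin 3 → ℝ} {i : Fin 3} {w : W3} (D : Dat_BQ ℓ γ i w) : Rp i w :=
  ⟨by linarith [D.a1], by linarith [D.a2]⟩

private lemma Bi_BQ {ℓ : Fin 3 → ℝ} {i : Fin 3} (w : W3) :
    (w + uu ℓ (Ee i)) i = w i ∧ (w + uu ℓ (Ee i)) (i + 1) = w (i + 1) - ℓ i ∧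
      (w + uu ℓ (Ee i)) (i + 2) = w (i + 2) + ℓ i := by
  simp only [Pi.add_apply, uu_self, uu_one, uu_two]
  refine ⟨by ring, by ring, trivial⟩

private lemma Di_BQ {ℓ : Fin 3 → ℝ} {i : Fin 3} (w : W3) :
    (w + uu ℓ (-Ee i)) i = w i ∧ (w + uu ℓ (-Ee i)) (i + 1) = w (i + 1) + ℓ i ∧
      (w + uu ℓ (-Ee i)) (i + 2) = w (i + 2) - ℓ i := by
  have e : w + uu ℓ (-Ee i) = fun k => w k - uu ℓ (Ee i) k := by
    rw [uu_neg]; ext k; simp; ring
  rw [e]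
  simp only [uu_self, uu_one, uu_two]
  refine ⟨by ring, by ring, trivial⟩

private lemma Rp_B_BQ {ℓ γ : Fin 3 → ℝ} {i : Fin 3} {w : W3} (D : Dat_BQ ℓ γ i w) :
    Rp i (w + uu ℓ (Ee i)) := by
  obtain ⟨h0, h1, h2⟩ := Bi_BQ (ℓ := ℓ) (i := i) w
  unfold Rp
  rw [h1, h2]
  exact ⟨by linarith [D.a1, D.l1], by linarith [D.a2, D.l1]⟩

/-- Values on the diagonal for the sheet `t`. -/
private lemma dt_BQ {ℓ γ : Fin 3 → ℝ} {i : Fin 3} {v : W3} (h : Rp i v) (c : Fin 4) :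
    Kr ℓ γ c v 0 2 2 = if (i + 1).succ = c then Nn (v i) ^ 2 else
      if (i + 2).succ = c then Pp (v i) ^ 2 else 0 := by
  rw [v_tt]
  obtain ⟨h1, h2, h3⟩ := pp_Rp h
  have n1 : (i + 1).succ ≠ (0 : Fin 4) := Fin.succ_ne_zero _
  have n2 : (i + 2).succ ≠ (0 : Fin 4) := Fin.succ_ne_zero _
  have n3 : (i + 1).succ ≠ i.succ := fun h => ne1 i (Fin.succ_injective _ h)
  have n4 : (i + 2).succ ≠ i.succ := fun h => ne2 i (Fin.succ_injective _ h)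
  have n5 : (i + 1).succ ≠ (i + 2).succ := fun h => ne12 i (Fin.succ_injective _ h)
  rcases col_cases_BQ i c with rfl | rfl | rfl | rfl
  · rw [if_neg n1, if_neg n2, Dg_zero_BQ]; rfl
  · rw [if_neg n3, if_neg n4, Dg_succ_BQ]
    simp [h1]
  · rw [if_pos rfl, Dg_succ_BQ]
    simp [h2]
  · rw [if_neg n5, if_pos rfl, Dg_succ_BQ]
    simp [h3]

/-- Values on the diagonal for the sheet `s`. -/
private lemma ds_BQ {ℓ γ : Fin 3 → ℝ} {i : Fin 3} {v : W3} (h : Rp i (-v)) (c : Fin 4) :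
    Kr ℓ γ c v 0 1 1 = if (i + 1).succ = c then Pp (v i) ^ 2 else
      if (i + 2).succ = c then Nn (v i) ^ 2 else 0 := by
  rw [v_ss]
  obtain ⟨h1, h2, h3⟩ := pp_Rp h
  rw [Pi.neg_apply, Nn_neg] at h2
  rw [Pi.neg_apply, Pp_neg] at h3
  have n1 : (i + 1).succ ≠ (0 : Fin 4) := Fin.succ_ne_zero _
  have n2 : (i + 2).succ ≠ (0 : Fin 4) := Fin.succ_ne_zero _
  have n3 : (i + 1).succ ≠ i.succ := fun h => ne1 i (Fin.succ_injective _ h)
  have n4 : (i + 2).succ ≠ i.succ := fun h => ne2 i (Fin.succ_injective _ h)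
  have n5 : (i + 1).succ ≠ (i + 2).succ := fun h => ne12 i (Fin.succ_injective _ h)
  rcases col_cases_BQ i c with rfl | rfl | rfl | rfl
  · rw [if_neg n1, if_neg n2, Dg_zero_BQ]; rfl
  · rw [if_neg n3, if_neg n4, Dg_succ_BQ]
    simp [h1]
  · rw [if_pos rfl, Dg_succ_BQ]
    simp [h2]
  · rw [if_neg n5, if_pos rfl, Dg_succ_BQ]
    simp [h3]

/-- Values on the diagonal for the sheet `e` outside the tile. -/
private lemma de_BQ (hO : StOut') {ℓ γ : Fin 3 → ℝ} (hp : Par ℓ γ) {i : Fin 3} {v : W3}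
    (hv : Pl v) (h : Rp i v) (h2 : 21 / 20 ≤ v (i + 2)) (c : Fin 4) :
    Kr ℓ γ c v 0 0 0 = if (i + 1).succ = c then Pp (v i) ^ 2 else
      if (i + 2).succ = c then Nn (v i) ^ 2 else 0 := by
  rw [v_ee]
  obtain ⟨g0, hE⟩ := hO ℓ γ hp v hv ⟨i + 2, by rw [abs_of_nonneg (by linarith)]; exact h2⟩
  have n1 : (i + 1).succ ≠ (0 : Fin 4) := Fin.succ_ne_zero _
  have n2 : (i + 2).succ ≠ (0 : Fin 4) := Fin.succ_ne_zero _
  have n3 : (i + 1).succ ≠ i.succ := fun h => ne1 i (Fin.succ_injective _ h)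
  have n4 : (i + 2).succ ≠ i.succ := fun h => ne2 i (Fin.succ_injective _ h)
  have n5 : (i + 1).succ ≠ (i + 2).succ := fun h => ne12 i (Fin.succ_injective _ h)
  have b1 : Pp (v (i + 1)) = 0 := Pp_low h.1
  have b2 : Nn (v (i + 1)) = 1 := Nn_low h.1
  have b3 : Pp (v (i + 2)) = 1 := Pp_high h.2
  have b4 : Nn (v (i + 2)) = 0 := Nn_high h.2
  rcases col_cases_BQ i c with rfl | rfl | rfl | rfl
  · rw [if_neg n1, if_neg n2, Dg_zero_BQ]
    simp [g0]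
  · rw [if_neg n3, if_neg n4, Dg_succ_BQ]
    simp [hE, AA, b1, b4]
  · rw [if_pos rfl, Dg_succ_BQ]
    simp [hE, AA, c11, c12, b1, b2, b3]
  · rw [if_neg n5, if_pos rfl, Dg_succ_BQ]
    simp [hE, AA, c21, c22, b1, b2, b3, b4]

section values

variable {ℓ γ : Fin 3 → ℝ} {i : Fin 3} {w : W3}

private lemma siA_BQ (D : Dat_BQ ℓ γ i w) : si i w = Nn (w i) * Pp (w i) := si_Rp (Rp_A_BQ D)

private lemma siB_BQ (D : Dat_BQ ℓ γ i w) :
    si i (w + uu ℓ (Ee i)) = Nn (w i) * Pp (w i) := by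
  rw [si_Rp (Rp_B_BQ D), (Bi_BQ w).1]

private lemma XB_BQ (D : Dat_BQ ℓ γ i w) : XX ℓ i (w + uu ℓ (Ee i)) = XX ℓ i w + 1 :=
  XX_add_BQ w (by linarith [D.l1])

private lemma v01_BQ (c : Fin 4) (v : W3) : Kr ℓ γ c v (Ee i) 2 2 = 0 := by
  rw [row_t]
  simp [Ee_ne_zero]

private lemma v02_BQ (D : Dat_BQ ℓ γ i w) (c : Fin 4) :
    Kr ℓ γ c w (Ee i) 2 0 = sg c i * (Nn (w i) * Pp (w i) * Real.cos (mu (XX ℓ i w))) := by
  rw [v_tA, siA_BQ D]; rfl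

private lemma v03_BQ (D : Dat_BQ ℓ γ i w) (c : Fin 4) :
    Kr ℓ γ c w (-Ee i) 2 1 =
      sg c i * (Nn (w i) * Pp (w i) * (-γ i * Real.sin (mu (XX ℓ i w)))) := by
  rw [v_tB, siA_BQ D, fB_mid1 D.x2]

private lemma v12_BQ (D : Dat_BQ ℓ γ i w) (c : Fin 4) :
    Kr ℓ γ c (w + uu ℓ (Ee i)) 0 2 0 =
      sg c i * (Nn (w i) * Pp (w i) * (γ i * Real.sin (mu (XX ℓ i w)))) := by
  rw [v_tD, sum_one_BQ (i := i)]
  · rw [siB_BQ D, XB_BQ D]
    unfold fD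
    rw [add_sub_cancel_right]
  · have h : si (i + 1) (w + uu ℓ (Ee i)) = 0 := by
      by_contra hc
      refine ne1 i (si_other_BQ (i := i) ?_ ?_ hc)
      · rw [(Bi_BQ w).2.1]
        have := D.a1
        have := D.l1
        rw [abs_of_neg (by linarith)]
        linarith
      · rw [(Bi_BQ w).2.2]
        have := D.a2
        have := D.l1
        rw [abs_of_pos (by linarith)]
        linarith
    rw [h]; ring
  · have h : si (i + 2) (w + uu ℓ (Ee i)) = 0 := by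
      by_contra hc
      refine ne2 i (si_other_BQ (i := i) ?_ ?_ hc)
      · rw [(Bi_BQ w).2.1]
        have := D.a1
        have := D.l1
        rw [abs_of_neg (by linarith)]
        linarith
      · rw [(Bi_BQ w).2.2]
        have := D.a2
        have := D.l1
        rw [abs_of_pos (by linarith)]
        linarith
    rw [h]; ring

private lemma v13_BQ (D : Dat_BQ ℓ γ i w) (c : Fin 4) :
    Kr ℓ γ c (w + uu ℓ (Ee i)) (-(Ee i + Ee i)) 2 1 =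
      sg c i * (Nn (w i) * Pp (w i) * Real.cos (mu (XX ℓ i w))) := by
  rw [v_tC, siB_BQ D, XB_BQ D, fC_mid2 (by linarith [D.x1]), add_sub_cancel_right]

private lemma v23_BQ (c : Fin 4) (v : W3) : Kr ℓ γ c v (-(Ee i + Ee i)) 0 1 = 0 := by
  rw [row_e]
  have h1 : ∀ j : Fin 3, -(Ee i + Ee i) ≠ Ee j := by revert i; unfold Ee; decide
  have h2 : -(Ee i + Ee i) ≠ 0 := nEe2_ne_zero i
  simp [-neg_add_rev, h1, h2]

end values

/-- The matrix of the block. -/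
private def OQ (N P C S g : ℝ) : Matrix (Fin 4) (Fin 4) ℝ :=
  !![N, 0, P * C, -(g * (P * S)); 0, N, g * (P * S), P * C;
    P, 0, -(N * C), g * (N * S); 0, P, -(g * (N * S)), -(N * C)]

private lemma orth_BQ {N P C S g : ℝ} (h1 : N ^ 2 + P ^ 2 = 1) (h2 : C ^ 2 + S ^ 2 = 1)
    (h3 : g ^ 2 = 1) : OQ N P C S g * (OQ N P C S g)ᵀ = 1 := by
  ext a b
  rw [Matrix.mul_apply, Fin.sum_univ_four]
  fin_cases a <;> fin_cases b <;>
    simp [OQ] <;>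
    first
    | ring1
    | linear_combination h1 + P ^ 2 * h2 + P ^ 2 * S ^ 2 * h3
    | linear_combination h1 + N ^ 2 * h2 + N ^ 2 * S ^ 2 * h3
    | linear_combination (-N * P) * h2 - N * P * S ^ 2 * h3

private lemma rhs_BQ (i : Fin 3) (c : Fin 4) (O : Matrix (Fin 4) (Fin 4) ℝ) (a b : Fin 4) :
    (∑ r, if (![(i + 1).succ, (i + 1).succ, (i + 2).succ, (i + 2).succ] : Fin 4 → Fin 4) r = c
      then O r a * O r b else 0) =
      if (i + 1).succ = c then O 0 a * O 0 b + O 1 a * O 1 b else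
        if (i + 2).succ = c then O 2 a * O 2 b + O 3 a * O 3 b else 0 := by
  have n5 : (i + 1).succ ≠ (i + 2).succ := fun h => ne12 i (Fin.succ_injective _ h)
  rw [Fin.sum_univ_four]
  change (if (i + 1).succ = c then O 0 a * O 0 b else 0) +
    (if (i + 1).succ = c then O 1 a * O 1 b else 0) +
    (if (i + 2).succ = c then O 2 a * O 2 b else 0) +
    (if (i + 2).succ = c then O 3 a * O 3 b else 0) = _
  by_cases h1 : (i + 1).succ = c
  · have h2 : (i + 2).succ ≠ c := fun h => n5 (h1.trans h.symm)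
    simp only [if_pos h1, if_neg h2, add_zero]
  · by_cases h2 : (i + 2).succ = c
    · simp only [if_neg h1, if_pos h2, zero_add]
    · simp only [if_neg h1, if_neg h2, add_zero]

private lemma sg_eq_BQ (c : Fin 4) (i : Fin 3) :
    sg c i = if (i + 1).succ = c then 1 else if (i + 2).succ = c then -1 else 0 := by
  unfold sg
  simp only [eq_comm]

/-- The points of the block. -/
private def PQ (i : Fin 3) : Fin 4 → Fin 3 × Z3 :=
  ![((2 : Fin 3), (0 : Z3)), (2, Ee i), (0, Ee i), (1, -Ee i)]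

private lemma val_BQ (hO : StOut') {ℓ γ : Fin 3 → ℝ} {i : Fin 3} {w : W3}
    (D : Dat_BQ ℓ γ i w) (hl : w (i + 2) - w (i + 1) ≤ ℓ i) (a b : Fin 4) (hab : a ≤ b)
    (c : Fin 4) :
    Kr ℓ γ c (w + uu ℓ (PQ i a).2) ((PQ i b).2 - (PQ i a).2) (PQ i a).1 (PQ i b).1 =
      let O := OQ (Nn (w i)) (Pp (w i)) (Real.cos (mu (XX ℓ i w))) (Real.sin (mu (XX ℓ i w))) (γ i)
      if (i + 1).succ = c then O 0 a * O 0 b + O 1 a * O 1 b else
        if (i + 2).succ = c then O 2 a * O 2 b + O 3 a * O 3 b else 0 := by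
  have hg : γ i ^ 2 = 1 := by
    rcases D.par.g i with h | h <;> rw [h] <;> norm_num
  have hCS := Real.cos_sq_add_sin_sq (mu (XX ℓ i w))
  have d0 := D.a1
  have d1 := D.a2
  have d2 := D.l1
  have d3 := D.lo
  have d4 := D.hi
  have hs := Pl_cyc D.pl i
  obtain ⟨B0, B1, B2⟩ := Bi_BQ (ℓ := ℓ) (i := i) w
  obtain ⟨D0, D1, D2⟩ := Di_BQ (ℓ := ℓ) (i := i) w
  have hRs : Rp i (-(w + uu ℓ (-Ee i))) := by
    unfold Rp
    rw [Pi.neg_apply, Pi.neg_apply, D1, D2]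
    constructor <;> linarith
  have hB : Pl (w + uu ℓ (Ee i)) := Pl_add D.pl (Pl_uu _ _)
  have he0 : ∀ v : Z3, v - 0 = v := sub_zero
  have e1 : -Ee i - Ee i = -(Ee i + Ee i) := by abel
  have e2 : -Ee i - 0 = -Ee i := sub_zero _
  fin_cases a <;> fin_cases b
  · change Kr ℓ γ c (w + uu ℓ 0) (0 - 0) 2 2 = _
    rw [uu_zero, add_zero, sub_zero, dt_BQ (Rp_A_BQ D)]
    simp only [OQ, Matrix.of_apply]
    simp
    split_ifs <;> ring1
  · change Kr ℓ γ c (w + uu ℓ 0) (Ee i - 0) 2 2 = _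
    rw [uu_zero, add_zero, sub_zero, v01_BQ]
    simp [OQ]
  · change Kr ℓ γ c (w + uu ℓ 0) (Ee i - 0) 2 0 = _
    rw [uu_zero, add_zero, sub_zero, v02_BQ D, sg_eq_BQ]
    simp [OQ]
    split_ifs <;> ring1
  · change Kr ℓ γ c (w + uu ℓ 0) (-Ee i - 0) 2 1 = _
    rw [uu_zero, add_zero, sub_zero, v03_BQ D, sg_eq_BQ]
    simp [OQ]
    split_ifs <;> ring1
  · exact absurd hab (by decide)
  · change Kr ℓ γ c (w + uu ℓ (Ee i)) (Ee i - Ee i) 2 2 = _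
    rw [sub_self, dt_BQ (Rp_B_BQ D), B0]
    simp [OQ]
    split_ifs <;> ring1
  · change Kr ℓ γ c (w + uu ℓ (Ee i)) (Ee i - Ee i) 2 0 = _
    rw [sub_self, v12_BQ D, sg_eq_BQ]
    simp [OQ]
    split_ifs <;> ring1
  · change Kr ℓ γ c (w + uu ℓ (Ee i)) (-Ee i - Ee i) 2 1 = _
    rw [e1, v13_BQ D, sg_eq_BQ]
    simp [OQ]
    split_ifs <;> ring1
  · exact absurd hab (by decide)
  · exact absurd hab (by decide)
  · change Kr ℓ γ c (w + uu ℓ (Ee i)) (Ee i - Ee i) 0 0 = _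
    rw [sub_self, de_BQ hO D.par hB (Rp_B_BQ D) (by rw [B2]; linarith), B0]
    simp [OQ]
    split_ifs
    · linear_combination (-(Pp (w i) ^ 2)) * hCS - Pp (w i) ^ 2 * Real.sin (mu (XX ℓ i w)) ^ 2 * hg
    · linear_combination (-(Nn (w i) ^ 2)) * hCS - Nn (w i) ^ 2 * Real.sin (mu (XX ℓ i w)) ^ 2 * hg
    · rfl
  · change Kr ℓ γ c (w + uu ℓ (Ee i)) (-Ee i - Ee i) 0 1 = _
    rw [e1, v23_BQ]
    simp [OQ]
    split_ifs <;> ring1
  · exact absurd hab (by decide)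
  · exact absurd hab (by decide)
  · exact absurd hab (by decide)
  · change Kr ℓ γ c (w + uu ℓ (-Ee i)) (-Ee i - -Ee i) 1 1 = _
    rw [sub_self, ds_BQ hRs, D0]
    simp [OQ]
    split_ifs
    · linear_combination (-(Pp (w i) ^ 2)) * hCS - Pp (w i) ^ 2 * Real.sin (mu (XX ℓ i w)) ^ 2 * hg
    · linear_combination (-(Nn (w i) ^ 2)) * hCS - Nn (w i) ^ 2 * Real.sin (mu (XX ℓ i w)) ^ 2 * hg
    · rfl

private lemma coord_BQ {i : Fin 3} {v : W3} (h1 : 1 / 50 ≤ |v (i + 1)|)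
    (h2 : 1 / 50 ≤ |v (i + 2)|) {j : Fin 3} (h : |v j| < 1 / 50) : j = i := by
  rcases cyc_cases i j with rfl | rfl | rfl
  · rfl
  · linarith
  · linarith

private lemma self1_BQ (ℓ : Fin 3 → ℝ) (j : Fin 3) (v : W3) : (v + uu ℓ (Ee j)) j = v j := by
  rw [Pi.add_apply, uu_self, add_zero]

private lemma self2_BQ (ℓ : Fin 3 → ℝ) (j : Fin 3) (v : W3) : (v + uu ℓ (-Ee j)) j = v j := by
  rw [Pi.add_apply, uu_neg, Pi.neg_apply, uu_self, neg_zero, add_zero]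

private lemma self3_BQ (ℓ : Fin 3 → ℝ) (j : Fin 3) (v : W3) :
    (v + uu ℓ (Ee j + Ee j)) j = v j := by
  rw [Pi.add_apply, uu_add, Pi.add_apply, uu_self, add_zero, add_zero]

private lemma out_BQ (hO : StOut') {ℓ γ : Fin 3 → ℝ} {i : Fin 3} {w : W3}
    (D : Dat_BQ ℓ γ i w) (hl : w (i + 2) - w (i + 1) ≤ ℓ i) (a : Fin 4) (c : Fin 4) (b : Fin 3)
    (m : Z3) (h : ∀ j, PQ i j ≠ (b, (PQ i a).2 + m)) :
    Kr ℓ γ c (w + uu ℓ (PQ i a).2) m (PQ i a).1 b = 0 := by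
  by_contra hne
  have hL := link_of_ne hne
  have d0 := D.a1
  have d1 := D.a2
  have d2 := D.l1
  have d3 := D.lo
  have d4 := D.hi
  have d5 := D.x1
  have d6 := D.x2
  have hs := Pl_cyc D.pl i
  have hl0 : 0 < ℓ i := by linarith
  obtain ⟨B0, B1, B2⟩ := Bi_BQ (ℓ := ℓ) (i := i) w
  obtain ⟨D0, D1, D2⟩ := Di_BQ (ℓ := ℓ) (i := i) w
  have hXB : XX ℓ i (w + uu ℓ (Ee i)) = XX ℓ i w + 1 := XX_add_BQ w hl0
  have hXD : XX ℓ i (-(w + uu ℓ (-Ee i))) = 1 - XX ℓ i w := by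
    unfold XX
    rw [Pi.neg_apply, Pi.neg_apply, D1, D2]
    field_simp
    ring
  have aA1 : 1 / 5 ≤ |w (i + 1)| := by rw [abs_of_neg (by linarith)]; linarith
  have aA2 : 1 / 5 ≤ |w (i + 2)| := by rw [abs_of_pos (by linarith)]; linarith
  have aB1 : 1 / 5 ≤ |(w + uu ℓ (Ee i)) (i + 1)| := by
    rw [B1, abs_of_neg (by linarith)]; linarith
  have aB2 : 1 / 5 ≤ |(w + uu ℓ (Ee i)) (i + 2)| := by
    rw [B2, abs_of_pos (by linarith)]; linarith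
  have aD1 : 1 / 5 ≤ |(w + uu ℓ (-Ee i)) (i + 1)| := by
    rw [D1, abs_of_pos (by linarith)]; linarith
  have aD2 : 1 / 5 ≤ |(w + uu ℓ (-Ee i)) (i + 2)| := by
    rw [D2, abs_of_neg (by linarith)]; linarith
  have aE1 : 1 / 5 ≤ |(-(w + uu ℓ (-Ee i))) (i + 1)| := by rwa [Pi.neg_apply, abs_neg]
  have aE2 : 1 / 5 ≤ |(-(w + uu ℓ (-Ee i))) (i + 2)| := by rwa [Pi.neg_apply, abs_neg]
  have hB : Pl (w + uu ℓ (Ee i)) := Pl_add D.pl (Pl_uu _ _)
  have cB : ∀ j, |(w + uu ℓ (Ee i)) j| < 1 / 50 → j = i := fun j hj =>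
    coord_BQ (le_trans (by norm_num) aB1) (le_trans (by norm_num) aB2) hj
  have cD : ∀ j, |(w + uu ℓ (-Ee i)) j| < 1 / 50 → j = i := fun j hj =>
    coord_BQ (le_trans (by norm_num) aD1) (le_trans (by norm_num) aD2) hj
  have k02 : (0 : Fin 3) ≠ 2 := by decide
  have k01 : (0 : Fin 3) ≠ 1 := by decide
  have k12 : (1 : Fin 3) ≠ 2 := by decide
  have ha : a = 0 ∨ a = 1 ∨ a = 2 ∨ a = 3 := by
    clear hne hL h
    revert a
    decide
  rcases ha with rfl | rfl | rfl | rfl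
  · -- `t @ w`
    change Link ℓ (w + uu ℓ 0) m 2 b at hL
    rw [uu_zero, add_zero] at hL
    change ∀ j, PQ i j ≠ (b, 0 + m) at h
    rcases hL with ⟨rfl, rfl⟩ | ⟨h0, _⟩ | ⟨j, ⟨_, hsi, hc⟩ | ⟨h0, _⟩ | ⟨h0, _⟩ | ⟨h0, _⟩ | ⟨h0, _⟩⟩
    · exact h 0 rfl
    · exact k02 h0.symm
    · obtain rfl := si_other_BQ aA1 aA2 hsi
      rcases hc with ⟨rfl, rfl, _⟩ | ⟨_, _, hx⟩ | ⟨rfl, rfl, _⟩ | ⟨_, _, hx, _⟩
      · exact h 2 (by rw [zero_add]; rfl)
      · linarith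
      · exact h 3 (by rw [zero_add]; rfl)
      · linarith
    · exact k12 h0.symm
    · exact k12 h0.symm
    · exact k02 h0.symm
    · exact k02 h0.symm
  · -- `t @ w + u`
    change Link ℓ (w + uu ℓ (Ee i)) m 2 b at hL
    change ∀ j, PQ i j ≠ (b, Ee i + m) at h
    rcases hL with ⟨rfl, rfl⟩ | ⟨h0, _⟩ | ⟨j, ⟨_, hsi, hc⟩ | ⟨h0, _⟩ | ⟨h0, _⟩ | ⟨h0, _⟩ | ⟨h0, _⟩⟩
    · exact h 1 (by rw [add_zero]; rfl)
    · exact k02 h0.symm
    · obtain rfl := si_other_BQ aB1 aB2 hsi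
      rw [hXB] at hc
      rcases hc with ⟨_, _, hx⟩ | ⟨rfl, rfl, _⟩ | ⟨_, _, _, hx⟩ | ⟨rfl, rfl, _⟩
      · linarith
      · exact h 2 (by rw [add_zero]; rfl)
      · linarith
      · refine h 3 ?_
        rw [show Ee j + -(Ee j + Ee j) = -Ee j by abel]
        rfl
    · exact k12 h0.symm
    · exact k12 h0.symm
    · exact k02 h0.symm
    · exact k02 h0.symm
  · -- `e @ w + u`
    change Link ℓ (w + uu ℓ (Ee i)) m 0 b at hL
    change ∀ j, PQ i j ≠ (b, Ee i + m) at h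
    rcases hL with ⟨rfl, rfl⟩ | ⟨_, _, hg, _⟩ | ⟨j, ⟨h0, _⟩ | ⟨h0, _⟩ | ⟨h0, _⟩ | ⟨_, rfl, hc⟩ | ⟨_, rfl, hc⟩⟩
    · exact h 2 (by rw [add_zero]; rfl)
    · exact hg (hO ℓ γ D.par _ hB ⟨i + 2, by rw [B2, abs_of_pos (by linarith)]; linarith⟩).1
    · exact k02 h0
    · exact k01 h0
    · exact k01 h0
    · rcases hc with ⟨rfl, hsi, _⟩ | ⟨rfl, hsi, _⟩
      · have hj := (si_ne hsi).1
        rw [self2_BQ] at hj
        obtain rfl := cB _ hj
        exact h 0 (by rw [add_neg_cancel]; rfl)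
      · obtain rfl := si_other_BQ aB1 aB2 hsi
        exact h 1 (by rw [add_zero]; rfl)
    · rcases hc with ⟨rfl, hsi, _⟩ | ⟨rfl, hsi, _⟩
      · obtain ⟨hj, hk, _⟩ := si_ne hsi
        rw [Pi.neg_apply, abs_neg, self1_BQ] at hj
        obtain rfl := cB _ hj
        rw [Pi.neg_apply, Pi.add_apply, B1, uu_one] at hk
        linarith
      · obtain ⟨hj, hk, _⟩ := si_ne hsi
        rw [Pi.neg_apply, abs_neg] at hj
        obtain rfl := cB _ hj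
        rw [Pi.neg_apply, B1] at hk
        linarith
  · -- `s @ w - u`
    change Link ℓ (w + uu ℓ (-Ee i)) m 1 b at hL
    change ∀ j, PQ i j ≠ (b, -Ee i + m) at h
    rcases hL with ⟨rfl, rfl⟩ | ⟨h0, _⟩ | ⟨j, ⟨h0, _⟩ | ⟨_, hsi, hc⟩ | ⟨_, rfl, hsi, hc⟩ | ⟨h0, _⟩ | ⟨h0, _⟩⟩
    · exact h 3 (by rw [add_zero]; rfl)
    · exact k01 h0.symm
    · exact k12 h0
    · obtain rfl := si_other_BQ aE1 aE2 hsi
      rw [hXD] at hc
      rcases hc with ⟨_, _, hx⟩ | ⟨_, _, hx⟩ <;> linarith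
    · have hj := (si_ne hsi).1
      rcases hc with ⟨rfl, _⟩ | ⟨rfl, _⟩
      · rw [self1_BQ] at hj
        obtain rfl := cD _ hj
        exact h 0 (by rw [neg_add_cancel]; rfl)
      · rw [self3_BQ] at hj
        obtain rfl := cD _ hj
        refine h 1 ?_
        rw [show -Ee j + (Ee j + Ee j) = Ee j by abel]
        rfl
    · exact k01 h0.symm
    · exact k01 h0.symm

private lemma inj_BQ (i : Fin 3) : Function.Injective (PQ i) := by
  revert i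
  unfold PQ Ee
  decide

/-- **Module BQ.** -/
theorem m_BQ (hO : StOut') : StBQ := by
  intro ℓ γ hp i w hw h x1 x2 N P C S
  obtain ⟨D, hl, _⟩ := dat_BQ hp hw h x1 x2
  have hg : γ i ^ 2 = 1 := by
    rcases hp.g i with h | h <;> rw [h] <;> norm_num
  refine ⟨inj_BQ i, orth_BQ (Nn_sq_add _) (Real.cos_sq_add_sin_sq _) hg, ?_, ?_⟩
  · intro a c b m hm
    exact out_BQ hO D hl a c b m hm
  · intro a b c
    change Kr ℓ γ c (w + uu ℓ (PQ i a).2) ((PQ i b).2 - (PQ i a).2) (PQ i a).1 (PQ i b).1 =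
      ∑ r, if (![(i + 1).succ, (i + 1).succ, (i + 2).succ, (i + 2).succ] : Fin 4 → Fin 4) r = c
        then OQ N P C S (γ i) r a * OQ N P C S (γ i) r b else 0
    rw [rhs_BQ]
    rcases le_total a b with hab | hab
    · exact val_BQ hO D hl a b hab c
    · rw [Kr_swap_BQ, val_BQ hO D hl b a hab c]
      simp only [mul_comm]
      rfl

end Pool.Agent.Helper56.EX
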