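import Pool.Agent.Helper56.EX.St

set_option autoImplicit false

open Matrix
open scoped ContDiff

noncomputable section

namespace Pool.Agent.Helper56.EX

private lemma blk2_BS {ℓ γ : Fin 3 → ℝ} {w : W3} (a0 a1 : Fin 3) (n0 n1 : Z3) (k0 k1 : Fin 4)
    (O : Matrix (Fin 2) (Fin 2) ℝ) (hne : (a0, n0) ≠ (a1, n1)) (orth : O * Oᵀ = 1)
    (out0 : ∀ (c : Fin 4) (b : Fin 3) (m : Z3), (a0, n0) ≠ (b, n0 + m) → (a1, n1) ≠ (b, n0 + m) →
      Kr ℓ γ c (w + uu ℓ n0) m a0 b = 0)
    (out1 : ∀ (c : Fin 4) (b : Fin 3) (m : Z3), (a0, n0) ≠ (b, n1 + m) → (a1, n1) ≠ (b, n1 + m) →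
      Kr ℓ γ c (w + uu ℓ n1) m a1 b = 0)
    (v00 : ∀ c, Kr ℓ γ c (w + uu ℓ n0) 0 a0 a0 =
      (if k0 = c then O 0 0 * O 0 0 else 0) + (if k1 = c then O 1 0 * O 1 0 else 0))
    (v01 : ∀ c, Kr ℓ γ c (w + uu ℓ n0) (n1 - n0) a0 a1 =
      (if k0 = c then O 0 0 * O 0 1 else 0) + (if k1 = c then O 1 0 * O 1 1 else 0))
    (v11 : ∀ c, Kr ℓ γ c (w + uu ℓ n1) 0 a1 a1 =
      (if k0 = c then O 0 1 * O 0 1 else 0) + (if k1 = c then O 1 1 * O 1 1 else 0)) :
    Blk ℓ γ w ![(a0, n0), (a1, n1)] ![k0, k1] O := by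
  refine ⟨?_, orth, ?_, ?_⟩
  · intro x y hxy
    fin_cases x <;> fin_cases y
    · rfl
    · exact absurd hxy hne
    · exact absurd hxy hne.symm
    · rfl
  · intro x c b m h
    have h0 := h 0
    have h1 := h 1
    fin_cases x
    · exact out0 c b m h0 h1
    · exact out1 c b m h0 h1
  · intro x y c
    rw [Fin.sum_univ_two]
    fin_cases x <;> fin_cases y
    · have := v00 c
      simpa using this
    · have := v01 c
      simpa using this
    · have := v01 c
      have e : Kr ℓ γ c (w + uu ℓ n1) (n0 - n1) a1 a0 =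
          Kr ℓ γ c (w + uu ℓ n0) (n1 - n0) a0 a1 := by
        have b1 : w + uu ℓ n1 + uu ℓ (n0 - n1) = w + uu ℓ n0 := by rw [uu_sub]; abel
        have b2 : -(n0 - n1) = n1 - n0 := neg_sub _ _
        rw [Kr_symm', b1, b2]
      simp only [Fin.mk_one, Fin.isValue, Matrix.cons_val_one, Matrix.cons_val_zero,
        Fin.zero_eta]
      rw [e, this]
      simp only [mul_comm]
    · have := v11 c
      simpa using this

/-- links of a tile point that is far from all lines -/
private lemma link_far_BS {ℓ : Fin 3 → ℝ} {v : W3} {m : Z3} {b : Fin 3}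
    (hv : ∀ j, 1 / 50 ≤ |v j|) (hL : Link ℓ v m 0 b) :
    b = 0 ∧ (m = 0 ∨ (gg ℓ (v + uu ℓ m) ≠ 0 ∧ ∃ i j : Fin 3, i ≠ j ∧ m = Ee i - Ee j)) := by
  rcases hL with ⟨hb, hm⟩ | ⟨-, hb, -, hg, hm⟩ | ⟨j, hj⟩
  · exact ⟨hb.symm, Or.inl hm⟩
  · exact ⟨hb, Or.inr ⟨hg, hm⟩⟩
  · exfalso
    have coord : ∀ n : Z3, (n = Ee j ∨ n = -Ee j) → (v + uu ℓ n) j = v j := by
      rintro n (rfl | rfl)
      · rw [Pi.add_apply, uu_self, add_zero]
      · rw [uu_neg, Pi.add_apply, Pi.neg_apply, uu_self, neg_zero, add_zero]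
    have hvj := hv j
    rcases hj with ⟨ha, -⟩ | ⟨ha, -⟩ | ⟨ha, -⟩ | ⟨-, -, hj⟩ | ⟨-, -, hj⟩
    · exact absurd ha (by decide)
    · exact absurd ha (by decide)
    · exact absurd ha (by decide)
    · rcases hj with ⟨hm, hsi, -⟩ | ⟨hm, hsi, -⟩
      · have := (si_ne hsi).1
        rw [coord m (Or.inr hm)] at this
        linarith
      · have := (si_ne hsi).1
        linarith
    · rcases hj with ⟨hm, hsi, -⟩ | ⟨hm, hsi, -⟩
      · have := (si_ne hsi).1
        rw [Pi.neg_apply, abs_neg, coord m (Or.inl hm)] at this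
        linarith
      · have := (si_ne hsi).1
        rw [Pi.neg_apply, abs_neg] at this
        linarith

private lemma tc_BS (k k' : Fin 3) :
    (Ee (k + 2) - Ee (k + 1) = Ee (k' + 1) - Ee (k' + 2) ∨
      Ee (k + 2) - Ee (k + 1) = Ee (k' + 2) - Ee (k' + 1)) ↔ k' = k := by
  revert k k'; unfold Ee; decide

theorem m_BS (_hHH : StHH) (hO : StOut) (hS : StStrip) (hS' : StStrip') : StBS := by
  intro ℓ γ hP k w hw hst
  obtain ⟨s1, s2, s3, s4, s5, s6⟩ := hst
  obtain ⟨g1, E1, E2, E3⟩ := hS ℓ γ hP k w hw (by linarith) s3 (by linarith) s5 (by linarith)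
  obtain ⟨g1', E1', E2', E3'⟩ := hS' ℓ γ hP k w hw ⟨s1, s2, s3, s4, s5, s6⟩
  set n1 : Z3 := Ee (k + 2) - Ee (k + 1) with hn1
  set w' := w + uu ℓ n1 with hw'
  have hsq : gg ℓ w ^ 2 + gg ℓ w' ^ 2 = 1 := by
    rw [g1, g1']; exact Nn_sq_add _
  have l0 := abs_le.1 (hP.l k)
  have l1 := abs_le.1 (hP.l (k + 1))
  have l2 := abs_le.1 (hP.l (k + 2))
  have T00 := uu_self ℓ k
  have T01 := uu_one ℓ k
  have T02 := uu_two ℓ k
  have T11 := uu_self ℓ (k + 1)
  have T12 := uu_one ℓ (k + 1)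
  have T10 := uu_two ℓ (k + 1)
  have T22 := uu_self ℓ (k + 2)
  have T20 := uu_one ℓ (k + 2)
  have T21 := uu_two ℓ (k + 2)
  rw [c11] at T12
  rw [c12] at T10
  rw [c21] at T20
  rw [c22] at T21
  have cd : ∀ (v : W3) (i j l : Fin 3),
      (v + uu ℓ (Ee i - Ee j)) l = v l + (uu ℓ (Ee i) l - uu ℓ (Ee j) l) := by
    intro v i j l
    rw [uu_sub, Pi.add_apply, Pi.sub_apply]
  have e0 : w' k = w k - ℓ (k + 2) - ℓ (k + 1) := by
    rw [hw', hn1, cd, T20, T10]; ring
  have e1 : w' (k + 1) = w (k + 1) + ℓ (k + 2) := by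
    rw [hw', hn1, cd, T21, T11]; ring
  have e2 : w' (k + 2) = w (k + 2) + ℓ (k + 1) := by
    rw [hw', hn1, cd, T22, T12]; ring
  have hPl' : Pl w' := Pl_add hw (Pl_uu _ _)
  have hn1z : n1 ≠ 0 := by
    intro h
    exact ne12 k (Ee_inj.1 (sub_eq_zero.1 h)).symm
  have far : ∀ j, 1 / 50 ≤ |w j| := by
    intro j
    rw [le_abs]
    rcases cyc_cases k j with h | h | h
    · rw [h]; left; linarith
    · rw [h]; right; linarith
    · rw [h]; right; linarith
  have far' : ∀ j, 1 / 50 ≤ |w' j| := by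
    intro j
    rw [le_abs]
    rcases cyc_cases k j with h | h | h
    · rw [h, e0]; right; linarith [l1.1, l2.1]
    · rw [h, e1]; left; linarith [l2.1]
    · rw [h, e2]; left; linarith [l1.1]
  have kill : ∀ (v : W3) (m : Z3), Pl v → gg ℓ (v + uu ℓ m) ≠ 0 → ∀ l,
      (v + uu ℓ m) l < 41 / 40 ∧ -(41 / 40) < (v + uu ℓ m) l := by
    intro v m hv hg l
    by_contra hc
    apply hg
    refine hO ℓ γ hP _ (Pl_add hv (Pl_uu _ _)) ⟨l, ?_⟩
    rw [le_abs]
    by_contra hc2
    push Not at hc2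
    exact hc ⟨hc2.1, by linarith [hc2.2]⟩
  apply blk2_BS
  · intro h
    exact hn1z (congrArg Prod.snd h).symm
  · ext a b
    fin_cases a <;> fin_cases b <;> simp [Matrix.mul_apply, Fin.sum_univ_two] <;>
      nlinarith [hsq]
  · -- out of e@w
    intro c b m h3 h4
    rw [uu_zero, add_zero]
    rw [zero_add] at h3 h4
    by_contra hne
    obtain ⟨hb, hm⟩ := link_far_BS far (link_of_ne hne)
    rcases hm with hm | ⟨hg, i, j, hij, hm⟩
    · exact h3 (by rw [hb, hm])
    · have K := kill w m hw hg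
      have K0 := K k
      have K1 := K (k + 1)
      have K2 := K (k + 2)
      rw [hm, cd] at K0 K1 K2
      rcases cyc_cases k i with hi | hi | hi <;> rcases cyc_cases k j with hj | hj | hj
      · exact hij (hi.trans hj.symm)
      · rw [hi, hj, T01, T11] at K1; linarith [K1.2, l0.1]
      · rw [hi, hj, T00, T20] at K0; linarith [K0.1, l2.1]
      · rw [hi, hj, T12, T02] at K2; linarith [K2.2, l0.1, l1.1]
      · exact hij (hi.trans hj.symm)
      · rw [hi, hj, T10, T20] at K0; linarith [K0.1, l1.1, l2.1]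
      · rw [hi, hj, T22, T02] at K2; linarith [K2.2, l0.1]
      · exact h4 (by rw [hb, hm, hi, hj])
      · exact hij (hi.trans hj.symm)
  · -- out of e@w'
    intro c b m h3 h4
    rw [← hw']
    by_contra hne
    obtain ⟨hb, hm⟩ := link_far_BS far' (link_of_ne hne)
    rcases hm with hm | ⟨hg, i, j, hij, hm⟩
    · exact h4 (by rw [hb, hm, add_zero])
    · have K := kill w' m hPl' hg
      have K0 := K k
      have K1 := K (k + 1)
      have K2 := K (k + 2)
      rw [hm, cd] at K0 K1 K2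
      rw [e0] at K0
      rw [e1] at K1
      rw [e2] at K2
      rcases cyc_cases k i with hi | hi | hi <;> rcases cyc_cases k j with hj | hj | hj
      · exact hij (hi.trans hj.symm)
      · rw [hi, hj, T00, T10] at K0; linarith [K0.2, l1.1, l2.1]
      · rw [hi, hj, T02, T22] at K2; linarith [K2.1, l0.1, l1.1]
      · rw [hi, hj, T11, T01] at K1; linarith [K1.1, l0.1, l2.1]
      · exact hij (hi.trans hj.symm)
      · exact h3 (by rw [hb, hm, hi, hj, hn1]; congr 1; abel)
      · rw [hi, hj, T20, T00] at K0; linarith [K0.2, l1.1, l2.1]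
      · rw [hi, hj, T20, T10] at K0; linarith [K0.2, l1.1, l2.1]
      · exact hij (hi.trans hj.symm)
  · -- value 00
    intro c
    rw [uu_zero, add_zero, v_ee]
    refine Fin.cases ?_ (fun k' => ?_) c
    · simp [Dg, Fin.succ_ne_zero, sq]
    · have h0 : (0 : Fin 4) ≠ k'.succ := (Fin.succ_ne_zero _).symm
      rcases cyc_cases k k' with h | h | h
      · rw [h] at h0 ⊢
        rw [if_neg h0, if_pos rfl]
        simp only [Dg, Fin.cases_succ, Matrix.cons_val_zero, E1, Matrix.of_apply, Matrix.cons_val',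
          Matrix.cons_val_one, zero_add]
        linarith
      · have hk : k.succ ≠ k'.succ := fun hh => ne1 k (by rw [← h]; exact (Fin.succ_injective _ hh).symm)
        rw [if_neg h0, if_neg hk, h]
        simp [Dg, E2]
      · have hk : k.succ ≠ k'.succ := fun hh => ne2 k (by rw [← h]; exact (Fin.succ_injective _ hh).symm)
        rw [if_neg h0, if_neg hk, h]
        simp [Dg, E3]
  · -- value 01
    intro c
    rw [uu_zero, add_zero, sub_zero, v_ee' c w hn1z, ← hw']
    refine Fin.cases ?_ (fun k' => ?_) c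
    · have : tc 0 n1 = 1 := by
        unfold tc
        rw [Fin.cases_zero, if_pos ⟨k + 2, k + 1, (ne12 k).symm, hn1⟩]
      rw [this]
      simp [Fin.succ_ne_zero]
    · have h0 : (0 : Fin 4) ≠ k'.succ := (Fin.succ_ne_zero _).symm
      rw [if_neg h0]
      unfold tc
      rw [Fin.cases_succ]
      by_cases h : k' = k
      · rw [if_pos ((tc_BS k k').2 h), h, if_pos rfl]
        simp; ring
      · rw [if_neg (fun hh => h ((tc_BS k k').1 hh)),
          if_neg (fun hh => h (Fin.succ_injective _ hh).symm)]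
        simp
  · -- value 11
    intro c
    rw [← hw', v_ee]
    refine Fin.cases ?_ (fun k' => ?_) c
    · simp [Dg, Fin.succ_ne_zero, sq]
    · have h0 : (0 : Fin 4) ≠ k'.succ := (Fin.succ_ne_zero _).symm
      rcases cyc_cases k k' with h | h | h
      · rw [h] at h0 ⊢
        rw [if_neg h0, if_pos rfl]
        simp only [Dg, Fin.cases_succ, Matrix.cons_val_zero, E1', Matrix.of_apply, Matrix.cons_val',
          Matrix.cons_val_one, zero_add]
        linarith
      · have hk : k.succ ≠ k'.succ := fun hh => ne1 k (by rw [← h]; exact (Fin.succ_injective _ hh).symm)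
        rw [if_neg h0, if_neg hk, h]
        simp [Dg, E2']
      · have hk : k.succ ≠ k'.succ := fun hh => ne2 k (by rw [← h]; exact (Fin.succ_injective _ hh).symm)
        rw [if_neg h0, if_neg hk, h]
        simp [Dg, E3']

end Pool.Agent.Helper56.EX
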