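import Pool.Agent.Helper56.EX.St

/-! # Module BT of project EX -/

set_option autoImplicit false

open Matrix
open scoped ContDiff

noncomputable section

namespace Pool.Agent.Helper56.EX

private lemma tc0_BT {k l : Fin 3} (h : k ≠ l) : tc 0 (Ee l - Ee k) = 1 := by
  unfold tc
  simp only [Fin.cases_zero]
  rw [if_pos ⟨l, k, h.symm, rfl⟩]

private lemma tcs_BT {k l : Fin 3} (h : k ≠ l) (m : Fin 3) :
    tc m.succ (Ee l - Ee k) = if m ≠ k ∧ m ≠ l then -1 else 0 := by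
  have h1 : (Ee l - Ee k = Ee (m + 1) - Ee (m + 2) ∨ Ee l - Ee k = Ee (m + 2) - Ee (m + 1)) ↔
      (m ≠ k ∧ m ≠ l) := by
    revert k l m
    unfold Ee
    decide
  unfold tc
  simp only [Fin.cases_succ]
  simp only [h1]

private lemma ell_BT {ℓ γ : Fin 3 → ℝ} (hp : Par ℓ γ) (i : Fin 3) :
    999 / 1000 ≤ ℓ i ∧ ℓ i ≤ 1001 / 1000 := by
  have := abs_le.1 (hp.l i)
  constructor <;> linarith [this.1, this.2]

private lemma xx_BT {ℓ γ : Fin 3 → ℝ} (hp : Par ℓ γ) (i : Fin 3) {y : W3} (hb : ∀ k, |y k| ≤ 1 / 5) :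
    XX ℓ i y ≤ 1 / 3 := by
  have hl := ell_BT hp i
  have h1 := abs_le.1 (hb (i + 1))
  have h2 := abs_le.1 (hb (i + 2))
  unfold XX
  rw [div_le_iff₀ (by linarith)]
  linarith [h1.1, h2.2]

private lemma xx_add_BT {ℓ γ : Fin 3 → ℝ} (hp : Par ℓ γ) (i : Fin 3) (y : W3) :
    XX ℓ i (y + uu ℓ (Ee i)) = XX ℓ i y + 1 := by
  have hl := ell_BT hp i
  have h0 : ℓ i ≠ 0 := by linarith
  unfold XX
  simp only [Pi.add_apply, uu_one, uu_two]
  field_simp
  ring

/-- the coordinate `j ≠ i` of `y + u_i` is large -/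
private lemma big_BT {ℓ γ : Fin 3 → ℝ} (hp : Par ℓ γ) {i j : Fin 3} (hij : j ≠ i) {y : W3}
    (hb : ∀ k, |y k| ≤ 1 / 5) : 7 / 10 ≤ |(y + uu ℓ (Ee i)) j| := by
  have hl := ell_BT hp i
  have h1 := abs_le.1 (hb j)
  rcases cyc_cases i j with rfl | rfl | rfl
  · exact absurd rfl hij
  · rw [Pi.add_apply, uu_one, le_abs]
    right
    linarith [h1.2]
  · rw [Pi.add_apply, uu_two, le_abs]
    left
    linarith [h1.1]

private def O_BT (p : Fin 3 → ℝ) : Matrix (Fin 4) (Fin 4) ℝ :=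
  !![p 0, p 1, p 2, 0; 0, -p 2, p 1, p 0; p 2, 0, -p 0, p 1; -p 1, p 0, 0, p 2]

private lemma orth_BT (p : Fin 3 → ℝ) (h : p 0 ^ 2 + p 1 ^ 2 + p 2 ^ 2 = 1) :
    O_BT p * (O_BT p)ᵀ = 1 := by
  ext i j
  fin_cases i <;> fin_cases j <;>
    simp [O_BT, Matrix.mul_apply, Fin.sum_univ_four] <;>
    first | ring1 | linear_combination h

private lemma val_cc_BT {ℓ γ : Fin 3 → ℝ} (hV : StVx) (hp : Par ℓ γ) {y : W3} (hy : Pl y)
    (hb : ∀ k, |y k| ≤ 1 / 5) (k l : Fin 3) (c : Fin 4) :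
    Kr ℓ γ c (y + uu ℓ (Ee k)) (Ee l - Ee k) 0 0 =
      O_BT (fun k => pp k y) c k.castSucc * O_BT (fun k => pp k y) c l.castSucc := by
  have hk := hV ℓ γ hp k y hy hb
  rw [add_comm (uu ℓ (Ee k)) y] at hk
  obtain ⟨g1, e0, e1, e2⟩ := hk
  rcases eq_or_ne k l with rfl | hkl
  · rw [sub_self, v_ee]
    unfold Dg
    refine Fin.cases ?_ (fun m => ?_) c
    · simp only [Fin.cases_zero, Matrix.cons_val_zero, g1]
      fin_cases k <;> simp [O_BT] <;> ring
    · simp only [Fin.cases_succ, Matrix.cons_val_zero]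
      rcases cyc_cases k m with rfl | rfl | rfl
      · rw [e0]
        fin_cases m <;> simp [O_BT]
      · rw [e1]
        fin_cases k <;> simp [O_BT] <;> ring
      · rw [e2]
        fin_cases k <;> simp [O_BT] <;> ring
  · have hl := (hV ℓ γ hp l y hy hb).1
    rw [add_comm (uu ℓ (Ee l)) y] at hl
    have hn : Ee l - Ee k ≠ 0 := fun h => hkl (Ee_inj.1 (sub_eq_zero.1 h)).symm
    have hw : y + uu ℓ (Ee k) + uu ℓ (Ee l - Ee k) = y + uu ℓ (Ee l) := by
      rw [uu_sub]; abel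
    rw [v_ee' _ _ hn, hw, g1, hl]
    refine Fin.cases ?_ (fun m => ?_) c
    · rw [tc0_BT hkl]
      fin_cases k <;> fin_cases l <;> simp [O_BT]
    · rw [tcs_BT hkl]
      fin_cases k <;> fin_cases l <;> fin_cases m <;> simp [O_BT] at hkl ⊢ <;> ring


private lemma val_tt_BT {ℓ γ : Fin 3 → ℝ} (y : W3) (c : Fin 4) :
    Kr ℓ γ c y 0 2 2 =
      O_BT (fun k => pp k y) c 3 * O_BT (fun k => pp k y) c 3 := by
  rw [v_tt]
  unfold Dg
  refine Fin.cases ?_ (fun m => ?_) c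
  · simp [O_BT]
  · simp only [Fin.cases_succ]
    fin_cases m <;> simp [O_BT] <;> ring

private lemma val_tc_BT {ℓ γ : Fin 3 → ℝ} (hp : Par ℓ γ) {y : W3}
    (hb : ∀ k, |y k| ≤ 1 / 5) (k : Fin 3) (c : Fin 4) :
    Kr ℓ γ c y (Ee k) 2 0 =
      O_BT (fun k => pp k y) c 3 * O_BT (fun k => pp k y) c k.castSucc := by
  rw [v_tA, fA_low (xx_BT hp k hb)]
  unfold si sg
  fin_cases c <;> fin_cases k <;> simp [O_BT, mul_comm]


private lemma far_BT {ℓ γ : Fin 3 → ℝ} (hp : Par ℓ γ) {y : W3}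
    (hb : ∀ k, |y k| ≤ 1 / 5) {k p q : Fin 3} (hpq : p ≠ q) (hqk : q ≠ k) :
    ∃ j, 41 / 40 ≤ |(y + uu ℓ (Ee k) + uu ℓ (Ee p - Ee q)) j| := by
  have a1 : uu ℓ (Ee (k + 1)) k = ℓ (k + 1) := by
    have := uu_two ℓ (k + 1); rwa [c12] at this
  have a2 : uu ℓ (Ee (k + 1)) (k + 2) = -ℓ (k + 1) := by
    have := uu_one ℓ (k + 1); rwa [c11] at this
  have b1 : uu ℓ (Ee (k + 2)) k = -ℓ (k + 2) := by
    have := uu_one ℓ (k + 2); rwa [c21] at this
  have b2 : uu ℓ (Ee (k + 2)) (k + 1) = ℓ (k + 2) := by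
    have := uu_two ℓ (k + 2); rwa [c22] at this
  have l0 := ell_BT hp k
  have l1 := ell_BT hp (k + 1)
  have l2 := ell_BT hp (k + 2)
  have y0 := abs_le.1 (hb k)
  have y1 := abs_le.1 (hb (k + 1))
  have y2 := abs_le.1 (hb (k + 2))
  have s0 := uu_self ℓ k
  have s1 := uu_one ℓ k
  have s2 := uu_two ℓ k
  rcases cyc_cases k p with h | h | h <;> rcases cyc_cases k q with h' | h' | h'
  · exact absurd h' hqk
  · refine ⟨k + 2, ?_⟩
    rw [h, h', uu_sub, Pi.add_apply, Pi.add_apply, Pi.sub_apply, s2, a2, le_abs]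
    left
    linarith [y2.1]
  · refine ⟨k + 1, ?_⟩
    rw [h, h', uu_sub, Pi.add_apply, Pi.add_apply, Pi.sub_apply, s1, b2, le_abs]
    right
    linarith [y1.2]
  · exact absurd h' hqk
  · exact absurd (h.trans h'.symm) hpq
  · refine ⟨k, ?_⟩
    rw [h, h', uu_sub, Pi.add_apply, Pi.add_apply, Pi.sub_apply, s0, a1, b1, le_abs]
    left
    linarith [y0.1]
  · exact absurd h' hqk
  · refine ⟨k, ?_⟩
    rw [h, h', uu_sub, Pi.add_apply, Pi.add_apply, Pi.sub_apply, s0, a1, b1, le_abs]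
    right
    linarith [y0.2]
  · exact absurd (h.trans h'.symm) hpq

private def P_BT : Fin 4 → Fin 3 × Z3 := ![((0 : Fin 3), Ee 0), (0, Ee 1), (0, Ee 2), (2, 0)]

private lemma P_cs_BT (k : Fin 3) : P_BT k.castSucc = (0, Ee k) := by
  fin_cases k <;> rfl

private lemma P_3_BT : P_BT 3 = (2, 0) := rfl

private lemma out_t_BT {ℓ γ : Fin 3 → ℝ} (hp : Par ℓ γ) {y : W3}
    (hb : ∀ k, |y k| ≤ 1 / 5) (c : Fin 4) (b : Fin 3) (m : Z3)
    (hP : ∀ j, P_BT j ≠ (b, m)) : Kr ℓ γ c y m 2 b = 0 := by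
  by_contra hne
  have h20 : (2 : Fin 3) ≠ 0 := by decide
  have h21 : (2 : Fin 3) ≠ 1 := by decide
  rcases link_of_ne hne with ⟨h1, h2⟩ | ⟨h1, -⟩ | ⟨i, h⟩
  · exact hP 3 (by rw [P_3_BT, ← h1, h2])
  · exact h20 h1
  · have hx := xx_BT hp i hb
    rcases h with ⟨-, -, h⟩ | ⟨h, -⟩ | ⟨h, -⟩ | ⟨h, -⟩ | ⟨h, -⟩
    · rcases h with ⟨h1, h2, -⟩ | ⟨-, -, h3⟩ | ⟨-, -, h3, -⟩ | ⟨-, -, h3, -⟩
      · exact hP i.castSucc (by rw [P_cs_BT, h1, h2])
      · linarith
      · linarith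
      · linarith
    · exact h21 h
    · exact h21 h
    · exact h20 h
    · exact h20 h

private lemma out_e_BT {ℓ γ : Fin 3 → ℝ} (hO : StOut) (hp : Par ℓ γ) {y : W3} (hy : Pl y)
    (hb : ∀ k, |y k| ≤ 1 / 5) (k : Fin 3) (c : Fin 4) (b : Fin 3) (m : Z3)
    (hP : ∀ j, P_BT j ≠ (b, Ee k + m)) : Kr ℓ γ c (y + uu ℓ (Ee k)) m 0 b = 0 := by
  by_contra hne
  have h02 : (0 : Fin 3) ≠ 2 := by decide
  have h01 : (0 : Fin 3) ≠ 1 := by decide
  have hl := ell_BT hp k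
  rcases link_of_ne hne with ⟨h1, h2⟩ | ⟨-, h1, -, h3, p, q, hpq, h4⟩ | ⟨i, h⟩
  · exact hP k.castSucc (by rw [P_cs_BT, ← h1, h2, add_zero])
  · subst h4
    by_cases hqk : q = k
    · subst hqk
      exact hP p.castSucc (by rw [P_cs_BT, h1, add_sub_cancel])
    · exact h3 (hO ℓ γ hp _ (Pl_add (Pl_add hy (Pl_uu _ _)) (Pl_uu _ _)) (far_BT hp hb hpq hqk))
  · rcases h with ⟨h, -⟩ | ⟨h, -⟩ | ⟨h, -⟩ | ⟨-, h1, h⟩ | ⟨-, h1, h⟩
    · exact h02 h
    · exact h01 h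
    · exact h01 h
    · rcases h with ⟨h2, h3, -⟩ | ⟨h2, h3, h4⟩
      · by_cases hik : i = k
        · subst hik
          exact hP 3 (by rw [P_3_BT, h1, h2, add_neg_cancel])
        · have h5 := (si_ne h3).1
          rw [h2, uu_neg, Pi.add_apply, Pi.neg_apply, uu_self, neg_zero, add_zero] at h5
          linarith [big_BT hp hik hb]
      · by_cases hik : i = k
        · subst hik
          rw [xx_add_BT hp] at h4
          linarith [xx_BT hp i hb]
        · linarith [(si_ne h3).1, big_BT hp hik hb]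
    · rcases h with ⟨h2, h3, -⟩ | ⟨h2, h3, -⟩
      · by_cases hik : i = k
        · subst hik
          have h5 := (si_ne h3).2.1
          rw [h2, Pi.neg_apply, Pi.add_apply, Pi.add_apply, uu_one] at h5
          linarith [(abs_le.1 (hb (i + 1))).2]
        · have h5 := (si_ne h3).1
          rw [h2, Pi.neg_apply, abs_neg, Pi.add_apply, uu_self, add_zero] at h5
          linarith [big_BT hp hik hb]
      · by_cases hik : i = k
        · subst hik
          have h5 := (si_ne h3).2.1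
          rw [Pi.neg_apply, Pi.add_apply, uu_one] at h5
          linarith [(abs_le.1 (hb (i + 1))).2]
        · have h5 := (si_ne h3).1
          rw [Pi.neg_apply, abs_neg] at h5
          linarith [big_BT hp hik hb]

private lemma cases4_BT (i : Fin 4) : i = 3 ∨ ∃ k : Fin 3, i = k.castSucc := by
  fin_cases i
  · exact Or.inr ⟨0, rfl⟩
  · exact Or.inr ⟨1, rfl⟩
  · exact Or.inr ⟨2, rfl⟩
  · exact Or.inl rfl

private lemma sum_BT (O : Matrix (Fin 4) (Fin 4) ℝ) (i j c : Fin 4) :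
    (∑ r, if (![(0 : Fin 4), 1, 2, 3] : Fin 4 → Fin 4) r = c then O r i * O r j else 0) =
      O c i * O c j := by
  have h : ∀ r, (![(0 : Fin 4), 1, 2, 3] : Fin 4 → Fin 4) r = r := by decide
  simp only [h]
  rw [Finset.sum_ite_eq' Finset.univ c]
  simp

theorem m_BT (hV : StVx) (hO : StOut) : StBT := by
  intro ℓ γ hp y hy hb
  refine ⟨?_, ?_, ?_, ?_⟩
  · change Function.Injective P_BT
    unfold P_BT Ee
    decide
  · exact orth_BT (fun k => pp k y) (pp_sq_sum hy)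
  · intro i c b m h
    change ∀ j, P_BT j ≠ (b, (P_BT i).2 + m) at h
    change Kr ℓ γ c (y + uu ℓ (P_BT i).2) m (P_BT i).1 b = 0
    rcases cases4_BT i with rfl | ⟨k, rfl⟩
    · rw [P_3_BT] at h ⊢
      simp only [zero_add] at h
      simp only [uu_zero, add_zero]
      exact out_t_BT hp hb c b m h
    · rw [P_cs_BT] at h ⊢
      exact out_e_BT hO hp hy hb k c b m h
  · intro i j c
    rw [sum_BT]
    change Kr ℓ γ c (y + uu ℓ (P_BT i).2) ((P_BT j).2 - (P_BT i).2) (P_BT i).1 (P_BT j).1 =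
      O_BT (fun k => pp k y) c i * O_BT (fun k => pp k y) c j
    rcases cases4_BT i with rfl | ⟨k, rfl⟩ <;> rcases cases4_BT j with rfl | ⟨l, rfl⟩
    · rw [P_3_BT]
      simp only [uu_zero, add_zero, sub_self]
      exact val_tt_BT y c
    · rw [P_3_BT, P_cs_BT]
      simp only [uu_zero, add_zero, sub_zero]
      exact val_tc_BT hp hb l c
    · rw [P_3_BT, P_cs_BT]
      simp only [zero_sub]
      rw [Kr_symm', neg_neg, uu_neg, add_neg_cancel_right, mul_comm]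
      exact val_tc_BT hp hb k c
    · rw [P_cs_BT, P_cs_BT]
      exact val_cc_BT hV hp hy hb k l c

end Pool.Agent.Helper56.EX
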