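import Pool.Agent.Helper56.EX.St

/-!
# Project EX: module CASES
-/

set_option autoImplicit false

open Matrix
open scoped ContDiff

noncomputable section

namespace Pool.Agent.Helper56.EX

private lemma pos_CASES (ℓ γ : Fin 3 → ℝ) (hp : Par ℓ γ) (w : W3) (hw : Pl w)
    (hall : ∀ k, |w k| < 21 / 20) (k : Fin 3) (hk : 19 / 20 < w k) :
    (∃ (i : Fin 3) (y : W3), Pl y ∧ (∀ k, |y k| ≤ 1 / 5) ∧
      (w = uu ℓ (Ee i) + y ∨ w = -(uu ℓ (Ee i) + y))) ∨ Strip k w := by
  have hs := Pl_cyc hw k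
  have h0 := abs_lt.mp (hall k)
  have h1 := abs_lt.mp (hall (k + 1))
  have h2 := abs_lt.mp (hall (k + 2))
  by_cases hB : -(2 / 25) < w (k + 1)
  · left
    refine ⟨k + 1, w - uu ℓ (Ee (k + 1)), Pl_sub hw (Pl_uu _ _), ?_, Or.inl (by abel)⟩
    have hl := abs_le.mp (hp.l (k + 1))
    have u0 : uu ℓ (Ee (k + 1)) (k + 1) = 0 := uu_self ℓ (k + 1)
    have u1 : uu ℓ (Ee (k + 1)) (k + 2) = -ℓ (k + 1) := by
      have := uu_one ℓ (k + 1)
      rwa [c11] at this
    have u2 : uu ℓ (Ee (k + 1)) k = ℓ (k + 1) := by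
      have := uu_two ℓ (k + 1)
      rwa [c12] at this
    intro j
    rcases cyc_cases k j with rfl | rfl | rfl
    · rw [Pi.sub_apply, u2, abs_le]
      constructor <;> linarith
    · rw [Pi.sub_apply, u0, abs_le]
      constructor <;> linarith
    · rw [Pi.sub_apply, u1, abs_le]
      constructor <;> linarith
  by_cases hC : -(2 / 25) < w (k + 2)
  · left
    refine ⟨k + 2, -w - uu ℓ (Ee (k + 2)), Pl_sub (Pl_neg hw) (Pl_uu _ _), ?_, Or.inr (by abel)⟩
    have hl := abs_le.mp (hp.l (k + 2))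
    have u0 : uu ℓ (Ee (k + 2)) (k + 2) = 0 := uu_self ℓ (k + 2)
    have u1 : uu ℓ (Ee (k + 2)) k = -ℓ (k + 2) := by
      have := uu_one ℓ (k + 2)
      rwa [c21] at this
    have u2 : uu ℓ (Ee (k + 2)) (k + 1) = ℓ (k + 2) := by
      have := uu_two ℓ (k + 2)
      rwa [c22] at this
    intro j
    rcases cyc_cases k j with rfl | rfl | rfl
    · rw [Pi.sub_apply, Pi.neg_apply, u1, abs_le]
      constructor <;> linarith
    · rw [Pi.sub_apply, Pi.neg_apply, u2, abs_le]
      constructor <;> linarith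
    · rw [Pi.sub_apply, Pi.neg_apply, u0, abs_le]
      constructor <;> linarith
  · right
    push Not at hB hC
    refine ⟨by linarith, by linarith, by linarith, by linarith, by linarith, by linarith⟩

theorem m_CASES : StCases := by
  intro ℓ γ hp w hw
  by_cases h1 : ∀ k, |w k| ≤ 19 / 20
  · exact Or.inl h1
  by_cases h2 : ∃ k, 21 / 20 ≤ |w k|
  · exact Or.inr (Or.inl h2)
  right; right
  push Not at h1 h2
  obtain ⟨k, hk⟩ := h1
  rcases lt_abs.mp hk with hk | hk
  · rcases pos_CASES ℓ γ hp w hw h2 k hk with h | h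
    · exact Or.inl h
    · exact Or.inr ⟨k, Or.inl h⟩
  · rcases pos_CASES ℓ γ hp (-w) (Pl_neg hw) (fun j => by rw [Pi.neg_apply, abs_neg]; exact h2 j) k
      (by rw [Pi.neg_apply]; exact hk) with ⟨i, y, hy1, hy2, hy3⟩ | h
    · left
      refine ⟨i, y, hy1, hy2, ?_⟩
      rcases hy3 with h | h
      · right
        rw [← h, neg_neg]
      · left
        rw [neg_inj] at h
        exact h
    · exact Or.inr ⟨k, Or.inr h⟩

end Pool.Agent.Helper56.EX
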