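import Pool.Agent.Helper56.EX.St

/-!
# Module COLP of project EX
-/

set_option autoImplicit false

open Matrix
open scoped ContDiff

noncomputable section

namespace Pool.Agent.Helper56.EX

private lemma ta_COLP {w : W3} (hw : Pl w) (h : ∃ k, 17 / 10 ≤ |w k|) : ta w = 1 := by
  obtain ⟨k, hk⟩ := h
  unfold ta
  apply Real.smoothTransition.one_of_one_le
  have hs := Pl_cyc hw k
  have h1 : (17 / 10 : ℝ) ^ 2 ≤ w k ^ 2 := by
    rw [← sq_abs (w k)]
    exact pow_le_pow_left₀ (by norm_num) hk 2
  have h2 : w 0 ^ 2 + w 1 ^ 2 + w 2 ^ 2 = w k ^ 2 + w (k + 1) ^ 2 + w (k + 2) ^ 2 := by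
    fin_cases k <;> simp <;> ring
  rw [h2]
  have h3 : w k = -(w (k + 1) + w (k + 2)) := by linarith
  have h4 : w k ^ 2 ≤ 2 * (w (k + 1) ^ 2 + w (k + 2) ^ 2) := by
    rw [h3]
    nlinarith [sq_nonneg (w (k + 1) - w (k + 2))]
  norm_num at h1
  linarith

private lemma CgDh_COLP (x : ℝ) : ∃ a b : ℝ, a ^ 2 + b ^ 2 = 1 ∧ Cg x = a - b ∧
    Dh x = Real.sqrt 2 * b ∧ Nn x = a ^ 2 - b ^ 2 ∧ Pp x = 2 * a * b := by
  refine ⟨Real.cos (th x / 2), Real.sin (th x / 2), Real.cos_sq_add_sin_sq _, ?_, rfl, ?_, ?_⟩
  · unfold Cg
    rw [th_neg, show (Real.pi / 2 - th x) / 2 = Real.pi / 4 - th x / 2 by ring, Real.sin_sub,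
      Real.sin_pi_div_four, Real.cos_pi_div_four]
    have h2 : Real.sqrt 2 * Real.sqrt 2 = 2 := Real.mul_self_sqrt (by norm_num)
    linear_combination (Real.cos (th x / 2) - Real.sin (th x / 2)) / 2 * h2
  · unfold Nn
    have := Real.cos_two_mul (th x / 2)
    rw [show 2 * (th x / 2) = th x by ring] at this
    have h1 := Real.cos_sq_add_sin_sq (th x / 2)
    rw [this]
    linarith
  · unfold Pp
    have := Real.sin_two_mul (th x / 2)
    rw [show 2 * (th x / 2) = th x by ring] at this
    rw [this]
    ring

private lemma low_COLP {x : ℝ} (h : x ≤ -(1 / 50)) : Cg x = 1 ∧ Dh x = 0 := by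
  have h2 : Real.sqrt 2 * Real.sqrt 2 = 2 := Real.mul_self_sqrt (by norm_num)
  constructor
  · unfold Cg
    rw [th_high (by linarith), show Real.pi / 2 / 2 = Real.pi / 4 by ring, Real.sin_pi_div_four]
    linarith
  · unfold Dh
    rw [th_low h]
    simp

private lemma high_COLP {x : ℝ} (h : 1 / 50 ≤ x) : Cg x = 0 ∧ Dh x = 1 := by
  have h2 : Real.sqrt 2 * Real.sqrt 2 = 2 := Real.mul_self_sqrt (by norm_num)
  constructor
  · unfold Cg
    rw [th_low (by linarith)]
    simp
  · unfold Dh
    rw [th_high h, show Real.pi / 2 / 2 = Real.pi / 4 by ring, Real.sin_pi_div_four]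
    linarith

private lemma fm_COLP {w : W3} {a b : ℝ} {z : Fin 4 → ℝ} (ht : ta w = 1) (hz : qq w = z)
    (h1 : z 0 ^ 2 + z 1 ^ 2 + z 2 ^ 2 + z 3 ^ 2 = 1) (_ : a ^ 2 + b ^ 2 = 1) :
    Fm w = rotm z := by
  have hzz : zz w = z := by
    unfold zz
    rw [ht, hz]
    ext j
    fin_cases j <;> simp
  have hzn : zn w = 1 := by
    unfold zn
    rw [hzz]
    exact h1
  unfold Fm
  rw [hzn, hzz, inv_one, one_smul]

private lemma ent_COLP (M : Matrix (Fin 3) (Fin 3) ℝ) (v : Fin 3 → ℝ) (k : Fin 3)
    (h : (∀ x, M x k = v x) ∨ (∀ x, M x k = -v x)) :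
    M * Matrix.single k k 1 * Mᵀ = Matrix.vecMulVec v v := by
  have hk : M * Matrix.single k k 1 * Mᵀ = Matrix.vecMulVec (fun x => M x k) (fun x => M x k) := by
    ext x y
    rw [Matrix.mul_apply]
    simp only [Matrix.mul_apply, Matrix.single_apply, Matrix.transpose_apply,
      Matrix.vecMulVec_apply]
    rw [Finset.sum_eq_single k]
    · rw [Finset.sum_eq_single k]
      · simp
      · intro b _ hb
        simp [hb.symm]
      · simp
    · intro b _ hb
      rw [Finset.sum_eq_zero, zero_mul]
      intro c _
      simp [hb.symm]
    · simp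
  rw [hk]
  rcases h with h | h
  · ext x y
    simp only [Matrix.vecMulVec_apply, h]
  · ext x y
    simp only [Matrix.vecMulVec_apply, h]
    ring

theorem m_COLP : StColP := by
  intro w hw hk i hi k
  have ht := ta_COLP hw hk
  obtain ⟨a, b, hab, hC, hD, hN, hP⟩ := CgDh_COLP (w i)
  obtain ⟨l1, l2⟩ := low_COLP hi.1
  obtain ⟨l3, l4⟩ := high_COLP hi.2
  have h2 : Real.sqrt 2 * Real.sqrt 2 = 2 := Real.mul_self_sqrt (by norm_num)
  have e3 : (1 : Fin 3) + 1 = 2 := rfl
  have e4 : (1 : Fin 3) + 2 = 0 := rfl
  have e5 : (2 : Fin 3) + 1 = 0 := rfl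
  have e6 : (2 : Fin 3) + 2 = 1 := rfl
  fin_cases i
  · simp only [Fin.zero_eta, Fin.isValue, zero_add] at *
    have hq : qq w = ![(a + b) / 2, (a - b) / 2, -((a + b) / 2), -((a - b) / 2)] := by
      unfold qq
      ext j
      fin_cases j <;> simp [hC, hD, l1, l2, l3, l4] <;>
        first
        | ring1
        | linear_combination (b / 2) * h2
        | linear_combination (-b / 2) * h2
    rw [fm_COLP ht hq (by simp; linear_combination hab) hab]
    apply ent_COLP
    fin_cases k
    · first
      | (left; intro x; fin_cases x <;> simp [rotm, vP, g0, hN, hP] <;>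
          first | ring1 | linear_combination hab | linear_combination -hab)
      | (right; intro x; fin_cases x <;> simp [rotm, vP, g0, hN, hP] <;>
          first | ring1 | linear_combination hab | linear_combination -hab)
    · first
      | (left; intro x; fin_cases x <;> simp [rotm, vP, g0, hN, hP] <;>
          first | ring1 | linear_combination hab | linear_combination -hab)
      | (right; intro x; fin_cases x <;> simp [rotm, vP, g0, hN, hP] <;>
          first | ring1 | linear_combination hab | linear_combination -hab)
    · first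
      | (left; intro x; fin_cases x <;> simp [rotm, vP, g0, hN, hP] <;>
          first | ring1 | linear_combination hab | linear_combination -hab)
      | (right; intro x; fin_cases x <;> simp [rotm, vP, g0, hN, hP] <;>
          first | ring1 | linear_combination hab | linear_combination -hab)
  · simp only [Fin.mk_one, Fin.isValue, e3, e4] at *
    have hq : qq w = ![a, b, 0, 0] := by
      unfold qq
      ext j
      fin_cases j <;> simp [hC, hD, l1, l2, l3, l4] <;>
        first
        | ring1
        | linear_combination (b / 2) * h2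
        | linear_combination (-b / 2) * h2
    rw [fm_COLP ht hq (by simp; linear_combination hab) hab]
    apply ent_COLP
    fin_cases k
    · first
      | (left; intro x; fin_cases x <;> simp [rotm, vP, g0, hN, hP] <;>
          first | ring1 | linear_combination hab | linear_combination -hab)
      | (right; intro x; fin_cases x <;> simp [rotm, vP, g0, hN, hP] <;>
          first | ring1 | linear_combination hab | linear_combination -hab)
    · first
      | (left; intro x; fin_cases x <;> simp [rotm, vP, g0, hN, hP] <;>
          first | ring1 | linear_combination hab | linear_combination -hab)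
      | (right; intro x; fin_cases x <;> simp [rotm, vP, g0, hN, hP] <;>
          first | ring1 | linear_combination hab | linear_combination -hab)
    · first
      | (left; intro x; fin_cases x <;> simp [rotm, vP, g0, hN, hP] <;>
          first | ring1 | linear_combination hab | linear_combination -hab)
      | (right; intro x; fin_cases x <;> simp [rotm, vP, g0, hN, hP] <;>
          first | ring1 | linear_combination hab | linear_combination -hab)
  · simp only [Fin.reduceFinMk, Fin.isValue, e5, e6] at *
    have hq : qq w = ![(a - b) / 2, (a + b) / 2, -((a + b) / 2), (a - b) / 2] := by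
      unfold qq
      ext j
      fin_cases j <;> simp [hC, hD, l1, l2, l3, l4] <;>
        first
        | ring1
        | linear_combination (b / 2) * h2
        | linear_combination (-b / 2) * h2
    rw [fm_COLP ht hq (by simp; linear_combination hab) hab]
    apply ent_COLP
    fin_cases k
    · first
      | (left; intro x; fin_cases x <;> simp [rotm, vP, g0, hN, hP] <;>
          first | ring1 | linear_combination hab | linear_combination -hab)
      | (right; intro x; fin_cases x <;> simp [rotm, vP, g0, hN, hP] <;>
          first | ring1 | linear_combination hab | linear_combination -hab)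
    · first
      | (left; intro x; fin_cases x <;> simp [rotm, vP, g0, hN, hP] <;>
          first | ring1 | linear_combination hab | linear_combination -hab)
      | (right; intro x; fin_cases x <;> simp [rotm, vP, g0, hN, hP] <;>
          first | ring1 | linear_combination hab | linear_combination -hab)
    · first
      | (left; intro x; fin_cases x <;> simp [rotm, vP, g0, hN, hP] <;>
          first | ring1 | linear_combination hab | linear_combination -hab)
      | (right; intro x; fin_cases x <;> simp [rotm, vP, g0, hN, hP] <;>
          first | ring1 | linear_combination hab | linear_combination -hab)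

end Pool.Agent.Helper56.EX
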