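import Pool.Agent.Helper56.EX.St2

/-!
# Project EX (MP_d629b1): module D1 (tensor product of planar frames and windows)
-/

set_option autoImplicit false

open Matrix MeasureTheory
open scoped ContDiff ComplexConjugate FourierTransform SchwartzMap
open Pool.Agent.Helper54.Wav

noncomputable section

namespace Pool.Agent.Helper56.EX

/-- a window times a character -/
def W_D1 (om : Fin 3 → Fin 4) (b : ℕ) (p : Fin 3 × Fin 2) (t : ℝ) : ℂ :=
  Om (om p.1) t * ee (((2 * b + (p.2 : ℕ) : ℕ) : ℝ) * t)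

/-- the function `g (n,b)` -/
def G_D1 (om : Fin 3 → Fin 4) (M b : ℕ) (S : (Fin 2 → ℝ) → Fin 3 → Fin 2 → ℂ)
    (ξ : Fin 3 → ℝ) : ℂ :=
  ((1 / Real.sqrt M : ℝ) : ℂ) *
    ∑ p : Fin 3 × Fin 2, S (pl ξ) p.1 p.2 * W_D1 om b p (ξ 2 / M)

private lemma sqrt_D1 (M : ℕ) :
    ((1 / Real.sqrt M : ℝ) : ℂ) * ((1 / Real.sqrt M : ℝ) : ℂ) = 1 / (M : ℂ) := by
  rw [← Complex.ofReal_mul]
  have h : (1 / Real.sqrt M) * (1 / Real.sqrt M) = (1 / (M : ℝ)) := by
    rw [div_mul_div_comm, Real.mul_self_sqrt (by positivity)]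
    ring
  rw [h]
  push_cast
  rfl

private lemma prod_D1 (om : Fin 3 → Fin 4) (M b : ℕ) (S : (Fin 2 → ℝ) → Fin 3 → Fin 2 → ℂ)
    (ξ ξ' : Fin 3 → ℝ) :
    G_D1 om M b S ξ * conj (G_D1 om M b S ξ') = 1 / (M : ℂ) *
      ∑ p : Fin 3 × Fin 2, ∑ p' : Fin 3 × Fin 2,
        (S (pl ξ) p.1 p.2 * conj (S (pl ξ') p'.1 p'.2)) *
          (W_D1 om b p (ξ 2 / M) * conj (W_D1 om b p' (ξ' 2 / M))) := by
  unfold G_D1
  rw [map_mul, Complex.conj_ofReal, map_sum]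
  rw [show ∀ x y z w : ℂ, x * y * (z * w) = (x * z) * (y * w) from fun x y z w => by ring,
    sqrt_D1, Finset.sum_mul_sum]
  congr 1
  refine Finset.sum_congr rfl fun p _ => Finset.sum_congr rfl fun p' _ => ?_
  rw [map_mul]
  ring

private lemma pl_smooth_D1 : ContDiff ℝ ∞ pl := by
  rw [contDiff_pi]
  intro i
  fin_cases i
  · exact contDiff_apply ℝ ℝ (0 : Fin 3)
  · exact contDiff_apply ℝ ℝ (1 : Fin 3)

private lemma W_smooth_D1 (h3 : StA3) (om : Fin 3 → Fin 4) (b : ℕ) (p : Fin 3 × Fin 2) :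
    ContDiff ℝ ∞ (W_D1 om b p) := by
  unfold W_D1
  exact (h3 (om p.1)).1.mul (ee_contDiff.comp (contDiff_const.mul contDiff_id))

private lemma G_smooth_D1 (h3 : StA3) (om : Fin 3 → Fin 4) (M b : ℕ)
    (S : (Fin 2 → ℝ) → Fin 3 → Fin 2 → ℂ) (hS : ∀ a e, ContDiff ℝ ∞ (fun η => S η a e)) :
    ContDiff ℝ ∞ (G_D1 om M b S) := by
  unfold G_D1
  refine contDiff_const.mul (ContDiff.sum fun p _ => ?_)
  refine ((hS p.1 p.2).comp pl_smooth_D1).mul ((W_smooth_D1 h3 om b p).comp ?_)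
  exact (contDiff_apply ℝ ℝ (2 : Fin 3)).div_const _

private lemma G_supp_D1 (h3 : StA3) (om : Fin 3 → Fin 4) (M b : ℕ) (hM : 0 < M)
    (S : (Fin 2 → ℝ) → Fin 3 → Fin 2 → ℂ) (R : ℝ) (hS : ∀ η, R ≤ ‖η‖ → S η = 0)
    (ξ : Fin 3 → ℝ) (hξ : max R (16 / 3 * M) < ‖ξ‖) : G_D1 om M b S ξ = 0 := by
  have hM' : (0 : ℝ) < M := by exact_mod_cast hM
  have hR := le_max_left R (16 / 3 * (M : ℝ))
  have hR2 := le_max_right R (16 / 3 * (M : ℝ))
  have h16 : (0 : ℝ) ≤ 16 / 3 * M := by positivity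
  obtain ⟨i, hi⟩ : ∃ i, max R (16 / 3 * (M : ℝ)) < ‖ξ i‖ := by
    by_contra hcon
    push Not at hcon
    have := (pi_norm_le_iff_of_nonneg (h16.trans hR2)).2 hcon
    linarith
  unfold G_D1
  have hz : ∀ p : Fin 3 × Fin 2, S (pl ξ) p.1 p.2 * W_D1 om b p (ξ 2 / M) = 0 := by
    intro p
    by_cases h2 : i = 2
    · subst h2
      unfold W_D1
      rw [(h3 (om p.1)).2.1 (ξ 2 / M) ?_, zero_mul, mul_zero]
      rw [Real.norm_eq_abs] at hi
      rw [abs_div, abs_of_pos hM', le_div_iff₀ hM']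
      linarith
    · have h1 : ‖ξ i‖ ≤ ‖pl ξ‖ := by
        fin_cases i
        · exact norm_le_pi_norm (pl ξ) 0
        · exact norm_le_pi_norm (pl ξ) 1
        · exact absurd rfl h2
      rw [hS (pl ξ) (by linarith)]
      simp
  rw [Finset.sum_eq_zero (fun p _ => hz p), mul_zero]

private lemma G_compact_D1 (h3 : StA3) (om : Fin 3 → Fin 4) (M b : ℕ) (hM : 0 < M)
    (S : (Fin 2 → ℝ) → Fin 3 → Fin 2 → ℂ) (R : ℝ) (hS : ∀ η, R ≤ ‖η‖ → S η = 0) :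
    HasCompactSupport (G_D1 om M b S) := by
  refine HasCompactSupport.intro (isCompact_closedBall (0 : Fin 3 → ℝ) (max R (16 / 3 * M))) ?_
  intro ξ hξ
  rw [mem_closedBall_zero_iff, not_le] at hξ
  exact G_supp_D1 h3 om M b hM S R hS ξ hξ

/-! ### sums over `ℤ³` and `ℤ` -/

private lemma fs_mod_D1 (M : ℕ) (hM : 0 < M) (F : ℤ → ℂ) (hF : (Function.support F).Finite) :
    ∑ᶠ k : ℤ, F k = ∑ r : Fin M, ∑ᶠ j : ℤ, F (((r : ℕ) : ℤ) + j * M) := by
  have : NeZero M := ⟨hM.ne'⟩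
  let e : Fin M × ℤ ≃ ℤ := (Equiv.prodComm _ _).trans (Int.divModEquiv M).symm
  have he : ∀ r j, e (r, j) = ((r : ℕ) : ℤ) + j * M := by
    intro r j
    change j * (M : ℤ) + ((r : ℕ) : ℤ) = _
    ring
  rw [← finsum_comp_equiv e, finsum_curry _ (by
    change (Function.support (F ∘ e)).Finite
    rw [Function.support_comp_eq_preimage]
    exact hF.preimage e.injective.injOn), finsum_eq_sum_of_fintype]
  refine Finset.sum_congr rfl fun r _ => finsum_congr fun j => ?_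
  rw [he]

private def e3_D1 : (Fin 2 → ℤ) × ℤ ≃ (Fin 3 → ℤ) where
  toFun p := ![p.1 0, p.1 1, p.2]
  invFun m := (plz m, m 2)
  left_inv p := by
    refine Prod.ext ?_ rfl
    ext i
    fin_cases i <;> rfl
  right_inv m := by
    ext i
    fin_cases i <;> rfl

private lemma fs_split_D1 (F : (Fin 3 → ℤ) → ℂ) (hF : (Function.support F).Finite) :
    ∑ᶠ m : Fin 3 → ℤ, F m = ∑ᶠ l : Fin 2 → ℤ, ∑ᶠ k : ℤ, F ![l 0, l 1, k] := by
  rw [← finsum_comp_equiv e3_D1, finsum_curry _ (by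
    change (Function.support (F ∘ e3_D1)).Finite
    rw [Function.support_comp_eq_preimage]
    exact hF.preimage e3_D1.injective.injOn)]
  rfl

private lemma fin_Om_D1 (h3 : StA3) (a : Fin 4) (x c : ℝ) (hc : 0 < c) :
    (Function.support fun k : ℤ => Om a ((x + k) / c)).Finite := by
  refine (Set.finite_Icc (⌈-(16 / 3 * c) - x⌉) (⌊16 / 3 * c - x⌋)).subset ?_
  intro k hk
  rw [Function.mem_support] at hk
  have h1 : |(x + k) / c| ≤ 16 / 3 := by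
    by_contra hcon
    push Not at hcon
    exact hk ((h3 a).2.1 _ hcon.le)
  rw [abs_div, abs_of_pos hc, div_le_iff₀ hc, abs_le] at h1
  exact ⟨Int.ceil_le.2 (by linarith [h1.1]), Int.le_floor.2 (by linarith [h1.2])⟩

/-- difference of two indices -/
private lemma sum_char_D1 (M : ℕ) (hM : 2 ≤ M) (e e' : Fin 2) (z : ℝ) :
    ∑ r : Fin M, ee ((((e : ℕ) : ℤ) - ((e' : ℕ) : ℤ) : ℤ) * ((z + ((r : ℕ) : ℝ)) / M)) =
      if e = e' then (M : ℂ) else 0 := by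
  have hM0 : (M : ℝ) ≠ 0 := by
    have : 0 < M := by omega
    positivity
  have h1 : ∀ r : Fin M, ee ((((e : ℕ) : ℤ) - ((e' : ℕ) : ℤ) : ℤ) * ((z + ((r : ℕ) : ℝ)) / M)) =
      ee ((((e : ℕ) : ℤ) - ((e' : ℕ) : ℤ) : ℤ) * (z / M)) *
        ee ((r : ℕ) * (((((e : ℕ) : ℤ) - ((e' : ℕ) : ℤ) : ℤ) : ℝ) / M)) := by
    intro r
    rw [← ee_add]
    congr 1
    field_simp
  rw [Finset.sum_congr rfl fun r _ => h1 r, ← Finset.mul_sum, sum_ee_fin M (by omega)]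
  by_cases he : e = e'
  · subst he
    simp [ee_zero]
  · rw [if_neg he, if_neg, mul_zero]
    intro hd
    have h2 : (e : ℕ) < 2 := e.2
    have h3 : (e' : ℕ) < 2 := e'.2
    have h4 : (e : ℕ) ≠ (e' : ℕ) := fun h => he (Fin.ext h)
    obtain ⟨c, hc⟩ := hd
    have h5 : (M : ℤ) * c = 1 ∨ (M : ℤ) * c = -1 := by omega
    have h6 : (M : ℤ) ∣ 1 := by
      rcases h5 with h | h
      · exact ⟨c, h.symm⟩
      · exact ⟨-c, by linarith⟩
    have h7 := Int.le_of_dvd (by norm_num) h6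
    omega

/-- the windows over `ℤ` -/
private lemma WG_D1 (h3 : StA3) (h5 : StA5) (om : Fin 3 → Fin 4) (hom : Function.Injective om)
    (M b : ℕ) (hM : 2 ≤ M) (p p' : Fin 3 × Fin 2) (z : ℝ) :
    ∑ᶠ k : ℤ, W_D1 om b p ((z + k) / M) * conj (W_D1 om b p' ((z + k) / M)) =
      if p = p' then (M : ℂ) else 0 := by
  have hM0 : 0 < M := by omega
  have hMr : (0 : ℝ) < M := by exact_mod_cast hM0
  have hfin : (Function.support fun k : ℤ =>
      W_D1 om b p ((z + k) / M) * conj (W_D1 om b p' ((z + k) / M))).Finite := by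
    refine (fin_Om_D1 h3 (om p.1) z M hMr).subset ?_
    intro k hk
    rw [Function.mem_support] at hk ⊢
    intro h
    apply hk
    unfold W_D1
    rw [h, zero_mul, zero_mul]
  rw [fs_mod_D1 M hM0 _ hfin]
  have h1 : ∀ r : Fin M, ∑ᶠ j : ℤ, W_D1 om b p ((z + ((((r : ℕ) : ℤ) + j * M : ℤ) : ℝ)) / M) *
        conj (W_D1 om b p' ((z + ((((r : ℕ) : ℤ) + j * M : ℤ) : ℝ)) / M)) =
      ee ((((p.2 : ℕ) : ℤ) - ((p'.2 : ℕ) : ℤ) : ℤ) * ((z + ((r : ℕ) : ℝ)) / M)) *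
        (if om p.1 = om p'.1 then 1 else 0) := by
    intro r
    rw [← h5 (om p.1) (om p'.1) ((z + ((r : ℕ) : ℝ)) / M), mul_finsum]
    refine finsum_congr fun j => ?_
    have h2 : (z + ((((r : ℕ) : ℤ) + j * M : ℤ) : ℝ)) / M = (z + ((r : ℕ) : ℝ)) / M + j := by
      push_cast
      field_simp
      ring
    rw [h2]
    unfold W_D1
    rw [map_mul, conj_ee]
    rw [show ∀ x y z w : ℂ, x * y * (z * w) = (y * w) * (x * z) from fun x y z w => by ring,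
      ← ee_add]
    congr 1
    have h3 : ((2 * b + (p.2 : ℕ) : ℕ) : ℝ) * ((z + ((r : ℕ) : ℝ)) / M + j) +
        -(((2 * b + (p'.2 : ℕ) : ℕ) : ℝ) * ((z + ((r : ℕ) : ℝ)) / M + j)) =
        (((((p.2 : ℕ) : ℤ) - ((p'.2 : ℕ) : ℤ) : ℤ) : ℝ)) * ((z + ((r : ℕ) : ℝ)) / M) +
          (((((p.2 : ℕ) : ℤ) - ((p'.2 : ℕ) : ℤ)) * j : ℤ) : ℝ) := by
      push_cast
      ring
    rw [h3, ee_add, ee_int, mul_one]
  rw [Finset.sum_congr rfl fun r _ => h1 r, ← Finset.sum_mul, sum_char_D1 M hM]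
  by_cases hp : p = p'
  · subst hp
    simp
  · rw [if_neg hp]
    by_cases h1 : p.1 = p'.1
    · have h2 : p.2 ≠ p'.2 := fun h => hp (Prod.ext h1 h)
      rw [if_neg h2, zero_mul]
    · have h2 : om p.1 ≠ om p'.1 := fun h => h1 (hom h)
      rw [if_neg h2, mul_zero]

private lemma pl_add_D1 (ξ : Fin 3 → ℝ) (l : Fin 2 → ℤ) (k : ℤ) :
    pl (ξ + zv ![l 0, l 1, k]) = pl ξ + zv l := by
  ext i
  fin_cases i <;> rfl

private lemma pl_add'_D1 (ξ : Fin 3 → ℝ) (m : Fin 3 → ℤ) :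
    pl (ξ + zv m) = pl ξ + zv (plz m) := by
  ext i
  fin_cases i <;> rfl

private lemma two_add_D1 (ξ : Fin 3 → ℝ) (l : Fin 2 → ℤ) (k : ℤ) :
    (ξ + zv ![l 0, l 1, k]) 2 = ξ 2 + k := rfl

private lemma two_add'_D1 (ξ : Fin 3 → ℝ) (m : Fin 3 → ℤ) :
    (ξ + zv m) 2 = ξ 2 + m 2 := rfl

/-- the Gram identity -/
private lemma gram_D1 (h3 : StA3) (h5 : StA5) (om : Fin 3 → Fin 4) (hom : Function.Injective om)
    (M b : ℕ) (hM : 2 ≤ M) (S : (Fin 2 → ℝ) → Fin 3 → Fin 2 → ℂ) (R : ℝ)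
    (hS : ∀ η, R ≤ ‖η‖ → S η = 0)
    (hG : ∀ η, ∑ᶠ l : Fin 2 → ℤ, ∑ a, ∑ e, S (η + zv l) a e * conj (S (η + zv l) a e) = 1)
    (ξ : Fin 3 → ℝ) :
    ∑ᶠ m : Fin 3 → ℤ, G_D1 om M b S (ξ + zv m) * conj (G_D1 om M b S (ξ + zv m)) = 1 := by
  have hM0 : 0 < M := by omega
  have hMr : (0 : ℝ) < M := by exact_mod_cast hM0
  have hMc : (M : ℂ) ≠ 0 := by exact_mod_cast hM0.ne'
  rw [fs_split_D1 _ (by
    refine (finite_shift ξ (max R (16 / 3 * M))).subset ?_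
    intro m hm
    rw [Function.mem_support] at hm
    by_contra hcon
    rw [Set.mem_ofPred_eq, not_le] at hcon
    exact hm (by rw [G_supp_D1 h3 om M b hM0 S R hS _ hcon, zero_mul]))]
  rw [← hG (pl ξ)]
  refine finsum_congr fun l => ?_
  have h1 : ∀ k : ℤ, G_D1 om M b S (ξ + zv ![l 0, l 1, k]) *
      conj (G_D1 om M b S (ξ + zv ![l 0, l 1, k])) =
      ∑ p : Fin 3 × Fin 2, ∑ p' : Fin 3 × Fin 2,
        (1 / (M : ℂ) * (S (pl ξ + zv l) p.1 p.2 * conj (S (pl ξ + zv l) p'.1 p'.2))) *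
          (W_D1 om b p ((ξ 2 + k) / M) * conj (W_D1 om b p' ((ξ 2 + k) / M))) := by
    intro k
    rw [prod_D1, Finset.mul_sum]
    refine Finset.sum_congr rfl fun p _ => ?_
    rw [Finset.mul_sum]
    refine Finset.sum_congr rfl fun p' _ => ?_
    rw [pl_add_D1, two_add_D1]
    ring
  rw [finsum_congr h1]
  have hfin : ∀ p p' : Fin 3 × Fin 2, (Function.support fun k : ℤ =>
      (1 / (M : ℂ) * (S (pl ξ + zv l) p.1 p.2 * conj (S (pl ξ + zv l) p'.1 p'.2))) *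
          (W_D1 om b p ((ξ 2 + k) / M) * conj (W_D1 om b p' ((ξ 2 + k) / M)))).Finite := by
    intro p p'
    refine (fin_Om_D1 h3 (om p.1) (ξ 2) M hMr).subset ?_
    intro k hk
    rw [Function.mem_support] at hk ⊢
    intro h
    apply hk
    unfold W_D1
    rw [h, zero_mul, zero_mul, mul_zero]
  rw [finsum_sum_comm _ _ (by
    intro p _
    refine Set.Finite.subset (Set.Finite.biUnion (Finset.finite_toSet Finset.univ)
      (fun p' _ => hfin p p')) ?_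
    intro k hk
    rw [Function.mem_support] at hk
    obtain ⟨p', -, hp'⟩ := Finset.exists_ne_zero_of_sum_ne_zero hk
    simp only [Set.mem_iUnion]
    exact ⟨p', by simp, hp'⟩)]
  have h2 : ∀ p : Fin 3 × Fin 2, ∑ᶠ k : ℤ, ∑ p' : Fin 3 × Fin 2,
        (1 / (M : ℂ) * (S (pl ξ + zv l) p.1 p.2 * conj (S (pl ξ + zv l) p'.1 p'.2))) *
          (W_D1 om b p ((ξ 2 + k) / M) * conj (W_D1 om b p' ((ξ 2 + k) / M))) =
      S (pl ξ + zv l) p.1 p.2 * conj (S (pl ξ + zv l) p.1 p.2) := by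
    intro p
    rw [finsum_sum_comm _ _ (fun p' _ => hfin p p')]
    have h3' : ∀ p' : Fin 3 × Fin 2, ∑ᶠ k : ℤ,
        (1 / (M : ℂ) * (S (pl ξ + zv l) p.1 p.2 * conj (S (pl ξ + zv l) p'.1 p'.2))) *
          (W_D1 om b p ((ξ 2 + k) / M) * conj (W_D1 om b p' ((ξ 2 + k) / M))) =
        (1 / (M : ℂ) * (S (pl ξ + zv l) p.1 p.2 * conj (S (pl ξ + zv l) p'.1 p'.2))) *
          (if p = p' then (M : ℂ) else 0) := by
      intro p'
      rw [← mul_finsum, WG_D1 h3 h5 om hom M b hM p p' (ξ 2)]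
    rw [Finset.sum_congr rfl fun p' _ => h3' p', Finset.sum_eq_single p]
    · rw [if_pos rfl]
      field_simp
    · intro p' _ hne
      rw [if_neg (Ne.symm hne), mul_zero]
    · intro h
      exact absurd (Finset.mem_univ _) h
  rw [Finset.sum_congr rfl fun p _ => h2 p, Fintype.sum_prod_type]

/-- the kernel of the windows -/
private lemma WK_D1 (om : Fin 3 → Fin 4) (M' : ℕ) (hM : 0 < M' * 2) (a a' : Fin 3) (z : ℝ)
    (m : ℤ) :
    ∑ b : Fin M', ∑ e : Fin 2, W_D1 om b (a, e) (z / (M' * 2 : ℕ)) *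
        conj (W_D1 om b (a', e) ((z + m) / (M' * 2 : ℕ))) =
      ((M' * 2 : ℕ) : ℂ) * KZ (om a) (om a') (M' * 2 : ℕ) z m := by
  have hMr : ((M' * 2 : ℕ) : ℝ) ≠ 0 := by
    exact_mod_cast hM.ne'
  have h1 : ∀ (b : Fin M') (e : Fin 2), W_D1 om b (a, e) (z / (M' * 2 : ℕ)) *
        conj (W_D1 om b (a', e) ((z + m) / (M' * 2 : ℕ))) =
      (Om (om a) (z / (M' * 2 : ℕ)) * conj (Om (om a') ((z + m) / (M' * 2 : ℕ)))) *
        ee (((finProdFinEquiv (b, e) : Fin (M' * 2)) : ℕ) * (((-m : ℤ) : ℝ) / (M' * 2 : ℕ))) := by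
    intro b e
    unfold W_D1
    rw [map_mul, conj_ee]
    rw [show ∀ x y z w : ℂ, x * y * (z * w) = (x * z) * (y * w) from fun x y z w => by ring,
      ← ee_add]
    congr 2
    rw [finProdFinEquiv_apply_val]
    push_cast
    field_simp
    ring
  have h2 : ∑ b : Fin M', ∑ e : Fin 2, W_D1 om b (a, e) (z / (M' * 2 : ℕ)) *
        conj (W_D1 om b (a', e) ((z + m) / (M' * 2 : ℕ))) =
      (Om (om a) (z / (M' * 2 : ℕ)) * conj (Om (om a') ((z + m) / (M' * 2 : ℕ)))) *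
        ∑ s : Fin (M' * 2), ee ((s : ℕ) * (((-m : ℤ) : ℝ) / (M' * 2 : ℕ))) := by
    rw [← Equiv.sum_comp finProdFinEquiv, Fintype.sum_prod_type, Finset.mul_sum]
    refine Finset.sum_congr rfl fun b _ => ?_
    rw [Finset.mul_sum]
    exact Finset.sum_congr rfl fun e _ => h1 b e
  rw [h2, sum_ee_fin (M' * 2) hM]
  unfold KZ
  by_cases hd : ((M' * 2 : ℕ) : ℤ) ∣ -m
  · have h3 : ∃ n : ℤ, (m : ℝ) = ((M' * 2 : ℕ) : ℝ) * n := by
      obtain ⟨c, hc⟩ := hd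
      refine ⟨-c, ?_⟩
      have : m = ((M' * 2 : ℕ) : ℤ) * (-c) := by linarith
      exact_mod_cast this
    rw [if_pos hd, if_pos h3]
    ring
  · have h3 : ¬ ∃ n : ℤ, (m : ℝ) = ((M' * 2 : ℕ) : ℝ) * n := by
      rintro ⟨n, hn⟩
      apply hd
      have h4 : m = ((M' * 2 : ℕ) : ℤ) * n := by exact_mod_cast hn
      exact ⟨-n, by rw [h4]; ring⟩
    rw [if_neg hd, if_neg h3]
    ring

theorem m_D1 (h3 : StA3) (h5 : StA5) : StD1 := by
  intro Q hQ om hom M hM0 hM2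
  obtain ⟨q, S, hS1, ⟨R, hS2⟩, hS3, hS4⟩ := hQ
  obtain ⟨M', hM'⟩ := hM2
  rw [mul_comm] at hM'
  subst hM'
  have hM2 : 2 ≤ M' * 2 := by omega
  have hMc : ((M' * 2 : ℕ) : ℂ) ≠ 0 := by exact_mod_cast hM0.ne'
  refine ⟨q * M', fun l => G_D1 om (M' * 2) ((finProdFinEquiv.symm l).2 : ℕ)
    (S (finProdFinEquiv.symm l).1), ?_, ?_, ?_, ?_, ?_⟩
  · intro l
    exact G_smooth_D1 h3 om _ _ _ (hS1 _)
  · intro l
    exact G_compact_D1 h3 om _ _ hM0 _ R (hS2 _)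
  · intro l
    refine norm_one_of_gram (G_smooth_D1 h3 om _ _ _ (hS1 _)).continuous
      (G_compact_D1 h3 om _ _ hM0 _ R (hS2 _)) fun ξ => ?_
    exact gram_D1 h3 h5 om hom _ _ hM2 _ R (hS2 _) (fun η => hS3 η _) ξ
  · intro ξ m
    rw [Equiv.sum_comp finProdFinEquiv.symm (fun x : Fin q × Fin M' =>
      G_D1 om (M' * 2) (x.2 : ℕ) (S x.1) ξ * conj (G_D1 om (M' * 2) (x.2 : ℕ) (S x.1) (ξ + zv m))),
      Fintype.sum_prod_type]
    have h1 : ∀ (n : Fin q) (b : Fin M'),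
        G_D1 om (M' * 2) (b : ℕ) (S n) ξ * conj (G_D1 om (M' * 2) (b : ℕ) (S n) (ξ + zv m)) =
        ∑ p : Fin 3 × Fin 2, ∑ p' : Fin 3 × Fin 2, 1 / ((M' * 2 : ℕ) : ℂ) *
          ((S n (pl ξ) p.1 p.2 * conj (S n (pl ξ + zv (plz m)) p'.1 p'.2)) *
          (W_D1 om b p (ξ 2 / (M' * 2 : ℕ)) *
            conj (W_D1 om b p' ((ξ 2 + m 2) / (M' * 2 : ℕ))))) := by
      intro n b
      rw [prod_D1, Finset.mul_sum]
      refine Finset.sum_congr rfl fun p _ => ?_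
      rw [Finset.mul_sum]
      refine Finset.sum_congr rfl fun p' _ => ?_
      rw [pl_add'_D1, two_add'_D1]
    have h2 : ∑ n : Fin q, ∑ b : Fin M',
        G_D1 om (M' * 2) (b : ℕ) (S n) ξ * conj (G_D1 om (M' * 2) (b : ℕ) (S n) (ξ + zv m)) =
        ∑ p : Fin 3 × Fin 2, ∑ p' : Fin 3 × Fin 2, 1 / ((M' * 2 : ℕ) : ℂ) *
          ((∑ n : Fin q, S n (pl ξ) p.1 p.2 * conj (S n (pl ξ + zv (plz m)) p'.1 p'.2)) *
          ∑ b : Fin M', (W_D1 om b p (ξ 2 / (M' * 2 : ℕ)) *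
            conj (W_D1 om b p' ((ξ 2 + m 2) / (M' * 2 : ℕ))))) := by
      rw [Finset.sum_congr rfl fun n _ => Finset.sum_congr rfl fun b _ => h1 n b]
      have h3 : ∀ n : Fin q, ∑ b : Fin M', ∑ p : Fin 3 × Fin 2, ∑ p' : Fin 3 × Fin 2,
          1 / ((M' * 2 : ℕ) : ℂ) *
          ((S n (pl ξ) p.1 p.2 * conj (S n (pl ξ + zv (plz m)) p'.1 p'.2)) *
          (W_D1 om b p (ξ 2 / (M' * 2 : ℕ)) *
            conj (W_D1 om b p' ((ξ 2 + m 2) / (M' * 2 : ℕ))))) =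
          ∑ p : Fin 3 × Fin 2, ∑ p' : Fin 3 × Fin 2, ∑ b : Fin M',
          1 / ((M' * 2 : ℕ) : ℂ) *
          ((S n (pl ξ) p.1 p.2 * conj (S n (pl ξ + zv (plz m)) p'.1 p'.2)) *
          (W_D1 om b p (ξ 2 / (M' * 2 : ℕ)) *
            conj (W_D1 om b p' ((ξ 2 + m 2) / (M' * 2 : ℕ))))) := by
        intro n
        rw [Finset.sum_comm]
        refine Finset.sum_congr rfl fun p _ => ?_
        rw [Finset.sum_comm]
      rw [Finset.sum_congr rfl fun n _ => h3 n, Finset.sum_comm]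
      refine Finset.sum_congr rfl fun p _ => ?_
      rw [Finset.sum_comm]
      refine Finset.sum_congr rfl fun p' _ => ?_
      rw [Finset.sum_mul_sum, Finset.mul_sum]
      refine Finset.sum_congr rfl fun n _ => ?_
      rw [Finset.mul_sum]
    rw [h2, Fintype.sum_prod_type]
    refine Finset.sum_congr rfl fun a _ => ?_
    -- sum over e, then p'
    have h4 : ∀ e : Fin 2, ∑ p' : Fin 3 × Fin 2, 1 / ((M' * 2 : ℕ) : ℂ) *
          ((∑ n : Fin q, S n (pl ξ) a e * conj (S n (pl ξ + zv (plz m)) p'.1 p'.2)) *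
          ∑ b : Fin M', (W_D1 om b (a, e) (ξ 2 / (M' * 2 : ℕ)) *
            conj (W_D1 om b p' ((ξ 2 + m 2) / (M' * 2 : ℕ))))) =
        ∑ a' : Fin 3, 1 / ((M' * 2 : ℕ) : ℂ) * ((Q (pl ξ) (plz m) a a' : ℂ) *
          ∑ b : Fin M', (W_D1 om b (a, e) (ξ 2 / (M' * 2 : ℕ)) *
            conj (W_D1 om b (a', e) ((ξ 2 + m 2) / (M' * 2 : ℕ))))) := by
      intro e
      rw [Fintype.sum_prod_type]
      refine Finset.sum_congr rfl fun a' _ => ?_
      rw [Finset.sum_eq_single e]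
      · rw [hS4, if_pos rfl]
      · intro e' _ hne
        rw [hS4, if_neg (Ne.symm hne)]
        ring
      · intro h
        exact absurd (Finset.mem_univ _) h
    rw [Finset.sum_congr rfl fun e _ => h4 e, Finset.sum_comm]
    refine Finset.sum_congr rfl fun a' _ => ?_
    rw [← Finset.mul_sum, ← Finset.mul_sum]
    rw [Finset.sum_comm, WK_D1 om M' hM0 a a' (ξ 2) (m 2)]
    field_simp
  · intro l ξ hz
    change G_D1 om (M' * 2) ((finProdFinEquiv.symm l).2 : ℕ) (S (finProdFinEquiv.symm l).1) ξ = 0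
    unfold G_D1
    rw [Finset.sum_eq_zero, mul_zero]
    intro p _
    rcases hz p.1 with h | h
    · have h1 := hS4 (pl ξ) 0 p.1 p.1 p.2 p.2
      rw [if_pos rfl, h, zv_zero, add_zero] at h1
      have h2 : ∑ n : Fin q, ‖S n (pl ξ) p.1 p.2‖ ^ 2 = 0 := by
        have h3 : ∀ n : Fin q, S n (pl ξ) p.1 p.2 * conj (S n (pl ξ) p.1 p.2) =
            ((‖S n (pl ξ) p.1 p.2‖ ^ 2 : ℝ) : ℂ) := by
          intro n
          rw [Complex.mul_conj, Complex.normSq_eq_norm_sq]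
        rw [Finset.sum_congr rfl fun n _ => h3 n] at h1
        exact_mod_cast h1
      rw [Finset.sum_eq_zero_iff_of_nonneg (fun n _ => by positivity)] at h2
      have h3 := h2 (finProdFinEquiv.symm l).1 (Finset.mem_univ _)
      have h4 : S (finProdFinEquiv.symm l).1 (pl ξ) p.1 p.2 = 0 := by
        simpa using h3
      rw [h4, zero_mul]
    · unfold W_D1
      rw [h]
      ring

end Pool.Agent.Helper56.EX
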