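import Pool.Agent.Helper56.EX.St2

/-!
# Project EX (MP_d629b1), module D2: the four planar kernels
-/

set_option autoImplicit false

open Matrix MeasureTheory
open scoped ContDiff ComplexConjugate FourierTransform SchwartzMap
open Pool.Agent.Helper54.Wav

noncomputable section

namespace Pool.Agent.Helper56.EX

/-- Reindexing of a sum over a finite set of points of a lattice. -/
private lemma sum_lat_D2 {M : Type} [AddCommMonoid M] (e : (Fin 2 → ℤ) → (Fin 2 → ℝ))
    (he : Function.Injective e) (L : Finset (Fin 2 → ℝ)) (L' : Finset (Fin 2 → ℤ))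
    (h1 : ∀ m, e m ∈ L → m ∈ L') (h2 : ∀ l ∈ L, ∃ m, l = e m) (f : (Fin 2 → ℝ) → M)
    (hf : ∀ l, l ∉ L → f l = 0) : ∑ m ∈ L', f (e m) = ∑ l ∈ L, f l := by
  classical
  rw [← Finset.sum_image (f := f) (g := e) (fun a _ b _ h => he h)]
  refine (Finset.sum_subset ?_ ?_).symm
  · intro l hl
    obtain ⟨m, rfl⟩ := h2 l hl
    exact Finset.mem_image.mpr ⟨m, h1 m hl, rfl⟩
  · intro l _ hl
    exact hf l hl

section

variable {B : Matrix (Fin 2) (Fin 2) ℝ} {ν : Seminorm ℝ (Fin 2 → ℝ)}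
  {K : Fin 4 → (Fin 2 → ℝ) → (Fin 2 → ℝ) → Matrix (Fin 3) (Fin 3) ℝ}
  {Λ : Fin 4 → Finset (Fin 2 → ℝ)}

private lemma nu_pow_D2 (h : Pat B ν K Λ) (p : ℕ) (x : Fin 2 → ℝ) : 2 * ν x ≤ ν ((B ^ (p + 1)) *ᵥ x) := by
  induction p with
  | zero => simpa using h.expand x
  | succ p ih =>
    have h1 := h.expand ((B ^ (p + 1)) *ᵥ x)
    rw [Matrix.mulVec_mulVec, ← pow_succ'] at h1
    have h0 : 0 ≤ ν x := apply_nonneg ν x
    linarith

private lemma inj_D2 (h : Pat B ν K Λ) (p : ℕ) :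
    Function.Injective fun m : Fin 2 → ℤ => (B ^ (p + 1)) *ᵥ zv m := by
  intro m m' hm
  have hm' : (B ^ (p + 1)) *ᵥ zv m = (B ^ (p + 1)) *ᵥ zv m' := hm
  have h1 : (B ^ (p + 1)) *ᵥ (zv m - zv m') = 0 := by rw [Matrix.mulVec_sub, hm', sub_self]
  have h2 := nu_pow_D2 h p (zv m - zv m')
  rw [h1, map_zero] at h2
  have h3 : ν (zv m - zv m') = 0 := le_antisymm (by linarith) (apply_nonneg ν _)
  exact zv_inj (sub_eq_zero.mp (h.nu_pos _ h3))

private lemma far0_D2 (h : Pat B ν K Λ) {η : Fin 2 → ℝ} (hη : 17 / 10 ≤ ν η) (l : Fin 2 → ℝ) :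
    K 0 η l = 0 := by
  rw [h.far η hη 0 l]
  split_ifs <;> rfl

private lemma bound_D2 (h : Pat B ν K Λ) : ∃ R : ℝ, ∀ η : Fin 2 → ℝ, R ≤ ‖η‖ → 17 / 10 ≤ ν η := by
  obtain ⟨c, hc, hle⟩ := le_seminorm ν h.nu_pos
  refine ⟨17 / 10 / c, fun η hη => ?_⟩
  rw [div_le_iff₀ hc] at hη
  have := hle η
  linarith

private lemma zero_D2 (h : Pat B ν K Λ) :
    ∃ (Λ' : Finset (Fin 2 → ℤ)) (R : ℝ), PK (fun η m => K 0 η (zv m)) Λ' R := by
  classical
  obtain ⟨R, hR⟩ := bound_D2 h
  have hzi : Function.Injective fun m : Fin 2 → ℤ => (zv m : Fin 2 → ℝ) := fun m m' hm => zv_inj hm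
  refine ⟨(Λ 0).preimage (fun m : Fin 2 → ℤ => (zv m : Fin 2 → ℝ)) (fun a _ b _ hab => hzi hab), R,
    ?_, ?_, ?_, ?_, ?_⟩
  · intro m a b
    exact h.smooth 0 (zv m) a b
  · intro η m hm
    exact h.supp 0 η _ fun hc => hm (Finset.mem_preimage.mpr hc)
  · intro η m hη
    exact far0_D2 h (hR η hη) _
  · intro η m
    show K 0 (η + zv m) (zv (-m)) = (K 0 η (zv m))ᵀ
    rw [zv_neg]
    exact h.symm 0 η (zv m)
  · intro η k
    have key := sum_lat_D2 (fun m : Fin 2 → ℤ => (zv m : Fin 2 → ℝ)) hzi (Λ 0)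
      ((Λ 0).preimage (fun m : Fin 2 → ℤ => (zv m : Fin 2 → ℝ)) (fun a _ b _ hab => hzi hab))
      (fun m hm => Finset.mem_preimage.mpr hm)
      (fun l hl => by
        obtain ⟨m, hm⟩ := h.lat 0 l hl
        exact ⟨m, by rw [hm]; simp⟩)
      (fun l => K 0 η l * K 0 (η + l) (zv k - l))
      (fun l hl => by rw [h.supp 0 η l hl, zero_mul])
    rw [h.idem 0 η (zv k)] at key
    rw [← key]
    refine Finset.sum_congr rfl fun m _ => ?_
    show K 0 η (zv m) * K 0 (η + zv m) (zv (k - m)) = K 0 η (zv m) * K 0 (η + zv m) (zv k - zv m)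
    rw [sub_eq_add_neg k m, zv_add, zv_neg, ← sub_eq_add_neg]

private lemma succ_D2 (h : Pat B ν K Λ) (k : Fin 3) :
    ∃ (Λ' : Finset (Fin 2 → ℤ)) (R : ℝ), PK (fun η m =>
      K k.succ ((B ^ ((k : ℕ) + 1)) *ᵥ η) ((B ^ ((k : ℕ) + 1)) *ᵥ zv m) +
        Matrix.single k k (K 0 η (zv m) 0 0 - if m = 0 then 1 else 0)) Λ' R := by
  classical
  obtain ⟨R, hR⟩ := bound_D2 h
  set C : Matrix (Fin 2) (Fin 2) ℝ := B ^ ((k : ℕ) + 1) with hC
  have hzi : Function.Injective fun m : Fin 2 → ℤ => (zv m : Fin 2 → ℝ) := fun m m' hm => zv_inj hm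
  have hCi : Function.Injective fun m : Fin 2 → ℤ => C *ᵥ zv m := inj_D2 h k
  have hnu : ∀ x, 2 * ν x ≤ ν (C *ᵥ x) := nu_pow_D2 h k
  have hC0 : ∀ m : Fin 2 → ℤ, C *ᵥ zv m = 0 ↔ m = 0 := by
    intro m
    constructor
    · intro hm
      apply hCi
      show C *ᵥ zv m = C *ᵥ zv 0
      rw [hm, zv_zero, Matrix.mulVec_zero]
    · rintro rfl
      rw [zv_zero, Matrix.mulVec_zero]
  have hz0 : ∀ m : Fin 2 → ℤ, (zv m : Fin 2 → ℝ) = 0 ↔ m = 0 := by
    intro m
    constructor
    · intro hm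
      exact zv_inj (by rw [hm, zv_zero])
    · rintro rfl
      exact zv_zero
  -- the two forms of the rows
  have near' : ∀ η, ν η ≤ 9 / 10 → ∀ m : Fin 2 → ℤ,
      K k.succ (C *ᵥ η) (C *ᵥ zv m) + Matrix.single k k (K 0 η (zv m) 0 0 - if m = 0 then 1 else 0) =
        K k.succ (C *ᵥ η) (C *ᵥ zv m) := by
    intro η hη m
    have h1 : K 0 η (zv m) 0 0 - (if m = 0 then (1 : ℝ) else 0) = 0 := by
      rw [h.near η hη 0 (zv m) 0]
      by_cases hm : m = 0
      · rw [if_pos ⟨rfl, (hz0 m).mpr hm, rfl⟩, if_pos hm, sub_self]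
      · rw [if_neg (fun hc => hm ((hz0 m).mp hc.2.1)), if_neg hm, sub_self]
    rw [h1, Matrix.single_zero, add_zero]
  have farr : ∀ η, 9 / 10 < ν η → ∀ m : Fin 2 → ℤ,
      K k.succ (C *ᵥ η) (C *ᵥ zv m) + Matrix.single k k (K 0 η (zv m) 0 0 - if m = 0 then 1 else 0) =
        Matrix.single k k (K 0 η (zv m) 0 0) := by
    intro η hη m
    have h1 : K k.succ (C *ᵥ η) (C *ᵥ zv m) = Matrix.single k k (if m = 0 then (1 : ℝ) else 0) := by
      rw [h.far (C *ᵥ η) (by linarith [hnu η]) k.succ (C *ᵥ zv m)]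
      by_cases hm : m = 0
      · rw [if_pos ((hC0 m).mpr hm), if_pos hm]
        rfl
      · rw [if_neg (fun hc => hm ((hC0 m).mp hc)), if_neg hm, Matrix.single_zero]
    rw [h1, ← Matrix.single_add]
    congr 1
    ring
  refine ⟨insert 0 ((Λ 0).preimage (fun m : Fin 2 → ℤ => (zv m : Fin 2 → ℝ)) (fun a _ b _ hab => hzi hab) ∪
    (Λ k.succ).preimage (fun m : Fin 2 → ℤ => C *ᵥ zv m) (fun a _ b _ hab => hCi hab)), R,
    ?_, ?_, ?_, ?_, ?_⟩
  · intro m a b
    have h1 : ContDiff ℝ ∞ fun η : Fin 2 → ℝ => C *ᵥ η := by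
      have : (fun η : Fin 2 → ℝ => C *ᵥ η) = fun η => (Matrix.mulVecLin C).toContinuousLinearMap η := by
        funext η; rfl
      rw [this]
      exact ContinuousLinearMap.contDiff _
    have h2 : ContDiff ℝ ∞ fun η : Fin 2 → ℝ => K k.succ (C *ᵥ η) (C *ᵥ zv m) a b :=
      (h.smooth k.succ (C *ᵥ zv m) a b).comp h1
    have h3 : ContDiff ℝ ∞ fun η : Fin 2 → ℝ =>
        (Matrix.single k k (K 0 η (zv m) 0 0 - if m = 0 then (1 : ℝ) else 0)) a b := by
      by_cases hab : k = a ∧ k = b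
      · have : (fun η : Fin 2 → ℝ =>
            (Matrix.single k k (K 0 η (zv m) 0 0 - if m = 0 then (1 : ℝ) else 0)) a b) =
            fun η => K 0 η (zv m) 0 0 - if m = 0 then (1 : ℝ) else 0 := by
          funext η
          rw [Matrix.single_apply, if_pos hab]
        rw [this]
        exact (h.smooth 0 (zv m) 0 0).sub contDiff_const
      · have : (fun η : Fin 2 → ℝ =>
            (Matrix.single k k (K 0 η (zv m) 0 0 - if m = 0 then (1 : ℝ) else 0)) a b) =
            fun _ => (0 : ℝ) := by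
          funext η
          rw [Matrix.single_apply, if_neg hab]
        rw [this]
        exact contDiff_const
    exact h2.add h3
  · intro η m hm
    have hm0 : m ≠ 0 := fun hc => hm (by rw [hc]; exact Finset.mem_insert_self _ _)
    have hm1 : (zv m : Fin 2 → ℝ) ∉ Λ 0 := fun hc =>
      hm (Finset.mem_insert_of_mem (Finset.mem_union_left _ (Finset.mem_preimage.mpr hc)))
    have hm2 : C *ᵥ zv m ∉ Λ k.succ := fun hc =>
      hm (Finset.mem_insert_of_mem (Finset.mem_union_right _ (Finset.mem_preimage.mpr hc)))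
    show K k.succ (C *ᵥ η) (C *ᵥ zv m) +
      Matrix.single k k (K 0 η (zv m) 0 0 - if m = 0 then (1 : ℝ) else 0) = 0
    rw [h.supp k.succ _ _ hm2, h.supp 0 _ _ hm1, if_neg hm0, Matrix.zero_apply, sub_zero, Matrix.single_zero,
      add_zero]
  · intro η m hη
    have h1 := hR η hη
    show K k.succ (C *ᵥ η) (C *ᵥ zv m) +
      Matrix.single k k (K 0 η (zv m) 0 0 - if m = 0 then (1 : ℝ) else 0) = 0
    rw [farr η (by linarith) m, far0_D2 h h1, Matrix.zero_apply, Matrix.single_zero]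
  · intro η m
    show K k.succ (C *ᵥ (η + zv m)) (C *ᵥ zv (-m)) +
        Matrix.single k k (K 0 (η + zv m) (zv (-m)) 0 0 - if -m = 0 then (1 : ℝ) else 0) =
      (K k.succ (C *ᵥ η) (C *ᵥ zv m) +
        Matrix.single k k (K 0 η (zv m) 0 0 - if m = 0 then (1 : ℝ) else 0))ᵀ
    rw [Matrix.transpose_add, Matrix.transpose_single, zv_neg, Matrix.mulVec_add, Matrix.mulVec_neg,
      h.symm k.succ, h.symm 0, Matrix.transpose_apply]
    congr 2
    simp only [neg_eq_zero]
  · intro η n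
    show ∑ m ∈ _, (K k.succ (C *ᵥ η) (C *ᵥ zv m) +
        Matrix.single k k (K 0 η (zv m) 0 0 - if m = 0 then (1 : ℝ) else 0)) *
        (K k.succ (C *ᵥ (η + zv m)) (C *ᵥ zv (n - m)) +
        Matrix.single k k (K 0 (η + zv m) (zv (n - m)) 0 0 - if n - m = 0 then (1 : ℝ) else 0)) =
      K k.succ (C *ᵥ η) (C *ᵥ zv n) +
        Matrix.single k k (K 0 η (zv n) 0 0 - if n = 0 then (1 : ℝ) else 0)
    have hsub : ∀ m : Fin 2 → ℤ, (zv (n - m) : Fin 2 → ℝ) = zv n - zv m := fun m => by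
      rw [sub_eq_add_neg n m, zv_add, zv_neg, ← sub_eq_add_neg]
    rcases le_or_gt (ν η) (9 / 10) with hη | hη
    · -- near the origin
      rw [near' η hη n]
      have key := sum_lat_D2 (fun m : Fin 2 → ℤ => C *ᵥ zv m) hCi (Λ k.succ)
        (insert 0 ((Λ 0).preimage (fun m : Fin 2 → ℤ => (zv m : Fin 2 → ℝ)) (fun a _ b _ hab => hzi hab) ∪
          (Λ k.succ).preimage (fun m : Fin 2 → ℤ => C *ᵥ zv m) (fun a _ b _ hab => hCi hab)))
        (fun m hm => Finset.mem_insert_of_mem (Finset.mem_union_right _ (Finset.mem_preimage.mpr hm)))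
        (fun l hl => h.lat k.succ l hl)
        (fun l => K k.succ (C *ᵥ η) l * K k.succ (C *ᵥ η + l) (C *ᵥ zv n - l))
        (fun l hl => by rw [h.supp k.succ _ l hl, zero_mul])
      rw [h.idem k.succ (C *ᵥ η) (C *ᵥ zv n)] at key
      rw [← key]
      refine Finset.sum_congr rfl fun m _ => ?_
      rw [near' η hη m]
      by_cases hK : K k.succ (C *ᵥ η) (C *ᵥ zv m) = 0
      · rw [hK, zero_mul, zero_mul]
      · have hm : ν (η + zv m) ≤ 9 / 10 := by
          by_cases hm0 : m = 0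
          · rw [hm0, zv_zero, add_zero]
            exact hη
          · by_contra hc
            push Not at hc
            apply hK
            have h1 := h.symm k.succ (C *ᵥ η) (C *ᵥ zv m)
            rw [← Matrix.mulVec_add] at h1
            rw [h.far (C *ᵥ (η + zv m)) (by linarith [hnu (η + zv m)]) k.succ,
              if_neg (fun hc' => hm0 ((hC0 m).mp (neg_eq_zero.mp hc')))] at h1
            have h2 := congrArg Matrix.transpose h1
            rw [Matrix.transpose_zero, Matrix.transpose_transpose] at h2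
            exact h2.symm
        rw [near' (η + zv m) hm (n - m), hsub, Matrix.mulVec_add, Matrix.mulVec_sub]
    · -- far from the origin
      rw [farr η hη n]
      have h00 := congrFun (congrFun (h.idem 0 η (zv n)) 0) 0
      rw [Matrix.sum_apply] at h00
      have key := sum_lat_D2 (fun m : Fin 2 → ℤ => (zv m : Fin 2 → ℝ)) hzi (Λ 0)
        (insert 0 ((Λ 0).preimage (fun m : Fin 2 → ℤ => (zv m : Fin 2 → ℝ)) (fun a _ b _ hab => hzi hab) ∪
          (Λ k.succ).preimage (fun m : Fin 2 → ℤ => C *ᵥ zv m) (fun a _ b _ hab => hCi hab)))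
        (fun m hm => Finset.mem_insert_of_mem (Finset.mem_union_left _ (Finset.mem_preimage.mpr hm)))
        (fun l hl => by
          obtain ⟨m, hm⟩ := h.lat 0 l hl
          exact ⟨m, by rw [hm]; simp⟩)
        (fun l => (K 0 η l * K 0 (η + l) (zv n - l)) 0 0)
        (fun l hl => by rw [h.supp 0 η l hl, zero_mul, Matrix.zero_apply])
      rw [h00] at key
      rw [← key]
      rw [← Matrix.singleAddMonoidHom_apply, map_sum]
      refine Finset.sum_congr rfl fun m _ => ?_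
      rw [farr η hη m, Matrix.singleAddMonoidHom_apply]
      have hmul : (K 0 η (zv m) * K 0 (η + zv m) (zv n - zv m)) 0 0 =
          K 0 η (zv m) 0 0 * K 0 (η + zv m) (zv n - zv m) 0 0 := by
        rw [Matrix.mul_apply, Fin.sum_univ_three, h.zero η (zv m) 0 1 (by decide),
          h.zero η (zv m) 0 2 (by decide)]
        ring
      show _ = Matrix.single k k ((K 0 η (zv m) * K 0 (η + zv m) (zv n - zv m)) 0 0)
      rw [hmul]
      by_cases hK : K 0 η (zv m) 0 0 = 0
      · rw [hK, Matrix.single_zero, zero_mul, zero_mul, Matrix.single_zero]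
      · have hm : 9 / 10 < ν (η + zv m) := by
          by_cases hm0 : m = 0
          · rw [hm0, zv_zero, add_zero]
            exact hη
          · by_contra hc
            rw [not_lt] at hc
            apply hK
            have h1 := congrFun (congrFun (h.symm 0 η (zv m)) 0) 0
            rw [Matrix.transpose_apply, h.near _ hc 0, if_neg
              (fun hc' => hm0 ((hz0 m).mp (neg_eq_zero.mp hc'.2.1)))] at h1
            exact h1.symm
        rw [farr (η + zv m) hm (n - m), hsub, Matrix.single_mul_single_same]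

end

theorem m_D2 : StD2 := by
  intro B ν K Λ h i
  refine Fin.cases ?_ (fun k => ?_) i
  · exact zero_D2 h
  · exact succ_D2 h k

end Pool.Agent.Helper56.EX
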