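import Pool.Agent.Helper56.EX.St2

/-!
# Project EX, module D3
-/

set_option autoImplicit false

open Matrix MeasureTheory
open scoped ContDiff ComplexConjugate FourierTransform SchwartzMap
open Pool.Agent.Helper54.Wav

noncomputable section

namespace Pool.Agent.Helper56.EX

private lemma det_D3 (B : Matrix (Fin 2) (Fin 2) ℝ) : (A3 B).det = 2 * B.det := by
  unfold A3
  rw [Matrix.det_fin_three, Matrix.det_fin_two]
  simp
  ring

private lemma step_D3 (B : Matrix (Fin 2) (Fin 2) ℝ) (ξ : Fin 3 → ℝ) :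
    pl ((A3 B)ᵀ *ᵥ ξ) = B *ᵥ pl ξ ∧ ((A3 B)ᵀ *ᵥ ξ) 2 = 2 * ξ 2 := by
  constructor
  · ext i
    fin_cases i <;>
      simp [pl, A3, Matrix.mulVec, dotProduct, Fin.sum_univ_three, Fin.sum_univ_two]
  · simp [A3, Matrix.mulVec, dotProduct, Fin.sum_univ_three]

private lemma nat_D3 (B : Matrix (Fin 2) (Fin 2) ℝ) (n : ℕ) (ξ : Fin 3 → ℝ) :
    pl (((A3 B)ᵀ ^ n) *ᵥ ξ) = (B ^ n) *ᵥ pl ξ ∧ (((A3 B)ᵀ ^ n) *ᵥ ξ) 2 = 2 ^ n * ξ 2 := by
  induction n generalizing ξ with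
  | zero => simp
  | succ n ih =>
    obtain ⟨h1, h2⟩ := ih ((A3 B)ᵀ *ᵥ ξ)
    obtain ⟨h3, h4⟩ := step_D3 B ξ
    rw [pow_succ, ← Matrix.mulVec_mulVec, h1, h2, h3, h4, pow_succ, ← Matrix.mulVec_mulVec]
    refine ⟨rfl, by ring⟩

theorem m_D3 : StD3 := by
  intro B hB j ξ
  have hA : (A3 B).det ≠ 0 := by
    rw [det_D3]
    exact mul_ne_zero two_ne_zero hB
  refine ⟨hA, ?_⟩
  obtain ⟨n, rfl | rfl⟩ := j.eq_nat_or_neg
  · rw [zpow_natCast, zpow_natCast, zpow_natCast]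
    exact nat_D3 B n ξ
  · have hAt : IsUnit ((A3 B)ᵀ ^ n).det := by
      rw [Matrix.det_pow, Matrix.det_transpose]
      exact (pow_ne_zero n hA).isUnit
    have hBn : IsUnit (B ^ n).det := by
      rw [Matrix.det_pow]
      exact (pow_ne_zero n hB).isUnit
    have e1 : (A3 B)ᵀ ^ (-(n : ℤ)) = ((A3 B)ᵀ ^ n)⁻¹ := by
      rw [Matrix.zpow_neg_natCast]
    have e2 : B ^ (-(n : ℤ)) = (B ^ n)⁻¹ := by
      rw [Matrix.zpow_neg_natCast]
    have e3 : (2 : ℝ) ^ (-(n : ℤ)) = (2 ^ n)⁻¹ := by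
      rw [_root_.zpow_neg, _root_.zpow_natCast]
    rw [e1, e2, e3]
    obtain ⟨h1, h2⟩ := nat_D3 B n (((A3 B)ᵀ ^ n)⁻¹ *ᵥ ξ)
    rw [Matrix.mulVec_mulVec, Matrix.mul_nonsing_inv _ hAt, Matrix.one_mulVec] at h1 h2
    constructor
    · rw [h1, Matrix.mulVec_mulVec, Matrix.nonsing_inv_mul _ hBn, Matrix.one_mulVec]
    · rw [h2, ← mul_assoc, inv_mul_cancel₀ (by positivity), one_mul]

end Pool.Agent.Helper56.EX
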