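import Pool.Agent.Helper56.EX.St2

set_option autoImplicit false

open Matrix MeasureTheory
open scoped ContDiff ComplexConjugate FourierTransform SchwartzMap
open Pool.Agent.Helper54.Wav

noncomputable section

namespace Pool.Agent.Helper56.EX

/-- scaling of the window kernels -/
lemma KZ_scale_D4 (a b : Fin 4) (t M z l : ℝ) (ht : t ≠ 0) :
    KZ a b (t * M) (t * z) (t * l) = KZ a b M z l := by
  unfold KZ
  have e1 : (∃ n : ℤ, t * l = t * M * n) ↔ (∃ n : ℤ, l = M * n) := by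
    constructor
    · rintro ⟨n, hn⟩
      refine ⟨n, ?_⟩
      have h1 : t * l = t * (M * n) := by rw [hn]; ring
      exact mul_left_cancel₀ ht h1
    · rintro ⟨n, hn⟩
      exact ⟨n, by rw [hn]; ring⟩
  have e2 : t * z / (t * M) = z / M := mul_div_mul_left _ _ ht
  have e3 : (t * z + t * l) / (t * M) = (z + l) / M := by
    rw [← mul_add]; exact mul_div_mul_left _ _ ht
  rw [e2, e3]
  by_cases h : ∃ n : ℤ, l = M * n
  · rw [if_pos h, if_pos (e1.mpr h)]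
  · rw [if_neg h, if_neg (fun h' => h (e1.mp h'))]

lemma KZ_scale8_D4 (a b : Fin 4) (z l : ℝ) : KZ a b 16 (2 ^ 1 * z) (2 ^ 1 * l) = KZ a b 8 z l := by
  have h := KZ_scale_D4 a b (2 ^ 1) 8 z l (by norm_num)
  rw [← h]; norm_num

lemma KZ_scale4_D4 (a b : Fin 4) (z l : ℝ) : KZ a b 16 (2 ^ 2 * z) (2 ^ 2 * l) = KZ a b 4 z l := by
  have h := KZ_scale_D4 a b (2 ^ 2) 4 z l (by norm_num)
  rw [← h]; norm_num

lemma KZ_scale2_D4 (a b : Fin 4) (z l : ℝ) : KZ a b 16 (2 ^ 3 * z) (2 ^ 3 * l) = KZ a b 2 z l := by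
  have h := KZ_scale_D4 a b (2 ^ 3) 2 z l (by norm_num)
  rw [← h]; norm_num

/-- the dilation is injective -/
lemma B_inj_D4 {B : Matrix (Fin 2) (Fin 2) ℝ} {ν : Seminorm ℝ (Fin 2 → ℝ)}
    {K : Fin 4 → (Fin 2 → ℝ) → (Fin 2 → ℝ) → Matrix (Fin 3) (Fin 3) ℝ}
    {Λ : Fin 4 → Finset (Fin 2 → ℝ)} (hP : Pat B ν K Λ) (p : ℕ) :
    ∀ x : Fin 2 → ℝ, (B ^ p) *ᵥ x = 0 → x = 0 := by
  induction p with
  | zero => intro x hx; simpa using hx
  | succ p ih =>
    intro x hx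
    have h1 : (B ^ p) *ᵥ (B *ᵥ x) = 0 := by
      rw [Matrix.mulVec_mulVec, ← pow_succ]; exact hx
    have h2 := ih _ h1
    apply hP.nu_pos
    have h3 := hP.expand x
    rw [h2, map_zero] at h3
    have h4 : 0 ≤ ν x := apply_nonneg ν x
    linarith

lemma B_inj'_D4 {B : Matrix (Fin 2) (Fin 2) ℝ} {ν : Seminorm ℝ (Fin 2 → ℝ)}
    {K : Fin 4 → (Fin 2 → ℝ) → (Fin 2 → ℝ) → Matrix (Fin 3) (Fin 3) ℝ}
    {Λ : Fin 4 → Finset (Fin 2 → ℝ)} (hP : Pat B ν K Λ) (p : ℕ)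
    {x y : Fin 2 → ℝ} (h : (B ^ p) *ᵥ x = (B ^ p) *ᵥ y) : x = y := by
  have h1 : (B ^ p) *ᵥ (x - y) = 0 := by rw [Matrix.mulVec_sub, h, sub_self]
  exact sub_eq_zero.mp (B_inj_D4 hP p _ h1)

lemma zv_eq_zero_D4 (m : Fin 2 → ℤ) : zv m = 0 ↔ m = 0 := by
  constructor
  · intro h
    funext i
    have h1 := congrFun h i
    have h2 : (m i : ℝ) = 0 := h1
    exact_mod_cast h2
  · rintro rfl
    funext i
    simp [zv]

lemma pl_zv_D4 (m : Fin 3 → ℤ) : pl (zv m) = zv (plz m) := by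
  funext i
  fin_cases i <;> simp [pl, zv, plz]

/-- the colours different from `0` -/
lemma sum_succ_D4 (B : Matrix (Fin 2) (Fin 2) ℝ)
    (K : Fin 4 → (Fin 2 → ℝ) → (Fin 2 → ℝ) → Matrix (Fin 3) (Fin 3) ℝ) (k : Fin 3)
    (η : Fin 2 → ℝ) (m : Fin 2 → ℤ) (M z l : ℝ) :
    ∑ a : Fin 3, ∑ b : Fin 3, (QQ4 B K k.succ η m a b : ℂ) * KZ a.castSucc b.castSucc M z l =
      (∑ a : Fin 3, ∑ b : Fin 3, (K k.succ ((B ^ (k.succ : ℕ)) *ᵥ η) ((B ^ (k.succ : ℕ)) *ᵥ zv m) a b : ℂ) *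
        KZ a.castSucc b.castSucc M z l) +
      ((K 0 η (zv m) 0 0 : ℝ) - if m = 0 then 1 else 0 : ℂ) * KZ k.castSucc k.castSucc M z l := by
  have e : ∀ a b : Fin 3, (QQ4 B K k.succ η m a b : ℂ) =
      (K k.succ ((B ^ (k.succ : ℕ)) *ᵥ η) ((B ^ (k.succ : ℕ)) *ᵥ zv m) a b : ℂ) +
      (if k = a ∧ k = b then ((K 0 η (zv m) 0 0 : ℝ) - if m = 0 then 1 else 0 : ℂ) else 0) := by
    intro a b
    unfold QQ4
    rw [Fin.cases_succ, Matrix.add_apply, Matrix.single_apply]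
    by_cases h : k = a ∧ k = b
    · rw [if_pos h, if_pos h]
      by_cases hm : m = 0
      · simp [hm]
      · simp [hm]
    · rw [if_neg h, if_neg h]
      simp
  simp only [e, add_mul, Finset.sum_add_distrib]
  congr 1
  rw [Finset.sum_eq_single k]
  · rw [Finset.sum_eq_single k]
    · simp
    · intro b _ hb
      rw [if_neg (fun h => hb h.2.symm), zero_mul]
    · intro h; exact absurd (Finset.mem_univ _) h
  · intro a _ ha
    refine Finset.sum_eq_zero fun b _ => ?_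
    rw [if_neg (fun h => ha h.1.symm), zero_mul]
  · intro h; exact absurd (Finset.mem_univ _) h

theorem m_D4 (h6 : StA6) : StD4 := by
  intro B ν K Λ hP
  constructor
  · intro ξ m
    have hpl : pl (zv m) = zv (plz m) := pl_zv_D4 m
    -- the far state
    have hz : ∀ (p : ℕ), (B ^ p) *ᵥ zv (plz m) = 0 ↔ plz m = 0 := by
      intro p
      constructor
      · intro h
        exact (zv_eq_zero_D4 _).mp (B_inj_D4 hP p _ h)
      · intro h
        rw [(zv_eq_zero_D4 _).mpr h, Matrix.mulVec_zero]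
    -- left side, colour 0
    have L0 : DD0 K 0 ((B ^ ((0 : Fin 4) : ℕ)) *ᵥ pl ξ) ((B ^ ((0 : Fin 4) : ℕ)) *ᵥ pl (zv m))
        (2 ^ ((0 : Fin 4) : ℕ) * ξ 2) (2 ^ ((0 : Fin 4) : ℕ) * (zv m : Fin 3 → ℝ) 2) =
        (K 0 (pl ξ) (zv (plz m)) 0 0 : ℂ) * KZ 0 0 16 (ξ 2) (m 2) := by
      have e0 : ((0 : Fin 4) : ℕ) = 0 := rfl
      unfold DD0 KK
      rw [e0, hpl, pow_zero, Matrix.one_mulVec, Matrix.one_mulVec, pow_zero, one_mul, one_mul,
        Fin.cases_zero, sub_zero]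
      rw [Finset.sum_eq_single 0]
      · rw [Finset.sum_eq_single 0]
        · rfl
        · intro b _ hb
          rw [hP.zero _ _ 0 b (fun h => hb h.2)]
          simp
        · intro h; exact absurd (Finset.mem_univ _) h
      · intro a _ ha
        refine Finset.sum_eq_zero fun b _ => ?_
        rw [hP.zero _ _ a b (fun h => ha h.1)]
        simp
      · intro h; exact absurd (Finset.mem_univ _) h
    -- left side, other colours
    have L1 : ∀ (k : Fin 3) (M : ℝ),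
        (∀ (a b : Fin 4) (z l : ℝ), KZ a b 16 (2 ^ (k.succ : ℕ) * z) (2 ^ (k.succ : ℕ) * l) = KZ a b M z l) →
        DD0 K k.succ ((B ^ (k.succ : ℕ)) *ᵥ pl ξ) ((B ^ (k.succ : ℕ)) *ᵥ pl (zv m))
        (2 ^ (k.succ : ℕ) * ξ 2) (2 ^ (k.succ : ℕ) * (zv m : Fin 3 → ℝ) 2) =
        (∑ a : Fin 3, ∑ b : Fin 3, (K k.succ ((B ^ (k.succ : ℕ)) *ᵥ pl ξ)
          ((B ^ (k.succ : ℕ)) *ᵥ zv (plz m)) a b : ℂ) * KZ a.castSucc b.castSucc M (ξ 2) (m 2)) -
          (if plz m = 0 then 1 else 0) * KZ k.castSucc k.castSucc M (ξ 2) (m 2) := by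
      intro k M hM
      unfold DD0 KK
      rw [hpl, Fin.cases_succ]
      simp only [hM]
      have e1 : (zv m : Fin 3 → ℝ) 2 = (m 2 : ℝ) := rfl
      rw [e1]
      congr 1
      by_cases h : plz m = 0
      · rw [if_pos ((hz _).mpr h), if_pos h, one_mul]
      · rw [if_neg (fun h' => h ((hz _).mp h')), if_neg h, zero_mul]
    have L8 := L1 0 8 (fun a b z l => KZ_scale8_D4 a b z l)
    have L4 := L1 1 4 (fun a b z l => KZ_scale4_D4 a b z l)
    have L2 := L1 2 2 (fun a b z l => KZ_scale2_D4 a b z l)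
    -- right side
    have R0 : ∑ a : Fin 3, ∑ b : Fin 3, (QQ4 B K 0 (pl ξ) (plz m) a b : ℂ) *
        KZ (if (0 : Fin 4) = 0 then (if a = 0 then 3 else a.castSucc) else a.castSucc)
          (if (0 : Fin 4) = 0 then (if b = 0 then 3 else b.castSucc) else b.castSucc)
          ((![2, 8, 4, 2] (0 : Fin 4) : ℕ) : ℝ) (ξ 2) (m 2) =
        (K 0 (pl ξ) (zv (plz m)) 0 0 : ℂ) * KZ 3 3 2 (ξ 2) (m 2) := by
      have eQ : QQ4 B K 0 (pl ξ) (plz m) = K 0 (pl ξ) (zv (plz m)) := rfl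
      rw [eQ]
      rw [Finset.sum_eq_single 0]
      · rw [Finset.sum_eq_single 0]
        · simp
        · intro b _ hb
          rw [hP.zero _ _ 0 b (fun h => hb h.2)]
          simp
        · intro h; exact absurd (Finset.mem_univ _) h
      · intro a _ ha
        refine Finset.sum_eq_zero fun b _ => ?_
        rw [hP.zero _ _ a b (fun h => ha h.1)]
        simp
      · intro h; exact absurd (Finset.mem_univ _) h
    have R1 : ∀ (k : Fin 3) (M : ℝ), ((![2, 8, 4, 2] k.succ : ℕ) : ℝ) = M →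
        ∑ a : Fin 3, ∑ b : Fin 3, (QQ4 B K k.succ (pl ξ) (plz m) a b : ℂ) *
        KZ (if k.succ = 0 then (if a = 0 then 3 else a.castSucc) else a.castSucc)
          (if k.succ = 0 then (if b = 0 then 3 else b.castSucc) else b.castSucc)
          ((![2, 8, 4, 2] k.succ : ℕ) : ℝ) (ξ 2) (m 2) =
        (∑ a : Fin 3, ∑ b : Fin 3, (K k.succ ((B ^ (k.succ : ℕ)) *ᵥ pl ξ)
          ((B ^ (k.succ : ℕ)) *ᵥ zv (plz m)) a b : ℂ) * KZ a.castSucc b.castSucc M (ξ 2) (m 2)) +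
        ((K 0 (pl ξ) (zv (plz m)) 0 0 : ℝ) - if plz m = 0 then 1 else 0 : ℂ) *
          KZ k.castSucc k.castSucc M (ξ 2) (m 2) := by
      intro k M hM
      rw [hM]
      simp only [Fin.succ_ne_zero, if_false]
      exact sum_succ_D4 B K k (pl ξ) (plz m) M (ξ 2) (m 2)
    have R8 := R1 0 8 (by simp)
    have R4 := R1 1 4 (by simp)
    have R2 := R1 2 2 (by simp)
    have h6' := h6 (ξ 2) (m 2)
    have es0 : (0 : Fin 3).succ = (1 : Fin 4) := rfl
    have es1 : (1 : Fin 3).succ = (2 : Fin 4) := rfl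
    have es2 : (2 : Fin 3).succ = (3 : Fin 4) := rfl
    have ec0 : (0 : Fin 3).castSucc = (0 : Fin 4) := rfl
    have ec1 : (1 : Fin 3).castSucc = (1 : Fin 4) := rfl
    have ec2 : (2 : Fin 3).castSucc = (2 : Fin 4) := rfl
    rw [es0, ec0] at L8 R8
    rw [es1, ec1] at L4 R4
    rw [es2, ec2] at L2 R2
    rw [Fin.sum_univ_four, R0, R8, R4, R2]
    unfold P0
    rw [Fin.sum_univ_four, L0, L8, L4, L2, ← h6']
    ring
  · intro ξ μ hμ
    unfold P0
    refine Finset.sum_eq_zero fun c _ => ?_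
    -- the third coordinate
    have h2 : (∃ n : ℤ, 2 ^ (c : ℕ) * μ 2 = 16 * n) → ∃ n : ℤ, μ 2 = n := by
      rintro ⟨n, hn⟩
      have hc : ∃ q : ℤ, (16 : ℝ) = 2 ^ (c : ℕ) * q := by
        fin_cases c
        · exact ⟨16, by norm_num⟩
        · exact ⟨8, by norm_num⟩
        · exact ⟨4, by norm_num⟩
        · exact ⟨2, by norm_num⟩
      obtain ⟨q, hq⟩ := hc
      refine ⟨q * n, ?_⟩
      rw [hq] at hn
      have h3 : (2 : ℝ) ^ (c : ℕ) * μ 2 = 2 ^ (c : ℕ) * (q * n) := by rw [hn]; ring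
      have h4 := mul_left_cancel₀ (by positivity) h3
      rw [h4]; push_cast; ring
    -- the planar part
    have h3 : (∃ q : Fin 2 → ℤ, (B ^ (c : ℕ)) *ᵥ pl μ = (B ^ (c : ℕ)) *ᵥ zv q) →
        ∃ q : Fin 2 → ℤ, pl μ = zv q := by
      rintro ⟨q, hq⟩
      exact ⟨q, B_inj'_D4 hP _ hq⟩
    have h4 : (∃ n : ℤ, μ 2 = n) → (∃ q : Fin 2 → ℤ, pl μ = zv q) → False := by
      rintro ⟨n, hn⟩ ⟨q, hq⟩
      apply hμ
      refine ⟨![q 0, q 1, n], ?_⟩
      have h0 : μ 0 = q 0 := congrFun hq 0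
      have h1 : μ 1 = q 1 := congrFun hq 1
      funext i
      fin_cases i
      · simpa [zv] using h0
      · simpa [zv] using h1
      · simpa [zv] using hn
    have hKZ : ∀ a b : Fin 4, (∃ q : Fin 2 → ℤ, pl μ = zv q) →
        KZ a b 16 (2 ^ (c : ℕ) * ξ 2) (2 ^ (c : ℕ) * μ 2) = 0 := by
      intro a b hq
      unfold KZ
      rw [if_neg]
      intro hn
      exact h4 (h2 hn) hq
    have hK : (¬ ∃ q : Fin 2 → ℤ, pl μ = zv q) →
        K c ((B ^ (c : ℕ)) *ᵥ pl ξ) ((B ^ (c : ℕ)) *ᵥ pl μ) = 0 := by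
      intro hq
      apply hP.supp
      intro hmem
      obtain ⟨q, hq'⟩ := hP.lat c _ hmem
      exact hq (h3 ⟨q, hq'⟩)
    have hz : (¬ ∃ q : Fin 2 → ℤ, pl μ = zv q) → (B ^ (c : ℕ)) *ᵥ pl μ ≠ 0 := by
      intro hq h0
      apply hq
      refine ⟨0, ?_⟩
      rw [B_inj_D4 hP _ _ h0, (zv_eq_zero_D4 0).mpr rfl]
    by_cases hq : ∃ q : Fin 2 → ℤ, pl μ = zv q
    · unfold DD0 KK
      have e1 : ∀ a b : Fin 4, KZ a b 16 (2 ^ (c : ℕ) * ξ 2) (2 ^ (c : ℕ) * μ 2) = 0 :=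
        fun a b => hKZ a b hq
      simp only [e1, mul_zero, Finset.sum_const_zero, ite_self]
      refine Fin.cases ?_ (fun k => ?_) c
      · simp
      · simp
    · unfold DD0 KK
      rw [hK hq]
      have e2 := hz hq
      simp only [Matrix.zero_apply, Complex.ofReal_zero, zero_mul, Finset.sum_const_zero, if_neg e2]
      refine Fin.cases ?_ (fun k => ?_) c
      · simp
      · simp

end Pool.Agent.Helper56.EX
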