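import Pool.Agent.Helper56.EX.St2

set_option autoImplicit false

open Matrix MeasureTheory
open scoped ContDiff ComplexConjugate FourierTransform SchwartzMap
open Pool.Agent.Helper54.Wav

noncomputable section

namespace Pool.Agent.Helper56.EX

private lemma KZ_zero_D5 (hA : StA3) (a b : Fin 4) (ha : a ≠ 0) (z y : ℝ) (hz : |z| ≤ 1) :
    KZ a b 16 z y = 0 := by
  unfold KZ
  split_ifs with h
  · have : Om a (z / 16) = 0 := by
      refine (hA a).2.2.1 ha _ ?_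
      rw [abs_div, abs_of_pos (show (0 : ℝ) < 16 by norm_num)]
      linarith
    rw [this, zero_mul]
  · rfl

private lemma KZ_far_D5 (hA : StA3) (a b : Fin 4) (z y : ℝ) (hz : 86 ≤ |z|) :
    KZ a b 16 z y = 0 := by
  unfold KZ
  split_ifs with h
  · have : Om a (z / 16) = 0 := by
      refine (hA a).2.1 _ ?_
      rw [abs_div, abs_of_pos (show (0 : ℝ) < 16 by norm_num)]
      linarith
    rw [this, zero_mul]
  · rfl

private lemma KZ_self_D5 (hA : StA3) (z y : ℝ) (hz : |z| ≤ 1) (hy : |y| < 16) :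
    (y = 0 → KZ 0 0 16 z y = 1) ∧ (y ≠ 0 → KZ 0 0 16 z y = 0) := by
  constructor
  · rintro rfl
    unfold KZ
    rw [if_pos ⟨0, by simp⟩]
    have : Om 0 (z / 16) = 1 := by
      refine (hA 0).2.2.2.1 rfl _ ?_
      rw [abs_div, abs_of_pos (show (0 : ℝ) < 16 by norm_num)]
      linarith
    rw [add_zero, this]
    simp
  · intro h
    unfold KZ
    rw [if_neg]
    rintro ⟨n, hn⟩
    have hn0 : n ≠ 0 := by
      rintro rfl
      simp at hn
      exact h hn
    have h1 : (1 : ℝ) ≤ |(n : ℝ)| := by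
      exact_mod_cast Int.one_le_abs hn0
    rw [hn, abs_mul, abs_of_pos (show (0 : ℝ) < 16 by norm_num)] at hy
    linarith

section

variable {B : Matrix (Fin 2) (Fin 2) ℝ} {ν : Seminorm ℝ (Fin 2 → ℝ)}
  {K : Fin 4 → (Fin 2 → ℝ) → (Fin 2 → ℝ) → Matrix (Fin 3) (Fin 3) ℝ}
  {Λ : Fin 4 → Finset (Fin 2 → ℝ)}

private lemma KK_near_D5 (hA : StA3) (hP : Pat B ν K Λ) (c : Fin 4) (η l : Fin 2 → ℝ) (z y : ℝ)
    (hη : ν η ≤ 9 / 10) (hz : |z| ≤ 1) :
    (c = 0 ∧ l = 0 → KK K c η l z y = KZ 0 0 16 z y) ∧ (¬ (c = 0 ∧ l = 0) → KK K c η l z y = 0) := by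
  have e1 : KK K c η l z y = ∑ b : Fin 3, (K c η l 0 b : ℂ) * KZ 0 b.castSucc 16 z y := by
    unfold KK
    rw [Fin.sum_univ_three]
    have h1 : ∑ b : Fin 3, (K c η l 1 b : ℂ) * KZ (1 : Fin 3).castSucc b.castSucc 16 z y = 0 := by
      refine Finset.sum_eq_zero fun b _ => ?_
      rw [KZ_zero_D5 hA _ _ (by decide) z y hz, mul_zero]
    have h2 : ∑ b : Fin 3, (K c η l 2 b : ℂ) * KZ (2 : Fin 3).castSucc b.castSucc 16 z y = 0 := by
      refine Finset.sum_eq_zero fun b _ => ?_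
      rw [KZ_zero_D5 hA _ _ (by decide) z y hz, mul_zero]
    rw [h1, h2, add_zero, add_zero]
    rfl
  constructor
  · rintro ⟨hc, hl⟩
    rw [e1, Fin.sum_univ_three, hP.near η hη c l 0, hP.near η hη c l 1, hP.near η hη c l 2,
      if_pos ⟨hc, hl, rfl⟩, if_neg (fun h => absurd h.2.2 (by decide)),
      if_neg (fun h => absurd h.2.2 (by decide))]
    simp
  · intro h
    rw [e1]
    refine Finset.sum_eq_zero fun b _ => ?_
    rw [hP.near η hη c l b, if_neg (fun h' => h ⟨h'.1, h'.2.1⟩)]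
    simp

private lemma D_near_D5 (hA : StA3) (hP : Pat B ν K Λ) (η l : Fin 2 → ℝ) (z y : ℝ)
    (hη : ν η ≤ 9 / 10) (hz : |z| ≤ 1) (hy : |y| < 16) (δ : ℂ)
    (h1 : l = 0 ∧ y = 0 → δ = 1) (h0 : ¬ (l = 0 ∧ y = 0) → δ = 0) :
    DD0 K 0 η l z y = δ ∧ DD0 K 1 η l z y = -δ ∧ DD0 K 2 η l z y = 0 := by
  have hk := KZ_self_D5 hA z y hz hy
  have n1 := (KK_near_D5 hA hP 1 η l z y hη hz).2 (fun h => absurd h.1 (by decide))
  have n2 := (KK_near_D5 hA hP 2 η l z y hη hz).2 (fun h => absurd h.1 (by decide))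
  have n0 := KK_near_D5 hA hP 0 η l z y hη hz
  have m2 : KZ (1 : Fin 3).castSucc (1 : Fin 3).castSucc 16 z y = 0 :=
    KZ_zero_D5 hA _ _ (by decide) z y hz
  have f1 : DD0 K 1 η l z y = KK K 1 η l z y -
      open Classical in if l = 0 then KZ (0 : Fin 3).castSucc (0 : Fin 3).castSucc 16 z y else 0 := rfl
  have f2 : DD0 K 2 η l z y = KK K 2 η l z y -
      open Classical in if l = 0 then KZ (1 : Fin 3).castSucc (1 : Fin 3).castSucc 16 z y else 0 := rfl
  have f0 : DD0 K 0 η l z y = KK K 0 η l z y - 0 := rfl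
  rw [f0, f1, f2, n1, n2, m2]
  have e00 : KZ (0 : Fin 3).castSucc (0 : Fin 3).castSucc 16 z y = KZ 0 0 16 z y := rfl
  rw [e00]
  by_cases hl : l = 0
  · rw [n0.1 ⟨rfl, hl⟩, if_pos hl, if_pos hl]
    by_cases hy0 : y = 0
    · rw [hk.1 hy0, h1 ⟨hl, hy0⟩]; simp
    · rw [hk.2 hy0, h0 (fun h => hy0 h.2)]; simp
  · rw [n0.2 (fun h => hl h.2), if_neg hl, if_neg hl, h0 (fun h => hl h.1)]; simp

private lemma D_far_D5 (hP : Pat B ν K Λ) (c : Fin 4) (η l : Fin 2 → ℝ) (z y : ℝ)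
    (hη : 17 / 10 ≤ ν η) : DD0 K c η l z y = 0 := by
  have hf := hP.far η hη c l
  unfold DD0 KK
  rw [hf]
  refine Fin.cases ?_ (fun k => ?_) c
  · simp only [Fin.cases_zero]
    split_ifs <;> simp
  · simp only [Fin.cases_succ]
    by_cases hl : l = 0
    · rw [if_pos hl, if_pos hl]
      rw [sub_eq_zero]
      rw [Finset.sum_eq_single k]
      · rw [Finset.sum_eq_single k]
        · simp
        · intro b _ hb
          rw [Matrix.single_apply_of_ne]
          · simp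
          · rintro ⟨_, h⟩
            exact hb h.symm
        · simp
      · intro a _ ha
        refine Finset.sum_eq_zero fun b _ => ?_
        rw [Matrix.single_apply_of_ne]
        · simp
        · rintro ⟨h, _⟩
          exact ha h.symm
      · simp
    · rw [if_neg hl, if_neg hl]
      simp

private lemma D_z_D5 (hA : StA3) (c : Fin 4) (η l : Fin 2 → ℝ) (z y : ℝ)
    (hz : 86 ≤ |z|) : DD0 K c η l z y = 0 := by
  unfold DD0 KK
  have h0 : ∀ a b : Fin 4, KZ a b 16 z y = 0 := fun a b => KZ_far_D5 hA a b z y hz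
  simp only [h0, mul_zero, Finset.sum_const_zero, ite_self, zero_sub, neg_eq_zero]
  refine Fin.cases ?_ (fun k => ?_) c <;> simp

private lemma det_D5 (hP : Pat B ν K Λ) : B.det ≠ 0 := by
  intro h
  obtain ⟨v, hv, hv0⟩ := Matrix.exists_mulVec_eq_zero_iff.mpr h
  have h1 := hP.expand v
  rw [hv0, map_zero] at h1
  have h2 : ν v = 0 := le_antisymm (by linarith) (apply_nonneg ν v)
  exact hv (hP.nu_pos v h2)

private lemma grow_D5 (hP : Pat B ν K Λ) (N : ℕ) (x : Fin 2 → ℝ) :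
    2 ^ N * ν x ≤ ν ((B ^ N) *ᵥ x) := by
  induction N with
  | zero => simp
  | succ n ih =>
    rw [pow_succ' B, ← Matrix.mulVec_mulVec]
    have := hP.expand ((B ^ n) *ᵥ x)
    calc 2 ^ (n + 1) * ν x = 2 * (2 ^ n * ν x) := by ring
      _ ≤ 2 * ν ((B ^ n) *ᵥ x) := by linarith
      _ ≤ _ := this

private lemma shrink_D5 (hP : Pat B ν K Λ) (N : ℕ) (x : Fin 2 → ℝ) :
    2 ^ N * ν ((B ^ (-(N : ℤ))) *ᵥ x) ≤ ν x := by
  have hu : IsUnit B.det := (det_D5 hP).isUnit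
  have h := grow_D5 hP N ((B ^ (-(N : ℤ))) *ᵥ x)
  rw [Matrix.mulVec_mulVec, ← _root_.zpow_natCast B N, ← Matrix.zpow_add hu, add_neg_cancel,
    _root_.zpow_zero, Matrix.one_mulVec] at h
  exact h

private lemma zero_iff_D5 (hP : Pat B ν K Λ) (i : ℤ) (x : Fin 2 → ℝ) :
    (B ^ i) *ᵥ x = 0 ↔ x = 0 := by
  have hu : IsUnit B.det := (det_D5 hP).isUnit
  constructor
  · intro h
    have h2 : (B ^ (-i)) *ᵥ ((B ^ i) *ᵥ x) = x := by
      rw [Matrix.mulVec_mulVec, ← Matrix.zpow_add hu, neg_add_cancel, _root_.zpow_zero,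
        Matrix.one_mulVec]
    rw [h, Matrix.mulVec_zero] at h2
    exact h2.symm
  · rintro rfl
    exact Matrix.mulVec_zero _

end

theorem m_D5 (h : StA3) : StD5 := by
  intro B ν K Λ hP η l z y hηz
  have hν0 : 0 ≤ ν η := apply_nonneg ν η
  obtain ⟨N1, hN1⟩ := pow_unbounded_of_one_lt (2 * ν η + |z| + |y| + 1) (one_lt_two (α := ℝ))
  -- the far scale
  obtain ⟨N2, hN2⟩ : ∃ N2 : ℕ, ∀ N : ℕ, N2 ≤ N → 86 ≤ |2 ^ N * z| ∨ 17 / 10 ≤ 2 ^ N * ν η := by
    by_cases hz : z = 0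
    · have hη : η ≠ 0 := by
        rcases hηz with h | h
        · exact h
        · exact absurd hz h
      have hpos : 0 < ν η := lt_of_le_of_ne hν0 (fun h => hη (hP.nu_pos η h.symm))
      obtain ⟨N2, hN2⟩ := pow_unbounded_of_one_lt (2 / ν η) (one_lt_two (α := ℝ))
      refine ⟨N2, fun N hN => Or.inr ?_⟩
      have h1 : (2 : ℝ) ^ N2 ≤ 2 ^ N := pow_le_pow_right₀ (by norm_num) hN
      have h2 : 2 / ν η ≤ 2 ^ N := hN2.le.trans h1
      rw [div_le_iff₀ hpos] at h2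
      linarith
    · have hpos : 0 < |z| := abs_pos.mpr hz
      obtain ⟨N2, hN2⟩ := pow_unbounded_of_one_lt (86 / |z|) (one_lt_two (α := ℝ))
      refine ⟨N2, fun N hN => Or.inl ?_⟩
      have h1 : (2 : ℝ) ^ N2 ≤ 2 ^ N := pow_le_pow_right₀ (by norm_num) hN
      have h2 : 86 / |z| ≤ 2 ^ N := hN2.le.trans h1
      rw [div_le_iff₀ hpos] at h2
      rw [abs_mul, abs_of_pos (by positivity : (0 : ℝ) < 2 ^ N)]
      exact h2
  refine ⟨N1 + N2 + 2, fun j => ?_⟩
  intro D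
  -- near
  have hnear : ∀ i : ℤ, (N1 : ℤ) ≤ i → ∀ δ : ℂ, (l = 0 ∧ y = 0 → δ = 1) →
      (¬ (l = 0 ∧ y = 0) → δ = 0) → D 0 i = δ ∧ D 1 i = -δ ∧ D 2 i = 0 := by
    intro i hi δ h1 h0
    obtain ⟨N, rfl⟩ := Int.eq_ofNat_of_zero_le (le_trans (Int.natCast_nonneg N1) hi)
    have hN : N1 ≤ N := by exact_mod_cast hi
    have hp : (2 : ℝ) ^ N1 ≤ 2 ^ N := pow_le_pow_right₀ (by norm_num) hN
    have hC : 2 * ν η + |z| + |y| + 1 ≤ 2 ^ N := hN1.le.trans hp
    have hp0 : (0 : ℝ) < 2 ^ N := by positivity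
    have hpz : (2 : ℝ) ^ (-(N : ℤ)) = (2 ^ N)⁻¹ := by rw [_root_.zpow_neg, _root_.zpow_natCast]
    have hz0 := abs_nonneg z
    have hy0 := abs_nonneg y
    have a1 : ν ((B ^ (-(N : ℤ))) *ᵥ η) ≤ 9 / 10 := by
      have := shrink_D5 hP N η
      by_contra hc
      push Not at hc
      have : 2 ^ N * (9 / 10) ≤ ν η := by nlinarith
      linarith
    have a2 : |(2 : ℝ) ^ (-(N : ℤ)) * z| ≤ 1 := by
      rw [hpz, abs_mul, abs_of_pos (inv_pos.mpr hp0), inv_mul_le_iff₀ hp0]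
      linarith
    have a3 : |(2 : ℝ) ^ (-(N : ℤ)) * y| < 16 := by
      rw [hpz, abs_mul, abs_of_pos (inv_pos.mpr hp0), inv_mul_lt_iff₀ hp0]
      linarith
    have hy' : (2 : ℝ) ^ (-(N : ℤ)) * y = 0 ↔ y = 0 := by
      rw [mul_eq_zero]
      constructor
      · rintro (h | h)
        · rw [hpz] at h
          exact absurd h (inv_pos.mpr hp0).ne'
        · exact h
      · exact Or.inr
    have hl' := zero_iff_D5 hP (-(N : ℤ)) l
    refine D_near_D5 h hP _ _ _ _ a1 a2 a3 δ ?_ ?_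
    · rintro ⟨b1, b2⟩
      exact h1 ⟨hl'.1 b1, hy'.1 b2⟩
    · intro hn
      exact h0 (fun hh => hn ⟨hl'.2 hh.1, hy'.2 hh.2⟩)
  -- far
  have hfar : ∀ i : ℤ, i ≤ -(N2 : ℤ) → ∀ c : Fin 4, D c i = 0 := by
    intro i hi c
    obtain ⟨N, hN⟩ := Int.eq_ofNat_of_zero_le (show 0 ≤ -i by omega)
    have hN' : N2 ≤ N := by
      have : (N2 : ℤ) ≤ -i := by omega
      rw [hN] at this
      exact_mod_cast this
    have e1 : (B ^ (-i)) = B ^ N := by rw [hN]; exact _root_.zpow_natCast B N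
    have e2 : (2 : ℝ) ^ (-i) = 2 ^ N := by rw [hN]; exact _root_.zpow_natCast 2 N
    show DD0 K c ((B ^ (-i)) *ᵥ η) ((B ^ (-i)) *ᵥ l) (2 ^ (-i) * z) (2 ^ (-i) * y) = 0
    rw [e1, e2]
    rcases hN2 N hN' with hz | hη
    · exact D_z_D5 h c _ _ _ _ hz
    · exact D_far_D5 hP c _ _ _ _ (hη.trans (grow_D5 hP N η))
  constructor
  · intro hj
    by_cases hly : l = 0 ∧ y = 0
    · rw [if_pos hly]
      have t0 := hnear j (by push_cast at hj; omega) 1 (fun _ => rfl) (fun hn => absurd hly hn)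
      have t1 := hnear (j - 1) (by push_cast at hj; omega) 1 (fun _ => rfl) (fun hn => absurd hly hn)
      have t2 := hnear (j - 2) (by push_cast at hj; omega) 1 (fun _ => rfl) (fun hn => absurd hly hn)
      rw [t0.1, t1.1, t2.1, t1.2.1, t2.2.1, t2.2.2]
      ring
    · rw [if_neg hly]
      have t0 := hnear j (by push_cast at hj; omega) 0 (fun hn => absurd hn hly) (fun _ => rfl)
      have t1 := hnear (j - 1) (by push_cast at hj; omega) 0 (fun hn => absurd hn hly) (fun _ => rfl)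
      have t2 := hnear (j - 2) (by push_cast at hj; omega) 0 (fun hn => absurd hn hly) (fun _ => rfl)
      rw [t0.1, t1.1, t2.1, t1.2.1, t2.2.1, t2.2.2]
      ring
  · intro hj
    rw [hfar j (by push_cast at hj; omega), hfar (j - 1) (by push_cast at hj; omega),
      hfar (j - 2) (by push_cast at hj; omega), hfar (j - 1) (by push_cast at hj; omega),
      hfar (j - 2) (by push_cast at hj; omega), hfar (j - 2) (by push_cast at hj; omega)]
    ring

end Pool.Agent.Helper56.EX
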