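import Pool.Agent.Helper56.EX.St2

set_option autoImplicit false

open Matrix MeasureTheory
open scoped ContDiff ComplexConjugate FourierTransform SchwartzMap
open Pool.Agent.Helper54.Wav

noncomputable section

namespace Pool.Agent.Helper56.EX

private lemma sumDD_D6 {B : Matrix (Fin 2) (Fin 2) ℝ} {ν : Seminorm ℝ (Fin 2 → ℝ)}
    {K : Fin 4 → (Fin 2 → ℝ) → (Fin 2 → ℝ) → Matrix (Fin 3) (Fin 3) ℝ}
    {Λ : Fin 4 → Finset (Fin 2 → ℝ)} (hP : Pat B ν K Λ) (η l : Fin 2 → ℝ) (z y : ℝ) :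
    ∑ c : Fin 4, DD0 K c η l z y = 0 := by
  classical
  have hs : ∀ a b, ∑ c, K c η l a b = if l = 0 ∧ a = b then 1 else 0 := by
    intro a b
    have h := congrFun (congrFun (hP.sum η l) a) b
    rw [Matrix.sum_apply] at h
    rw [h]
    by_cases hl : l = 0
    · simp [hl, Matrix.one_apply]
    · simp [hl]
  have e1 : ∑ c : Fin 4, KK K c η l z y =
      ∑ a : Fin 3, ∑ b : Fin 3, ((∑ c, K c η l a b : ℝ) : ℂ) * KZ a.castSucc b.castSucc 16 z y := by
    unfold KK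
    rw [Finset.sum_comm]
    refine Finset.sum_congr rfl fun a _ => ?_
    rw [Finset.sum_comm]
    refine Finset.sum_congr rfl fun b _ => ?_
    push_cast
    rw [Finset.sum_mul]
  unfold DD0
  rw [Finset.sum_sub_distrib, e1, Fin.sum_univ_succ (n := 3)]
  simp only [hs, Fin.cases_zero, Fin.cases_succ, zero_add]
  rw [sub_eq_zero]
  refine Finset.sum_congr rfl fun a _ => ?_
  by_cases hl : l = 0
  · simp only [hl, true_and, if_true]
    rw [Finset.sum_eq_single a]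
    · simp
    · intro b _ hb
      rw [if_neg (Ne.symm hb)]
      simp
    · simp
  · simp [hl]

private lemma det_D6 {B : Matrix (Fin 2) (Fin 2) ℝ} {ν : Seminorm ℝ (Fin 2 → ℝ)}
    {K : Fin 4 → (Fin 2 → ℝ) → (Fin 2 → ℝ) → Matrix (Fin 3) (Fin 3) ℝ}
    {Λ : Fin 4 → Finset (Fin 2 → ℝ)} (hP : Pat B ν K Λ) : B.det ≠ 0 := by
  intro h
  obtain ⟨v, hv, hv0⟩ := Matrix.exists_mulVec_eq_zero_iff.2 h
  apply hv
  apply hP.nu_pos
  have h1 := hP.expand v
  rw [hv0, map_zero] at h1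
  have h2 := apply_nonneg ν v
  linarith

theorem m_D6 (h3 : StD3) (h5 : StD5) : StD6 := by
  classical
  intro B ν K Λ hP ξ μ hξ
  have hdet := det_D6 hP
  have hu : IsUnit B.det := isUnit_iff_ne_zero.2 hdet
  have hz : pl ξ ≠ 0 ∨ ξ 2 ≠ 0 := by
    by_contra hc
    push Not at hc
    apply hξ
    funext i
    have h0 := congrFun hc.1 0
    have h1 := congrFun hc.1 1
    simp only [pl, Matrix.cons_val_zero, Matrix.cons_val_one, Pi.zero_apply] at h0 h1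
    fin_cases i
    · exact h0
    · exact h1
    · exact hc.2
  have hμ : (pl μ = 0 ∧ μ 2 = 0) ↔ μ = 0 := by
    constructor
    · rintro ⟨ha, hb⟩
      funext i
      have h0 := congrFun ha 0
      have h1 := congrFun ha 1
      simp only [pl, Matrix.cons_val_zero, Matrix.cons_val_one, Pi.zero_apply] at h0 h1
      fin_cases i
      · exact h0
      · exact h1
      · exact hb
    · rintro rfl
      refine ⟨?_, rfl⟩
      funext i
      fin_cases i <;> rfl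
  obtain ⟨J, hJ⟩ := h5 B ν K Λ hP (pl ξ) (pl μ) (ξ 2) (μ 2) hz
  let D : Fin 4 → ℤ → ℂ := fun c i => DD0 K c ((B ^ (-i)) *ᵥ pl ξ) ((B ^ (-i)) *ᵥ pl μ)
      (2 ^ (-i) * ξ 2) (2 ^ (-i) * μ 2)
  let X : ℤ → ℂ := fun j => D 0 j + D 0 (j - 1) + D 0 (j - 2) + D 1 (j - 1) + D 1 (j - 2) +
    D 2 (j - 2)
  have hX1 : ∀ j : ℤ, (J : ℤ) ≤ j → X j = if μ = 0 then 1 else 0 := by
    intro j hj
    have := (hJ j).1 hj
    change X j = _ at this
    rw [this]
    exact if_congr hμ rfl rfl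
  have hX2 : ∀ j : ℤ, j ≤ -(J : ℤ) → X j = 0 := fun j hj => (hJ j).2 hj
  have hD : ∀ i, D 0 i + D 1 i + D 2 i + D 3 i = 0 := by
    intro i
    have := sumDD_D6 hP ((B ^ (-i)) *ᵥ pl ξ) ((B ^ (-i)) *ᵥ pl μ)
      (2 ^ (-i) * ξ 2) (2 ^ (-i) * μ 2)
    rw [Fin.sum_univ_four] at this
    exact this
  have hB : ∀ (c : ℕ) (j : ℤ) (v : Fin 2 → ℝ),
      (B ^ c) *ᵥ ((B ^ (-j)) *ᵥ v) = (B ^ (-(j - c))) *ᵥ v := by
    intro c j v
    rw [Matrix.mulVec_mulVec, ← zpow_natCast, ← Matrix.zpow_add hu]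
    congr 2
    ring
  have h2 : ∀ (c : ℕ) (j : ℤ) (v : ℝ),
      (2 : ℝ) ^ c * (2 ^ (-j) * v) = 2 ^ (-(j - c)) * v := by
    intro c j v
    rw [← mul_assoc, ← zpow_natCast, ← zpow_add₀ (two_ne_zero)]
    congr 2
    ring
  have hP0 : ∀ j : ℤ, P0 B K (((A3 B)ᵀ ^ (-j)) *ᵥ ξ) (((A3 B)ᵀ ^ (-j)) *ᵥ μ) =
      X (j + 1 - 1) - X (j - 1) := by
    intro j
    obtain ⟨_, e1, e2⟩ := h3 B hdet (-j) ξ
    obtain ⟨_, e3, e4⟩ := h3 B hdet (-j) μ
    unfold P0
    rw [e1, e2, e3, e4]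
    simp only [hB, h2]
    rw [Fin.sum_univ_four]
    have c0 : (((0 : Fin 4) : ℕ) : ℤ) = 0 := rfl
    have c1 : (((1 : Fin 4) : ℕ) : ℤ) = 1 := rfl
    have c2 : (((2 : Fin 4) : ℕ) : ℤ) = 2 := rfl
    have c3 : (((3 : Fin 4) : ℕ) : ℤ) = 3 := rfl
    rw [c0, c1, c2, c3, sub_zero, add_sub_cancel_right]
    change D 0 j + D 1 (j - 1) + D 2 (j - 2) + D 3 (j - 3) = X j - X (j - 1)
    have h := hD (j - 3)
    simp only [X]
    have f1 : j - 1 - 1 = j - 2 := by ring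
    have f2 : j - 1 - 2 = j - 3 := by ring
    rw [f1, f2]
    linear_combination h
  rw [finsum_congr hP0]
  have := finsum_telescope (fun j => X (j - 1)) (if μ = 0 then 1 else 0) 0 (J + 1)
    (fun j hj => hX1 _ (by push_cast at hj; omega)) (fun j hj => hX2 _ (by push_cast at hj; omega))
  rw [this, sub_zero]

end Pool.Agent.Helper56.EX
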