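import Pool.Agent.Helper56.EX.St2

/-!
# Project EX, module D7: existence of the wavelet
-/

set_option autoImplicit false

open Matrix MeasureTheory
open scoped ContDiff ComplexConjugate FourierTransform SchwartzMap
open Pool.Agent.Helper54.Wav

noncomputable section

namespace Pool.Agent.Helper56.EX

/-- the windows of the generators -/
private def om_D7 (i : Fin 4) (a : Fin 3) : Fin 4 :=
  if i = 0 then (if a = 0 then 3 else a.castSucc) else a.castSucc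

private lemma om_inj_D7 : ∀ i, Function.Injective (om_D7 i) := by
  intro i a b
  revert a b i
  unfold om_D7
  decide

private lemma om_zero_D7 : ∀ i a, om_D7 i a = 0 → i ≠ 0 ∧ a = 0 := by
  unfold om_D7
  decide

private lemma M_two_D7 : ∀ i : Fin 4, 2 ≤ (![2, 8, 4, 2] i : ℕ) := by decide

private lemma M_dvd_D7 : ∀ i : Fin 4, 2 ∣ (![2, 8, 4, 2] i : ℕ) := by decide

/-- the planar part as a linear map -/
private def plL_D7 : (Fin 3 → ℝ) →ₗ[ℝ] (Fin 2 → ℝ) where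
  toFun := pl
  map_add' x y := by
    funext i
    fin_cases i <;> simp [pl]
  map_smul' c x := by
    funext i
    fin_cases i <;> simp [pl]

private lemma plL_apply_D7 (x : Fin 3 → ℝ) : plL_D7 x = pl x := rfl

/-- the norm on the three dimensional space -/
private def N3_D7 (ν : Seminorm ℝ (Fin 2 → ℝ)) : Seminorm ℝ (Fin 3 → ℝ) :=
  ν.comp plL_D7 + (normSeminorm ℝ ℝ).comp (LinearMap.proj 2)

private lemma N3_apply_D7 (ν : Seminorm ℝ (Fin 2 → ℝ)) (x : Fin 3 → ℝ) :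
    N3_D7 ν x = ν (pl x) + |x 2| := by
  unfold N3_D7
  simp [plL_apply_D7]

private lemma N3_zero_D7 (ν : Seminorm ℝ (Fin 2 → ℝ)) (hν : ∀ x, ν x = 0 → x = 0)
    (x : Fin 3 → ℝ) (h : N3_D7 ν x = 0) : x = 0 := by
  rw [N3_apply_D7] at h
  have h1 : 0 ≤ ν (pl x) := apply_nonneg ν _
  have h2 : 0 ≤ |x 2| := abs_nonneg _
  have h3 : ν (pl x) = 0 := by linarith
  have h4 : |x 2| = 0 := by linarith
  have h5 := hν _ h3
  have h6 : x 0 = 0 := by
    have := congrFun h5 0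
    simpa [pl] using this
  have h7 : x 1 = 0 := by
    have := congrFun h5 1
    simpa [pl] using this
  have h8 : x 2 = 0 := abs_eq_zero.1 h4
  funext i
  fin_cases i
  · exact h6
  · exact h7
  · exact h8

/-- diagonal kernels near zero -/
private lemma near_D7 {B : Matrix (Fin 2) (Fin 2) ℝ} {ν : Seminorm ℝ (Fin 2 → ℝ)}
    {K : Fin 4 → (Fin 2 → ℝ) → (Fin 2 → ℝ) → Matrix (Fin 3) (Fin 3) ℝ}
    {Λ : Fin 4 → Finset (Fin 2 → ℝ)} (hP : Pat B ν K Λ) (k : Fin 3) (η : Fin 2 → ℝ)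
    (h0 : ν η ≤ 9 / 10) (h1 : ν ((B ^ (k.succ : ℕ)) *ᵥ η) ≤ 9 / 10) :
    QQ4 B K k.succ η 0 0 0 = 0 := by
  unfold QQ4
  rw [Fin.cases_succ, Matrix.add_apply, hP.near _ h1 k.succ _ 0]
  rw [if_neg (fun h => Fin.succ_ne_zero k h.1), zero_add, Matrix.single_apply]
  have hz : (zv (0 : Fin 2 → ℤ)) = 0 := by
    funext i
    simp [zv]
  by_cases hk : k = 0
  · rw [if_pos ⟨hk, hk⟩, hP.near _ h0 0 _ 0, if_pos ⟨rfl, hz, rfl⟩, if_pos rfl, sub_self]
  · rw [if_neg (fun h => hk h.1)]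

theorem m_D7 (b : StB5) (a3 : StA3) (h1 : StD1) (h2 : StD2) (h3 : StD3) (h4 : StD4)
    (h6 : StD6) : StD7 := by
  intro B ν K Λ hP
  have hexp2 : ∀ x, ν x ≤ (1 / 2 : ℝ) * ν (B *ᵥ x) := by
    intro x
    have := hP.expand x
    linarith
  have hBdet : B.det ≠ 0 := det_pos_of_norm ν hP.nu_pos B hexp2
  have hAdet : (A3 B).det ≠ 0 := (h3 B hBdet 0 0).1
  -- expansion in three dimensions
  have hexp3 : ∀ x, N3_D7 ν x ≤ (1 / 2 : ℝ) * N3_D7 ν ((A3 B)ᵀ *ᵥ x) := by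
    intro x
    obtain ⟨_, e1, e2⟩ := h3 B hBdet 1 x
    rw [zpow_one] at e1 e2
    rw [zpow_one] at e1
    rw [zpow_one] at e2
    rw [N3_apply_D7, N3_apply_D7, e1, e2, abs_mul, abs_of_pos (zero_lt_two (α := ℝ))]
    have := hexp2 (pl x)
    linarith
  have hexp := hexp_of_norm (N3_D7 ν) (N3_zero_D7 ν hP.nu_pos) (by norm_num : (0 : ℝ) < 1 / 2)
    (by norm_num) _ hexp3
  -- the four families
  have hfam : ∀ i : Fin 4, ∃ (L : ℕ) (g : Fin L → (Fin 3 → ℝ) → ℂ), (∀ l, ContDiff ℝ ∞ (g l)) ∧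
      (∀ l, HasCompactSupport (g l)) ∧ (∀ l, ∫ ξ, ‖g l ξ‖ ^ 2 = 1) ∧
      (∀ ξ (m : Fin 3 → ℤ), ∑ l, g l ξ * conj (g l (ξ + zv m)) =
        ∑ a, ∑ b, (QQ4 B K i (pl ξ) (plz m) a b : ℂ) *
          KZ (om_D7 i a) (om_D7 i b) ((![2, 8, 4, 2] i : ℕ) : ℝ) (ξ 2) (m 2)) ∧
      (∀ l ξ, (∀ a, QQ4 B K i (pl ξ) 0 a a = 0 ∨
        Om (om_D7 i a) (ξ 2 / ((![2, 8, 4, 2] i : ℕ) : ℝ)) = 0) → g l ξ = 0) := by
    intro i
    obtain ⟨Λ', R, hPK⟩ := h2 B ν K Λ hP i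
    have hF := b 3 (QQ4 B K i) Λ' R hPK
    exact h1 (QQ4 B K i) hF (om_D7 i) (om_inj_D7 i) (![2, 8, 4, 2] i)
      (lt_of_lt_of_le (by norm_num) (M_two_D7 i)) (M_dvd_D7 i)
  choose L g hgs hgc hgn hgk hg0 using hfam
  let e := (Fintype.equivFin (Σ i : Fin 4, Fin (L i))).symm
  let g' : Fin (Fintype.card (Σ i : Fin 4, Fin (L i))) → (Fin 3 → ℝ) → ℂ :=
    fun l => g (e l).1 (e l).2
  have hker : ∀ ξ μ, ker g' ξ μ = P0 B K ξ μ := by
    intro ξ μ
    obtain ⟨p1, p2⟩ := h4 B ν K Λ hP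
    unfold ker
    by_cases hμ : ∃ m : Fin 3 → ℤ, μ = zv m
    · rw [if_pos hμ]
      obtain ⟨m, rfl⟩ := hμ
      rw [p1]
      have e1 : ∑ l, g' l ξ * conj (g' l (ξ + zv m)) =
          ∑ x : (Σ i : Fin 4, Fin (L i)), g x.1 x.2 ξ * conj (g x.1 x.2 (ξ + zv m)) :=
        e.sum_comp (fun x : (Σ i : Fin 4, Fin (L i)) =>
          g x.1 x.2 ξ * conj (g x.1 x.2 (ξ + zv m)))
      rw [e1, Fintype.sum_sigma]
      refine Finset.sum_congr rfl fun i _ => ?_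
      exact hgk i ξ m
    · rw [if_neg hμ, p2 ξ μ hμ]
  -- vanishing near zero
  have hzero : ∃ ε > 0, ∀ l ξ, ‖ξ‖ < ε → g' l ξ = 0 := by
    have hc : ∀ c : Fin 4, ∀ᶠ ξ : Fin 3 → ℝ in nhds 0, ν ((B ^ (c : ℕ)) *ᵥ pl ξ) < 9 / 10 := by
      intro c
      have hcont : Continuous fun ξ : Fin 3 → ℝ => ν ((B ^ (c : ℕ)) *ᵥ pl ξ) := by
        have h5 : Continuous fun ξ : Fin 3 → ℝ =>
            ((Matrix.toLin' (B ^ (c : ℕ))).comp plL_D7) ξ :=
          LinearMap.continuous_of_finiteDimensional _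
        exact (seminorm_continuous ν).comp h5
      have h0 : ν ((B ^ (c : ℕ)) *ᵥ pl 0) = 0 := by
        have : pl 0 = 0 := plL_D7.map_zero
        rw [this, Matrix.mulVec_zero, map_zero]
      have h7 := hcont.tendsto 0
      rw [h0] at h7
      exact h7.eventually (gt_mem_nhds (by norm_num))
    have hall := Filter.eventually_all.2 hc
    obtain ⟨ε, hε, hball⟩ := Metric.eventually_nhds_iff.1 hall
    refine ⟨min ε 1, lt_min hε one_pos, fun l ξ hξ => ?_⟩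
    have hξ1 : ‖ξ‖ < ε := lt_of_lt_of_le hξ (min_le_left _ _)
    have hξ2 : ‖ξ‖ < 1 := lt_of_lt_of_le hξ (min_le_right _ _)
    have hb := hball (y := ξ) (by rwa [dist_zero_right])
    have hb0 : ν (pl ξ) ≤ 9 / 10 := by
      have := hb 0
      simp only [Fin.val_zero, pow_zero, Matrix.one_mulVec] at this
      exact this.le
    apply hg0
    intro a
    set i := (e l).1 with hi
    by_cases hom : om_D7 i a = 0
    · left
      obtain ⟨hi0, ha⟩ := om_zero_D7 i a hom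
      obtain ⟨k, hk⟩ := Fin.exists_succ_eq.2 hi0
      rw [ha, ← hk]
      exact near_D7 hP k (pl ξ) hb0 (hb k.succ).le
    · right
      refine (a3 (om_D7 i a)).2.2.1 hom _ ?_
      have hx : |ξ 2| ≤ ‖ξ‖ := norm_le_pi_norm ξ 2
      have hM : (2 : ℝ) ≤ ((![2, 8, 4, 2] i : ℕ) : ℝ) := by
        exact_mod_cast M_two_D7 i
      rw [abs_div, abs_of_pos (by linarith : (0 : ℝ) < ((![2, 8, 4, 2] i : ℕ) : ℝ)),
        div_le_iff₀ (by linarith)]
      nlinarith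
  have hkey : ∀ ξ μ : Fin 3 → ℝ, ξ ≠ 0 →
      ∑ᶠ j : ℤ, ker g' (((A3 B)ᵀ ^ (-j)) *ᵥ ξ) (((A3 B)ᵀ ^ (-j)) *ᵥ μ) =
        if μ = 0 then 1 else 0 := by
    intro ξ μ hξ
    simp only [hker]
    rw [h6 B ν K Λ hP ξ μ hξ]
  have hL : 0 < Fintype.card (Σ i : Fin 4, Fin (L i)) := by
    rw [Nat.pos_iff_ne_zero]
    intro hcard
    have hem : IsEmpty (Fin (Fintype.card (Σ i : Fin 4, Fin (L i)))) := by
      rw [hcard]
      infer_instance
    have hk0 : ∀ ξ μ, ker g' ξ μ = 0 := by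
      intro ξ μ
      unfold ker
      split_ifs
      · exact Finset.sum_eq_zero fun l _ => (hem.false l).elim
      · rfl
    have h7 := hkey (fun _ => 1) 0 (by
      intro h
      have := congrFun h 0
      simp at this)
    rw [if_pos rfl] at h7
    simp only [hk0, finsum_zero] at h7
    exact zero_ne_one h7
  obtain ⟨ψ, hψ1, hψ2⟩ := main_reduction' (by norm_num : 0 < 3) (A3 B) hAdet hexp g'
    (fun l => hgs _ _) (fun l => hgc _ _) hzero (fun l => hgn _ _) hkey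
  refine ⟨_, fun l => ψ l, hL, fun l => ⟨ψ l, fun _ => rfl⟩, fun l => ?_,
    (Pool.Agent.Helper54.WavS.isONWavelet_iff _ _).2 hψ2⟩
  have h8 : 𝓕 (ψ l : _root_.Wav.E 3 → ℂ) = up (g' l) := funext (hψ1 l)
  have h9 : HasCompactSupport (𝓕 (ψ l : _root_.Wav.E 3 → ℂ)) := by
    rw [h8]
    exact up_compact (hgc _ _)
  exact h9

end Pool.Agent.Helper56.EX
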