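import Pool.Agent.Helper56.EX.St

/-!
# Project EX, module DN: the normalization of the window is positive
-/

set_option autoImplicit false

open Matrix
open scoped ContDiff

noncomputable section

namespace Pool.Agent.Helper56.EX

private lemma md_one_DN {y : W3} (hy : Pl y) {k : Fin 3} (hk : 1 / 25 ≤ |y k|) : md y = 1 := by
  rcases core_or hy with h | ⟨i, h | h⟩
  · exact absurd h (not_core hk)
  · exact md_Rp h
  · exact md_Rm h

private lemma dn_neg_DN (ℓ : Fin 3 → ℝ) (w : W3) : dn ℓ (-w) = dn ℓ w := by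
  unfold dn
  congr 1
  refine Finset.sum_congr rfl fun i _ => ?_
  rw [neg_neg, add_comm]

private lemma core_DN {ℓ γ : Fin 3 → ℝ} (hP : Par ℓ γ) {w : W3} (hw : Pl w) (i : Fin 3)
    (h : ∀ k, |(w - uu ℓ (Ee i)) k| < 1 / 25) : 0 < dn ℓ w := by
  have l : ∀ j, 999 / 1000 ≤ ℓ j ∧ ℓ j ≤ 1001 / 1000 := fun j => by
    have := abs_le.mp (hP.l j)
    constructor <;> linarith [this.1, this.2]
  have hp1 : ∀ j, Pl (w - uu ℓ (Ee j)) := fun j => Pl_sub hw (Pl_uu ℓ _)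
  have hp2 : ∀ j, Pl (-w - uu ℓ (Ee j)) := fun j => Pl_sub (Pl_neg hw) (Pl_uu ℓ _)
  have h0 := abs_lt.mp (h i)
  have h1 := abs_lt.mp (h (i + 1))
  rw [Pi.sub_apply, uu_self] at h0
  rw [Pi.sub_apply, uu_one] at h1
  have a0 : md (-w - uu ℓ (Ee i)) = 1 := by
    refine md_one_DN (hp2 i) (k := i + 1) ?_
    rw [Pi.sub_apply, Pi.neg_apply, uu_one]
    exact le_trans (by linarith [(l i).1, h1.2]) (le_abs_self _)
  have e1 : uu ℓ (Ee (i + 1)) i = ℓ (i + 1) := by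
    have := uu_two ℓ (i + 1)
    rwa [c12] at this
  have e2 : uu ℓ (Ee (i + 2)) i = -ℓ (i + 2) := by
    have := uu_one ℓ (i + 2)
    rwa [c21] at this
  have a1 : md (w - uu ℓ (Ee (i + 1))) = 1 := by
    refine md_one_DN (hp1 _) (k := i) ?_
    rw [Pi.sub_apply, e1]
    exact le_trans (by linarith [(l (i + 1)).1, h0.2]) (neg_le_abs _)
  have a2 : md (-w - uu ℓ (Ee (i + 1))) = 1 := by
    refine md_one_DN (hp2 _) (k := i) ?_
    rw [Pi.sub_apply, Pi.neg_apply, e1]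
    exact le_trans (by linarith [(l (i + 1)).1, h0.1]) (neg_le_abs _)
  have a3 : md (w - uu ℓ (Ee (i + 2))) = 1 := by
    refine md_one_DN (hp1 _) (k := i) ?_
    rw [Pi.sub_apply, e2]
    exact le_trans (by linarith [(l (i + 2)).1, h0.1]) (le_abs_self _)
  have a4 : md (-w - uu ℓ (Ee (i + 2))) = 1 := by
    refine md_one_DN (hp2 _) (k := i) ?_
    rw [Pi.sub_apply, Pi.neg_apply, e2]
    exact le_trans (by linarith [(l (i + 2)).1, h0.2]) (le_abs_self _)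
  have hpos := md_pos (hp1 i)
  unfold dn
  rw [sum3 i, a0, a1, a2, a3, a4]
  linarith

theorem m_DN : StDn := by
  intro ℓ γ hP w hw
  by_cases h : ∃ i, ∀ k, |(w - uu ℓ (Ee i)) k| < 1 / 25
  · obtain ⟨i, h⟩ := h
    exact core_DN hP hw i h
  by_cases h' : ∃ i, ∀ k, |(-w - uu ℓ (Ee i)) k| < 1 / 25
  · obtain ⟨i, h'⟩ := h'
    rw [← dn_neg_DN]
    exact core_DN hP (Pl_neg hw) i h'
  push Not at h h'
  have e1 : ∀ i, md (w - uu ℓ (Ee i)) = 1 := fun i => by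
    obtain ⟨k, hk⟩ := h i
    exact md_one_DN (Pl_sub hw (Pl_uu ℓ _)) hk
  have e2 : ∀ i, md (-w - uu ℓ (Ee i)) = 1 := fun i => by
    obtain ⟨k, hk⟩ := h' i
    exact md_one_DN (Pl_sub (Pl_neg hw) (Pl_uu ℓ _)) hk
  unfold dn
  simp [e1, e2]

end Pool.Agent.Helper56.EX
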