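import Pool.Agent.Helper56.EX.St3

/-!
# Project EX, module E1: the root of the cubic
-/

set_option autoImplicit false

open Matrix MeasureTheory
open scoped ContDiff ComplexConjugate
open Pool.Agent.Helper54.Wav (zv)

noncomputable section

namespace Pool.Agent.Helper56.EX

theorem factor_E1 (t : ℝ) (h : Root t) : (t - 30) * (t ^ 2 + 20 * t + 300) = 1 := by
  unfold Root at h
  linear_combination h

theorem pos_E1 (t : ℝ) : 0 < t ^ 2 + 20 * t + 300 := by nlinarith [sq_nonneg (t + 10)]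

theorem lower_E1 (t : ℝ) (h : Root t) : 30 < t := by
  have h1 := factor_E1 t h
  have h2 := pos_E1 t
  by_contra h3
  push Not at h3
  nlinarith

theorem upper_E1 (t : ℝ) (h : Root t) : t < 30001 / 1000 := by
  have h1 := factor_E1 t h
  have h0 := lower_E1 t h
  by_contra h3
  push Not at h3
  have h4 : (1800 : ℝ) ≤ t ^ 2 + 20 * t + 300 := by nlinarith
  nlinarith

theorem exists_E1 : ∃ t, Root t := by
  have hc : ContinuousOn (fun t : ℝ => t ^ 3 - 10 * t ^ 2 - 300 * t - 9001)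
      (Set.Icc 30 (30001 / 1000)) := by
    apply Continuous.continuousOn
    fun_prop
  have h := intermediate_value_Icc (by norm_num : (30 : ℝ) ≤ 30001 / 1000) hc
  have h0 : (0 : ℝ) ∈ Set.Icc ((fun t : ℝ => t ^ 3 - 10 * t ^ 2 - 300 * t - 9001) 30)
      ((fun t : ℝ => t ^ 3 - 10 * t ^ 2 - 300 * t - 9001) (30001 / 1000)) := by
    constructor
    · norm_num
    · norm_num
  obtain ⟨t, _, ht⟩ := h h0
  refine ⟨t, ?_⟩
  unfold Root
  simp only at ht
  linarith

theorem irr_E1 (t : ℝ) (h : Root t) : Irrational t := by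
  have hl := lower_E1 t h
  have hu := upper_E1 t h
  rintro ⟨r, hr⟩
  unfold Root at h
  rw [← hr] at h hl hu
  have h1 : r ^ 3 = 10 * r ^ 2 + 300 * r + 9001 := by exact_mod_cast h
  have hd : (r.den : ℚ) ≠ 0 := by exact_mod_cast r.den_ne_zero
  have hnum : (r.num : ℚ) = r * r.den := (Rat.mul_den_eq_num r).symm
  have h2 : (r.num : ℚ) ^ 3 =
      (10 * (r.num : ℚ) ^ 2 + 300 * r.num * r.den + 9001 * (r.den : ℚ) ^ 2) * r.den := by
    rw [hnum]
    linear_combination (r.den : ℚ) ^ 3 * h1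
  have h3 : r.num ^ 3 =
      (10 * r.num ^ 2 + 300 * r.num * (r.den : ℤ) + 9001 * (r.den : ℤ) ^ 2) * (r.den : ℤ) := by
    exact_mod_cast h2
  have h4 : (r.den : ℤ) ∣ r.num ^ 3 := ⟨_, by rw [h3, mul_comm]⟩
  have h5 : IsCoprime (r.den : ℤ) (r.num ^ 3) := by
    apply IsCoprime.pow_right
    rw [Int.isCoprime_iff_nat_coprime]
    simpa using r.reduced.symm
  have h6 : IsUnit (r.den : ℤ) := h5.isUnit_of_dvd' dvd_rfl h4
  have h7 : (r.den : ℤ) = 1 := by
    rcases Int.isUnit_iff.1 h6 with h | h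
    · exact h
    · have : (0 : ℤ) ≤ (r.den : ℤ) := Int.natCast_nonneg _
      omega
  have h8 : r = (r.num : ℚ) := by
    rw [hnum]
    have : (r.den : ℚ) = 1 := by exact_mod_cast h7
    rw [this, mul_one]
  rw [h8] at hl hu
  have h9 : (30 : ℤ) < r.num := by exact_mod_cast hl
  have h10 : ((r.num : ℚ) : ℝ) < 31 := by linarith
  have h11 : r.num < 31 := by exact_mod_cast h10
  omega

theorem m_E1 : StE1 := ⟨exists_E1, fun t h => ⟨lower_E1 t h, upper_E1 t h, irr_E1 t h⟩⟩

end Pool.Agent.Helper56.EX
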