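import Pool.Agent.Helper56.EX.St3

set_option autoImplicit false

open Matrix MeasureTheory
open scoped ContDiff ComplexConjugate
open Pool.Agent.Helper54.Wav (zv)

noncomputable section

namespace Pool.Agent.Helper56.EX

private lemma Bt1_E2 (t : ℝ) : (Bt t) *ᵥ ![1, 0] = ![0, 1] := by
  ext a
  fin_cases a <;> simp [Bt, Matrix.mulVec, dotProduct, Fin.sum_univ_two]

private lemma Bt2_E2 (t q : ℝ) (h : 9001 / t = q) :
    (Bt t ^ 2) *ᵥ ![1, 0] = ![-q, -(t - 10)] := by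
  rw [pow_two, ← Matrix.mulVec_mulVec, Bt1_E2]
  ext a
  fin_cases a <;> simp [Bt, Matrix.mulVec, dotProduct, Fin.sum_univ_two, h]

private lemma Bt3_E2 (t q : ℝ) (h : 9001 / t = q) :
    (Bt t ^ 3) *ᵥ ![1, 0] = ![q * (t - 10), -q + (t - 10) ^ 2] := by
  rw [pow_succ', ← Matrix.mulVec_mulVec, Bt2_E2 t q h]
  ext a
  fin_cases a
  · simp [Bt, Matrix.mulVec, dotProduct, Fin.sum_univ_two, h]
    ring
  · simp [Bt, Matrix.mulVec, dotProduct, Fin.sum_univ_two, h]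
    ring

private lemma uuE_E2 (ℓ : Fin 3 → ℝ) : uu ℓ (Ee 0) = ![0, -ℓ 0, ℓ 0] ∧ uu ℓ (Ee 1) = ![ℓ 1, 0, -ℓ 1] ∧
    uu ℓ (Ee 2) = ![-ℓ 2, ℓ 2, 0] := by
  refine ⟨?_, ?_, ?_⟩ <;> ext k <;> fin_cases k <;> simp [uu, Ee]

private lemma vv_E2 (t : ℝ) (ht : Root t) (h0 : 0 < t) :
    ∀ i, WW t (vv t i) = uu (lt t) (Ee i) := by
  have hR : t ^ 3 = 10 * t ^ 2 + 300 * t + 9001 := ht
  have hq : t * (t ^ 2 - 10 * t - 300) = 9001 := by linear_combination hR
  have hq' : 9001 / t = t ^ 2 - 10 * t - 300 := by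
    rw [div_eq_iff h0.ne']; linarith
  obtain ⟨e0, e1, e2⟩ := uuE_E2 (lt t)
  intro i
  fin_cases i
  · show WW t (vv t 0) = uu (lt t) (Ee 0)
    rw [e0]
    have hv : vv t 0 = (300 : ℝ) • ((Bt t ^ 3) *ᵥ ![1, 0]) := rfl
    rw [hv, Bt3_E2 t _ hq']
    ext k
    fin_cases k
    · simp [WW, W1, Wx, Wxx, lt]
      linear_combination (-(300 * (t - 10) / 9001) * (-(10 * t ^ 2 / 9001 / 3000) + (t - 10) * ((t / 30 + 10 * t ^ 2 / 9001) / 90010)) - (300 / 90010) * (1 / 30 + 10 * t / 9001) + 300 * 10 / (3000 * 9001)) * hq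
    · simp [WW, W1, Wx, Wxx, lt]
      linear_combination (-(300 * (t - 10) / 9001) * ((10 * t ^ 2 / 9001 / 3000) - (t - 10) * ((10 * t ^ 2 / 9001) / 90010)) + (300 / 90010) * (10 * t / 9001) - 300 * 10 / (3000 * 9001)) * hq
    · simp [WW, W1, Wx, Wxx, lt]
      linear_combination (-(300 * (t - 10) / 9001) * (- (t - 10) * ((t / 30) / 90010)) + (300 / 90010) * (1 / 30)) * hq
  · show WW t (vv t 1) = uu (lt t) (Ee 1)
    rw [e1]
    have hv : vv t 1 = (3000 : ℝ) • ((Bt t ^ 2) *ᵥ ![1, 0]) + (90010 : ℝ) • ((Bt t) *ᵥ ![1, 0]) := rfl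
    rw [hv, Bt2_E2 t _ hq', Bt1_E2]
    ext k
    fin_cases k
    · simp [WW, W1, Wx, Wxx, lt]
      linear_combination (3000 / 9001) * (-(10 * t ^ 2 / 9001 / 3000) + (t - 10) * ((t / 30 + 10 * t ^ 2 / 9001) / 90010)) * hq
    · simp [WW, W1, Wx, Wxx, lt]
      linear_combination (3000 / 9001) * ((10 * t ^ 2 / 9001 / 3000) - (t - 10) * ((10 * t ^ 2 / 9001) / 90010)) * hq
    · simp [WW, W1, Wx, Wxx, lt]
      linear_combination (3000 / 9001) * (- (t - 10) * ((t / 30) / 90010)) * hq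
  · show WW t (vv t 2) = uu (lt t) (Ee 2)
    rw [e2]
    have hv : vv t 2 = (3000 : ℝ) • ((Bt t ^ 2) *ᵥ ![1, 0]) := rfl
    rw [hv, Bt2_E2 t _ hq']
    ext k
    fin_cases k
    · simp [WW, W1, Wx, Wxx, lt]
      linear_combination (3000 / 9001) * (-(10 * t ^ 2 / 9001 / 3000) + (t - 10) * ((t / 30 + 10 * t ^ 2 / 9001) / 90010)) * hq
    · simp [WW, W1, Wx, Wxx, lt]
      linear_combination (3000 / 9001) * ((10 * t ^ 2 / 9001 / 3000) - (t - 10) * ((10 * t ^ 2 / 9001) / 90010)) * hq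
    · simp [WW, W1, Wx, Wxx, lt]
      linear_combination (3000 / 9001) * (- (t - 10) * ((t / 30) / 90010)) * hq

theorem m_E2 (h : StE1) : StE2 := by
  intro t ht
  obtain ⟨h1, h2, -⟩ := h.2 t ht
  have h0 : 0 < t := by linarith
  have hv := vv_E2 t ht h0
  refine ⟨?_, ?_, hv, ?_⟩
  · intro i
    fin_cases i
    · simp [lt]
    · show |t / 30 - 1| ≤ 1 / 1000
      rw [abs_le]; constructor <;> linarith
    · show |10 * t ^ 2 / 9001 - 1| ≤ 1 / 1000
      rw [abs_le]; constructor <;> nlinarith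
  · intro η
    unfold Pl
    simp [WW, W1, Wx, Wxx, lt]
    ring
  · intro n
    ext k
    have h3 : WW t (vec t n) k = ∑ i, (n i : ℝ) * WW t (vv t i) k := by
      simp only [WW, vec, Fin.sum_univ_three]
      ring
    rw [h3]
    simp only [hv, Fin.sum_univ_three]
    obtain ⟨e0, e1, e2⟩ := uuE_E2 (lt t)
    rw [e0, e1, e2]
    fin_cases k <;> simp [uu] <;> ring

end Pool.Agent.Helper56.EX
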