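import Pool.Agent.Helper56.EX.St3

/-!
# Project EX (MP_d629b1), module E3
-/

set_option autoImplicit false

open Matrix MeasureTheory
open scoped ContDiff ComplexConjugate
open Pool.Agent.Helper54.Wav (zv)

noncomputable section

namespace Pool.Agent.Helper56.EX

private lemma Wx1_E3 (t : ℝ) : Wx t 1 = -(10 * t ^ 2 / 9001 / 90010) := by simp [Wx, lt]
private lemma Wx2_E3 (t : ℝ) : Wx t 2 = -(t / 30 / 90010) := by simp [Wx, lt]
private lemma Wx0_E3 (t : ℝ) : Wx t 0 = (t / 30 + 10 * t ^ 2 / 9001) / 90010 := by simp [Wx, lt]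
private lemma Wxx0_E3 (t : ℝ) : Wxx t 0 = -(10 * t ^ 2 / 9001 / 3000) := by simp [Wxx, lt]
private lemma Wxx1_E3 (t : ℝ) : Wxx t 1 = 10 * t ^ 2 / 9001 / 3000 := by simp [Wxx, lt]
private lemma Wxx2_E3 (t : ℝ) : Wxx t 2 = 0 := by simp [Wxx]

theorem m_E3 (h : StE1) : StE3 := by
  intro t ht
  obtain ⟨h30, h31, -⟩ := h.2 t ht
  have ht0 : t ≠ 0 := by linarith
  have htp : 0 < t := by linarith
  constructor
  · intro η hη
    have g1 : η 0 * W1 t 1 + η 1 * Wx t 1 = 0 := congrFun hη 1
    have g2 : η 0 * W1 t 2 + η 1 * Wx t 2 = 0 := congrFun hη 2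
    have hdet : W1 t 2 * Wx t 1 - W1 t 1 * Wx t 2 =
        -(t / 9001 * (t / 30 / 90010) * (10 * t ^ 2 / 9001 / 3000)) := by
      unfold W1
      rw [Wxx1_E3, Wxx2_E3, Wx1_E3, Wx2_E3]
      ring
    have hdet0 : W1 t 2 * Wx t 1 - W1 t 1 * Wx t 2 ≠ 0 := by
      rw [hdet]
      have : 0 < t / 9001 * (t / 30 / 90010) * (10 * t ^ 2 / 9001 / 3000) := by positivity
      exact (neg_neg_of_pos this).ne
    have e0 : η 0 = 0 := by
      have e : η 0 * (W1 t 2 * Wx t 1 - W1 t 1 * Wx t 2) = 0 := by
        linear_combination Wx t 1 * g2 - Wx t 2 * g1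
      exact (mul_eq_zero.1 e).resolve_right hdet0
    have e1 : η 1 = 0 := by
      rw [e0, zero_mul, zero_add, Wx2_E3] at g2
      refine (mul_eq_zero.1 g2).resolve_right ?_
      have : 0 < t / 30 / 90010 := by positivity
      exact (neg_neg_of_pos this).ne
    funext i
    fin_cases i
    · exact e0
    · exact e1
  · intro η
    have e0 : (Bt t *ᵥ η) 0 = -(9001 / t) * η 1 := by
      simp [Bt, Matrix.mulVec, dotProduct, Fin.sum_univ_two]
    have e1 : (Bt t *ᵥ η) 1 = η 0 - (t - 10) * η 1 := by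
      simp [Bt, Matrix.mulVec, dotProduct, Fin.sum_univ_two]
      ring
    have hw : ∀ k, WW t (Bt t *ᵥ η) k = η 0 * Wx t k + η 1 * Wxx t k := by
      intro k
      unfold WW W1
      rw [e0, e1]
      field_simp
      ring
    set w1 := WW t (Bt t *ᵥ η) 1 with hw1
    set w2 := WW t (Bt t *ᵥ η) 2 with hw2
    have k1 : w1 = η 0 * Wx t 1 + η 1 * Wxx t 1 := hw 1
    have k2 : w2 = η 0 * Wx t 2 + η 1 * Wxx t 2 := hw 2
    rw [Wx1_E3, Wxx1_E3] at k1
    rw [Wx2_E3, Wxx2_E3] at k2
    -- the inverse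
    have f1 : WW t η 1 = -(3000 / 90010) * w1 + (300 * t / 9001 * (t / 9001) *
        (90010 / 3000 - (t - 10)) + 3000 / 90010 * (300 * t / 9001)) * w2 := by
      unfold WW W1
      rw [k1, k2, Wxx1_E3, Wx1_E3]
      ring
    have f2 : WW t η 2 = -(3000 / 90010 * (9001 / (300 * t))) * w1 +
        (-(t * (t - 10) / 9001) + 3000 / 90010) * w2 := by
      unfold WW W1
      rw [k1, k2, Wxx2_E3, Wx2_E3]
      field_simp
      ring
    have f0 : WW t η 0 = -(WW t η 1 + WW t η 2) := by
      unfold WW W1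
      rw [Wxx2_E3, Wx2_E3, Wxx1_E3, Wx1_E3, Wxx0_E3, Wx0_E3]
      ring
    have c1 : |300 * t / 9001 * (t / 9001) *
        (90010 / 3000 - (t - 10)) + 3000 / 90010 * (300 * t / 9001)| ≤ 1 / 10 := by
      have a1 : 0 ≤ t / 9001 := by positivity
      have a2 : t / 9001 ≤ 1 / 300 := by rw [div_le_div_iff₀ (by norm_num) (by norm_num)]; linarith
      have a3 : 0 ≤ 90010 / 3000 - (t - 10) := by linarith
      have a4 : 90010 / 3000 - (t - 10) ≤ 11 := by linarith
      have a5 : 300 * t / 9001 * (t / 9001) * (90010 / 3000 - (t - 10)) ≤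
          1 * (1 / 300) * 11 := by
        have b1 : 300 * t / 9001 ≤ 1 := by
          rw [div_le_one (by norm_num)]; linarith
        have b2 : 0 ≤ 300 * t / 9001 := by positivity
        gcongr
      have a6 : 0 ≤ 300 * t / 9001 * (t / 9001) * (90010 / 3000 - (t - 10)) := by
        have b2 : 0 ≤ 300 * t / 9001 := by positivity
        exact mul_nonneg (mul_nonneg b2 a1) a3
      have a7 : 3000 / 90010 * (300 * t / 9001) ≤ 3000 / 90010 * 1 := by
        have b1 : 300 * t / 9001 ≤ 1 := by
          rw [div_le_one (by norm_num)]; linarith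
        gcongr
      have a8 : 0 ≤ 3000 / 90010 * (300 * t / 9001) := by positivity
      rw [abs_le]
      constructor <;> linarith
    have c2 : |-(t * (t - 10) / 9001) + 3000 / 90010| ≤ 1 / 10 := by
      have a1 : t * (t - 10) / 9001 ≤ 1 / 10 := by
        rw [div_le_div_iff₀ (by norm_num) (by norm_num)]
        nlinarith
      have a2 : 0 ≤ t * (t - 10) / 9001 := by
        apply div_nonneg _ (by norm_num)
        exact mul_nonneg htp.le (by linarith)
      rw [abs_le]
      constructor <;> linarith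
    have c3 : |-(3000 / 90010 * (9001 / (300 * t)))| ≤ 1 / 10 := by
      have a1 : 9001 / (300 * t) ≤ 2 := by
        rw [div_le_iff₀ (by positivity)]; linarith
      have a2 : 0 ≤ 9001 / (300 * t) := by positivity
      rw [abs_neg, abs_of_nonneg (by positivity)]
      linarith
    have c4 : |(-(3000 / 90010) : ℝ)| ≤ 1 / 10 := by
      rw [abs_neg, abs_of_nonneg (by norm_num)]; norm_num
    have key : ∀ m, |w1| ≤ m → |w2| ≤ m → ∀ j, 2 * |WW t η j| ≤ m := by
      intro m hm1 hm2
      have hm0 : 0 ≤ m := (abs_nonneg _).trans hm1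
      have q1 : |WW t η 1| ≤ 1 / 5 * m := by
        rw [f1]
        refine (abs_add_le _ _).trans ?_
        rw [abs_mul, abs_mul]
        have := mul_le_mul c4 hm1 (abs_nonneg _) (by norm_num)
        have := mul_le_mul c1 hm2 (abs_nonneg _) (by norm_num)
        linarith
      have q2 : |WW t η 2| ≤ 1 / 5 * m := by
        rw [f2]
        refine (abs_add_le _ _).trans ?_
        rw [abs_mul, abs_mul]
        have := mul_le_mul c3 hm1 (abs_nonneg _) (by norm_num)
        have := mul_le_mul c2 hm2 (abs_nonneg _) (by norm_num)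
        linarith
      have q0 : |WW t η 0| ≤ 2 / 5 * m := by
        rw [f0, abs_neg]
        refine (abs_add_le _ _).trans ?_
        linarith
      intro j
      fin_cases j
      · show 2 * |WW t η 0| ≤ m
        linarith
      · show 2 * |WW t η 1| ≤ m
        linarith
      · show 2 * |WW t η 2| ≤ m
        linarith
    rcases le_total |w2| |w1| with hle | hle
    · exact ⟨1, key |w1| le_rfl hle⟩
    · exact ⟨2, key |w2| hle le_rfl⟩

end Pool.Agent.Helper56.EX
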