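import Pool.Agent.Helper56.EX.St3

/-!
# Project EX (MP_d629b1), module E4 (helper79)
-/

set_option autoImplicit false

open Matrix MeasureTheory
open scoped ContDiff ComplexConjugate
open Pool.Agent.Helper54.Wav (zv)

noncomputable section

namespace Pool.Agent.Helper56.EX

private theorem bmul_E4 (t a b : ℝ) : Bt t *ᵥ ![a, b] = ![-(9001 / t) * b, a - (t - 10) * b] := by
  ext i
  fin_cases i
  · simp [Bt, Matrix.mulVec, dotProduct, Fin.sum_univ_two]
  · simp [Bt, Matrix.mulVec, dotProduct, Fin.sum_univ_two]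
    ring

private theorem pow2_E4 (t : ℝ) (v : Fin 2 → ℝ) : (Bt t ^ 2) *ᵥ v = Bt t *ᵥ (Bt t *ᵥ v) := by
  rw [pow_two, ← Matrix.mulVec_mulVec]

private theorem pow3_E4 (t : ℝ) (v : Fin 2 → ℝ) : (Bt t ^ 3) *ᵥ v = Bt t *ᵥ (Bt t *ᵥ (Bt t *ᵥ v)) := by
  rw [pow_succ, ← Matrix.mulVec_mulVec, pow2_E4]

private theorem v0_E4 (t : ℝ) : vv t 0 = (300 : ℝ) • ((Bt t ^ 3) *ᵥ ![1, 0]) := rfl

private theorem v1_E4 (t : ℝ) :
    vv t 1 = (3000 : ℝ) • ((Bt t ^ 2) *ᵥ ![1, 0]) + (90010 : ℝ) • ((Bt t) *ᵥ ![1, 0]) := rfl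

private theorem v2_E4 (t : ℝ) : vv t 2 = (3000 : ℝ) • ((Bt t ^ 2) *ᵥ ![1, 0]) := rfl

private theorem vec0_E4 (t : ℝ) (ht : t ≠ 0) (n : Z3) :
    vec t n 0 = (300 * 9001 / t) * (n 0 * (t - 10) - 10 * (n 1 + n 2)) := by
  unfold vec
  rw [Fin.sum_univ_three]
  simp only [v0_E4, v1_E4, v2_E4, pow2_E4, pow3_E4, bmul_E4, Matrix.cons_val_zero, Matrix.cons_val_one,
    Pi.add_apply, Pi.smul_apply, smul_eq_mul]
  field_simp
  ring

private theorem vec1_E4 (t : ℝ) (ht : t ≠ 0) (h : Root t) (n : Z3) :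
    vec t n 1 = n 0 * (300 * (400 - 10 * t)) - (n 1 + n 2) * (3000 * (t - 10)) + 90010 * n 1 := by
  unfold vec
  rw [Fin.sum_univ_three]
  simp only [v0_E4, v1_E4, v2_E4, pow2_E4, pow3_E4, bmul_E4, Matrix.cons_val_zero, Matrix.cons_val_one,
    Pi.add_apply, Pi.smul_apply, smul_eq_mul]
  unfold Root at h
  field_simp
  linear_combination (300 * (n 0 : ℝ)) * h

theorem m_E4 (h : StE1) : StE4 := by
  intro t hr
  obtain ⟨h30, -, hirr⟩ := h.2 t hr
  have ht : t ≠ 0 := by linarith
  have hr' : t ^ 3 = 10 * t ^ 2 + 300 * t + 9001 := hr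
  constructor
  · intro n m hnm
    have e0 := congrFun hnm 0
    have e1 := congrFun hnm 1
    rw [vec0_E4 t ht, vec0_E4 t ht] at e0
    rw [vec1_E4 t ht hr, vec1_E4 t ht hr] at e1
    have hc : (300 * 9001 / t : ℝ) ≠ 0 := by positivity
    have e2 := mul_left_cancel₀ hc e0
    have hd0 : n 0 - m 0 = 0 := by
      by_contra hne
      have hne' : ((n 0 - m 0 : ℤ) : ℝ) ≠ 0 := by exact_mod_cast hne
      apply hirr
      refine ⟨10 + 10 * ((n 1 + n 2) - (m 1 + m 2) : ℤ) / ((n 0 - m 0 : ℤ) : ℚ), ?_⟩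
      push_cast
      have hne'' : ((n 0 : ℝ) - m 0) ≠ 0 := by exact_mod_cast hne'
      field_simp
      push_cast at e2 ⊢
      linear_combination -e2
    have hn0 : n 0 = m 0 := by omega
    rw [hn0] at e1 e2
    have e3 : (n 1 : ℝ) + n 2 = m 1 + m 2 := by linarith
    have e4 : (n 1 : ℝ) = m 1 := by
      rw [e3] at e1
      linarith
    have e5 : (n 2 : ℝ) = m 2 := by linarith
    have hn1 : n 1 = m 1 := by exact_mod_cast e4
    have hn2 : n 2 = m 2 := by exact_mod_cast e5
    ext i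
    fin_cases i
    · exact hn0
    · exact hn1
    · exact hn2
  · intro c n hL
    fin_cases c
    · have h1 : n 0 + n 1 + n 2 = 0 := hL
      have h2 : (n 2 : ℝ) = -(n 0) - n 1 := by
        have : n 2 = -(n 0) - n 1 := by omega
        exact_mod_cast this
      refine ⟨![2700300 * n 0, 90000 * n 0 + 90010 * n 1], ?_⟩
      simp only [pow_zero, Matrix.one_mulVec]
      ext i
      fin_cases i
      · change vec t n 0 = _
        rw [vec0_E4 t ht, h2]
        simp [zv]
        field_simp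
        ring
      · change vec t n 1 = _
        rw [vec1_E4 t ht hr, h2]
        simp [zv]
        ring
    · have h1 : n 0 = 0 := hL
      refine ⟨![90010 * n 1, 3000 * n 1 + 3000 * n 2], ?_⟩
      have hz : zv ![90010 * n 1, 3000 * n 1 + 3000 * n 2] = ![(90010 : ℝ) * n 1, 3000 * n 1 + 3000 * n 2] := by
        ext i; fin_cases i <;> simp [zv]
      change vec t n = (Bt t ^ 1) *ᵥ _
      rw [hz, pow_one, bmul_E4]
      ext i
      fin_cases i
      · change vec t n 0 = _
        rw [vec0_E4 t ht, h1]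
        simp
        field_simp
        ring
      · change vec t n 1 = _
        rw [vec1_E4 t ht hr, h1]
        simp
        ring
    · have h1 : n 1 = 0 := hL
      refine ⟨![3000 * n 2, 300 * n 0], ?_⟩
      have hz : zv ![3000 * n 2, 300 * n 0] = ![(3000 : ℝ) * n 2, 300 * n 0] := by
        ext i; fin_cases i <;> simp [zv]
      change vec t n = (Bt t ^ 2) *ᵥ _
      rw [hz, pow2_E4, bmul_E4, bmul_E4]
      ext i
      fin_cases i
      · change vec t n 0 = _
        rw [vec0_E4 t ht, h1]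
        simp
        field_simp
        ring
      · change vec t n 1 = _
        rw [vec1_E4 t ht hr, h1]
        simp
        field_simp
        linear_combination (-(300 * (n 0 : ℝ))) * hr'
    · have h1 : n 2 = 0 := hL
      refine ⟨![300 * n 0 - 100 * n 1, 10 * n 1], ?_⟩
      have hz : zv ![300 * n 0 - 100 * n 1, 10 * n 1] = ![(300 : ℝ) * n 0 - 100 * n 1, 10 * n 1] := by
        ext i; fin_cases i <;> simp [zv]
      change vec t n = (Bt t ^ 3) *ᵥ _
      rw [hz, pow3_E4, bmul_E4, bmul_E4, bmul_E4]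
      ext i
      fin_cases i
      · change vec t n 0 = _
        rw [vec0_E4 t ht, h1]
        simp
        field_simp
        linear_combination (10 * (n 1 : ℝ)) * hr'
      · change vec t n 1 = _
        rw [vec1_E4 t ht hr, h1]
        simp
        field_simp
        linear_combination (-(300 * (n 0 : ℝ)) + (10 * t - 100) * n 1) * hr'

end Pool.Agent.Helper56.EX
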