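import Pool.Agent.Helper56.EX.St3

set_option autoImplicit false

open Matrix MeasureTheory
open scoped ContDiff ComplexConjugate
open Pool.Agent.Helper54.Wav (zv)

noncomputable section

namespace Pool.Agent.Helper56.EX

private lemma exp_E6 {t : ℝ} (h1 : 30 < t) (h2 : t < 30001 / 1000) : Wav.Expansive (AA3 t) := by
  intro z hz
  have ht : (0 : ℝ) < t := by linarith
  rw [spectrum.mem_iff, Matrix.isUnit_iff_isUnit_det, isUnit_iff_ne_zero, not_not,
    Algebra.algebraMap_eq_smul_one] at hz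
  have hd : (z • (1 : Matrix (Fin 3) (Fin 3) ℂ) - (AA3 t).map (algebraMap ℝ ℂ)).det =
      (z - 2) * (z * (z - (10 - (t : ℂ))) + 9001 / (t : ℂ)) := by
    rw [Matrix.det_fin_three]
    simp [AA3]
    ring
  rw [hd] at hz
  rcases mul_eq_zero.mp hz with h | h
  · have : z = 2 := by linear_combination h
    rw [this]
    norm_num
  · by_contra hle
    rw [not_lt] at hle
    have e : (9001 : ℂ) / (t : ℂ) = -(z * z) + (10 - (t : ℂ)) * z := by linear_combination h
    have e2 : ‖(9001 : ℂ) / (t : ℂ)‖ = 9001 / t := by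
      rw [norm_div, Complex.norm_real, Real.norm_of_nonneg ht.le]
      norm_num
    have e3 : ‖(10 - (t : ℂ))‖ = t - 10 := by
      have : (10 - (t : ℂ)) = ((10 - t : ℝ) : ℂ) := by push_cast; ring
      rw [this, Complex.norm_real, Real.norm_of_nonpos (by linarith)]
      ring
    have e4 : 9001 / t ≤ 1 * 1 + (t - 10) * 1 := by
      rw [← e2, e]
      refine (norm_add_le _ _).trans ?_
      rw [norm_neg, norm_mul, norm_mul, e3]
      refine add_le_add ?_ ?_
      · exact mul_le_mul hle hle (norm_nonneg _) zero_le_one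
      · exact mul_le_mul_of_nonneg_left hle (by linarith)
    rw [div_le_iff₀ ht] at e4
    nlinarith

private lemma pow_E6 {t : ℝ} (ht : t ≠ 0) (hr : Root t) (p : ℕ) :
    ∃ r s u : ℕ, 1 ≤ u ∧ (AA3 t ^ (p + 2)) 0 0 = r - 9001 * u / t ∧
      (AA3 t ^ (p + 2)) 0 1 = s + u * (10 - t) ∧ (AA3 t ^ (p + 2)) 0 2 = 0 := by
  unfold Root at hr
  have a00 : AA3 t 0 0 = 0 := rfl
  have a01 : AA3 t 0 1 = 1 := rfl
  have a02 : AA3 t 0 2 = 0 := rfl
  have a10 : AA3 t 1 0 = -(9001 / t) := rfl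
  have a11 : AA3 t 1 1 = 10 - t := rfl
  have a12 : AA3 t 1 2 = 0 := rfl
  induction p with
  | zero =>
    refine ⟨0, 0, 1, le_refl _, ?_, ?_, ?_⟩ <;>
    · rw [zero_add, pow_two, Matrix.mul_apply, Fin.sum_univ_three]
      simp only [a00, a01, a02, a10, a11, a12]
      push_cast
      ring
  | succ p ih =>
    obtain ⟨r, s, u, hu, h0, h1, h2⟩ := ih
    refine ⟨9001 * u, r + 300 * u, s + 10 * u, by omega, ?_, ?_, ?_⟩
    · rw [show p + 1 + 2 = (p + 2) + 1 by ring, pow_succ, Matrix.mul_apply, Fin.sum_univ_three,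
        h0, h1, h2, a00, a10]
      push_cast
      field_simp
      ring
    · rw [show p + 1 + 2 = (p + 2) + 1 by ring, pow_succ, Matrix.mul_apply, Fin.sum_univ_three,
        h0, h1, h2, a01, a11]
      push_cast
      field_simp
      linear_combination (u : ℝ) * hr
    · rw [show p + 1 + 2 = (p + 2) + 1 by ring, pow_succ, Matrix.mul_apply, Fin.sum_univ_three,
        h2, a02, a12]
      ring

theorem m_E6 (h : StE1) : StE6 := by
  intro t hr
  obtain ⟨h1, h2, hirr⟩ := h.2 t hr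
  refine ⟨exp_E6 h1 h2, ?_⟩
  have ht : t ≠ 0 := by linarith
  rintro ⟨p, M, hp, hM⟩
  rcases Nat.lt_or_ge p 2 with hp2 | hp2
  · have hp1 : p = 1 := by omega
    subst hp1
    rw [pow_one] at hM
    have h3 : AA3 t 1 1 = (M 1 1 : ℝ) := by rw [hM]; rfl
    have h4 : AA3 t 1 1 = 10 - t := rfl
    apply hirr
    refine ⟨10 - M 1 1, ?_⟩
    push_cast
    linarith
  · obtain ⟨k, rfl⟩ := Nat.exists_eq_add_of_le' hp2
    obtain ⟨r, s, u, hu, -, h3, -⟩ := pow_E6 ht hr k
    have h4 : (AA3 t ^ (k + 2)) 0 1 = (M 0 1 : ℝ) := by rw [hM]; rfl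
    have hu0 : (u : ℝ) ≠ 0 := by
      have : u ≠ 0 := by omega
      exact_mod_cast this
    apply hirr
    refine ⟨(s + 10 * u - M 0 1) / u, ?_⟩
    push_cast
    rw [div_eq_iff hu0]
    linarith

end Pool.Agent.Helper56.EX
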