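import Pool.Agent.Helper56.EX.St3

set_option autoImplicit false

open Matrix MeasureTheory
open scoped ContDiff ComplexConjugate
open Pool.Agent.Helper54.Wav (zv)

noncomputable section

namespace Pool.Agent.Helper56.EX

lemma AA3_eq_E7 (t : ℝ) : AA3 t = A3 (Bt t) := by
  unfold AA3 A3 Bt
  ext i j
  fin_cases i <;> fin_cases j <;> simp

theorem m_E7 (h1 : StE1) (h5 : StE5) (h6 : StE6) (h7 : StD7) : StE7 := by
  obtain ⟨t, ht⟩ := h1.1
  obtain ⟨ν, K, Λ, hP⟩ := h5 t ht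
  obtain ⟨hE, hR⟩ := h6 t ht
  refine ⟨t, ht, hE, hR, ?_⟩
  rw [AA3_eq_E7]
  exact h7 (Bt t) ν K Λ hP

end Pool.Agent.Helper56.EX
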