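import Pool.Agent.Helper56.EX.St

set_option autoImplicit false

open Matrix
open scoped ContDiff

noncomputable section

namespace Pool.Agent.Helper56.EX

private lemma wt_neg_EVEN (ℓ : Fin 3 → ℝ) (w : W3) : wt ℓ (-w) = wt ℓ w := by
  unfold wt
  refine Finset.prod_congr rfl fun k _ => ?_
  have e1 : (-w) (k + 2) - (-w) (k + 1) = w (k + 1) - w (k + 2) := by
    simp only [Pi.neg_apply]; ring
  have e2 : (-w) (k + 1) - (-w) (k + 2) = w (k + 2) - w (k + 1) := by
    simp only [Pi.neg_apply]; ring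
  rw [e1, e2]
  simp only [Pi.neg_apply, neg_neg]
  exact mul_comm _ _

private lemma dn_neg_EVEN (ℓ : Fin 3 → ℝ) (w : W3) : dn ℓ (-w) = dn ℓ w := by
  unfold dn
  congr 1
  refine Finset.sum_congr rfl fun i _ => ?_
  rw [neg_neg]
  exact add_comm _ _

private lemma AA_neg_EVEN (k : Fin 3) (w : W3) : AA k (-w) = AA k w := by
  unfold AA
  simp only [Pi.neg_apply, Nn_neg, Pp_neg]
  exact add_comm _ _

theorem m_EVEN : StEven := by
  intro ℓ w
  have hg : gg ℓ (-w) = gg ℓ w := by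
    unfold gg
    rw [wt_neg_EVEN, dn_neg_EVEN]
  refine ⟨hg, fun k => ?_⟩
  unfold EE
  rw [hg, AA_neg_EVEN, neg_neg]
  ring

end Pool.Agent.Helper56.EX
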