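import Pool.Agent.Helper56.EX.St

/-!
# Project EX (MP_d629b1), module FIN (helper64)
-/

set_option autoImplicit false

open Matrix
open scoped ContDiff

noncomputable section

namespace Pool.Agent.Helper56.EX

private lemma sq_FIN {a b c : ℝ} (h : a + b + c = 0) (ha : |a| ≤ 11 / 10) (hb : |b| ≤ 11 / 10)
    (hc : |c| ≤ 11 / 10) : a ^ 2 + b ^ 2 + c ^ 2 ≤ 5 / 2 := by
  obtain ⟨ha1, ha2⟩ := abs_le.mp ha
  obtain ⟨hb1, hb2⟩ := abs_le.mp hb
  obtain ⟨hc1, hc2⟩ := abs_le.mp hc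
  have hc' : c = -a - b := by linarith
  subst hc'
  rcases le_total 0 a with h1 | h1 <;> rcases le_total 0 b with h2 | h2
  · nlinarith [mul_nonneg h1 h2]
  · rcases le_total 0 (-a - b) with h3 | h3
    · nlinarith [mul_nonneg h1 h3]
    · nlinarith [mul_nonneg h1 (neg_nonneg.mpr h2), mul_nonneg (neg_nonneg.mpr h2) (neg_nonneg.mpr h3)]
  · rcases le_total 0 (-a - b) with h3 | h3
    · nlinarith [mul_nonneg h2 h3]
    · nlinarith [mul_nonneg h2 (neg_nonneg.mpr h1), mul_nonneg (neg_nonneg.mpr h1) (neg_nonneg.mpr h3)]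
  · nlinarith [mul_nonneg (neg_nonneg.mpr h1) (neg_nonneg.mpr h2)]

theorem m_FIN : StFin := by
  intro w hw hb
  have h1 : w 0 ^ 2 + w 1 ^ 2 + w 2 ^ 2 ≤ 5 / 2 := sq_FIN hw (hb 0) (hb 1) (hb 2)
  have h2 : ta w = 0 := by
    unfold ta
    exact Real.smoothTransition.zero_of_nonpos (by linarith)
  have h3 : zz w = ![1, 0, 0, 0] := by
    unfold zz
    rw [h2]
    simp
  have h4 : zn w = 1 := by
    unfold zn
    rw [h3]
    simp
  unfold Fm
  rw [h4, h3, inv_one, one_smul]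
  ext i j
  fin_cases i <;> fin_cases j <;> simp [rotm]

end Pool.Agent.Helper56.EX
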