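import Pool.Agent.Helper56.EX.St

set_option autoImplicit false

open Matrix
open scoped ContDiff

noncomputable section

namespace Pool.Agent.Helper56.EX

private lemma Cg_smooth_FSM : ContDiff ℝ ∞ Cg := by
  unfold Cg
  refine contDiff_const.mul (Real.contDiff_sin.comp ?_)
  exact (th_smooth.comp contDiff_neg).div_const 2

private lemma Dh_smooth_FSM : ContDiff ℝ ∞ Dh := by
  unfold Dh
  refine contDiff_const.mul (Real.contDiff_sin.comp ?_)
  exact th_smooth.div_const 2

theorem m_FSM (hZ : StZn) : StFsm := by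
  intro f hf hP a b
  have hk : ∀ k, ContDiff ℝ ∞ (fun x => f x k) := fun k => (contDiff_pi.mp hf) k
  have hc : ∀ k, ContDiff ℝ ∞ (fun x => Cg (f x k)) := fun k => Cg_smooth_FSM.comp (hk k)
  have hd : ∀ k, ContDiff ℝ ∞ (fun x => Dh (f x k)) := fun k => Dh_smooth_FSM.comp (hk k)
  have hta : ContDiff ℝ ∞ (fun x => ta (f x)) := by
    unfold ta
    refine Real.smoothTransition.contDiff.comp ?_
    have h0 := (hk 0).pow 2
    have h1 := (hk 1).pow 2
    have h2 := (hk 2).pow 2
    exact (contDiff_const.mul ((h0.add h1).add h2)).sub contDiff_const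
  have c0 := hc 0
  have c1 := hc 1
  have c2 := hc 2
  have d0 := hd 0
  have d1 := hd 1
  have d2 := hd 2
  have hq : ∀ k, ContDiff ℝ ∞ (fun x => qq (f x) k) := by
    intro k
    unfold qq
    fin_cases k
    · simp only [Fin.zero_eta, Matrix.cons_val_zero]
      fun_prop
    · simp only [Fin.mk_one, Matrix.cons_val_one, Matrix.cons_val_zero]
      fun_prop
    · simp only [Fin.reduceFinMk, Matrix.cons_val]
      fun_prop
    · simp only [Fin.reduceFinMk, Matrix.cons_val]
      fun_prop
  have q0 := hq 0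
  have q1 := hq 1
  have q2 := hq 2
  have q3 := hq 3
  have hz : ∀ k, ContDiff ℝ ∞ (fun x => zz (f x) k) := by
    intro k
    unfold zz
    fin_cases k
    · simp only [Fin.zero_eta, Matrix.cons_val_zero]
      fun_prop
    · simp only [Fin.mk_one, Matrix.cons_val_one, Matrix.cons_val_zero]
      fun_prop
    · simp only [Fin.reduceFinMk, Matrix.cons_val]
      fun_prop
    · simp only [Fin.reduceFinMk, Matrix.cons_val]
      fun_prop
  have z0 := hz 0
  have z1 := hz 1
  have z2 := hz 2
  have z3 := hz 3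
  have hn : ContDiff ℝ ∞ (fun x => zn (f x)) := by
    unfold zn
    fun_prop
  have hi : ContDiff ℝ ∞ (fun x => (zn (f x))⁻¹) := hn.inv (fun x => (hZ _ (hP x)).ne')
  have hr : ContDiff ℝ ∞ (fun x => rotm (zz (f x)) a b) := by
    unfold rotm
    fin_cases a <;> fin_cases b <;>
      simp only [Fin.zero_eta, Fin.mk_one, Fin.reduceFinMk, Matrix.of_apply, Matrix.cons_val] <;>
      fun_prop
  have : (fun x => Fm (f x) a b) = fun x => (zn (f x))⁻¹ * rotm (zz (f x)) a b := by
    funext x
    simp [Fm]
  rw [this]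
  exact hi.mul hr

end Pool.Agent.Helper56.EX
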