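import Pool.Agent.Helper56.EX.St

set_option autoImplicit false

open Matrix
open scoped ContDiff

noncomputable section

namespace Pool.Agent.Helper56.EX

theorem m_HH : StHH := by
  intro ℓ γ hP k s
  have h1 := hP.l (k + 1)
  have h2 := hP.l (k + 2)
  rw [abs_le] at h1 h2
  obtain ⟨a, ha⟩ : ∃ a, a = ℓ (k + 1) := ⟨_, rfl⟩
  obtain ⟨b, hb⟩ : ∃ b, b = ℓ (k + 2) := ⟨_, rfl⟩
  rw [← ha] at h1
  rw [← hb] at h2
  obtain ⟨h1a, h1b⟩ := h1
  obtain ⟨h2a, h2b⟩ := h2
  have hH : ∀ s, HH ℓ k s = a + (b - a) * Real.smoothTransition (1 / 2 + s - (b - a) / 2) := by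
    intro s
    rw [ha, hb]
    rfl
  rw [hH, hH, ← ha, ← hb]
  refine ⟨?_, ?_, ?_, ?_⟩
  · obtain ⟨T, hT⟩ : ∃ T, T = Real.smoothTransition (1 / 2 + s - (b - a) / 2) := ⟨_, rfl⟩
    rw [← hT]
    have h0 : 0 ≤ T := hT ▸ Real.smoothTransition.nonneg _
    have h1' : T ≤ 1 := hT ▸ Real.smoothTransition.le_one _
    constructor
    · nlinarith [mul_nonneg h0 (by linarith : 0 ≤ b - 999 / 1000),
        mul_nonneg (by linarith : 0 ≤ 1 - T) (by linarith : 0 ≤ a - 999 / 1000)]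
    · nlinarith [mul_nonneg h0 (by linarith : 0 ≤ 1001 / 1000 - b),
        mul_nonneg (by linarith : 0 ≤ 1 - T) (by linarith : 0 ≤ 1001 / 1000 - a)]
  · intro hs
    rw [Real.smoothTransition.zero_of_nonpos (by linarith)]
    ring
  · intro hs
    rw [Real.smoothTransition.one_of_one_le (by linarith)]
    ring
  · have e : 1 / 2 + (b - a - s) - (b - a) / 2 = 1 - (1 / 2 + s - (b - a) / 2) := by ring
    rw [e, st_one_sub]
    ring

end Pool.Agent.Helper56.EX
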