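import Pool.Agent.Helper56.EX.St

/-!
# Project EX, module IDEM (helper41)
-/

set_option autoImplicit false

open Matrix
open scoped ContDiff

noncomputable section

namespace Pool.Agent.Helper56.EX

/-- the projection of colour `c` in a block -/
private def MM_IDEM {N : ℕ} (col : Fin N → Fin 4) (O : Matrix (Fin N) (Fin N) ℝ) (c : Fin 4) :
    Matrix (Fin N) (Fin N) ℝ :=
  Oᵀ * Matrix.diagonal (fun r => if col r = c then 1 else 0) * O

private lemma MM_apply_IDEM {N : ℕ} (col : Fin N → Fin 4) (O : Matrix (Fin N) (Fin N) ℝ)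
    (c : Fin 4) (i j : Fin N) :
    MM_IDEM col O c i j = ∑ r, if col r = c then O r i * O r j else 0 := by
  unfold MM_IDEM
  rw [Matrix.mul_apply]
  refine Finset.sum_congr rfl fun r _ => ?_
  rw [Matrix.mul_diagonal, Matrix.transpose_apply]
  split_ifs <;> simp

private lemma MM_mul_IDEM {N : ℕ} (col : Fin N → Fin 4) (O : Matrix (Fin N) (Fin N) ℝ)
    (c : Fin 4) (hO : O * Oᵀ = 1) : MM_IDEM col O c * MM_IDEM col O c = MM_IDEM col O c := by
  unfold MM_IDEM
  have h : Matrix.diagonal (fun r => if col r = c then (1 : ℝ) else 0) *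
      Matrix.diagonal (fun r => if col r = c then (1 : ℝ) else 0) =
      Matrix.diagonal (fun r => if col r = c then (1 : ℝ) else 0) := by
    rw [Matrix.diagonal_mul_diagonal]
    congr 1
    ext r
    split_ifs <;> simp
  calc Oᵀ * Matrix.diagonal (fun r => if col r = c then (1 : ℝ) else 0) * O *
        (Oᵀ * Matrix.diagonal (fun r => if col r = c then (1 : ℝ) else 0) * O)
      = Oᵀ * (Matrix.diagonal (fun r => if col r = c then (1 : ℝ) else 0) * (O * Oᵀ) *
        Matrix.diagonal (fun r => if col r = c then (1 : ℝ) else 0)) * O := by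
        simp only [Matrix.mul_assoc]
    _ = _ := by rw [hO, Matrix.mul_one, h]

/-- the statement for an abstract finite set of shifts and one block -/
private lemma core_IDEM {ℓ γ : Fin 3 → ℝ} {w' : W3} {N : ℕ} {P : Fin N → Fin 3 × Z3}
    {col : Fin N → Fin 4} {O : Matrix (Fin N) (Fin N) ℝ} (hB : Blk ℓ γ w' P col O) (i : Fin N)
    (c : Fin 4) (m : Z3) (b : Fin 3) (S : Finset Z3)
    (hS : ∀ n, n ∉ S → Kr ℓ γ c (w' + uu ℓ (P i).2) n = 0) :
    ∑ n ∈ S, ∑ b' : Fin 3, Kr ℓ γ c (w' + uu ℓ (P i).2) n (P i).1 b' *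
      Kr ℓ γ c (w' + uu ℓ (P i).2 + uu ℓ n) (m - n) b' b =
      Kr ℓ γ c (w' + uu ℓ (P i).2) m (P i).1 b := by
  have hval : ∀ i j, Kr ℓ γ c (w' + uu ℓ (P i).2) ((P j).2 - (P i).2) (P i).1 (P j).1 =
      MM_IDEM col O c i j := fun i j => by rw [hB.val i j c, MM_apply_IDEM]
  set f : Z3 × Fin 3 → ℝ := fun x => Kr ℓ γ c (w' + uu ℓ (P i).2) x.1 (P i).1 x.2 *
    Kr ℓ γ c (w' + uu ℓ (P i).2 + uu ℓ x.1) (m - x.1) x.2 b with hf
  set g : Fin N → Z3 × Fin 3 := fun j => ((P j).2 - (P i).2, (P j).1) with hg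
  have hgi : Function.Injective g := by
    intro j j' h
    have h1 : (P j).2 - (P i).2 = (P j').2 - (P i).2 := congrArg Prod.fst h
    have h2 : (P j).1 = (P j').1 := congrArg Prod.snd h
    exact hB.inj (Prod.ext h2 (sub_left_injective h1))
  have h1 : ∑ n ∈ S, ∑ b' : Fin 3, Kr ℓ γ c (w' + uu ℓ (P i).2) n (P i).1 b' *
      Kr ℓ γ c (w' + uu ℓ (P i).2 + uu ℓ n) (m - n) b' b =
      ∑ x ∈ S ×ˢ (Finset.univ : Finset (Fin 3)), f x := by
    rw [Finset.sum_product]
  have h2 : ∑ x ∈ S ×ˢ (Finset.univ : Finset (Fin 3)), f x =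
      ∑ x ∈ S ×ˢ (Finset.univ : Finset (Fin 3)) ∪ Finset.univ.image g, f x := by
    refine Finset.sum_subset Finset.subset_union_left fun x _ hx => ?_
    have h3 : x.1 ∉ S := fun h => hx (Finset.mem_product.2 ⟨h, Finset.mem_univ _⟩)
    have h4 := hS x.1 h3
    rw [hf]
    simp only [h4, Matrix.zero_apply, zero_mul]
  have h3 : ∑ x ∈ Finset.univ.image g, f x =
      ∑ x ∈ S ×ˢ (Finset.univ : Finset (Fin 3)) ∪ Finset.univ.image g, f x := by
    refine Finset.sum_subset Finset.subset_union_right fun x _ hx => ?_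
    have h4 : ∀ j, P j ≠ (x.2, (P i).2 + x.1) := by
      intro j hj
      refine hx (Finset.mem_image.2 ⟨j, Finset.mem_univ _, ?_⟩)
      rw [hg]
      refine Prod.ext ?_ ?_
      · simp only [hj, add_sub_cancel_left]
      · simp only [hj]
    have h5 := hB.out i c x.2 x.1 h4
    rw [hf]
    simp only [h5, zero_mul]
  rw [h1, h2, ← h3, Finset.sum_image fun x _ y _ h => hgi h]
  have h6 : ∀ j, f (g j) = MM_IDEM col O c i j *
      Kr ℓ γ c (w' + uu ℓ (P j).2) (m - ((P j).2 - (P i).2)) (P j).1 b := by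
    intro j
    have h7 : w' + uu ℓ (P i).2 + uu ℓ ((P j).2 - (P i).2) = w' + uu ℓ (P j).2 := by
      rw [uu_sub, add_assoc, add_sub_cancel]
    rw [hf, hg]
    simp only [h7, hval]
  simp only [h6]
  by_cases hl : ∃ l, P l = (b, (P i).2 + m)
  · obtain ⟨l, hl⟩ := hl
    have hb : (P l).1 = b := by rw [hl]
    have hm : m = (P l).2 - (P i).2 := by
      rw [hl, add_sub_cancel_left]
    have h8 : ∀ j, Kr ℓ γ c (w' + uu ℓ (P j).2) (m - ((P j).2 - (P i).2)) (P j).1 b =
        MM_IDEM col O c j l := by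
      intro j
      have h9 : m - ((P j).2 - (P i).2) = (P l).2 - (P j).2 := by
        rw [hm, sub_sub_sub_cancel_right]
      rw [h9, ← hb, hval j l]
    simp only [h8]
    rw [← Matrix.mul_apply, MM_mul_IDEM col O c hB.orth, ← hb, ← hval i l, ← hm]
  · push Not at hl
    rw [hB.out i c b m hl]
    refine Finset.sum_eq_zero fun j _ => ?_
    have h9 : Kr ℓ γ c (w' + uu ℓ (P j).2) (m - ((P j).2 - (P i).2)) (P j).1 b = 0 := by
      refine hB.out j c b _ fun l h => hl l ?_
      rw [h]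
      refine Prod.ext rfl ?_
      show (P j).2 + (m - ((P j).2 - (P i).2)) = (P i).2 + m
      rw [sub_sub_eq_add_sub, add_sub_cancel, add_comm]
    rw [h9, mul_zero]

theorem m_IDEM (hA : StAll) (hL : StLat) : StIdem := by
  intro ℓ γ hp c w hw m
  ext a b
  obtain ⟨N, P, col, O, w', i, -, hB, rfl, rfl⟩ := hA ℓ γ hp w hw a
  rw [← core_IDEM hB i c m b Sh fun n hn => by
    by_contra h
    exact hn (hL ℓ γ c _ _ h).1]
  simp only [Matrix.sum_apply, Matrix.mul_apply]

end Pool.Agent.Helper56.EX
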