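import Pool.Agent.Helper56.EX.St

set_option autoImplicit false

open Matrix
open scoped ContDiff

noncomputable section

namespace Pool.Agent.Helper56.EX

private lemma far_IN {ℓ γ : Fin 3 → ℝ} (hP : Par ℓ γ) {w : W3} (hw : Pl w)
    (h : ∀ k, |w k| ≤ 19 / 20) (i : Fin 3) :
    ∃ j, Rp j (w - uu ℓ (Ee i)) ∨ Rm j (w - uu ℓ (Ee i)) := by
  have hy : Pl (w - uu ℓ (Ee i)) := Pl_sub hw (Pl_uu ℓ (Ee i))
  rcases core_or hy with hc | hf
  · exfalso
    refine not_core (k := i + 2) ?_ hc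
    have h1 := abs_le.mp (h (i + 2))
    have h2 := abs_le.mp (hP.l i)
    rw [Pi.sub_apply, uu_two]
    rw [abs_of_nonpos (by linarith [h1.2, h2.1])]
    linarith [h1.2, h2.1]
  · exact hf

private lemma neg_bd_IN {w : W3} (h : ∀ k, |w k| ≤ 19 / 20) : ∀ k, |(-w) k| ≤ 19 / 20 := by
  intro k
  rw [Pi.neg_apply, abs_neg]
  exact h k

private lemma md_far_IN {y : W3} (h : ∃ j, Rp j y ∨ Rm j y) : md y = 1 := by
  obtain ⟨j, hj | hj⟩ := h
  · exact md_Rp hj
  · exact md_Rm hj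

theorem m_IN (hHH : StHH) : StIn := by
  intro ℓ γ hP w hw h
  have hwn : Pl (-w) := Pl_neg hw
  have hn := neg_bd_IN h
  have hwt : wt ℓ w = 1 := by
    unfold wt
    refine Finset.prod_eq_one ?_
    intro k _
    have h1 := (hHH ℓ γ hP k (w (k + 2) - w (k + 1))).1.1
    have h2 := (hHH ℓ γ hP k (w (k + 1) - w (k + 2))).1.1
    have h3 := abs_le.mp (h k)
    rw [Nn_low (by linarith [h3.2]), Nn_low (by linarith [h3.1])]
    norm_num
  have hdn : dn ℓ w = 1 := by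
    unfold dn
    have : ∀ i : Fin 3, (md (w - uu ℓ (Ee i)) - 1) + (md (-w - uu ℓ (Ee i)) - 1) = 0 := by
      intro i
      rw [md_far_IN (far_IN hP hw h i), md_far_IN (far_IN hP hwn hn i)]
      norm_num
    rw [Finset.sum_eq_zero fun i _ => this i]
    norm_num
  have hgg : gg ℓ w = 1 := by
    unfold gg
    rw [hwt, hdn, div_one]
  refine ⟨hgg, ?_⟩
  intro k
  unfold EE
  rw [hgg, Cc_far (far_IN hP hw h (k + 2)), Cc_far (far_IN hP hwn hn (k + 2)),
    Cd_far (far_IN hP hw h (k + 1)), Cd_far (far_IN hP hwn hn (k + 1))]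
  ring

end Pool.Agent.Helper56.EX
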