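import Pool.Agent.Helper56.EX.St

set_option autoImplicit false

open Matrix
open scoped ContDiff

noncomputable section

namespace Pool.Agent.Helper56.EX

private lemma mem_Sh_LAT (n : Z3) : n ∈ Sh ↔ ∀ k, -2 ≤ n k ∧ n k ≤ 2 := by
  unfold Sh
  rw [Fintype.mem_piFinset]
  simp only [Finset.mem_Icc]

private lemma Ee_self_LAT (i : Fin 3) : Ee i i = 1 := by simp [Ee]

private lemma Ee_ne_LAT {i k : Fin 3} (h : k ≠ i) : Ee i k = 0 := by simp [Ee, h]

private lemma Ee_bd_LAT (i k : Fin 3) : 0 ≤ Ee i k ∧ Ee i k ≤ 1 := by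
  by_cases h : k = i
  · subst h
    rw [Ee_self_LAT]
    omega
  · rw [Ee_ne_LAT h]
    omega

private lemma Ee_sum_LAT (i : Fin 3) : Ee i 0 + Ee i 1 + Ee i 2 = 1 := by
  fin_cases i <;> simp [Ee]

private lemma LL_ne_LAT (ℓ γ : Fin 3 → ℝ) (i : Fin 3) (w : W3) (n : Z3)
    (h : LL ℓ γ i w n ≠ 0) : ∃ z : ℤ, -2 ≤ z ∧ z ≤ 2 ∧ n = fun k => z * Ee i k := by
  by_cases h0 : n = 0
  · exact ⟨0, by omega, by omega, by rw [h0]; funext k; simp⟩
  by_cases h1 : n = Ee i
  · exact ⟨1, by omega, by omega, by rw [h1]; funext k; simp⟩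
  by_cases h2 : n = -Ee i
  · exact ⟨-1, by omega, by omega, by rw [h2]; funext k; simp⟩
  by_cases h3 : n = -(Ee i + Ee i)
  · exact ⟨-2, by omega, by omega, by
      rw [h3]; funext k; simp only [Pi.neg_apply, Pi.add_apply]; ring⟩
  exfalso
  apply h
  ext a b
  unfold LL
  simp only [Matrix.of_apply, h0, h1, h2, h3, and_false, if_false, add_zero, Matrix.zero_apply]

private lemma line_LAT (i : Fin 3) (c : Fin 4) (hc : c = (i + 1).succ ∨ c = (i + 2).succ)
    (n : Z3) (z : ℤ) (h1 : -2 ≤ z) (h2 : z ≤ 2) (hn : n = fun k => z * Ee i k) :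
    n ∈ Sh ∧ Lat c n := by
  subst hn
  refine ⟨?_, ?_⟩
  · rw [mem_Sh_LAT]
    intro k
    by_cases h : k = i
    · subst h
      simp only [Ee_self_LAT]
      omega
    · simp only [Ee_ne_LAT h]
      omega
  · rcases hc with rfl | rfl
    · change z * Ee i (i + 1) = 0
      rw [Ee_ne_LAT (ne1 i), mul_zero]
    · change z * Ee i (i + 2) = 0
      rw [Ee_ne_LAT (ne2 i), mul_zero]

private lemma tc_ne_LAT (c : Fin 4) (n : Z3) (h : tc c n ≠ 0) : n ∈ Sh ∧ Lat c n := by
  have key : ∀ i j : Fin 3, n = Ee i - Ee j → n ∈ Sh := by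
    intro i j hn
    rw [mem_Sh_LAT]
    intro k
    have h1 := Ee_bd_LAT i k
    have h2 := Ee_bd_LAT j k
    rw [hn]
    simp only [Pi.sub_apply]
    omega
  refine Fin.cases (motive := fun c => tc c n ≠ 0 → n ∈ Sh ∧ Lat c n) ?_ ?_ c h
  · intro h
    have h' : ∃ i j : Fin 3, i ≠ j ∧ n = Ee i - Ee j := by
      by_contra hcon
      apply h
      change (if ∃ i j : Fin 3, i ≠ j ∧ n = Ee i - Ee j then (1 : ℝ) else 0) = 0
      rw [if_neg hcon]
    obtain ⟨i, j, _, hn⟩ := h'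
    refine ⟨key i j hn, ?_⟩
    change n 0 + n 1 + n 2 = 0
    have h1 := Ee_sum_LAT i
    have h2 := Ee_sum_LAT j
    rw [hn]
    simp only [Pi.sub_apply]
    omega
  · intro k h
    have h' : n = Ee (k + 1) - Ee (k + 2) ∨ n = Ee (k + 2) - Ee (k + 1) := by
      by_contra hcon
      apply h
      change (if n = Ee (k + 1) - Ee (k + 2) ∨ n = Ee (k + 2) - Ee (k + 1) then (-1 : ℝ) else 0)
        = 0
      rw [if_neg hcon]
    have e1 : Ee (k + 1) k = 0 := Ee_ne_LAT (ne1 k).symm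
    have e2 : Ee (k + 2) k = 0 := Ee_ne_LAT (ne2 k).symm
    rcases h' with hn | hn
    · refine ⟨key _ _ hn, ?_⟩
      change n k = 0
      rw [hn]
      simp only [Pi.sub_apply, e1, e2, sub_zero]
    · refine ⟨key _ _ hn, ?_⟩
      change n k = 0
      rw [hn]
      simp only [Pi.sub_apply, e1, e2, sub_zero]

private lemma zero_LAT (c : Fin 4) : (0 : Z3) ∈ Sh ∧ Lat c (0 : Z3) := by
  refine ⟨?_, ?_⟩
  · rw [mem_Sh_LAT]
    intro k
    simp
  · refine Fin.cases (motive := fun c => Lat c (0 : Z3)) ?_ ?_ c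
    · change (0 : Z3) 0 + (0 : Z3) 1 + (0 : Z3) 2 = 0
      simp
    · intro k
      change (0 : Z3) k = 0
      rfl

private lemma sg_ne_LAT (c : Fin 4) (i : Fin 3) (h : sg c i ≠ 0) :
    c = (i + 1).succ ∨ c = (i + 2).succ := by
  by_contra hcon
  push Not at hcon
  apply h
  unfold sg
  rw [if_neg hcon.1, if_neg hcon.2]

theorem m_LAT : StLat := by
  intro ℓ γ c w n h
  by_contra hQ
  apply h
  have hn : n ≠ 0 := by
    rintro rfl
    exact hQ (zero_LAT c)
  have ht : tc c n = 0 := by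
    by_contra h1
    exact hQ (tc_ne_LAT c n h1)
  have hL : ∀ i : Fin 3, sg c i • (LL ℓ γ i w n + (LL ℓ γ i (w + uu ℓ n) (-n))ᵀ) = 0 := by
    intro i
    by_cases hs : sg c i = 0
    · rw [hs, zero_smul]
    · have hc := sg_ne_LAT c i hs
      have h1 : LL ℓ γ i w n = 0 := by
        by_contra h2
        obtain ⟨z, z1, z2, z3⟩ := LL_ne_LAT ℓ γ i w n h2
        exact hQ (line_LAT i c hc n z z1 z2 z3)
      have h2 : LL ℓ γ i (w + uu ℓ n) (-n) = 0 := by
        by_contra h2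
        obtain ⟨z, z1, z2, z3⟩ := LL_ne_LAT ℓ γ i (w + uu ℓ n) (-n) h2
        refine hQ (line_LAT i c hc n (-z) (by omega) (by omega) ?_)
        have h3 : n = -(-n) := by simp
        rw [h3, z3]
        funext k
        simp only [Pi.neg_apply]
        ring
      rw [h1, h2, Matrix.transpose_zero, add_zero, smul_zero]
  unfold Kr
  rw [if_neg hn, Finset.sum_eq_zero (fun i _ => hL i), zero_add, add_zero]
  ext a b
  simp [ht]

end Pool.Agent.Helper56.EX
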