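import Pool.Agent.Helper56.EX.St

/-!
# Project EX: module MIR (the mirror symmetry of the raw pattern)
-/

set_option autoImplicit false

open Matrix
open scoped ContDiff

noncomputable section

namespace Pool.Agent.Helper56.EX

private lemma tc_neg_MIR (c : Fin 4) (n : Z3) : tc c (-n) = tc c n := by
  unfold tc
  refine Fin.cases ?_ (fun k => ?_) c
  · simp only [Fin.cases_zero]
    congr 1
    apply propext
    constructor
    · rintro ⟨i, j, hij, h⟩
      exact ⟨j, i, hij.symm, by rw [← neg_neg n, h]; abel⟩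
    · rintro ⟨i, j, hij, h⟩
      exact ⟨j, i, hij.symm, by rw [h]; abel⟩
  · simp only [Fin.cases_succ]
    congr 1
    apply propext
    constructor
    · rintro (h | h)
      · right; rw [← neg_neg n, h]; abel
      · left; rw [← neg_neg n, h]; abel
    · rintro (h | h)
      · right; rw [h]; abel
      · left; rw [h]; abel

private lemma fB_one_sub_MIR (g x : ℝ) : fB g (1 - x) = fB g x := by
  unfold fB
  have h1 := sin_mu_one_sub x
  have h2 := sin_mu_one_sub (1 - x)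
  rw [sub_sub_cancel] at h2
  rw [h1, ← h2]
  ring

private lemma fC_two_sub_MIR (x : ℝ) : fC (2 - x) = fC x := by
  unfold fC
  have h1 := cos_mu_one_sub x
  have h2 := cos_mu_one_sub (2 - x)
  have e1 : 1 - (2 - x) = x - 1 := by ring
  have e2 : 2 - x - 1 = 1 - x := by ring
  rw [e1] at h2
  rw [e2, ← h2, h1]
  ring

private lemma XX_sub_MIR (ℓ : Fin 3 → ℝ) (i : Fin 3) (h0 : ℓ i ≠ 0) (w : W3) :
    XX ℓ i (uu ℓ (Ee i) - w) = 1 - XX ℓ i w := by
  unfold XX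
  simp only [Pi.sub_apply, uu_one, uu_two]
  field_simp
  ring

private lemma XX_sub2_MIR (ℓ : Fin 3 → ℝ) (i : Fin 3) (h0 : ℓ i ≠ 0) (w : W3) :
    XX ℓ i (uu ℓ (Ee i + Ee i) - w) = 2 - XX ℓ i w := by
  unfold XX
  rw [uu_add]
  simp only [Pi.sub_apply, Pi.add_apply, uu_one, uu_two]
  field_simp
  ring

private lemma l_bd_MIR {ℓ γ : Fin 3 → ℝ} (h : Par ℓ γ) (i : Fin 3) :
    999 / 1000 ≤ ℓ i ∧ ℓ i ≤ 1001 / 1000 := by
  have := abs_le.mp (h.l i)
  constructor <;> linarith [this.1, this.2]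

/-- coordinates in terms of `XX` -/
private lemma coord_MIR {ℓ : Fin 3 → ℝ} {w : W3} (hw : Pl w) (i : Fin 3) (h0 : ℓ i ≠ 0) :
    w (i + 2) = ℓ i * XX ℓ i w - w i / 2 ∧ w (i + 1) = -(ℓ i * XX ℓ i w) - w i / 2 := by
  have h := Pl_cyc hw i
  have e : ℓ i * XX ℓ i w = (w (i + 2) - w (i + 1)) / 2 := by
    unfold XX
    field_simp
  rw [e]
  constructor <;> linarith

private lemma Rp_of_MIR {ℓ γ : Fin 3 → ℝ} (h : Par ℓ γ) {w : W3} (hw : Pl w) (i : Fin 3)
    (hi : |w i| < 1 / 50) (hx : 1 / 3 < XX ℓ i w) : Rp i w := by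
  have hl := l_bd_MIR h i
  have h0 : ℓ i ≠ 0 := by intro h0; rw [h0] at hl; linarith [hl.1]
  obtain ⟨h1, h2⟩ := coord_MIR hw i h0
  have ha := abs_lt.mp hi
  have hm : 333 / 1000 ≤ ℓ i * XX ℓ i w := by nlinarith [hl.1]
  unfold Rp
  rw [h1, h2]
  constructor <;> linarith [ha.1, ha.2]

private lemma si_eq_MIR {ℓ γ : Fin 3 → ℝ} (h : Par ℓ γ) {w v : W3} (hw : Pl w) (hv : Pl v)
    (i : Fin 3) (hvw : v i = -w i) (hx : 1 / 3 < XX ℓ i w) (hy : 1 / 3 < XX ℓ i v) :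
    si i v = si i w := by
  by_cases hi : |w i| < 1 / 50
  · have hiv : |v i| < 1 / 50 := by rw [hvw, abs_neg]; exact hi
    rw [si_Rp (Rp_of_MIR h hw i hi hx), si_Rp (Rp_of_MIR h hv i hiv hy), hvw, Nn_neg, Pp_neg]
    ring
  · have h1 : si i w = 0 := by
      by_contra hc
      exact hi (si_ne hc).1
    have h2 : si i v = 0 := by
      by_contra hc
      have := (si_ne hc).1
      rw [hvw, abs_neg] at this
      exact hi this
    rw [h1, h2]

private lemma uu2_self_MIR (ℓ : Fin 3 → ℝ) (i : Fin 3) : uu ℓ (Ee i + Ee i) i = 0 := by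
  rw [uu_add, Pi.add_apply, uu_self]
  ring

private lemma B_MIR {ℓ γ : Fin 3 → ℝ} (h : Par ℓ γ) {w : W3} (hw : Pl w) (i : Fin 3) :
    si i (uu ℓ (Ee i) - w) * fB (γ i) (XX ℓ i (uu ℓ (Ee i) - w))
      = si i w * fB (γ i) (XX ℓ i w) := by
  have hl := l_bd_MIR h i
  have h0 : ℓ i ≠ 0 := by intro h0; rw [h0] at hl; linarith [hl.1]
  have hX := XX_sub_MIR ℓ i h0 w
  rw [hX, fB_one_sub_MIR]
  by_cases hB : fB (γ i) (XX ℓ i w) = 0
  · rw [hB, mul_zero, mul_zero]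
  · obtain ⟨h1, h2⟩ := fB_ne hB
    congr 1
    refine si_eq_MIR h hw (Pl_sub (Pl_uu ℓ _) hw) i ?_ h1 ?_
    · rw [Pi.sub_apply, uu_self]; ring
    · rw [hX]; linarith

private lemma C_MIR {ℓ γ : Fin 3 → ℝ} (h : Par ℓ γ) {w : W3} (hw : Pl w) (i : Fin 3) :
    si i (uu ℓ (Ee i + Ee i) - w) * fC (XX ℓ i (uu ℓ (Ee i + Ee i) - w))
      = si i w * fC (XX ℓ i w) := by
  have hl := l_bd_MIR h i
  have h0 : ℓ i ≠ 0 := by intro h0; rw [h0] at hl; linarith [hl.1]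
  have hX := XX_sub2_MIR ℓ i h0 w
  rw [hX, fC_two_sub_MIR]
  by_cases hC : fC (XX ℓ i w) = 0
  · rw [hC, mul_zero, mul_zero]
  · obtain ⟨h1, h2⟩ := fC_ne hC
    congr 1
    refine si_eq_MIR h hw (Pl_sub (Pl_uu ℓ _) hw) i ?_ (by linarith) ?_
    · rw [Pi.sub_apply, uu2_self_MIR]; ring
    · rw [hX]; linarith

private lemma mir_mir_MIR (b : Fin 3) : mir (mir b) = b := by
  revert b; decide

private lemma Dg_MIR (ℓ : Fin 3 → ℝ) (c : Fin 4) (w : W3) : Dg ℓ c (-w) 1 = Dg ℓ c w 2 := by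
  refine Fin.cases ?_ (fun k => ?_) c
  · simp [Dg]
  · simp [Dg]

private lemma Dg0_MIR (hE : StEven) (ℓ : Fin 3 → ℝ) (c : Fin 4) (w : W3) :
    Dg ℓ c (-w) 0 = Dg ℓ c w 0 := by
  refine Fin.cases ?_ (fun k => ?_) c
  · simp [Dg, (hE ℓ w).1]
  · simp [Dg, (hE ℓ w).2 k]

private lemma t_MIR {ℓ γ : Fin 3 → ℝ} (h : Par ℓ γ) (c : Fin 4) {w : W3} (hw : Pl w) (n : Z3)
    (b : Fin 3) : Kr ℓ γ c (-w) (-n) 1 (mir b) = Kr ℓ γ c w n 2 b := by
  rw [row_s, row_t]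
  have m0 : (mir b = 0) = (b = 0) := by revert b; decide
  have m1 : (mir b = 1) = (b = 2) := by revert b; decide
  have m2 : (mir b = 2) = (b = 1) := by revert b; decide
  simp only [m0, m1, m2, neg_neg, neg_inj, neg_eq_zero, Dg_MIR]
  congr 1
  refine Finset.sum_congr rfl fun i _ => ?_
  congr 1
  have e1 : (-n = Ee i) = (n = -Ee i) := propext neg_eq_iff_eq_neg
  have e2 : (-n = Ee i + Ee i) = (n = -(Ee i + Ee i)) := propext neg_eq_iff_eq_neg
  congr 1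
  · congr 1
    simp only [e1]
    by_cases hn : b = 1 ∧ n = -Ee i
    · rw [if_pos hn, if_pos hn]
      have : -w + uu ℓ (-n) = uu ℓ (Ee i) - w := by rw [hn.2, neg_neg]; abel
      rw [this]
      exact B_MIR h hw i
    · rw [if_neg hn, if_neg hn]
  · simp only [e2]
    by_cases hn : b = 1 ∧ n = -(Ee i + Ee i)
    · rw [if_pos hn, if_pos hn]
      have : -w + uu ℓ (-n) = uu ℓ (Ee i + Ee i) - w := by rw [hn.2, neg_neg]; abel
      rw [this]
      exact C_MIR h hw i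
    · rw [if_neg hn, if_neg hn]

private lemma s_MIR {ℓ γ : Fin 3 → ℝ} (h : Par ℓ γ) (c : Fin 4) {w : W3} (hw : Pl w) (n : Z3)
    (b : Fin 3) : Kr ℓ γ c (-w) (-n) 2 (mir b) = Kr ℓ γ c w n 1 b := by
  have := t_MIR h c (Pl_neg hw) (-n) (mir b)
  rw [neg_neg, neg_neg, mir_mir_MIR] at this
  exact this.symm

private lemma e_MIR (hE : StEven) {ℓ γ : Fin 3 → ℝ} (c : Fin 4) (w : W3) (n : Z3) :
    Kr ℓ γ c (-w) (-n) 0 0 = Kr ℓ γ c w n 0 0 := by
  rw [row_e, row_e]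
  have e : -w + uu ℓ (-n) = -(w + uu ℓ n) := by rw [uu_neg]; abel
  have h01 : (0 : Fin 3) ≠ 1 := by decide
  have h02 : (0 : Fin 3) ≠ 2 := by decide
  simp only [e, (hE ℓ _).1, tc_neg_MIR, Dg0_MIR hE, neg_eq_zero, h01, h02, false_and, if_false]

theorem m_MIR (hE : StEven) : StMir := by
  intro ℓ γ h c w hw n a b
  have m0 : mir 0 = 0 := by decide
  have m1 : mir 1 = 2 := by decide
  have m2 : mir 2 = 1 := by decide
  have ha : a = 0 ∨ a = 1 ∨ a = 2 := by revert a; decide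
  have hb : b = 0 ∨ b = 1 ∨ b = 2 := by revert b; decide
  have hv : Pl (w + uu ℓ n) := Pl_add hw (Pl_uu ℓ n)
  have e : -w + uu ℓ (-n) = -(w + uu ℓ n) := by rw [uu_neg]; abel
  rcases ha with rfl | rfl | rfl
  · rw [m0]
    rcases hb with rfl | rfl | rfl
    · rw [m0]; exact e_MIR hE c w n
    · rw [m1, Kr_symm' c (-w), Kr_symm' c w, e]
      have := s_MIR h c hv (-n) 0
      rw [m0] at this
      exact this
    · rw [m2, Kr_symm' c (-w), Kr_symm' c w, e]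
      have := t_MIR h c hv (-n) 0
      rw [m0] at this
      exact this
  · rw [m1]; exact s_MIR h c hw n b
  · rw [m2]; exact t_MIR h c hw n b

end Pool.Agent.Helper56.EX
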