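import Pool.Agent.Helper56.EX.St

/-!
# Project EX, module MIRB
-/

set_option autoImplicit false

open Matrix
open scoped ContDiff

noncomputable section

namespace Pool.Agent.Helper56.EX

private lemma mir_mir (a : Fin 3) : mir (mir a) = a := by revert a; decide

theorem m_MIRB (hM : StMir) : StMirBlk := by
  intro ℓ γ hP w a ⟨N, P, col, O, w', i, hw', hB, hi, hw⟩
  have key : ∀ (c : Fin 4) (n m : Z3) (x y : Fin 3),
      Kr ℓ γ c (-w' + uu ℓ (-n)) (-m) (mir x) (mir y) = Kr ℓ γ c (w' + uu ℓ n) m x y := by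
    intro c n m x y
    have h := hM ℓ γ hP c (w' + uu ℓ n) (Pl_add hw' (Pl_uu ℓ n)) m x y
    rw [← h]
    congr 1
    rw [uu_neg, neg_add]
  refine ⟨N, fun j => (mir (P j).1, -(P j).2), col, O, -w', i, Pl_neg hw', ⟨?_, hB.orth, ?_, ?_⟩,
    ?_, ?_⟩
  · intro j k hjk
    have h1 : mir (P j).1 = mir (P k).1 := congrArg Prod.fst hjk
    have h2 : -(P j).2 = -(P k).2 := congrArg Prod.snd hjk
    apply hB.inj
    refine Prod.ext ?_ (neg_injective h2)
    rw [← mir_mir (P j).1, h1, mir_mir]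
  · intro j c b m hj
    have h := key c (P j).2 (-m) (P j).1 (mir b)
    rw [mir_mir, neg_neg] at h
    show Kr ℓ γ c (-w' + uu ℓ (-(P j).2)) m (mir (P j).1) b = 0
    rw [h]
    apply hB.out
    intro k hk
    apply hj k
    show (mir (P k).1, -(P k).2) = (b, -(P j).2 + m)
    rw [hk, mir_mir]
    refine Prod.ext rfl ?_
    show -((P j).2 + -m) = -(P j).2 + m
    abel
  · intro j k c
    show Kr ℓ γ c (-w' + uu ℓ (-(P j).2)) (-(P k).2 - -(P j).2) (mir (P j).1) (mir (P k).1) = _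
    rw [← hB.val j k c, ← key c (P j).2 ((P k).2 - (P j).2) (P j).1 (P k).1]
    congr 1
    abel
  · show mir (P i).1 = a
    rw [hi, mir_mir]
  · show w = -w' + uu ℓ (-(P i).2)
    rw [uu_neg, ← neg_add, ← hw, neg_neg]

end Pool.Agent.Helper56.EX
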