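import Pool.Agent.Helper56.EX.St

/-!
# Project EX, module NEAR
-/

set_option autoImplicit false

open Matrix
open scoped ContDiff

noncomputable section

namespace Pool.Agent.Helper56.EX

theorem m_NEAR (h1 : StB1i) (h2 : StOut) : StNear := by
  intro ℓ γ hP c w hw n
  refine ⟨fun hk b => ?_, fun a b hab => ?_, fun k hk => ?_⟩
  · have hB := h1 ℓ γ hP w hw (fun k => (hk k).trans (by norm_num))
    by_cases hn : n = 0
    · by_cases hb : b = 0
      · subst hn hb
        have hv := hB.val 0 0 c
        simp only [Fin.isValue, Matrix.cons_val_fin_one, sub_self, uu_zero, add_zero] at hv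
        rw [hv]
        by_cases hc : c = 0
        · subst hc
          simp
        · have hc' : (0 : Fin 4) ≠ c := fun h => hc h.symm
          simp [hc, hc']
      · have ho := hB.out 0 c b n (by
          intro j h
          fin_cases j
          simp at h
          exact hb h.1.symm)
        simp only [Fin.isValue, Matrix.cons_val_fin_one, uu_zero, add_zero] at ho
        rw [ho, if_neg]
        rintro ⟨-, -, h⟩
        exact hb h
    · have ho := hB.out 0 c b n (by
        intro j h
        fin_cases j
        simp at h
        exact hn h.2.symm)
      simp only [Fin.isValue, Matrix.cons_val_fin_one, uu_zero, add_zero] at ho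
      rw [ho, if_neg]
      rintro ⟨-, h, -⟩
      exact hn h
  · have hsg : ∀ i, sg 0 i = 0 := by
      intro i
      unfold sg
      rw [if_neg (Fin.succ_ne_zero _).symm, if_neg (Fin.succ_ne_zero _).symm]
    unfold Kr
    simp only [hsg, zero_smul, Finset.sum_const_zero, add_zero, Matrix.add_apply, Matrix.of_apply,
      if_neg hab]
    by_cases hn : n = 0
    · rw [if_pos hn]
      by_cases hE : a = b
      · subst hE
        have ha : a ≠ 0 := fun h => hab ⟨h, h⟩
        rw [Matrix.diagonal_apply_eq]
        unfold Dg
        fin_cases a
        · exact absurd rfl ha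
        · simp
        · simp
      · rw [Matrix.diagonal_apply_ne _ hE]
        simp
    · rw [if_neg hn]
      simp
  · have hg : gg ℓ w = 0 := h2 ℓ γ hP w hw ⟨k, by linarith⟩
    have hsg : ∀ i, sg 0 i = 0 := by
      intro i
      unfold sg
      rw [if_neg (Fin.succ_ne_zero _).symm, if_neg (Fin.succ_ne_zero _).symm]
    unfold Kr
    simp only [hsg, zero_smul, Finset.sum_const_zero, add_zero, hg, zero_mul, mul_zero, ite_self]
    ext a b
    by_cases hn : n = 0
    · rw [if_pos hn]
      unfold Dg
      simp only [Fin.cases_zero, hg, Matrix.add_apply, Matrix.of_apply, Matrix.zero_apply, add_zero]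
      by_cases hE : a = b
      · subst hE
        rw [Matrix.diagonal_apply_eq]
        fin_cases a <;> simp
      · rw [Matrix.diagonal_apply_ne _ hE]
    · rw [if_neg hn]
      simp

end Pool.Agent.Helper56.EX
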