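import Pool.Agent.Helper56.EX.St

set_option autoImplicit false

open Matrix
open scoped ContDiff

noncomputable section

namespace Pool.Agent.Helper56.EX

private lemma uu_abs_OUTB {ℓ γ : Fin 3 → ℝ} (h : Par ℓ γ) (i k : Fin 3) :
    |uu ℓ (Ee i) k| ≤ 1001 / 1000 := by
  have hl := abs_le.mp (h.l i)
  rcases cyc_cases i k with rfl | rfl | rfl
  · rw [uu_self, abs_zero]
    norm_num
  · rw [uu_one, abs_neg, abs_le]
    constructor <;> linarith [hl.1, hl.2]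
  · rw [uu_two, abs_le]
    constructor <;> linarith [hl.1, hl.2]

private lemma far_OUTB {z : W3} (hz : Pl z) (m : Fin 3) (h : 1 / 25 ≤ |z m|) :
    ∃ i, Rp i z ∨ Rm i z := (core_or hz).resolve_left (not_core h)

theorem m_OUTB (hO : StOut) : StOut' := by
  intro ℓ γ hP w hw hk
  obtain ⟨m, hm⟩ := hk
  refine ⟨hO ℓ γ hP w hw ⟨m, by linarith⟩, ?_⟩
  intro k
  have hg : gg ℓ w = 0 := hO ℓ γ hP w hw ⟨m, by linarith⟩
  have h1 : ∀ i, ∃ j, Rp j (w - uu ℓ (Ee i)) ∨ Rm j (w - uu ℓ (Ee i)) := by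
    intro i
    apply far_OUTB (Pl_sub hw (Pl_uu ℓ _)) m
    have hu := uu_abs_OUTB hP i m
    have ht : |w m| - |uu ℓ (Ee i) m| ≤ |w m - uu ℓ (Ee i) m| := abs_sub_abs_le_abs_sub _ _
    show 1 / 25 ≤ |w m - uu ℓ (Ee i) m|
    linarith
  have h2 : ∀ i, ∃ j, Rp j (-w - uu ℓ (Ee i)) ∨ Rm j (-w - uu ℓ (Ee i)) := by
    intro i
    apply far_OUTB (Pl_sub (Pl_neg hw) (Pl_uu ℓ _)) m
    have hu := uu_abs_OUTB hP i m
    have ht : |-w m| - |uu ℓ (Ee i) m| ≤ |-w m - uu ℓ (Ee i) m| := abs_sub_abs_le_abs_sub _ _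
    show 1 / 25 ≤ |-w m - uu ℓ (Ee i) m|
    rw [abs_neg] at ht
    linarith
  unfold EE
  rw [hg, Cc_far (h1 _), Cc_far (h2 _), Cd_far (h1 _), Cd_far (h2 _)]
  ring

end Pool.Agent.Helper56.EX
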