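import Pool.Agent.Helper56.EX.St

set_option autoImplicit false

open Matrix
open scoped ContDiff

noncomputable section

namespace Pool.Agent.Helper56.EX

theorem m_PHYS (hL : StLat) (hS : StSum) (hI : StIdem) (hSm : StSm) (hN : StNear) (hR : StRot)
    (hF : StFsm) (hFi : StFin) (h1 : StRawP) (h2 : StRawM) (h3 : StColP) (h4 : StColM) :
    StPhys := by
  intro ℓ hl
  have hPar : Par ℓ g0 := ⟨hl, fun i => by fin_cases i <;> simp [g0]⟩
  have hzero : ∀ c w n, Kr ℓ g0 c w n = 0 → Kp ℓ g0 c w n = 0 := by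
    intro c w n h
    unfold Kp
    rw [h, Matrix.mul_zero, Matrix.zero_mul]
  refine ⟨?_, ?_, ?_, ?_, ?_, ?_, ?_, ?_⟩
  · -- smooth
    intro f hf hfp c n a b
    have hf' : ContDiff ℝ ∞ (fun x => f x + uu ℓ n) := hf.add contDiff_const
    have hfp' : ∀ x, Pl (f x + uu ℓ n) := fun x => Pl_add (hfp x) (Pl_uu ℓ n)
    simp only [Kp, Matrix.mul_apply, Matrix.transpose_apply]
    refine ContDiff.sum fun j _ => ?_
    refine ContDiff.mul (ContDiff.sum fun k _ => ?_) (hF _ hf' hfp' j b)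
    exact (hF f hf hfp k a).mul (hSm ℓ g0 hPar f hf hfp c n k j)
  · -- lat
    intro c w n h
    exact hL ℓ g0 c w n fun h' => h (hzero c w n h')
  · -- symm
    intro c w hw n
    have e1 : w + uu ℓ n + uu ℓ (-n) = w := by rw [uu_neg]; abel
    unfold Kp
    rw [e1, Kr_symm]
    simp only [Matrix.transpose_mul, Matrix.transpose_transpose, Matrix.mul_assoc]
  · -- sum
    intro w hw n
    have : ∑ c, Kp ℓ g0 c w n = (Fm w)ᵀ * (∑ c, Kr ℓ g0 c w n) * Fm (w + uu ℓ n) := by
      rw [Matrix.mul_sum, Matrix.sum_mul]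
      rfl
    rw [this, hS ℓ g0 hPar w hw n]
    by_cases hn : n = 0
    · subst hn
      rw [if_pos rfl, uu_zero, add_zero, Matrix.mul_one, (hR w hw).2]
    · rw [if_neg hn, Matrix.mul_zero, Matrix.zero_mul]
  · -- idem
    intro c w hw m
    have : ∀ n : Z3, Kp ℓ g0 c w n * Kp ℓ g0 c (w + uu ℓ n) (m - n) =
        (Fm w)ᵀ * (Kr ℓ g0 c w n * Kr ℓ g0 c (w + uu ℓ n) (m - n)) * Fm (w + uu ℓ m) := by
      intro n
      have e1 : w + uu ℓ n + uu ℓ (m - n) = w + uu ℓ m := by rw [uu_sub]; abel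
      have e2 := (hR (w + uu ℓ n) (Pl_add hw (Pl_uu ℓ n))).1
      unfold Kp
      rw [e1]
      calc (Fm w)ᵀ * Kr ℓ g0 c w n * Fm (w + uu ℓ n) *
            ((Fm (w + uu ℓ n))ᵀ * Kr ℓ g0 c (w + uu ℓ n) (m - n) * Fm (w + uu ℓ m))
          = (Fm w)ᵀ * Kr ℓ g0 c w n * (Fm (w + uu ℓ n) *
            (Fm (w + uu ℓ n))ᵀ) * Kr ℓ g0 c (w + uu ℓ n) (m - n) * Fm (w + uu ℓ m) := by
            simp only [Matrix.mul_assoc]
        _ = _ := by
            rw [e2, Matrix.mul_one]
            simp only [Matrix.mul_assoc]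
    rw [Finset.sum_congr rfl fun n _ => this n, ← Matrix.sum_mul, ← Matrix.mul_sum,
      hI ℓ g0 hPar c w hw m]
    rfl
  · -- far
    intro w hw hk c n
    have hcore := core_or hw
    obtain ⟨k0, hk0⟩ := hk
    have hnc : ¬ ∀ k, |w k| < 1 / 25 := not_core (k := k0) (by linarith)
    have hex : ∃ i, Rp i w ∨ Rm i w := hcore.resolve_left hnc
    have key : ∀ (n : Z3) (c : Fin 4), Kr ℓ g0 c w n = if n = 0 then
        (Fin.cases 0 (fun k => Fm w * Matrix.single k k 1 * (Fm w)ᵀ) c :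
          Matrix (Fin 3) (Fin 3) ℝ) else 0 := by
      intro n c
      obtain ⟨i, hi | hi⟩ := hex
      · rw [h1 ℓ hPar w hw ⟨k0, hk0⟩ i hi c n]
        refine Fin.cases ?_ (fun k => ?_) c
        · simp only [Fin.cases_zero]
        · simp only [Fin.cases_succ]
          rw [h3 w hw ⟨k0, hk0⟩ i hi k]
      · rw [h2 ℓ hPar w hw ⟨k0, hk0⟩ i hi c n]
        refine Fin.cases ?_ (fun k => ?_) c
        · simp only [Fin.cases_zero]
        · simp only [Fin.cases_succ]
          rw [h4 w hw ⟨k0, hk0⟩ i hi k]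
    by_cases hn : n = 0
    · subst hn
      rw [if_pos rfl]
      have := key 0 c
      rw [if_pos rfl] at this
      unfold Kp
      rw [this, uu_zero, add_zero]
      refine Fin.cases ?_ (fun k => ?_) c
      · simp only [Fin.cases_zero]
        rw [Matrix.mul_zero, Matrix.zero_mul]
      · simp only [Fin.cases_succ]
        have e := (hR w hw).2
        calc (Fm w)ᵀ * (Fm w * Matrix.single k k 1 * (Fm w)ᵀ) * Fm w
            = ((Fm w)ᵀ * Fm w) * Matrix.single k k 1 * ((Fm w)ᵀ * Fm w) := by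
              simp only [Matrix.mul_assoc]
          _ = Matrix.single k k 1 := by rw [e, Matrix.one_mul, Matrix.mul_one]
    · rw [if_neg hn]
      apply hzero
      rw [key n c, if_neg hn]
  · -- near
    intro w hw hk c n b
    have hF1 : Fm w = 1 := hFi w hw fun k => by linarith [hk k]
    have hrow : ∀ b, Kr ℓ g0 c w n 0 b = if c = 0 ∧ n = 0 ∧ b = 0 then 1 else 0 :=
      (hN ℓ g0 hPar c w hw n).1 hk
    unfold Kp
    rw [hF1, Matrix.transpose_one, Matrix.one_mul, Matrix.mul_apply]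
    simp only [hrow]
    by_cases hcn : c = 0 ∧ n = 0
    · obtain ⟨rfl, rfl⟩ := hcn
      rw [uu_zero, add_zero, hF1]
      simp [Matrix.one_apply, eq_comm]
    · rw [if_neg (fun h => hcn ⟨h.1, h.2.1⟩)]
      refine Finset.sum_eq_zero fun j _ => ?_
      rw [if_neg (fun h => hcn ⟨h.1, h.2.1⟩), zero_mul]
  · -- zero
    intro w hw n a b hab
    by_cases hK : Kr ℓ g0 0 w n = 0
    · rw [hzero 0 w n hK]; rfl
    · have hk : ∀ k, |w k| ≤ 11 / 10 := by
        intro k
        by_contra hc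
        push Not at hc
        exact hK ((hN ℓ g0 hPar 0 w hw n).2.2 k (by linarith))
      have hw' : Pl (w + uu ℓ n) := Pl_add hw (Pl_uu ℓ n)
      have hk' : ∀ k, |(w + uu ℓ n) k| ≤ 11 / 10 := by
        intro k
        by_contra hc
        push Not at hc
        have := (hN ℓ g0 hPar 0 (w + uu ℓ n) hw' (-n)).2.2 k (by linarith)
        rw [Kr_symm] at this
        exact hK (Matrix.transpose_eq_zero.1 this)
      unfold Kp
      rw [hFi w hw hk, hFi _ hw' hk', Matrix.transpose_one, Matrix.one_mul, Matrix.mul_one]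
      exact (hN ℓ g0 hPar 0 w hw n).2.1 a b hab

end Pool.Agent.Helper56.EX
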