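import Pool.Agent.Helper56.EX.St

set_option autoImplicit false

open Matrix
open scoped ContDiff

noncomputable section

namespace Pool.Agent.Helper56.EX

private lemma v_RAWM (i k : Fin 3) (w : W3) (a : Fin 3) : vP i k (-w) (mir a) = vM i k w a := by
  unfold vP vM mir
  by_cases h1 : k = i
  · rw [if_pos h1, if_pos h1]
    fin_cases a <;> simp
  · rw [if_neg h1, if_neg h1]
    by_cases h2 : k = i + 1
    · rw [if_pos h2, if_pos h2]
      fin_cases a <;> simp [Nn_neg, Pp_neg]
    · rw [if_neg h2, if_neg h2]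
      fin_cases a <;> simp [Nn_neg, Pp_neg]

theorem m_RAWM (hM : StMir) (hR : StRawP) : StRawM := by
  intro ℓ hℓ w hw hk i hi c n
  have hi' : Rp i (-w) := by
    obtain ⟨h1, h2⟩ := hi
    constructor
    · simp only [Pi.neg_apply]; linarith
    · simp only [Pi.neg_apply]; linarith
  have hk' : ∃ k, 17 / 10 ≤ |(-w) k| := by
    obtain ⟨k, hk⟩ := hk
    exact ⟨k, by simpa [abs_neg] using hk⟩
  have h := hR ℓ hℓ (-w) (Pl_neg hw) hk' i hi' c (-n)
  ext a b
  rw [← hM ℓ g0 hℓ c w hw n a b, h]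
  by_cases hn : n = 0
  · rw [if_pos (by rw [hn, neg_zero]), if_pos hn]
    refine Fin.cases ?_ (fun k => ?_) c
    · simp
    · simp only [Fin.cases_succ, Matrix.vecMulVec_apply, v_RAWM]
  · rw [if_neg (by simpa using hn), if_neg hn]
    simp

end Pool.Agent.Helper56.EX
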