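import Pool.Agent.Helper56.EX.St

set_option autoImplicit false

/-! Project EX, module RAWP (written by helper62). -/

open Matrix
open scoped ContDiff

noncomputable section

namespace Pool.Agent.Helper56.EX

/-- If `w j` is small then the two other coordinates are large, with opposite signs. -/
private lemma far_RAWP {w : W3} (hw : Pl w) (hk : ∃ k, 17 / 10 ≤ |w k|) {j : Fin 3}
    (hj : |w j| < 1 / 50) :
    (w (j + 1) ≤ -(168 / 100) ∧ 168 / 100 ≤ w (j + 2)) ∨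
      (168 / 100 ≤ w (j + 1) ∧ w (j + 2) ≤ -(168 / 100)) := by
  obtain ⟨k, hk⟩ := hk
  have hs := Pl_cyc hw j
  obtain ⟨h1, h2⟩ := abs_lt.1 hj
  rcases cyc_cases j k with rfl | rfl | rfl
  · linarith
  · rcases le_abs.1 hk with h | h
    · right
      constructor <;> linarith
    · left
      constructor <;> linarith
  · rcases le_abs.1 hk with h | h
    · left
      constructor <;> linarith
    · right
      constructor <;> linarith

private lemma par_RAWP {ℓ γ : Fin 3 → ℝ} (hP : Par ℓ γ) (j : Fin 3) :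
    999 / 1000 ≤ ℓ j ∧ ℓ j ≤ 1001 / 1000 := by
  obtain ⟨h1, h2⟩ := abs_le.1 (hP.l j)
  constructor <;> linarith

private lemma XX_RAWP {ℓ γ : Fin 3 → ℝ} (hP : Par ℓ γ) (j : Fin 3) (v : W3) :
    XX ℓ j v * (2 * ℓ j) = v (j + 2) - v (j + 1) := by
  have h := (par_RAWP hP j).1
  unfold XX
  field_simp

/-- Far out, where `si j w ≠ 0`, the coordinate along the line `j` is large. -/
private lemma si_RAWP {ℓ γ : Fin 3 → ℝ} (hP : Par ℓ γ) {w : W3} (hw : Pl w)
    (hk : ∃ k, 17 / 10 ≤ |w k|) {j : Fin 3} (h : si j w ≠ 0) :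
    3 / 2 ≤ XX ℓ j w ∧ w (j + 1) ≤ -(168 / 100) ∧ 168 / 100 ≤ w (j + 2) := by
  obtain ⟨h1, h2, h3⟩ := si_ne h
  obtain ⟨p1, p2⟩ := par_RAWP hP j
  have hx := XX_RAWP hP j w
  rcases far_RAWP hw hk h1 with ⟨h4, h5⟩ | ⟨h4, h5⟩
  · refine ⟨?_, h4, h5⟩
    by_contra hc
    push Not at hc
    nlinarith only [hc, hx, p1, p2, h4, h5]
  · linarith

private lemma farneg_RAWP {w : W3} (hk : ∃ k, 17 / 10 ≤ |w k|) : ∃ k, 17 / 10 ≤ |(-w) k| := by
  obtain ⟨k, hk⟩ := hk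
  exact ⟨k, by rw [Pi.neg_apply, abs_neg]; exact hk⟩

private lemma sineg_RAWP {ℓ γ : Fin 3 → ℝ} (hP : Par ℓ γ) {w : W3} (hw : Pl w)
    (hk : ∃ k, 17 / 10 ≤ |w k|) {i : Fin 3} (hi : Rp i w) (j : Fin 3) : si j (-w) = 0 := by
  by_contra h
  obtain ⟨h0, h1, h2⟩ := si_RAWP hP (Pl_neg hw) (farneg_RAWP hk) h
  obtain ⟨h3, -, -⟩ := si_ne h
  simp only [Pi.neg_apply] at h1 h2 h3
  rw [abs_neg] at h3
  obtain ⟨h4, h5⟩ := abs_lt.1 h3
  obtain ⟨h6, h7⟩ := hi
  rcases cyc_cases i j with rfl | rfl | rfl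
  · linarith
  · linarith
  · linarith

/-- All links with `n ≠ 0` are absent. -/
private lemma nolink_RAWP {ℓ γ : Fin 3 → ℝ} (hO : StOut) (hP : Par ℓ γ) {w : W3} (hw : Pl w)
    (hk : ∃ k, 17 / 10 ≤ |w k|) {n : Z3} (hn : n ≠ 0) (a b : Fin 3) : ¬ Link ℓ w n a b := by
  have hg : gg ℓ w = 0 := by
    apply hO ℓ γ hP w hw
    obtain ⟨k, hk⟩ := hk
    exact ⟨k, by linarith⟩
  intro hL
  rcases hL with ⟨-, h⟩ | ⟨-, -, h, -⟩ | ⟨j, h⟩
  · exact hn h
  · exact h hg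
  · obtain ⟨p1, p2⟩ := par_RAWP hP j
    rcases h with ⟨-, hs, h⟩ | ⟨-, hs, h⟩ | ⟨-, -, hs, h⟩ | ⟨-, -, h⟩ | ⟨-, -, h⟩
    · obtain ⟨hx, h1, h2⟩ := si_RAWP hP hw hk hs
      rcases h with ⟨-, -, h⟩ | ⟨-, h, -⟩ | ⟨-, -, -, h⟩ | ⟨-, -, -, h⟩
      · linarith
      · exact hn h
      · linarith
      · linarith
    · obtain ⟨hx, h1, h2⟩ := si_RAWP hP (Pl_neg hw) (farneg_RAWP hk) hs
      rcases h with ⟨-, -, h⟩ | ⟨-, h, -⟩
      · linarith
      · exact hn h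
    · obtain ⟨s1, s2, s3⟩ := si_ne hs
      have hx := XX_RAWP hP j (w + uu ℓ n)
      rcases h with ⟨rfl, h1, h2⟩ | ⟨rfl, h1, h2⟩
      · simp only [Pi.add_apply, uu_self, uu_one, uu_two, add_zero] at s1 s2 s3 hx
        rcases far_RAWP hw hk s1 with ⟨h4, h5⟩ | ⟨h4, h5⟩
        · nlinarith only [h2, hx, p1, p2, h4, h5]
        · nlinarith only [h1, hx, p1, p2, h4, h5]
      · simp only [uu_add, Pi.add_apply, uu_self, uu_one, uu_two, add_zero] at s1 s2 s3 hx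
        rw [uu_add] at h1 h2
        rcases far_RAWP hw hk s1 with ⟨h4, h5⟩ | ⟨h4, h5⟩
        · nlinarith only [h2, hx, p1, p2, h4, h5]
        · nlinarith only [h1, hx, p1, p2, h4, h5]
    · rcases h with ⟨rfl, hs, h⟩ | ⟨h, -, -⟩
      · obtain ⟨s1, s2, s3⟩ := si_ne hs
        have hx := XX_RAWP hP j (w + uu ℓ (-Ee j))
        simp only [uu_neg, Pi.add_apply, Pi.neg_apply, uu_self, uu_one, uu_two, add_zero, neg_zero,
          neg_neg] at s1 s2 s3 hx
        rw [uu_neg] at h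
        rcases far_RAWP hw hk s1 with ⟨h4, h5⟩ | ⟨h4, h5⟩
        · nlinarith only [h, hx, p1, p2, h4, h5]
        · linarith
      · exact hn h
    · rcases h with ⟨rfl, hs, h⟩ | ⟨h, -, -⟩
      · obtain ⟨s1, s2, s3⟩ := si_ne hs
        have hx := XX_RAWP hP j (-(w + uu ℓ (Ee j)))
        simp only [Pi.add_apply, Pi.neg_apply, uu_self, uu_one, uu_two, add_zero] at s1 s2 s3 hx
        rw [abs_neg] at s1
        rcases far_RAWP hw hk s1 with ⟨h4, h5⟩ | ⟨h4, h5⟩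
        · linarith
        · nlinarith only [h, hx, p1, p2, h4, h5]
      · exact hn h

private lemma tD_RAWP {ℓ : Fin 3 → ℝ} (hP : Par ℓ g0) {w : W3} (hw : Pl w)
    (hk : ∃ k, 17 / 10 ≤ |w k|) {i : Fin 3} (hi : Rp i w) (c : Fin 4) :
    Kr ℓ g0 c w 0 2 0 = sg c i * (g0 i * (Nn (w i) * Pp (w i))) := by
  obtain ⟨q0, -, -⟩ := pp_Rp hi
  have z1 : si (i + 1) w = 0 := by
    unfold si
    rw [c12, q0, mul_zero]
  have z2 : si (i + 2) w = 0 := by
    unfold si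
    rw [c21, q0, zero_mul]
  have z0 : si i w * fD (g0 i) (XX ℓ i w) = g0 i * (Nn (w i) * Pp (w i)) := by
    by_cases hs : si i w = 0
    · have h1 := si_Rp hi
      rw [hs] at h1
      rw [hs, ← h1]
      ring
    · rw [fD_high (si_RAWP hP hw hk hs).1, si_Rp hi]
      ring
  rw [v_tD, sum3 i, z1, z2, z0]
  ring

private lemma AA_RAWP {w : W3} {i : Fin 3} (hi : Rp i w) :
    AA i w = 0 ∧ AA (i + 1) w = Pp (w i) ∧ AA (i + 2) w = Nn (w i) := by
  obtain ⟨h1, h2⟩ := hi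
  unfold AA
  rw [c11, c12, c21, c22, Pp_low h1, Nn_low h1, Pp_high h2, Nn_high h2]
  refine ⟨?_, ?_, ?_⟩ <;> ring

private lemma sg_RAWP (i : Fin 3) : sg i.succ i = 0 ∧ sg (i + 1).succ i = 1 ∧
    sg (i + 2).succ i = -1 := by
  unfold sg
  simp only [Fin.succ_inj]
  refine ⟨?_, ?_, ?_⟩
  · rw [if_neg (ne1 i).symm, if_neg (ne2 i).symm]
  · rw [if_pos trivial]
  · rw [if_neg (ne12 i).symm, if_pos trivial]

private lemma g0_RAWP (i : Fin 3) : g0 i ^ 2 = 1 := by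
  fin_cases i <;> simp [g0]

/-- The entries for `n = 0`. -/
private lemma zero_RAWP {ℓ : Fin 3 → ℝ} (hP : Par ℓ g0) {w : W3} (hw : Pl w)
    (hk : ∃ k, 17 / 10 ≤ |w k|) {i : Fin 3} (hi : Rp i w) (c : Fin 4) :
    Kr ℓ g0 c w 0 = !![Dg ℓ c w 0, 0, sg c i * (g0 i * (Nn (w i) * Pp (w i)));
      0, Dg ℓ c w 1, 0;
      sg c i * (g0 i * (Nn (w i) * Pp (w i))), 0, Dg ℓ c w 2] := by
  have e10 : Kr ℓ g0 c w 0 1 0 = 0 := by
    rw [v_sD]
    apply Finset.sum_eq_zero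
    intro j _
    rw [sineg_RAWP hP hw hk hi j]
    ring
  have e20 := tD_RAWP hP hw hk hi c
  have hsy : ∀ a b, Kr ℓ g0 c w 0 a b = Kr ℓ g0 c w 0 b a := by
    intro a b
    have := Kr_symm' (ℓ := ℓ) (γ := g0) c w 0 a b
    rw [uu_zero, add_zero, neg_zero] at this
    exact this
  have e21 : Kr ℓ g0 c w 0 2 1 = 0 := by
    rw [row_t]
    simp [(nEe_ne_zero _).symm, (nEe2_ne_zero _).symm, -neg_add_rev]
  ext a b
  fin_cases a <;> fin_cases b
  · exact v_ee c w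
  · exact (hsy 0 1).trans e10
  · exact (hsy 0 2).trans e20
  · exact e10
  · exact v_ss c w
  · exact (hsy 1 2).trans e21
  · exact e20
  · exact e21
  · exact v_tt c w

theorem m_RAWP (hO' : StOut') (hO : StOut) : StRawP := by
  intro ℓ hP w hw hk i hi c n
  by_cases hn : n = 0
  · subst hn
    rw [if_pos rfl, zero_RAWP hP hw hk hi c]
    have hfar : ∃ k, 21 / 20 ≤ |w k| := by
      obtain ⟨k, hk⟩ := hk
      exact ⟨k, by linarith⟩
    obtain ⟨hg, hE⟩ := hO' ℓ g0 hP w hw hfar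
    obtain ⟨a0, a1, a2⟩ := AA_RAWP hi
    obtain ⟨q0, q1, q2⟩ := pp_Rp hi
    obtain ⟨r0, r1, r2⟩ := pp_Rm (Rm_neg.2 hi)
    obtain ⟨s0, s1, s2⟩ := sg_RAWP i
    have hg2 := g0_RAWP i
    refine Fin.cases ?_ (fun k => ?_) c
    · have hs : sg 0 i = 0 := by
        unfold sg
        simp [(Fin.succ_ne_zero _).symm]
      rw [hs]
      simp only [Dg, Fin.cases_zero, hg]
      ext a b
      fin_cases a <;> fin_cases b <;> simp
    · simp only [Dg, Fin.cases_succ]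
      rcases cyc_cases i k with rfl | rfl | rfl
      · rw [hE, a0, r0, q0, s0]
        simp only [vP, if_true]
        ext a b
        fin_cases a <;> fin_cases b <;> simp [Matrix.vecMulVec_apply]
      · rw [hE, a1, r1, q1, s1]
        simp only [vP, if_neg (ne1 i), if_true]
        ext a b
        fin_cases a <;> fin_cases b <;> simp [Matrix.vecMulVec_apply] <;>
          first | ring1 | linear_combination (-(Pp (w i)) ^ 2) * hg2
      · rw [hE, a2, r2, q2, s2]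
        simp only [vP, if_neg (ne2 i), if_neg (ne12 i).symm]
        ext a b
        fin_cases a <;> fin_cases b <;> simp [Matrix.vecMulVec_apply] <;>
          first | ring1 | linear_combination (-(Nn (w i)) ^ 2) * hg2
  · rw [if_neg hn]
    ext a b
    by_contra h
    exact nolink_RAWP hO hP hw hk hn a b (link_of_ne h)

end Pool.Agent.Helper56.EX
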