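import Pool.Agent.Helper56.EX.St

set_option autoImplicit false

open Matrix
open scoped ContDiff

noncomputable section

namespace Pool.Agent.Helper56.EX

/-- the rotation matrix is orthogonal up to the factor `|z| ^ 4` -/
lemma rotm_mul_ROT (z : Fin 4 → ℝ) :
    rotm z * (rotm z)ᵀ = ((z 0 ^ 2 + z 1 ^ 2 + z 2 ^ 2 + z 3 ^ 2) ^ 2) • (1 : Matrix (Fin 3) (Fin 3) ℝ) := by
  ext a b
  fin_cases a <;> fin_cases b <;>
    simp [rotm, Matrix.mul_apply, Fin.sum_univ_three] <;> ring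

lemma rotm_mul'_ROT (z : Fin 4 → ℝ) :
    (rotm z)ᵀ * rotm z = ((z 0 ^ 2 + z 1 ^ 2 + z 2 ^ 2 + z 3 ^ 2) ^ 2) • (1 : Matrix (Fin 3) (Fin 3) ℝ) := by
  ext a b
  fin_cases a <;> fin_cases b <;>
    simp [rotm, Matrix.mul_apply, Fin.sum_univ_three] <;> ring

theorem m_ROT (hZ : StZn) : StRot := by
  intro w hw
  have h0 : zn w ≠ 0 := (hZ w hw).ne'
  have h1 := rotm_mul_ROT (zz w)
  have h2 := rotm_mul'_ROT (zz w)
  have e : (zz w 0 ^ 2 + zz w 1 ^ 2 + zz w 2 ^ 2 + zz w 3 ^ 2) = zn w := rfl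
  rw [e] at h1 h2
  have h3 : (zn w)⁻¹ * (zn w)⁻¹ * zn w ^ 2 = 1 := by
    field_simp
  unfold Fm
  rw [Matrix.transpose_smul]
  constructor
  · rw [Matrix.smul_mul, Matrix.mul_smul, h1, smul_smul, smul_smul, h3, one_smul]
  · rw [Matrix.smul_mul, Matrix.mul_smul, h2, smul_smul, smul_smul, h3, one_smul]

end Pool.Agent.Helper56.EX
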