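import Pool.Agent.Helper56.EX.St

/-!
# Project EX, module SM: smoothness of the raw pattern
-/

set_option autoImplicit false

open Matrix
open scoped ContDiff

noncomputable section

namespace Pool.Agent.Helper56.EX

private lemma ite_SM {p : Prop} [Decidable p] {g : (Fin 2 → ℝ) → ℝ} (hg : ContDiff ℝ ∞ g) :
    ContDiff ℝ ∞ (fun x => if p then g x else 0) := by
  by_cases hp : p
  · simp only [if_pos hp]; exact hg
  · simp only [if_neg hp]; exact contDiff_const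

private lemma XX_SM (ℓ : Fin 3 → ℝ) (i : Fin 3) {f : (Fin 2 → ℝ) → W3} (hf : ContDiff ℝ ∞ f) :
    ContDiff ℝ ∞ (fun x => XX ℓ i (f x)) := by
  unfold XX
  exact ((contDiff_pi.mp hf _).sub (contDiff_pi.mp hf _)).div_const _

private lemma fA_SM {g : (Fin 2 → ℝ) → ℝ} (hg : ContDiff ℝ ∞ g) :
    ContDiff ℝ ∞ (fun x => fA (g x)) := by
  unfold fA
  exact Real.contDiff_cos.comp (mu_smooth.comp hg)

private lemma fB_SM (γ : ℝ) {g : (Fin 2 → ℝ) → ℝ} (hg : ContDiff ℝ ∞ g) :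
    ContDiff ℝ ∞ (fun x => fB γ (g x)) := by
  unfold fB
  exact (contDiff_const.mul (Real.contDiff_sin.comp (mu_smooth.comp hg))).mul
    (Real.contDiff_cos.comp (nu_smooth.comp hg))

private lemma fC_SM {g : (Fin 2 → ℝ) → ℝ} (hg : ContDiff ℝ ∞ g) :
    ContDiff ℝ ∞ (fun x => fC (g x)) := by
  unfold fC
  exact (Real.contDiff_sin.comp (nu_smooth.comp hg)).mul
    (Real.contDiff_cos.comp (mu_smooth.comp (hg.sub contDiff_const)))

private lemma fD_SM (γ : ℝ) {g : (Fin 2 → ℝ) → ℝ} (hg : ContDiff ℝ ∞ g) :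
    ContDiff ℝ ∞ (fun x => fD γ (g x)) := by
  unfold fD
  exact contDiff_const.mul (Real.contDiff_sin.comp (mu_smooth.comp (hg.sub contDiff_const)))

private lemma LL_SM (ℓ γ : Fin 3 → ℝ) (i : Fin 3) (n : Z3) (a b : Fin 3)
    {f : (Fin 2 → ℝ) → W3} (hf : ContDiff ℝ ∞ f)
    (hs : ∀ i, ContDiff ℝ ∞ (fun x => si i (f x)))
    (hs' : ∀ i, ContDiff ℝ ∞ (fun x => si i (-f x))) :
    ContDiff ℝ ∞ (fun x => LL ℓ γ i (f x) n a b) := by
  have hX := XX_SM ℓ i hf
  have hX' := XX_SM ℓ i hf.neg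
  simp only [LL, Matrix.of_apply]
  exact (((((ite_SM ((hs i).mul (fA_SM hX))).add (ite_SM ((hs i).mul (fD_SM _ hX)))).add
    (ite_SM ((hs i).mul (fB_SM _ hX)))).add (ite_SM ((hs i).mul (fC_SM hX)))).add
    (ite_SM ((hs' i).mul (fA_SM hX')))).add (ite_SM ((hs' i).mul (fD_SM _ hX')))

theorem m_SM (hS : StSma) : StSm := by
  intro ℓ γ hP f hf hp c n a b
  have hf2 : ContDiff ℝ ∞ (fun x => f x + uu ℓ n) := hf.add contDiff_const
  have hp2 : ∀ x, Pl (f x + uu ℓ n) := fun x => Pl_add (hp x) (Pl_uu ℓ n)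
  have hpn : ∀ x, Pl (-f x) := fun x => Pl_neg (hp x)
  have hpn2 : ∀ x, Pl (-(f x + uu ℓ n)) := fun x => Pl_neg (hp2 x)
  obtain ⟨g1, k1⟩ := hS ℓ γ hP f hf hp
  obtain ⟨g2, k2⟩ := hS ℓ γ hP _ hf2 hp2
  obtain ⟨g3, k3⟩ := hS ℓ γ hP _ hf.neg hpn
  obtain ⟨g4, k4⟩ := hS ℓ γ hP _ hf2.neg hpn2
  have s1 : ∀ i, ContDiff ℝ ∞ (fun x => si i (f x)) := fun i => (k1 _).1.mul (k1 _).1
  have s2 : ∀ i, ContDiff ℝ ∞ (fun x => si i (f x + uu ℓ n)) := fun i => (k2 _).1.mul (k2 _).1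
  have s3 : ∀ i, ContDiff ℝ ∞ (fun x => si i (-f x)) := fun i => (k3 _).1.mul (k3 _).1
  have s4 : ∀ i, ContDiff ℝ ∞ (fun x => si i (-(f x + uu ℓ n))) := fun i => (k4 _).1.mul (k4 _).1
  have hD : ContDiff ℝ ∞ (fun x => Dg ℓ c (f x) a) := by
    unfold Dg
    refine Fin.cases ?_ (fun k => ?_) c
    · simp only [Fin.cases_zero]
      fin_cases a
      · exact g1.pow 2
      · exact contDiff_const
      · exact contDiff_const
    · simp only [Fin.cases_succ]
      fin_cases a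
      · exact (k1 k).2
      · exact (k3 k).1.pow 2
      · exact (k1 k).1.pow 2
  unfold Kr
  simp only [Matrix.add_apply, Matrix.sum_apply, Matrix.smul_apply, Matrix.of_apply,
    Matrix.transpose_apply, smul_eq_mul]
  refine (ContDiff.add ?_ ?_).add ?_
  · by_cases hn : n = 0
    · simp only [if_pos hn]
      by_cases hab : a = b
      · subst hab
        simp only [Matrix.diagonal_apply_eq]
        exact hD
      · simp only [Matrix.diagonal_apply_ne _ hab]
        exact contDiff_const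
    · simp only [if_neg hn]
      exact contDiff_const
  · exact ite_SM (contDiff_const.mul (g1.mul g2))
  · refine ContDiff.sum fun i _ => contDiff_const.mul (ContDiff.add ?_ ?_)
    · exact LL_SM ℓ γ i n a b hf s1 s3
    · exact LL_SM ℓ γ i (-n) b a hf2 s2 s4

end Pool.Agent.Helper56.EX
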