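import Pool.Agent.Helper56.EX.St

/-!
# Project EX, module SMA: smoothness of the window, the node vectors and the densities
-/

set_option autoImplicit false

open Matrix
open scoped ContDiff

noncomputable section

namespace Pool.Agent.Helper56.EX

private lemma crd_SMA {f : (Fin 2 → ℝ) → W3} (hf : ContDiff ℝ ∞ f) (k : Fin 3) :
    ContDiff ℝ ∞ (fun x => f x k) := contDiff_pi.mp hf k

private lemma mm_SMA {f : (Fin 2 → ℝ) → W3} (hf : ContDiff ℝ ∞ f) (k : Fin 3) :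
    ContDiff ℝ ∞ (fun x => mm k (f x)) := by
  unfold mm
  exact (Pp_smooth.comp (crd_SMA hf _)).mul (Nn_smooth.comp (crd_SMA hf _))

private lemma md_SMA {f : (Fin 2 → ℝ) → W3} (hf : ContDiff ℝ ∞ f) (hp : ∀ x, Pl (f x)) :
    ContDiff ℝ ∞ (fun x => md (f x)) := by
  unfold md
  refine ContDiff.sqrt (ContDiff.sum fun k _ => (mm_SMA hf k).pow 2) fun x => ?_
  exact (mm_sum_pos (hp x)).ne'

lemma pp_SMA {f : (Fin 2 → ℝ) → W3} (hf : ContDiff ℝ ∞ f) (hp : ∀ x, Pl (f x)) (k : Fin 3) :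
    ContDiff ℝ ∞ (fun x => pp k (f x)) := by
  unfold pp
  exact (mm_SMA hf k).div (md_SMA hf hp) fun x => (md_pos (hp x)).ne'

private lemma HH_SMA (ℓ : Fin 3 → ℝ) (k : Fin 3) : ContDiff ℝ ∞ (fun s => HH ℓ k s) := by
  unfold HH
  exact contDiff_const.add (contDiff_const.mul
    (Real.smoothTransition.contDiff.comp (by fun_prop)))

private lemma wt_SMA (ℓ : Fin 3 → ℝ) {f : (Fin 2 → ℝ) → W3} (hf : ContDiff ℝ ∞ f) :
    ContDiff ℝ ∞ (fun x => wt ℓ (f x)) := by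
  unfold wt
  refine contDiff_prod fun k _ => ?_
  refine ContDiff.mul ?_ ?_
  · refine Nn_smooth.comp ?_
    exact (crd_SMA hf k).sub ((HH_SMA ℓ k).comp ((crd_SMA hf _).sub (crd_SMA hf _)))
  · refine Nn_smooth.comp ?_
    exact (crd_SMA hf k).neg.sub ((HH_SMA ℓ k).comp ((crd_SMA hf _).sub (crd_SMA hf _)))

private lemma dn_SMA (ℓ : Fin 3 → ℝ) {f : (Fin 2 → ℝ) → W3} (hf : ContDiff ℝ ∞ f)
    (hp : ∀ x, Pl (f x)) : ContDiff ℝ ∞ (fun x => dn ℓ (f x)) := by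
  unfold dn
  refine contDiff_const.add (ContDiff.sum fun i _ => ?_)
  refine ContDiff.add ?_ ?_
  · exact (md_SMA (f := fun x => f x - uu ℓ (Ee i)) (hf.sub contDiff_const)
      fun x => Pl_sub (hp x) (Pl_uu ℓ _)).sub contDiff_const
  · exact (md_SMA (f := fun x => -f x - uu ℓ (Ee i)) (hf.neg.sub contDiff_const)
      fun x => Pl_sub (Pl_neg (hp x)) (Pl_uu ℓ _)).sub contDiff_const

private lemma AA_SMA {f : (Fin 2 → ℝ) → W3} (hf : ContDiff ℝ ∞ f) (k : Fin 3) :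
    ContDiff ℝ ∞ (fun x => AA k (f x)) := by
  have hN : ∀ j, ContDiff ℝ ∞ (fun x => Nn (f x j)) := fun j => Nn_smooth.comp (crd_SMA hf j)
  have hP : ∀ j, ContDiff ℝ ∞ (fun x => Pp (f x j)) := fun j => Pp_smooth.comp (crd_SMA hf j)
  unfold AA
  exact (((hP _).mul (hN _)).mul (hN _)).add (((hN _).mul (hP _)).mul (hP _))

private lemma Cc_SMA {f : (Fin 2 → ℝ) → W3} (hf : ContDiff ℝ ∞ f) (hp : ∀ x, Pl (f x))
    (i : Fin 3) : ContDiff ℝ ∞ (fun x => Cc i (f x)) := by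
  unfold Cc
  exact ((pp_SMA hf hp _).pow 2).sub ((contDiff_const.sub ((pp_SMA hf hp _).pow 2)).mul
    ((Pp_smooth.comp (crd_SMA hf i)).pow 2))

private lemma Cd_SMA {f : (Fin 2 → ℝ) → W3} (hf : ContDiff ℝ ∞ f) (hp : ∀ x, Pl (f x))
    (i : Fin 3) : ContDiff ℝ ∞ (fun x => Cd i (f x)) := by
  unfold Cd
  exact ((pp_SMA hf hp _).pow 2).sub ((contDiff_const.sub ((pp_SMA hf hp _).pow 2)).mul
    ((Nn_smooth.comp (crd_SMA hf i)).pow 2))

theorem m_SMA (hD : StDn) : StSma := by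
  intro ℓ γ hP f hf hp
  have hg : ContDiff ℝ ∞ (fun x => gg ℓ (f x)) := by
    unfold gg
    exact (wt_SMA ℓ hf).div (dn_SMA ℓ hf hp) fun x => (hD ℓ γ hP (f x) (hp x)).ne'
  refine ⟨hg, fun k => ⟨pp_SMA hf hp k, ?_⟩⟩
  have h1 : ∀ i, ContDiff ℝ ∞ (fun x => f x - uu ℓ (Ee i)) := fun i => hf.sub contDiff_const
  have h2 : ∀ i, ContDiff ℝ ∞ (fun x => -f x - uu ℓ (Ee i)) := fun i => hf.neg.sub contDiff_const
  have p1 : ∀ i x, Pl (f x - uu ℓ (Ee i)) := fun i x => Pl_sub (hp x) (Pl_uu ℓ _)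
  have p2 : ∀ i x, Pl (-f x - uu ℓ (Ee i)) := fun i x => Pl_sub (Pl_neg (hp x)) (Pl_uu ℓ _)
  unfold EE
  refine (((contDiff_const.sub (hg.pow 2)).mul ((AA_SMA hf k).pow 2)).add ?_).add ?_
  · exact (Cc_SMA (h1 _) (p1 _) _).add (Cc_SMA (h2 _) (p2 _) _)
  · exact (Cd_SMA (h1 _) (p1 _) _).add (Cd_SMA (h2 _) (p2 _) _)

end Pool.Agent.Helper56.EX
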