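import Pool.Agent.Helper56.EX.St

/-!
# Project EX (MP_d629b1), module STRIP
-/

set_option autoImplicit false

open Matrix
open scoped ContDiff

noncomputable section

namespace Pool.Agent.Helper56.EX

private lemma prod3_STRIP (i : Fin 3) (f : Fin 3 → ℝ) : ∏ k, f k = f i * f (i + 1) * f (i + 2) := by
  fin_cases i <;> simp [Fin.prod_univ_three] <;> ring

private lemma md_far_STRIP {y : W3} (h : ∃ i, Rp i y ∨ Rm i y) : md y = 1 := by
  obtain ⟨i, h | h⟩ := h
  · exact md_Rp h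
  · exact md_Rm h

private lemma far_of_STRIP {y : W3} (hy : Pl y) (k : Fin 3) (hk : 1 / 25 ≤ |y k|) :
    ∃ i, Rp i y ∨ Rm i y := by
  rcases core_or hy with h | h
  · exact absurd h (not_core hk)
  · exact h

theorem m_STRIP (hHH : StHH) : StStrip := by
  intro ℓ γ hP k w hw h0 h1a h1b h2a h2b
  have hl : ∀ i, 999 / 1000 ≤ ℓ i ∧ ℓ i ≤ 1001 / 1000 := by
    intro i
    have := abs_le.1 (hP.l i)
    constructor <;> linarith [this.1, this.2]
  have hHb : ∀ (j : Fin 3) (s : ℝ), 999 / 1000 ≤ HH ℓ j s := fun j s => (hHH ℓ γ hP j s).1.1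
  -- all corners are far
  have hfar : ∀ j : Fin 3, (∃ i, Rp i (w - uu ℓ (Ee j)) ∨ Rm i (w - uu ℓ (Ee j))) ∧
      (∃ i, Rp i (-w - uu ℓ (Ee j)) ∨ Rm i (-w - uu ℓ (Ee j))) := by
    intro j
    have hP1 : Pl (w - uu ℓ (Ee j)) := Pl_sub hw (Pl_uu ℓ _)
    have hP2 : Pl (-w - uu ℓ (Ee j)) := Pl_sub (Pl_neg hw) (Pl_uu ℓ _)
    rcases cyc_cases k j with rfl | rfl | rfl
    · constructor
      · refine far_of_STRIP hP1 j ?_
        rw [Pi.sub_apply, uu_self, sub_zero, abs_of_nonneg (by linarith)]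
        linarith
      · refine far_of_STRIP hP2 j ?_
        rw [Pi.sub_apply, uu_self, sub_zero, Pi.neg_apply, abs_neg, abs_of_nonneg (by linarith)]
        linarith
    · constructor
      · refine ⟨k, Or.inl ⟨?_, ?_⟩⟩
        · rw [Pi.sub_apply, uu_self, sub_zero]
          exact h1b
        · have h3 := uu_one ℓ (k + 1)
          rw [c11] at h3
          rw [Pi.sub_apply, h3]
          linarith [(hl (k + 1)).1]
      · refine far_of_STRIP hP2 k ?_
        have h3 := uu_two ℓ (k + 1)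
        rw [c12] at h3
        rw [Pi.sub_apply, h3, Pi.neg_apply, le_abs]
        right
        linarith [(hl (k + 1)).1]
    · constructor
      · refine far_of_STRIP hP1 k ?_
        have h3 := uu_one ℓ (k + 2)
        rw [c21] at h3
        rw [Pi.sub_apply, h3, le_abs]
        left
        linarith [(hl (k + 2)).1]
      · refine ⟨k, Or.inl ⟨?_, ?_⟩⟩
        · have h3 := uu_two ℓ (k + 2)
          rw [c22] at h3
          rw [Pi.sub_apply, h3, Pi.neg_apply]
          linarith [(hl (k + 2)).1]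
        · rw [Pi.sub_apply, uu_self, sub_zero, Pi.neg_apply]
          linarith
  have hdn : dn ℓ w = 1 := by
    unfold dn
    rw [Finset.sum_eq_zero, add_zero]
    intro j _
    rw [md_far_STRIP (hfar j).1, md_far_STRIP (hfar j).2]
    norm_num
  have hwt : wt ℓ w = Nn (w k - HH ℓ k (w (k + 2) - w (k + 1))) := by
    unfold wt
    rw [prod3_STRIP k]
    have e1 : Nn (-w k - HH ℓ k (w (k + 1) - w (k + 2))) = 1 :=
      Nn_low (by linarith [hHb k (w (k + 1) - w (k + 2))])
    have e2 : ∀ s, Nn (w (k + 1) - HH ℓ (k + 1) s) = 1 := fun s =>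
      Nn_low (by linarith [hHb (k + 1) s])
    have e3 : ∀ s, Nn (-w (k + 1) - HH ℓ (k + 1) s) = 1 := fun s =>
      Nn_low (by linarith [hHb (k + 1) s])
    have e4 : ∀ s, Nn (w (k + 2) - HH ℓ (k + 2) s) = 1 := fun s =>
      Nn_low (by linarith [hHb (k + 2) s])
    have e5 : ∀ s, Nn (-w (k + 2) - HH ℓ (k + 2) s) = 1 := fun s =>
      Nn_low (by linarith [hHb (k + 2) s])
    rw [e1, e2, e3, e4, e5]
    ring
  have hgg : gg ℓ w = Nn (w k - HH ℓ k (w (k + 2) - w (k + 1))) := by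
    unfold gg
    rw [hdn, hwt, div_one]
  have hEE : ∀ j, EE ℓ j w = (1 - gg ℓ w ^ 2) * AA j w ^ 2 := by
    intro j
    unfold EE
    rw [Cc_far (hfar (j + 2)).1, Cc_far (hfar (j + 2)).2, Cd_far (hfar (j + 1)).1,
      Cd_far (hfar (j + 1)).2]
    ring
  refine ⟨hgg, ?_, ?_, ?_⟩
  · rw [hEE]
    unfold AA
    rw [Pp_high (show 1 / 50 ≤ w k by linarith), Nn_low h1b, Nn_low h2b, Pp_low h1b]
    ring
  · rw [hEE]
    unfold AA
    rw [c11, c12, Pp_low h1b, Pp_low h2b]
    ring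
  · rw [hEE]
    unfold AA
    rw [c21, c22, Pp_low h1b, Pp_low h2b]
    ring

end Pool.Agent.Helper56.EX
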