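import Pool.Agent.Helper56.EX.St

set_option autoImplicit false

open Matrix
open scoped ContDiff

noncomputable section

namespace Pool.Agent.Helper56.EX

theorem m_STRIPB (hHH : StHH) (hE : StEven) (hS : StStrip) : StStrip' := by
  intro ℓ γ hP k w hw hst w'
  obtain ⟨s1, s2, s3, s4, s5, s6⟩ := hst
  have l1 := abs_le.1 (hP.l (k + 1))
  have l2 := abs_le.1 (hP.l (k + 2))
  have e0 : w' k = w k - ℓ (k + 2) - ℓ (k + 1) := by
    have a := uu_one ℓ (k + 2)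
    have b := uu_two ℓ (k + 1)
    rw [c21] at a
    rw [c12] at b
    change w k + uu ℓ (Ee (k + 2) - Ee (k + 1)) k = _
    rw [uu_sub, Pi.sub_apply, a, b]
    ring
  have e1 : w' (k + 1) = w (k + 1) + ℓ (k + 2) := by
    have a := uu_two ℓ (k + 2)
    have b := uu_self ℓ (k + 1)
    rw [c22] at a
    change w (k + 1) + uu ℓ (Ee (k + 2) - Ee (k + 1)) (k + 1) = _
    rw [uu_sub, Pi.sub_apply, a, b]
    ring
  have e2 : w' (k + 2) = w (k + 2) + ℓ (k + 1) := by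
    have a := uu_self ℓ (k + 2)
    have b := uu_one ℓ (k + 1)
    rw [c11] at b
    change w (k + 2) + uu ℓ (Ee (k + 2) - Ee (k + 1)) (k + 2) = _
    rw [uu_sub, Pi.sub_apply, a, b]
    ring
  have hv : Pl (-w') := Pl_neg (Pl_add hw (Pl_uu ℓ _))
  have n0 : (-w') k = -(w' k) := rfl
  have n1 : (-w') (k + 1) = -(w' (k + 1)) := rfl
  have n2 : (-w') (k + 2) = -(w' (k + 2)) := rfl
  obtain ⟨g1, g2, g3, g4⟩ := hS ℓ γ hP k (-w') hv (by rw [n0, e0]; linarith) (by rw [n1, e1]; linarith)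
    (by rw [n1, e1]; linarith) (by rw [n2, e2]; linarith) (by rw [n2, e2]; linarith)
  have hev := hE ℓ w'
  rw [hev.1] at g1 g2
  rw [hev.2] at g2 g3 g4
  refine ⟨?_, g2, g3, g4⟩
  rw [g1, n0, n1, n2, e0, e1, e2]
  have hsym := (hHH ℓ γ hP k (w (k + 2) - w (k + 1))).2.2.2
  have a1 : -(w (k + 2) + ℓ (k + 1)) - -(w (k + 1) + ℓ (k + 2)) =
      ℓ (k + 2) - ℓ (k + 1) - (w (k + 2) - w (k + 1)) := by ring
  rw [a1, hsym]
  have a2 : -(w k - ℓ (k + 2) - ℓ (k + 1)) -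
      (ℓ (k + 1) + ℓ (k + 2) - HH ℓ k (w (k + 2) - w (k + 1))) =
      -(w k - HH ℓ k (w (k + 2) - w (k + 1))) := by ring
  rw [a2, Nn_neg]

end Pool.Agent.Helper56.EX
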