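import Pool.Agent.Helper56.EX.St

/-!
# Project EX (MP_d629b1): module SUM
-/

set_option autoImplicit false

open Matrix
open scoped ContDiff

noncomputable section

namespace Pool.Agent.Helper56.EX

theorem m_SUM (hA : StAll) : StSum := by
  intro ℓ γ hp w hw n
  ext a b
  rw [Matrix.sum_apply]
  obtain ⟨N, P, col, O, w', i, hw', hB, hPi, rfl⟩ := hA ℓ γ hp w hw a
  subst hPi
  by_cases hj : ∃ j, P j = (b, (P i).2 + n)
  · obtain ⟨j, hj⟩ := hj
    have hn : (P j).2 - (P i).2 = n := by rw [hj]; simp
    have hb : (P j).1 = b := by rw [hj]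
    have hO : Oᵀ * O = 1 := mul_eq_one_comm.mp hB.orth
    have hval : ∀ c, Kr ℓ γ c (w' + uu ℓ (P i).2) n (P i).1 b =
        ∑ r, if col r = c then O r i * O r j else 0 := by
      intro c
      have h := hB.val i j c
      rw [hn, hb] at h
      exact h
    rw [Finset.sum_congr rfl (fun c _ => hval c), Finset.sum_comm]
    have h2 : ∀ r, (∑ c, if col r = c then O r i * O r j else 0) = O r i * O r j := by
      intro r
      rw [Finset.sum_ite_eq]
      simp
    rw [Finset.sum_congr rfl (fun r _ => h2 r)]
    have h3 : ∑ r, O r i * O r j = (Oᵀ * O) i j := by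
      rw [Matrix.mul_apply]
      rfl
    rw [h3, hO]
    by_cases hij : i = j
    · subst hij
      have hn0 : n = 0 := by rw [← hn, sub_self]
      rw [if_pos hn0, ← hb, Matrix.one_apply_eq, Matrix.one_apply_eq]
    · rw [Matrix.one_apply_ne hij]
      by_cases hn0 : n = 0
      · rw [if_pos hn0]
        have hne : (P i).1 ≠ b := by
          intro h
          apply hij
          apply hB.inj
          rw [hj, hn0, add_zero, ← h]
        rw [Matrix.one_apply_ne hne]
      · rw [if_neg hn0]
        rfl
  · push Not at hj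
    have h0 : ∀ c, Kr ℓ γ c (w' + uu ℓ (P i).2) n (P i).1 b = 0 := fun c => hB.out i c b n hj
    rw [Finset.sum_congr rfl (fun c _ => h0 c), Finset.sum_const_zero]
    by_cases hn0 : n = 0
    · rw [if_pos hn0]
      have hne : (P i).1 ≠ b := by
        intro h
        apply hj i
        rw [hn0, add_zero, ← h]
      rw [Matrix.one_apply_ne hne]
    · rw [if_neg hn0]
      rfl

end Pool.Agent.Helper56.EX
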