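import Pool.Agent.Helper56.EX.St

set_option autoImplicit false

open Matrix
open scoped ContDiff

noncomputable section

namespace Pool.Agent.Helper56.EX

private lemma prod3_VX (i : Fin 3) (f : Fin 3 → ℝ) : ∏ k, f k = f i * f (i + 1) * f (i + 2) := by
  fin_cases i <;> simp [Fin.prod_univ_three] <;> ring

private lemma far_VX {z : W3} (hz : Pl z) (m : Fin 3) (h : 1 / 25 ≤ |z m|) :
    ∃ i, Rp i z ∨ Rm i z := (core_or hz).resolve_left (not_core h)

private lemma md_far_VX {z : W3} (h : ∃ i, Rp i z ∨ Rm i z) : md z = 1 := by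
  obtain ⟨i, h | h⟩ := h
  · exact md_Rp h
  · exact md_Rm h

theorem m_VX (hHH : StHH) : StVx := by
  intro ℓ γ hP i y hy hyb
  have hl : ∀ k, 999 / 1000 ≤ ℓ k ∧ ℓ k ≤ 1001 / 1000 := by
    intro k
    have := abs_le.mp (hP.l k)
    constructor <;> linarith [this.1, this.2]
  have yb : ∀ k, -(1 / 5) ≤ y k ∧ y k ≤ 1 / 5 := fun k => abs_le.mp (hyb k)
  set w : W3 := uu ℓ (Ee i) + y with hwdef
  have hw : Pl w := Pl_add (Pl_uu ℓ _) hy
  have w0 : w i = y i := by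
    show uu ℓ (Ee i) i + y i = y i
    rw [uu_self]; ring
  have w1 : w (i + 1) = -ℓ i + y (i + 1) := by
    show uu ℓ (Ee i) (i + 1) + y (i + 1) = _
    rw [uu_one]
  have w2 : w (i + 2) = ℓ i + y (i + 2) := by
    show uu ℓ (Ee i) (i + 2) + y (i + 2) = _
    rw [uu_two]
  have l0 := hl i
  have l1 := hl (i + 1)
  have l2 := hl (i + 2)
  have y0 := yb i
  have y1 := yb (i + 1)
  have y2 := yb (i + 2)
  have hb : ∀ k s, 999 / 1000 ≤ HH ℓ k s ∧ HH ℓ k s ≤ 1001 / 1000 :=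
    fun k s => (hHH ℓ γ hP k s).1
  -- the window
  have hwt : wt ℓ w = mm i y := by
    unfold wt
    rw [prod3_VX i]
    rw [c11, c12, c21, c22]
    have f0 : Nn (w i - HH ℓ i (w (i + 2) - w (i + 1))) = 1 :=
      Nn_low (by rw [w0]; linarith [(hb i (w (i + 2) - w (i + 1))).1, y0.2])
    have f0' : Nn (-w i - HH ℓ i (w (i + 1) - w (i + 2))) = 1 :=
      Nn_low (by rw [w0]; linarith [(hb i (w (i + 1) - w (i + 2))).1, y0.1])
    have f1 : Nn (w (i + 1) - HH ℓ (i + 1) (w i - w (i + 2))) = 1 :=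
      Nn_low (by rw [w1]; linarith [(hb (i + 1) (w i - w (i + 2))).1, y1.2, l0.1])
    have h1 : HH ℓ (i + 1) (w (i + 2) - w i) = ℓ i := by
      have := (hHH ℓ γ hP (i + 1) (w (i + 2) - w i)).2.2.1
      rw [c12] at this
      apply this
      rw [w2, w0]
      linarith [l0.1, y2.1, y0.2]
    have f1' : Nn (-w (i + 1) - HH ℓ (i + 1) (w (i + 2) - w i)) = Pp (y (i + 1)) := by
      rw [h1, w1, show -(-ℓ i + y (i + 1)) - ℓ i = -y (i + 1) by ring, Nn_neg]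
    have h2 : HH ℓ (i + 2) (w (i + 1) - w i) = ℓ i := by
      have := (hHH ℓ γ hP (i + 2) (w (i + 1) - w i)).2.1
      rw [c21] at this
      apply this
      rw [w1, w0]
      linarith [l0.1, y1.2, y0.1]
    have f2 : Nn (w (i + 2) - HH ℓ (i + 2) (w (i + 1) - w i)) = Nn (y (i + 2)) := by
      rw [h2, w2, show ℓ i + y (i + 2) - ℓ i = y (i + 2) by ring]
    have f2' : Nn (-w (i + 2) - HH ℓ (i + 2) (w i - w (i + 1))) = 1 :=
      Nn_low (by rw [w2]; linarith [(hb (i + 2) (w i - w (i + 1))).1, y2.1, l0.1])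
    rw [f0, f0', f1, f1', f2, f2']
    unfold mm
    ring
  -- corners
  have e0 : w - uu ℓ (Ee i) = y := by
    rw [hwdef]; abel
  have k0 : ∃ j, Rp j (-w - uu ℓ (Ee i)) ∨ Rm j (-w - uu ℓ (Ee i)) := by
    apply far_VX (Pl_sub (Pl_neg hw) (Pl_uu ℓ _)) (i + 2)
    show 1 / 25 ≤ |-w (i + 2) - uu ℓ (Ee i) (i + 2)|
    rw [uu_two, w2, le_abs]
    right
    linarith [l0.1, y2.1]
  have k1 : ∃ j, Rp j (w - uu ℓ (Ee (i + 1))) ∨ Rm j (w - uu ℓ (Ee (i + 1))) := by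
    apply far_VX (Pl_sub hw (Pl_uu ℓ _)) i
    show 1 / 25 ≤ |w i - uu ℓ (Ee (i + 1)) i|
    have := uu_two ℓ (i + 1)
    rw [c12] at this
    rw [this, w0, le_abs]
    right
    linarith [l1.1, y0.2]
  have k1' : ∃ j, Rp j (-w - uu ℓ (Ee (i + 1))) ∨ Rm j (-w - uu ℓ (Ee (i + 1))) := by
    apply far_VX (Pl_sub (Pl_neg hw) (Pl_uu ℓ _)) i
    show 1 / 25 ≤ |-w i - uu ℓ (Ee (i + 1)) i|
    have := uu_two ℓ (i + 1)
    rw [c12] at this
    rw [this, w0, le_abs]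
    right
    linarith [l1.1, y0.1]
  have k2 : ∃ j, Rp j (w - uu ℓ (Ee (i + 2))) ∨ Rm j (w - uu ℓ (Ee (i + 2))) := by
    apply far_VX (Pl_sub hw (Pl_uu ℓ _)) i
    show 1 / 25 ≤ |w i - uu ℓ (Ee (i + 2)) i|
    have := uu_one ℓ (i + 2)
    rw [c21] at this
    rw [this, w0, le_abs]
    left
    linarith [l2.1, y0.1]
  have k2' : ∃ j, Rp j (-w - uu ℓ (Ee (i + 2))) ∨ Rm j (-w - uu ℓ (Ee (i + 2))) := by
    apply far_VX (Pl_sub (Pl_neg hw) (Pl_uu ℓ _)) i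
    show 1 / 25 ≤ |-w i - uu ℓ (Ee (i + 2)) i|
    have := uu_one ℓ (i + 2)
    rw [c21] at this
    rw [this, w0, le_abs]
    left
    linarith [l2.1, y0.2]
  have hdn : dn ℓ w = md y := by
    unfold dn
    rw [sum3 i, e0, md_far_VX k0, md_far_VX k1, md_far_VX k1', md_far_VX k2, md_far_VX k2']
    ring
  have hgg : gg ℓ w = pp i y := by
    unfold gg pp
    rw [hwt, hdn]
  have P1 : Pp (w (i + 1)) = 0 := Pp_low (by rw [w1]; linarith [l0.1, y1.2])
  have N1 : Nn (w (i + 1)) = 1 := Nn_low (by rw [w1]; linarith [l0.1, y1.2])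
  have P2 : Pp (w (i + 2)) = 1 := Pp_high (by rw [w2]; linarith [l0.1, y2.1])
  have N2 : Nn (w (i + 2)) = 0 := Nn_high (by rw [w2]; linarith [l0.1, y2.1])
  have A0 : AA i w = 0 := by
    unfold AA
    rw [P1, N2]
    ring
  have A1 : AA (i + 1) w = Pp (y i) := by
    unfold AA
    rw [c11, c12, P1, N1, P2, N2, w0]
    ring
  have A2 : AA (i + 2) w = Nn (y i) := by
    unfold AA
    rw [c21, c22, P1, N1, P2, N2, w0]
    ring
  refine ⟨hgg, ?_, ?_, ?_⟩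
  · unfold EE
    rw [A0, Cc_far k2, Cc_far k2', Cd_far k1, Cd_far k1']
    ring
  · unfold EE
    rw [c11, c12, A1, hgg, e0, Cc_far k0, Cd_far k2, Cd_far k2']
    unfold Cc
    ring
  · unfold EE
    rw [c21, c22, A2, hgg, e0, Cd_far k0, Cc_far k1, Cc_far k1']
    unfold Cd
    ring

end Pool.Agent.Helper56.EX
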