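import Pool.Agent.Helper56.EX.St

set_option autoImplicit false

open Matrix
open scoped ContDiff

noncomputable section

namespace Pool.Agent.Helper56.EX

private lemma Dh_nonneg_ZN (w : ℝ) : 0 ≤ Dh w := by
  unfold Dh
  have h1 := th_nonneg w
  have h2 := th_le w
  have hp := Real.pi_pos
  exact mul_nonneg (Real.sqrt_nonneg 2)
    (Real.sin_nonneg_of_nonneg_of_le_pi (by linarith) (by linarith))

private lemma Cg_nonneg_ZN (w : ℝ) : 0 ≤ Cg w := by
  have h := Dh_nonneg_ZN (-w)
  unfold Dh at h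
  unfold Cg
  exact h

private lemma root_ZN : Real.sqrt 2 * Real.sin (Real.pi / 2 / 2) = 1 := by
  have h : Real.pi / 2 / 2 = Real.pi / 4 := by ring
  rw [h, Real.sin_pi_div_four]
  have h2 : Real.sqrt 2 * Real.sqrt 2 = 2 := Real.mul_self_sqrt (by norm_num)
  linarith

private lemma Dh_low_ZN {w : ℝ} (h : w ≤ -(1 / 50)) : Dh w = 0 := by
  unfold Dh
  rw [th_low h]
  simp

private lemma Dh_high_ZN {w : ℝ} (h : 1 / 50 ≤ w) : Dh w = 1 := by
  unfold Dh
  rw [th_high h]
  exact root_ZN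

private lemma Cg_low_ZN {w : ℝ} (h : w ≤ -(1 / 50)) : Cg w = 1 := by
  have := Dh_high_ZN (w := -w) (by linarith)
  unfold Dh at this
  unfold Cg
  exact this

private lemma Cg_high_ZN {w : ℝ} (h : 1 / 50 ≤ w) : Cg w = 0 := by
  have := Dh_low_ZN (w := -w) (by linarith)
  unfold Dh at this
  unfold Cg
  exact this

private lemma sum_pos_ZN (w : ℝ) : 0 < Cg w + Dh w := by
  have h1 := Cg_nonneg_ZN w
  have h2 := Dh_nonneg_ZN w
  rcases h2.lt_or_eq with h | h
  · linarith
  · have h3 : th w = 0 := by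
      unfold Dh at h
      have hs : Real.sqrt 2 ≠ 0 := by positivity
      have h4 : Real.sin (th w / 2) = 0 := by
        rcases mul_eq_zero.1 h.symm with h5 | h5
        · exact absurd h5 hs
        · exact h5
      have h5 := th_nonneg w
      have h6 := th_le w
      have hp := Real.pi_pos
      by_contra hne
      have h7 : 0 < th w := lt_of_le_of_ne h5 (Ne.symm hne)
      have h8 := Real.sin_pos_of_pos_of_lt_pi (x := th w / 2) (by linarith) (by linarith)
      linarith
    have h4 : Cg w = 1 := by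
      unfold Cg
      rw [th_neg, h3, sub_zero]
      exact root_ZN
    rw [h4]
    linarith

private lemma key_ZN (c d r a : ℝ) (hc : 0 ≤ c) (hd : 0 ≤ d) (hs : 0 < c + d) (hr : 0 < r) (ha : 0 < a) :
    0 < a * c + 2 * r * d := by
  rcases hc.lt_or_eq with h | h
  · have h1 : 0 < a * c := mul_pos ha h
    have h2 : 0 ≤ 2 * r * d := by positivity
    linarith
  · have h3 : 0 < d := by linarith
    have h1 : 0 ≤ a * c := mul_nonneg ha.le hc
    have h2 : 0 < 2 * r * d := by positivity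
    linarith

theorem m_ZN : StZn := by
  intro w hw
  have hr : 0 < Real.sqrt 2 / 2 := by positivity
  set r : ℝ := Real.sqrt 2 / 2 with hrdef
  have hc : ∀ i, 0 ≤ Cg (w i) := fun i => Cg_nonneg_ZN _
  have hd : ∀ i, 0 ≤ Dh (w i) := fun i => Dh_nonneg_ZN _
  have hs : ∀ i, 0 < Cg (w i) + Dh (w i) := fun i => sum_pos_ZN _
  have hq0 : qq w 0 = Dh (w 0) * Cg (w 1) * Cg (w 2) + r * (Dh (w 0) * Dh (w 1) * Cg (w 2))
      + 1 / 2 * (Cg (w 0) * Dh (w 1) * Cg (w 2)) + 1 / 2 * (Cg (w 0) * Cg (w 1) * Dh (w 2))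
      + r * (Dh (w 0) * Cg (w 1) * Dh (w 2)) := rfl
  have hq1 : qq w 1 = r * (Dh (w 0) * Dh (w 1) * Cg (w 2)) + 1 / 2 * (Cg (w 0) * Dh (w 1) * Cg (w 2))
      + r * (Cg (w 0) * Dh (w 1) * Dh (w 2)) + 1 / 2 * (Cg (w 0) * Cg (w 1) * Dh (w 2)) := rfl
  have hq2 : qq w 2 = -(1 / 2 * (Cg (w 0) * Dh (w 1) * Cg (w 2))) - r * (Cg (w 0) * Dh (w 1) * Dh (w 2))
      - 1 / 2 * (Cg (w 0) * Cg (w 1) * Dh (w 2)) - r * (Dh (w 0) * Cg (w 1) * Dh (w 2)) := rfl
  have hB : qq w 0 + qq w 1 - qq w 2 = Dh (w 0) * Cg (w 1) * Cg (w 2)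
      + 2 * r * (Dh (w 0) * Dh (w 1) * Cg (w 2)) + 3 / 2 * (Cg (w 0) * Dh (w 1) * Cg (w 2))
      + 3 / 2 * (Cg (w 0) * Cg (w 1) * Dh (w 2)) + 2 * r * (Dh (w 0) * Cg (w 1) * Dh (w 2))
      + 2 * r * (Cg (w 0) * Dh (w 1) * Dh (w 2)) := by
    rw [hq0, hq1, hq2]
    ring
  have ht0 : 0 ≤ ta w := Real.smoothTransition.nonneg _
  have ht1 : ta w ≤ 1 := Real.smoothTransition.le_one _
  have hz0 : zz w 0 = 1 - ta w + ta w * qq w 0 := rfl
  have hz1 : zz w 1 = ta w * qq w 1 := rfl
  have hz2 : zz w 2 = ta w * qq w 2 := rfl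
  have hBn : 0 ≤ qq w 0 + qq w 1 - qq w 2 := by
    rw [hB]
    have := hc 0
    have := hc 1
    have := hc 2
    have := hd 0
    have := hd 1
    have := hd 2
    positivity
  have hBz : zz w 0 + zz w 1 - zz w 2 = (1 - ta w) + ta w * (qq w 0 + qq w 1 - qq w 2) := by
    rw [hz0, hz1, hz2]
    ring
  have hpos : 0 < zz w 0 + zz w 1 - zz w 2 := by
    rw [hBz]
    rcases ht1.lt_or_eq with hlt | heq
    · have := mul_nonneg ht0 hBn
      linarith
    · rw [heq]
      have hnc : ¬ ∀ k, |w k| < 1 / 25 := by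
        intro hall
        have hsq : ∀ k, w k ^ 2 ≤ 1 / 625 := by
          intro k
          have h1 := abs_lt.1 (hall k)
          nlinarith
        have h0 : ta w = 0 := by
          unfold ta
          apply Real.smoothTransition.zero_of_nonpos
          have := hsq 0
          have := hsq 1
          have := hsq 2
          linarith
        rw [h0] at heq
        norm_num at heq
      obtain ⟨i, hi⟩ := (core_or hw).resolve_left hnc
      have hB2 : 0 < qq w 0 + qq w 1 - qq w 2 := by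
        rw [hB]
        fin_cases i
        · rcases hi with hi | hi
          · have h1 : w 1 ≤ -(1 / 50) := hi.1
            have h2 : 1 / 50 ≤ w 2 := hi.2
            rw [Cg_low_ZN h1, Dh_low_ZN h1, Cg_high_ZN h2, Dh_high_ZN h2]
            have h3 := key_ZN (Cg (w 0)) (Dh (w 0)) r (3 / 2) (hc 0) (hd 0) (hs 0) hr
              (by norm_num)
            exact lt_of_lt_of_eq h3 (by ring)
          · have h1 : 1 / 50 ≤ w 1 := hi.1
            have h2 : w 2 ≤ -(1 / 50) := hi.2
            rw [Cg_high_ZN h1, Dh_high_ZN h1, Cg_low_ZN h2, Dh_low_ZN h2]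
            have h3 := key_ZN (Cg (w 0)) (Dh (w 0)) r (3 / 2) (hc 0) (hd 0) (hs 0) hr
              (by norm_num)
            exact lt_of_lt_of_eq h3 (by ring)
        · rcases hi with hi | hi
          · have h1 : w 2 ≤ -(1 / 50) := hi.1
            have h2 : 1 / 50 ≤ w 0 := hi.2
            rw [Cg_low_ZN h1, Dh_low_ZN h1, Cg_high_ZN h2, Dh_high_ZN h2]
            have h3 := key_ZN (Cg (w 1)) (Dh (w 1)) r (1) (hc 1) (hd 1) (hs 1) hr
              (by norm_num)
            exact lt_of_lt_of_eq h3 (by ring)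
          · have h1 : 1 / 50 ≤ w 2 := hi.1
            have h2 : w 0 ≤ -(1 / 50) := hi.2
            rw [Cg_high_ZN h1, Dh_high_ZN h1, Cg_low_ZN h2, Dh_low_ZN h2]
            have h3 := key_ZN (Cg (w 1)) (Dh (w 1)) r (3 / 2) (hc 1) (hd 1) (hs 1) hr
              (by norm_num)
            exact lt_of_lt_of_eq h3 (by ring)
        · rcases hi with hi | hi
          · have h1 : w 0 ≤ -(1 / 50) := hi.1
            have h2 : 1 / 50 ≤ w 1 := hi.2
            rw [Cg_low_ZN h1, Dh_low_ZN h1, Cg_high_ZN h2, Dh_high_ZN h2]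
            have h3 := key_ZN (Cg (w 2)) (Dh (w 2)) r (3 / 2) (hc 2) (hd 2) (hs 2) hr
              (by norm_num)
            exact lt_of_lt_of_eq h3 (by ring)
          · have h1 : 1 / 50 ≤ w 0 := hi.1
            have h2 : w 1 ≤ -(1 / 50) := hi.2
            rw [Cg_high_ZN h1, Dh_high_ZN h1, Cg_low_ZN h2, Dh_low_ZN h2]
            have h3 := key_ZN (Cg (w 2)) (Dh (w 2)) r (1) (hc 2) (hd 2) (hs 2) hr
              (by norm_num)
            exact lt_of_lt_of_eq h3 (by ring)
      linarith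
  unfold zn
  have h2 : 0 < (zz w 0 + zz w 1 - zz w 2) ^ 2 := by positivity
  generalize zz w 0 = a at *
  generalize zz w 1 = b at *
  generalize zz w 2 = c at *
  generalize zz w 3 = d at *
  nlinarith [sq_nonneg (a - b), sq_nonneg (a + c), sq_nonneg (b + c), sq_nonneg d]

end Pool.Agent.Helper56.EX
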