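import Pool.Agent.Helper56.EX.M_A1
import Pool.Agent.Helper56.EX.M_A2
import Pool.Agent.Helper56.EX.M_A3
import Pool.Agent.Helper56.EX.M_A4
import Pool.Agent.Helper56.EX.M_A5
import Pool.Agent.Helper56.EX.M_D7
import Pool.Agent.Helper56.EX.M_A6
import Pool.Agent.Helper56.EX.M_ALL
import Pool.Agent.Helper56.EX.M_ALLE
import Pool.Agent.Helper56.EX.M_ALLT
import Pool.Agent.Helper56.EX.M_B1
import Pool.Agent.Helper56.EX.M_B1I
import Pool.Agent.Helper56.EX.M_B1O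
import Pool.Agent.Helper56.EX.M_B1T
import Pool.Agent.Helper56.EX.M_B2
import Pool.Agent.Helper56.EX.M_B3
import Pool.Agent.Helper56.EX.M_B4
import Pool.Agent.Helper56.EX.M_B5
import Pool.Agent.Helper56.EX.M_BA
import Pool.Agent.Helper56.EX.M_BC
import Pool.Agent.Helper56.EX.M_BD
import Pool.Agent.Helper56.EX.M_BQ
import Pool.Agent.Helper56.EX.M_BS
import Pool.Agent.Helper56.EX.M_BT
import Pool.Agent.Helper56.EX.M_CASES
import Pool.Agent.Helper56.EX.M_COLM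
import Pool.Agent.Helper56.EX.M_COLP
import Pool.Agent.Helper56.EX.M_D1
import Pool.Agent.Helper56.EX.M_D2
import Pool.Agent.Helper56.EX.M_D3
import Pool.Agent.Helper56.EX.M_D4
import Pool.Agent.Helper56.EX.M_D5
import Pool.Agent.Helper56.EX.M_D6
import Pool.Agent.Helper56.EX.M_DN
import Pool.Agent.Helper56.EX.M_E1
import Pool.Agent.Helper56.EX.M_E2
import Pool.Agent.Helper56.EX.M_E3
import Pool.Agent.Helper56.EX.M_E4
import Pool.Agent.Helper56.EX.M_E5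
import Pool.Agent.Helper56.EX.M_E6
import Pool.Agent.Helper56.EX.M_E7
import Pool.Agent.Helper56.EX.M_EVEN
import Pool.Agent.Helper56.EX.M_FIN
import Pool.Agent.Helper56.EX.M_FSM
import Pool.Agent.Helper56.EX.M_HH
import Pool.Agent.Helper56.EX.M_IDEM
import Pool.Agent.Helper56.EX.M_IN
import Pool.Agent.Helper56.EX.M_LAT
import Pool.Agent.Helper56.EX.M_MIR
import Pool.Agent.Helper56.EX.M_MIRB
import Pool.Agent.Helper56.EX.M_NEAR
import Pool.Agent.Helper56.EX.M_OUT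
import Pool.Agent.Helper56.EX.M_OUTB
import Pool.Agent.Helper56.EX.M_PHYS
import Pool.Agent.Helper56.EX.M_RAWM
import Pool.Agent.Helper56.EX.M_RAWP
import Pool.Agent.Helper56.EX.M_ROT
import Pool.Agent.Helper56.EX.M_SM
import Pool.Agent.Helper56.EX.M_SMA
import Pool.Agent.Helper56.EX.M_STRIP
import Pool.Agent.Helper56.EX.M_STRIPB
import Pool.Agent.Helper56.EX.M_SUM
import Pool.Agent.Helper56.EX.M_VX
import Pool.Agent.Helper56.EX.M_ZN
import Pool.Agent.Helper56.EX.Values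

namespace Pool.Agent.Helper56.EX

theorem f_Outb : StOut' := m_OUTB (m_OUT m_HH)
theorem f_MirBlk : StMirBlk := m_MIRB (m_MIR m_EVEN)
theorem f_BT : StBT := m_BT (m_VX m_HH) (m_OUT m_HH)
theorem f_BS : StBS := m_BS m_HH (m_OUT m_HH) (m_STRIP m_HH) (m_STRIPB m_HH m_EVEN (m_STRIP m_HH))
theorem f_BA : StBA := m_BA f_Outb
theorem f_BQ : StBQ := m_BQ f_Outb
theorem f_BD : StBD := m_BD f_Outb
theorem f_B1i : StB1i := m_B1I (m_IN m_HH) (m_OUT m_HH)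
theorem f_Allt : StAllt := m_ALLT f_BT f_BA f_BQ m_BC f_BD m_B1T f_MirBlk
theorem f_Alle : StAlle := m_ALLE m_CASES f_BT f_BA f_BQ f_BD f_B1i (m_B1O f_Outb) f_BS f_MirBlk
theorem f_All : StAll := m_ALL f_Allt f_Alle f_MirBlk
theorem f_RawP : StRawP := m_RAWP f_Outb (m_OUT m_HH)
theorem f_Phys : StPhys := m_PHYS m_LAT (m_SUM f_All) (m_IDEM f_All m_LAT) (m_SM (m_SMA m_DN))
  (m_NEAR f_B1i (m_OUT m_HH)) (m_ROT m_ZN) (m_FSM m_ZN) m_FIN f_RawP (m_RAWM (m_MIR m_EVEN) f_RawP)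
  m_COLP m_COLM
theorem f_A2 : StA2 := m_A2 m_A1
theorem f_A3 : StA3 := m_A3 m_A1 f_A2
theorem f_A4 : StA4 := m_A4 m_A1 f_A2
theorem f_A6 : StA6 := m_A6 m_A1 f_A2
theorem f_B5 : StB5 := m_B5 (m_B2 m_B1) m_B3 m_B4
theorem f_D6 : StD6 := m_D6 m_D3 (m_D5 f_A3)
theorem f_A5 : StA5 := m_A5 m_A1 f_A2 f_A4
theorem f_D7 : StD7 := m_D7 f_B5 f_A3 (m_D1 f_A3 f_A5) m_D2 m_D3 (m_D4 f_A6) f_D6
theorem f_E5 : StE5 := m_E5 m_E1 (m_E2 m_E1) (m_E3 m_E1) (m_E4 m_E1) f_Phys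

/-- There is a Schwartz wavelet for a matrix without a rational power. -/
theorem f_E7 : StE7 := m_E7 m_E1 f_E5 (m_E6 m_E1) f_D7

end Pool.Agent.Helper56.EX
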