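import Pool.Agent.Helper56.EX.Defs

/-!
# Project EX: basic facts on the profile functions
-/

set_option autoImplicit false

open Matrix
open scoped ContDiff

noncomputable section

namespace Pool.Agent.Helper56.EX

lemma st_one_sub (x : ℝ) : Real.smoothTransition (1 - x) = 1 - Real.smoothTransition x := by
  unfold Real.smoothTransition
  have h := Real.smoothTransition.pos_denom x
  have h' := Real.smoothTransition.pos_denom (1 - x)
  have e : 1 - (1 - x) = x := by ring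
  rw [e] at h' ⊢
  rw [eq_sub_iff_add_eq]
  rw [add_comm (expNegInvGlue (1 - x)) (expNegInvGlue x)] at h' ⊢
  rw [← add_div]
  rw [add_comm (expNegInvGlue (1 - x)) (expNegInvGlue x)]
  exact div_self h.ne'

lemma th_neg (w : ℝ) : th (-w) = Real.pi / 2 - th w := by
  unfold th
  have : (1 : ℝ) / 2 + 25 * (-w) = 1 - (1 / 2 + 25 * w) := by ring
  rw [this, st_one_sub]
  ring

lemma th_low {w : ℝ} (h : w ≤ -(1 / 50)) : th w = 0 := by
  unfold th
  rw [Real.smoothTransition.zero_of_nonpos (by linarith), mul_zero]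

lemma th_high {w : ℝ} (h : 1 / 50 ≤ w) : th w = Real.pi / 2 := by
  unfold th
  rw [Real.smoothTransition.one_of_one_le (by linarith), mul_one]

lemma th_nonneg (w : ℝ) : 0 ≤ th w :=
  mul_nonneg (by positivity) (Real.smoothTransition.nonneg _)

lemma th_le (w : ℝ) : th w ≤ Real.pi / 2 := by
  unfold th
  have h := Real.smoothTransition.le_one (1 / 2 + 25 * w)
  have hp := Real.pi_pos
  nlinarith

lemma th_pos {w : ℝ} (h : -(1 / 50) < w) : 0 < th w :=
  mul_pos (by positivity) (Real.smoothTransition.pos_of_pos (by linarith))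

lemma th_lt {w : ℝ} (h : w < 1 / 50) : th w < Real.pi / 2 := by
  have := th_pos (w := -w) (by linarith)
  rw [th_neg] at this
  linarith

lemma th_smooth : ContDiff ℝ ∞ th := by
  unfold th
  exact contDiff_const.mul (Real.smoothTransition.contDiff.comp (by fun_prop))

lemma Nn_low {w : ℝ} (h : w ≤ -(1 / 50)) : Nn w = 1 := by unfold Nn; rw [th_low h, Real.cos_zero]

lemma Pp_low {w : ℝ} (h : w ≤ -(1 / 50)) : Pp w = 0 := by unfold Pp; rw [th_low h, Real.sin_zero]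

lemma Nn_high {w : ℝ} (h : 1 / 50 ≤ w) : Nn w = 0 := by
  unfold Nn; rw [th_high h, Real.cos_pi_div_two]

lemma Pp_high {w : ℝ} (h : 1 / 50 ≤ w) : Pp w = 1 := by
  unfold Pp; rw [th_high h, Real.sin_pi_div_two]

lemma Nn_neg (w : ℝ) : Nn (-w) = Pp w := by
  unfold Nn Pp; rw [th_neg, Real.cos_pi_div_two_sub]

lemma Pp_neg (w : ℝ) : Pp (-w) = Nn w := by
  unfold Nn Pp; rw [th_neg, Real.sin_pi_div_two_sub]

lemma Nn_sq_add (w : ℝ) : Nn w ^ 2 + Pp w ^ 2 = 1 := Real.cos_sq_add_sin_sq _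

lemma Nn_nonneg (w : ℝ) : 0 ≤ Nn w :=
  Real.cos_nonneg_of_neg_pi_div_two_le_of_le (by linarith [th_nonneg w, Real.pi_pos]) (th_le w)

lemma Pp_nonneg (w : ℝ) : 0 ≤ Pp w := by rw [← Nn_neg]; exact Nn_nonneg _

lemma Nn_pos {w : ℝ} (h : w < 1 / 50) : 0 < Nn w :=
  Real.cos_pos_of_mem_Ioo ⟨by linarith [th_nonneg w, Real.pi_pos], th_lt h⟩

lemma Pp_pos {w : ℝ} (h : -(1 / 50) < w) : 0 < Pp w := by
  rw [← Nn_neg]; exact Nn_pos (by linarith)

lemma Nn_ne {w : ℝ} (h : Nn w ≠ 0) : w < 1 / 50 := by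
  by_contra h'
  exact h (Nn_high (not_lt.mp h'))

lemma Pp_ne {w : ℝ} (h : Pp w ≠ 0) : -(1 / 50) < w := by
  by_contra h'
  exact h (Pp_low (not_lt.mp h'))

lemma Nn_smooth : ContDiff ℝ ∞ Nn := Real.contDiff_cos.comp th_smooth

lemma Pp_smooth : ContDiff ℝ ∞ Pp := Real.contDiff_sin.comp th_smooth

lemma mu_low {x : ℝ} (h : x ≤ 1 / 3) : mu x = 0 := by
  unfold mu
  rw [Real.smoothTransition.zero_of_nonpos (by linarith), mul_zero]

lemma mu_high {x : ℝ} (h : 1 / 2 ≤ x) : mu x = Real.pi / 2 := by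
  unfold mu
  rw [Real.smoothTransition.one_of_one_le (by linarith), mul_one]

lemma nu_low {x : ℝ} (h : x ≤ 1 / 2) : nu x = 0 := by
  unfold nu
  rw [Real.smoothTransition.zero_of_nonpos (by linarith), mul_zero]

lemma nu_high {x : ℝ} (h : 2 / 3 ≤ x) : nu x = Real.pi / 2 := by
  unfold nu
  rw [Real.smoothTransition.one_of_one_le (by linarith), mul_one]

lemma mu_one_sub (x : ℝ) : mu (1 - x) = Real.pi / 2 - nu x := by
  unfold mu nu
  have : 6 * (1 - x) - 2 = 1 - (6 * x - 3) := by ring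
  rw [this, st_one_sub]
  ring

lemma sin_mu_one_sub (x : ℝ) : Real.sin (mu (1 - x)) = Real.cos (nu x) := by
  rw [mu_one_sub, Real.sin_pi_div_two_sub]

lemma cos_mu_one_sub (x : ℝ) : Real.cos (mu (1 - x)) = Real.sin (nu x) := by
  rw [mu_one_sub, Real.cos_pi_div_two_sub]

lemma mu_smooth : ContDiff ℝ ∞ mu := by
  unfold mu
  exact contDiff_const.mul (Real.smoothTransition.contDiff.comp (by fun_prop))

lemma nu_smooth : ContDiff ℝ ∞ nu := by
  unfold nu
  exact contDiff_const.mul (Real.smoothTransition.contDiff.comp (by fun_prop))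

/-! ### the link functions -/

lemma fA_low {x : ℝ} (h : x ≤ 1 / 3) : fA x = 1 := by simp [fA, mu_low h]
lemma fA_high {x : ℝ} (h : 1 / 2 ≤ x) : fA x = 0 := by simp [fA, mu_high h]
lemma fB_low {g x : ℝ} (h : x ≤ 1 / 3) : fB g x = 0 := by simp [fB, mu_low h]
lemma fB_high {g x : ℝ} (h : 2 / 3 ≤ x) : fB g x = 0 := by simp [fB, nu_high h]
lemma fB_mid1 {g x : ℝ} (h : x ≤ 1 / 2) : fB g x = -g * Real.sin (mu x) := by simp [fB, nu_low h]
lemma fB_mid2 {g x : ℝ} (h : 1 / 2 ≤ x) : fB g x = -g * Real.cos (nu x) := by simp [fB, mu_high h]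
lemma fC_low {x : ℝ} (h : x ≤ 1 / 2) : fC x = 0 := by simp [fC, nu_low h]
lemma fC_high {x : ℝ} (h : 3 / 2 ≤ x) : fC x = 0 := by
  simp [fC, mu_high (show 1 / 2 ≤ x - 1 by linarith)]
lemma fC_mid {x : ℝ} (h : 2 / 3 ≤ x) (h' : x ≤ 4 / 3) : fC x = 1 := by
  simp [fC, nu_high h, mu_low (show x - 1 ≤ 1 / 3 by linarith)]
lemma fC_mid1 {x : ℝ} (h : x ≤ 4 / 3) : fC x = Real.sin (nu x) := by
  simp [fC, mu_low (show x - 1 ≤ 1 / 3 by linarith)]
lemma fC_mid2 {x : ℝ} (h : 2 / 3 ≤ x) : fC x = Real.cos (mu (x - 1)) := by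
  simp [fC, nu_high h]
lemma fD_low {g x : ℝ} (h : x ≤ 4 / 3) : fD g x = 0 := by
  simp [fD, mu_low (show x - 1 ≤ 1 / 3 by linarith)]
lemma fD_high {g x : ℝ} (h : 3 / 2 ≤ x) : fD g x = g := by
  simp [fD, mu_high (show 1 / 2 ≤ x - 1 by linarith)]

/-! ### cyclic indices -/

lemma c11 (i : Fin 3) : i + 1 + 1 = i + 2 := by fin_cases i <;> rfl
lemma c12 (i : Fin 3) : i + 1 + 2 = i := by fin_cases i <;> rfl
lemma c21 (i : Fin 3) : i + 2 + 1 = i := by fin_cases i <;> rfl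
lemma c22 (i : Fin 3) : i + 2 + 2 = i + 1 := by fin_cases i <;> rfl
lemma ne1 (i : Fin 3) : i + 1 ≠ i := by fin_cases i <;> decide
lemma ne2 (i : Fin 3) : i + 2 ≠ i := by fin_cases i <;> decide
lemma ne12 (i : Fin 3) : i + 1 ≠ i + 2 := by fin_cases i <;> decide

lemma cyc_cases (i j : Fin 3) : j = i ∨ j = i + 1 ∨ j = i + 2 := by
  fin_cases i <;> fin_cases j <;> decide

lemma sum3 (i : Fin 3) (f : Fin 3 → ℝ) : ∑ k, f k = f i + f (i + 1) + f (i + 2) := by
  fin_cases i <;> simp [Fin.sum_univ_three] <;> ring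

lemma Pl_cyc {w : W3} (h : Pl w) (i : Fin 3) : w i + w (i + 1) + w (i + 2) = 0 := by
  unfold Pl at h
  fin_cases i <;> simp <;> linarith

lemma Pl_neg {w : W3} (h : Pl w) : Pl (-w) := by unfold Pl at *; simp; linarith
lemma Pl_add {w v : W3} (h : Pl w) (h' : Pl v) : Pl (w + v) := by unfold Pl at *; simp; linarith
lemma Pl_sub {w v : W3} (h : Pl w) (h' : Pl v) : Pl (w - v) := by unfold Pl at *; simp; linarith

lemma Pl_uu (ℓ : Fin 3 → ℝ) (n : Z3) : Pl (uu ℓ n) := by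
  unfold Pl uu
  have h1 : (0 : Fin 3) + 1 = 1 := rfl
  have h2 : (0 : Fin 3) + 2 = 2 := rfl
  have h3 : (1 : Fin 3) + 1 = 2 := rfl
  have h4 : (1 : Fin 3) + 2 = 0 := rfl
  have h5 : (2 : Fin 3) + 1 = 0 := rfl
  have h6 : (2 : Fin 3) + 2 = 1 := rfl
  simp only [h1, h2, h3, h4, h5, h6]
  ring

lemma uu_add (ℓ : Fin 3 → ℝ) (m n : Z3) : uu ℓ (m + n) = uu ℓ m + uu ℓ n := by
  ext k; simp [uu]; ring

lemma uu_neg (ℓ : Fin 3 → ℝ) (n : Z3) : uu ℓ (-n) = -uu ℓ n := by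
  ext k; simp [uu]; ring

lemma uu_sub (ℓ : Fin 3 → ℝ) (m n : Z3) : uu ℓ (m - n) = uu ℓ m - uu ℓ n := by
  ext k; simp [uu]; ring

lemma uu_zero (ℓ : Fin 3 → ℝ) : uu ℓ 0 = 0 := by
  ext k; simp [uu]

lemma uu_self (ℓ : Fin 3 → ℝ) (i : Fin 3) : uu ℓ (Ee i) i = 0 := by
  unfold uu Ee
  rw [Pi.single_eq_of_ne (ne1 i), Pi.single_eq_of_ne (ne2 i)]
  simp

lemma uu_one (ℓ : Fin 3 → ℝ) (i : Fin 3) : uu ℓ (Ee i) (i + 1) = -ℓ i := by
  unfold uu Ee
  rw [c11, c12, Pi.single_eq_of_ne (ne2 i), Pi.single_eq_same]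
  simp

lemma uu_two (ℓ : Fin 3 → ℝ) (i : Fin 3) : uu ℓ (Ee i) (i + 2) = ℓ i := by
  unfold uu Ee
  rw [c21, c22, Pi.single_eq_of_ne (ne1 i), Pi.single_eq_same]
  simp

/-! ### the node vector -/

/-- Far from the node and near the ray of `u_i` (or in an adjacent sector). -/
def Rp (i : Fin 3) (y : W3) : Prop := y (i + 1) ≤ -(1 / 50) ∧ 1 / 50 ≤ y (i + 2)

/-- Far from the node and near the ray of `-u_i` (or in an adjacent sector). -/
def Rm (i : Fin 3) (y : W3) : Prop := 1 / 50 ≤ y (i + 1) ∧ y (i + 2) ≤ -(1 / 50)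

lemma Rp_neg {i : Fin 3} {y : W3} : Rp i (-y) ↔ Rm i y := by
  unfold Rp Rm
  simp only [Pi.neg_apply]
  constructor <;> rintro ⟨h1, h2⟩ <;> constructor <;> linarith

lemma Rm_neg {i : Fin 3} {y : W3} : Rm i (-y) ↔ Rp i y := by
  rw [← Rp_neg, neg_neg]

lemma mm_Rp {i : Fin 3} {y : W3} (h : Rp i y) :
    mm i y = 0 ∧ mm (i + 1) y = Nn (y i) ∧ mm (i + 2) y = Pp (y i) := by
  unfold mm
  rw [c11, c12, c21, c22, Pp_low h.1, Nn_low h.1, Pp_high h.2]
  simp

lemma mm_Rm {i : Fin 3} {y : W3} (h : Rm i y) :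
    mm i y = 1 ∧ mm (i + 1) y = 0 ∧ mm (i + 2) y = 0 := by
  unfold mm
  rw [c11, c12, c21, c22, Pp_high h.1, Nn_high h.1, Pp_low h.2, Nn_low h.2]
  simp

lemma md_Rp {i : Fin 3} {y : W3} (h : Rp i y) : md y = 1 := by
  obtain ⟨h1, h2, h3⟩ := mm_Rp h
  unfold md
  rw [sum3 i, h1, h2, h3]
  rw [show (0 : ℝ) ^ 2 + Nn (y i) ^ 2 + Pp (y i) ^ 2 = 1 by linarith [Nn_sq_add (y i)]]
  exact Real.sqrt_one

lemma md_Rm {i : Fin 3} {y : W3} (h : Rm i y) : md y = 1 := by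
  obtain ⟨h1, h2, h3⟩ := mm_Rm h
  unfold md
  rw [sum3 i, h1, h2, h3]
  norm_num

lemma pp_Rp {i : Fin 3} {y : W3} (h : Rp i y) :
    pp i y = 0 ∧ pp (i + 1) y = Nn (y i) ∧ pp (i + 2) y = Pp (y i) := by
  unfold pp
  rw [md_Rp h]
  simpa using mm_Rp h

lemma pp_Rm {i : Fin 3} {y : W3} (h : Rm i y) :
    pp i y = 1 ∧ pp (i + 1) y = 0 ∧ pp (i + 2) y = 0 := by
  unfold pp
  rw [md_Rm h]
  simpa using mm_Rm h

/-- Either all coordinates are small or we are far from the node. -/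
lemma core_or {y : W3} (hy : Pl y) : (∀ k, |y k| < 1 / 25) ∨ ∃ i, Rp i y ∨ Rm i y := by
  by_cases h : ∃ i : Fin 3, (1 / 50 ≤ |y (i + 1)| ∧ 1 / 50 ≤ |y (i + 2)|)
  · right
    obtain ⟨i, h1, h2⟩ := h
    have hs := Pl_cyc hy i
    rcases le_or_gt 0 (y (i + 1)) with a | a <;> rcases le_or_gt 0 (y (i + 2)) with b | b
    · rw [abs_of_nonneg a] at h1
      rw [abs_of_nonneg b] at h2
      refine ⟨i + 2, Or.inl ⟨?_, ?_⟩⟩
      · rw [c21]; linarith
      · rw [c22]; exact h1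
    · rw [abs_of_nonneg a] at h1
      rw [abs_of_neg b] at h2
      exact ⟨i, Or.inr ⟨h1, by linarith⟩⟩
    · rw [abs_of_neg a] at h1
      rw [abs_of_nonneg b] at h2
      exact ⟨i, Or.inl ⟨by linarith, h2⟩⟩
    · rw [abs_of_neg a] at h1
      rw [abs_of_neg b] at h2
      refine ⟨i + 2, Or.inr ⟨?_, ?_⟩⟩
      · rw [c21]; linarith
      · rw [c22]; linarith
  · left
    push Not at h
    intro k
    have hs := Pl_cyc hy k
    by_cases hk : |y k| < 1 / 50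
    · linarith
    · push Not at hk
      have h1 : |y (k + 1)| < 1 / 50 := by
        have := h (k + 2)
        rw [c21, c22] at this
        exact this hk
      have h2 : |y (k + 2)| < 1 / 50 := by
        by_contra hc
        push Not at hc
        have := h (k + 1)
        rw [c11, c12] at this
        exact absurd (this hc) (not_lt.mpr hk)
      rw [abs_lt] at h1 h2 ⊢
      constructor <;> linarith [h1.1, h1.2, h2.1, h2.2]

lemma not_core {y : W3} {k : Fin 3} (hk : 1 / 25 ≤ |y k|) : ¬ ∀ k, |y k| < 1 / 25 :=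
  fun h => absurd (h k) (not_lt.mpr hk)

/-- All cases far from the node, relative to a given index `i`. -/
lemma far_cases {y : W3} (h : ∃ i, Rp i y ∨ Rm i y) (i : Fin 3) :
    Rp i y ∨ Rm i y ∨ Rp (i + 1) y ∨ Rm (i + 1) y ∨ Rp (i + 2) y ∨ Rm (i + 2) y := by
  obtain ⟨j, hj⟩ := h
  rcases cyc_cases i j with rfl | rfl | rfl
  · rcases hj with hj | hj <;> simp [hj]
  · rcases hj with hj | hj <;> simp [hj]
  · rcases hj with hj | hj <;> simp [hj]

lemma mm_sum_pos {y : W3} (hy : Pl y) : 0 < ∑ k, mm k y ^ 2 := by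
  by_contra hc
  have h0 : ∑ k, mm k y ^ 2 = 0 :=
    le_antisymm (not_lt.mp hc) (Finset.sum_nonneg fun k _ => sq_nonneg _)
  have h1 : ∀ k, mm k y = 0 := by
    intro k
    have := (Finset.sum_eq_zero_iff_of_nonneg (fun k _ => sq_nonneg (mm k y))).mp h0 k
      (Finset.mem_univ _)
    exact pow_eq_zero_iff (two_ne_zero) |>.mp this
  rcases core_or hy with hcore | ⟨i, hi | hi⟩
  · -- in the core: some k has y (k+1) > -1/50 and y (k+2) < 1/50
    have hz : ∀ k, y (k + 1) ≤ -(1 / 50) ∨ 1 / 50 ≤ y (k + 2) := by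
      intro k
      by_contra hk
      push Not at hk
      have := mul_pos (Pp_pos hk.1) (Nn_pos hk.2)
      have h2 := h1 k
      unfold mm at h2
      linarith
    have z0 := hz 0
    have z1 := hz 1
    have z2 := hz 2
    have e1 : (0 : Fin 3) + 1 = 1 := rfl
    have e2 : (0 : Fin 3) + 2 = 2 := rfl
    have e3 : (1 : Fin 3) + 1 = 2 := rfl
    have e4 : (1 : Fin 3) + 2 = 0 := rfl
    have e5 : (2 : Fin 3) + 1 = 0 := rfl
    have e6 : (2 : Fin 3) + 2 = 1 := rfl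
    rw [e1, e2] at z0
    rw [e3, e4] at z1
    rw [e5, e6] at z2
    unfold Pl at hy
    rcases z0 with z0 | z0 <;> rcases z1 with z1 | z1 <;> rcases z2 with z2 | z2 <;> linarith
  · have := md_Rp hi
    unfold md at this
    rw [h0, Real.sqrt_zero] at this
    norm_num at this
  · have := md_Rm hi
    unfold md at this
    rw [h0, Real.sqrt_zero] at this
    norm_num at this

lemma md_pos {y : W3} (hy : Pl y) : 0 < md y := Real.sqrt_pos.mpr (mm_sum_pos hy)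

lemma pp_sq_sum {y : W3} (hy : Pl y) : pp 0 y ^ 2 + pp 1 y ^ 2 + pp 2 y ^ 2 = 1 := by
  have h := md_pos hy
  have h2 : md y ^ 2 = mm 0 y ^ 2 + mm 1 y ^ 2 + mm 2 y ^ 2 := by
    unfold md
    rw [Real.sq_sqrt (mm_sum_pos hy).le, Fin.sum_univ_three]
  unfold pp
  simp only [div_pow]
  rw [← add_div, ← add_div, ← h2]
  exact div_self (pow_ne_zero 2 h.ne')

lemma pp_nonneg (k : Fin 3) (y : W3) : 0 ≤ pp k y :=
  div_nonneg (mul_nonneg (Pp_nonneg _) (Nn_nonneg _)) (Real.sqrt_nonneg _)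

/-- Where `si` is not zero. -/
lemma si_ne {i : Fin 3} {w : W3} (h : si i w ≠ 0) :
    |w i| < 1 / 50 ∧ w (i + 1) < 1 / 50 ∧ -(1 / 50) < w (i + 2) := by
  unfold si pp at h
  have h1 : mm (i + 1) w ≠ 0 := by
    intro h0; rw [h0] at h; simp at h
  have h2 : mm (i + 2) w ≠ 0 := by
    intro h0; rw [h0] at h; simp at h
  unfold mm at h1 h2
  rw [c11, c12] at h1
  rw [c21, c22] at h2
  have a1 := Pp_ne (left_ne_zero_of_mul h1)
  have a2 := Nn_ne (right_ne_zero_of_mul h1)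
  have a3 := Pp_ne (left_ne_zero_of_mul h2)
  have a4 := Nn_ne (right_ne_zero_of_mul h2)
  exact ⟨abs_lt.mpr ⟨a3, a2⟩, a4, a1⟩

lemma si_Rp {i : Fin 3} {w : W3} (h : Rp i w) : si i w = Nn (w i) * Pp (w i) := by
  obtain ⟨_, h2, h3⟩ := pp_Rp h
  unfold si
  rw [h2, h3]

/-! ### corrections vanish away from the node -/

lemma Cc_far {i : Fin 3} {y : W3} (h : ∃ i, Rp i y ∨ Rm i y) : Cc i y = 0 := by
  unfold Cc
  rcases far_cases h i with h | h | h | h | h | h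
  · obtain ⟨h1, h2, h3⟩ := pp_Rp h
    rw [h1, h3]; ring
  · obtain ⟨h1, h2, h3⟩ := pp_Rm h
    rw [h1, h3]; ring
  · obtain ⟨h1, h2, h3⟩ := pp_Rp h
    rw [c11] at h2
    rw [c12] at h3
    unfold Rp at h
    rw [c11, c12] at h
    rw [h2, h3, Pp_high h.2]
    have := Nn_sq_add (y (i + 1))
    linear_combination this
  · obtain ⟨h1, h2, h3⟩ := pp_Rm h
    rw [c11] at h2
    rw [c12] at h3
    unfold Rm at h
    rw [c11, c12] at h
    rw [h2, h3, Pp_low h.2]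
    ring
  · obtain ⟨h1, h2, h3⟩ := pp_Rp h
    rw [c21] at h2
    unfold Rp at h
    rw [c21, c22] at h
    rw [h1, Pp_low h.1]
    ring
  · obtain ⟨h1, h2, h3⟩ := pp_Rm h
    rw [c21] at h2
    unfold Rm at h
    rw [c21, c22] at h
    rw [h1, h2, Pp_high h.1]
    ring

lemma Cd_far {i : Fin 3} {y : W3} (h : ∃ i, Rp i y ∨ Rm i y) : Cd i y = 0 := by
  unfold Cd
  rcases far_cases h i with h | h | h | h | h | h
  · obtain ⟨h1, h2, h3⟩ := pp_Rp h
    rw [h1, h2]; ring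
  · obtain ⟨h1, h2, h3⟩ := pp_Rm h
    rw [h1, h2]; ring
  · obtain ⟨h1, h2, h3⟩ := pp_Rp h
    rw [c12] at h3
    unfold Rp at h
    rw [c11, c12] at h
    rw [h1, Nn_high h.2]
    ring
  · obtain ⟨h1, h2, h3⟩ := pp_Rm h
    rw [c12] at h3
    unfold Rm at h
    rw [c11, c12] at h
    rw [h1, h3, Nn_low h.2]
    ring
  · obtain ⟨h1, h2, h3⟩ := pp_Rp h
    rw [c21] at h2
    rw [c22] at h3
    unfold Rp at h
    rw [c21, c22] at h
    rw [h2, h3, Nn_low h.1]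
    have := Nn_sq_add (y (i + 2))
    linear_combination this
  · obtain ⟨h1, h2, h3⟩ := pp_Rm h
    rw [c21] at h2
    rw [c22] at h3
    unfold Rm at h
    rw [c21, c22] at h
    rw [h2, h3, Nn_high h.1]
    ring

end Pool.Agent.Helper56.EX
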