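import Mathlib

/-!
# Project EX: planar pattern on three sheets (definitions)

`W3` is `ℝ³`; all points `w` that matter satisfy `w 0 + w 1 + w 2 = 0` (the plane).  Indices in
`Fin 3` are cyclic.  Sheets: `0 = e`, `1 = s`, `2 = t`.  Colours: `0` and `k.succ`, `k : Fin 3`.
-/

set_option autoImplicit false

open Matrix
open scoped ContDiff

noncomputable section

namespace Pool.Agent.Helper56.EX

/-- The angle: `0` for `w ≤ -1/50`, `π/2` for `w ≥ 1/50`. -/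
def th (w : ℝ) : ℝ := Real.pi / 2 * Real.smoothTransition (1 / 2 + 25 * w)

/-- `1` for `w ≤ -1/50`, `0` for `w ≥ 1/50`. -/
def Nn (w : ℝ) : ℝ := Real.cos (th w)

/-- `0` for `w ≤ -1/50`, `1` for `w ≥ 1/50`. -/
def Pp (w : ℝ) : ℝ := Real.sin (th w)

/-- `0` for `x ≤ 1/3`, `π/2` for `x ≥ 1/2`. -/
def mu (x : ℝ) : ℝ := Real.pi / 2 * Real.smoothTransition (6 * x - 2)

/-- `0` for `x ≤ 1/2`, `π/2` for `x ≥ 2/3`. -/
def nu (x : ℝ) : ℝ := Real.pi / 2 * Real.smoothTransition (6 * x - 3)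

/-- `ℝ³`. -/
abbrev W3 := Fin 3 → ℝ

/-- `ℤ³`. -/
abbrev Z3 := Fin 3 → ℤ

/-- The plane `w 0 + w 1 + w 2 = 0`. -/
def Pl (w : W3) : Prop := w 0 + w 1 + w 2 = 0

/-- Unnormalized node vector. -/
def mm (k : Fin 3) (w : W3) : ℝ := Pp (w (k + 1)) * Nn (w (k + 2))

/-- Its length. -/
def md (w : W3) : ℝ := Real.sqrt (∑ k, mm k w ^ 2)

/-- The node vector (a unit vector if `Pl w`). -/
def pp (k : Fin 3) (w : W3) : ℝ := mm k w / md w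

/-- `Σ_i n_i u_i` with `u_i = ℓ_i υ_i`, `υ_i (i+1) = -1`, `υ_i (i+2) = 1`. -/
def uu (ℓ : Fin 3 → ℝ) (n : Z3) : W3 := fun k => n (k + 1) * ℓ (k + 1) - n (k + 2) * ℓ (k + 2)

/-- The unit vectors of `ℤ³`. -/
def Ee (i : Fin 3) : Z3 := Pi.single i 1

/-- Coordinate along line `i` (`u_i` has coordinate `1`). -/
def XX (ℓ : Fin 3 → ℝ) (i : Fin 3) (w : W3) : ℝ := (w (i + 2) - w (i + 1)) / (2 * ℓ i)

/-- Position of the boundary `w_k = HH` of the tile; between `ℓ (k+1)` and `ℓ (k+2)`. -/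
def HH (ℓ : Fin 3 → ℝ) (k : Fin 3) (s : ℝ) : ℝ :=
  ℓ (k + 1) + (ℓ (k + 2) - ℓ (k + 1)) *
    Real.smoothTransition (1 / 2 + s - (ℓ (k + 2) - ℓ (k + 1)) / 2)

/-- Unnormalized window of the tile. -/
def wt (ℓ : Fin 3 → ℝ) (w : W3) : ℝ :=
  ∏ k, (Nn (w k - HH ℓ k (w (k + 2) - w (k + 1))) * Nn (-w k - HH ℓ k (w (k + 1) - w (k + 2))))

/-- Normalization of the window (differs from `1` only near the six corners `± u_i`). -/
def dn (ℓ : Fin 3 → ℝ) (w : W3) : ℝ :=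
  1 + ∑ i, ((md (w - uu ℓ (Ee i)) - 1) + (md (-w - uu ℓ (Ee i)) - 1))

/-- Window of the tile. -/
def gg (ℓ : Fin 3 → ℝ) (w : W3) : ℝ := wt ℓ w / dn ℓ w

/-- `1` where the sign of `w k` differs from the two other signs. -/
def AA (k : Fin 3) (w : W3) : ℝ :=
  Pp (w k) * Nn (w (k + 1)) * Nn (w (k + 2)) + Nn (w k) * Pp (w (k + 1)) * Pp (w (k + 2))

/-- Correction at a corner of type `i` for colour `i+1`. -/
def Cc (i : Fin 3) (y : W3) : ℝ := pp (i + 2) y ^ 2 - (1 - pp i y ^ 2) * Pp (y i) ^ 2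

/-- Correction at a corner of type `i` for colour `i+2`. -/
def Cd (i : Fin 3) (y : W3) : ℝ := pp (i + 1) y ^ 2 - (1 - pp i y ^ 2) * Nn (y i) ^ 2

/-- Density of colour `k.succ` on the sheet `e`. -/
def EE (ℓ : Fin 3 → ℝ) (k : Fin 3) (w : W3) : ℝ :=
  (1 - gg ℓ w ^ 2) * AA k w ^ 2
    + (Cc (k + 2) (w - uu ℓ (Ee (k + 2))) + Cc (k + 2) (-w - uu ℓ (Ee (k + 2))))
    + (Cd (k + 1) (w - uu ℓ (Ee (k + 1))) + Cd (k + 1) (-w - uu ℓ (Ee (k + 1))))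

/-- Sign of line `i` in colour `c`. -/
def sg (c : Fin 4) (i : Fin 3) : ℝ :=
  if c = (i + 1).succ then 1 else if c = (i + 2).succ then -1 else 0

/-- Lives near the ray of `u_i`. -/
def si (i : Fin 3) (w : W3) : ℝ := pp (i + 1) w * pp (i + 2) w

/-- `t@X → e@X+1`. -/
def fA (x : ℝ) : ℝ := Real.cos (mu x)

/-- `t@X → s@X-1`. -/
def fB (g x : ℝ) : ℝ := -g * Real.sin (mu x) * Real.cos (nu x)

/-- `t@X → s@X-2`. -/
def fC (x : ℝ) : ℝ := Real.sin (nu x) * Real.cos (mu (x - 1))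

/-- `t@X → e@X`. -/
def fD (g x : ℝ) : ℝ := g * Real.sin (mu (x - 1))

/-- Links of line `i` starting in the sheets `t` and `s`. -/
def LL (ℓ γ : Fin 3 → ℝ) (i : Fin 3) (w : W3) (n : Z3) : Matrix (Fin 3) (Fin 3) ℝ :=
  Matrix.of fun a b =>
    (if a = 2 ∧ b = 0 ∧ n = Ee i then si i w * fA (XX ℓ i w) else 0) +
    (if a = 2 ∧ b = 0 ∧ n = 0 then si i w * fD (γ i) (XX ℓ i w) else 0) +
    (if a = 2 ∧ b = 1 ∧ n = -Ee i then si i w * fB (γ i) (XX ℓ i w) else 0) +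
    (if a = 2 ∧ b = 1 ∧ n = -(Ee i + Ee i) then si i w * fC (XX ℓ i w) else 0) +
    (if a = 1 ∧ b = 0 ∧ n = -Ee i then si i (-w) * fA (XX ℓ i (-w)) else 0) +
    (if a = 1 ∧ b = 0 ∧ n = 0 then si i (-w) * fD (γ i) (XX ℓ i (-w)) else 0)

/-- Diagonal densities on the sheets `e, s, t`. -/
def Dg (ℓ : Fin 3 → ℝ) (c : Fin 4) (w : W3) : Fin 3 → ℝ :=
  Fin.cases ![gg ℓ w ^ 2, 0, 0] (fun k => ![EE ℓ k w, pp k (-w) ^ 2, pp k w ^ 2]) c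

/-- Coefficient of the tile links. -/
def tc (c : Fin 4) (n : Z3) : ℝ :=
  Fin.cases (if ∃ i j : Fin 3, i ≠ j ∧ n = Ee i - Ee j then 1 else 0)
    (fun k => if n = Ee (k + 1) - Ee (k + 2) ∨ n = Ee (k + 2) - Ee (k + 1) then -1 else 0) c

/-- The raw pattern: kernel of colour `c` from `a @ w` to `b @ w + uu n`. -/
def Kr (ℓ γ : Fin 3 → ℝ) (c : Fin 4) (w : W3) (n : Z3) : Matrix (Fin 3) (Fin 3) ℝ :=
  (if n = 0 then Matrix.diagonal (Dg ℓ c w) else 0)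
  + Matrix.of (fun a b => if a = 0 ∧ b = 0 then tc c n * (gg ℓ w * gg ℓ (w + uu ℓ n)) else 0)
  + ∑ i, sg c i • (LL ℓ γ i w n + (LL ℓ γ i (w + uu ℓ n) (-n))ᵀ)

/-- Allowed shifts of colour `c`. -/
def Lat (c : Fin 4) (n : Z3) : Prop :=
  Fin.cases (n 0 + n 1 + n 2 = 0) (fun k => n k = 0) c

/-- The parameters: `ℓ` close to `1`, signs `γ`. -/
structure Par (ℓ γ : Fin 3 → ℝ) : Prop where
  l : ∀ i, |ℓ i - 1| ≤ 1 / 1000
  g : ∀ i, γ i = 1 ∨ γ i = -1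

/-- All `n` with `|n_i| ≤ 2`. -/
def Sh : Finset Z3 := Fintype.piFinset fun _ => Finset.Icc (-2) 2

/-! ### The gauge -/

/-- `1` for `w ≤ -1/50`, `0` for `w ≥ 1/50`. -/
def Cg (w : ℝ) : ℝ := Real.sqrt 2 * Real.sin (th (-w) / 2)

/-- `0` for `w ≤ -1/50`, `1` for `w ≥ 1/50`. -/
def Dh (w : ℝ) : ℝ := Real.sqrt 2 * Real.sin (th w / 2)

/-- Components of the sector quaternion. -/
def qq (w : W3) : Fin 4 → ℝ :=
  let c := fun i => Cg (w i)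
  let d := fun i => Dh (w i)
  let r : ℝ := Real.sqrt 2 / 2
  ![d 0 * c 1 * c 2 + r * (d 0 * d 1 * c 2) + 1 / 2 * (c 0 * d 1 * c 2) + 1 / 2 * (c 0 * c 1 * d 2)
      + r * (d 0 * c 1 * d 2),
    r * (d 0 * d 1 * c 2) + 1 / 2 * (c 0 * d 1 * c 2) + r * (c 0 * d 1 * d 2)
      + 1 / 2 * (c 0 * c 1 * d 2),
    -(1 / 2 * (c 0 * d 1 * c 2)) - r * (c 0 * d 1 * d 2) - 1 / 2 * (c 0 * c 1 * d 2)
      - r * (d 0 * c 1 * d 2),
    1 / 2 * (c 0 * d 1 * c 2) - 1 / 2 * (c 0 * c 1 * d 2)]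

/-- Radial cutoff: `0` if all `|w_k| ≤ 11/10`, `1` if some `|w_k| ≥ 3/2` (on the plane). -/
def ta (w : W3) : ℝ := Real.smoothTransition (2 * (w 0 ^ 2 + w 1 ^ 2 + w 2 ^ 2) - 5)

/-- The gauge quaternion. -/
def zz (w : W3) : Fin 4 → ℝ :=
  ![1 - ta w + ta w * qq w 0, ta w * qq w 1, ta w * qq w 2, ta w * qq w 3]

/-- Square of its norm. -/
def zn (w : W3) : ℝ := zz w 0 ^ 2 + zz w 1 ^ 2 + zz w 2 ^ 2 + zz w 3 ^ 2

/-- The rotation matrix (in the basis `e, s, t = k, -i, j`) of a quaternion, not normalized. -/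
def rotm (z : Fin 4 → ℝ) : Matrix (Fin 3) (Fin 3) ℝ :=
  !![z 0 ^ 2 - z 1 ^ 2 - z 2 ^ 2 + z 3 ^ 2, -(2 * (z 1 * z 3 - z 0 * z 2)), 2 * (z 2 * z 3 + z 0 * z 1);
     -(2 * (z 1 * z 3 + z 0 * z 2)), z 0 ^ 2 + z 1 ^ 2 - z 2 ^ 2 - z 3 ^ 2, -(2 * (z 1 * z 2 - z 0 * z 3));
     2 * (z 2 * z 3 - z 0 * z 1), -(2 * (z 1 * z 2 + z 0 * z 3)), z 0 ^ 2 - z 1 ^ 2 + z 2 ^ 2 - z 3 ^ 2]

/-- The gauge. -/
def Fm (w : W3) : Matrix (Fin 3) (Fin 3) ℝ := (zn w)⁻¹ • rotm (zz w)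

/-- The physical pattern. -/
def Kp (ℓ γ : Fin 3 → ℝ) (c : Fin 4) (w : W3) (n : Z3) : Matrix (Fin 3) (Fin 3) ℝ :=
  (Fm w)ᵀ * Kr ℓ γ c w n * Fm (w + uu ℓ n)

end Pool.Agent.Helper56.EX
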