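import Pool.Agent.Helper56.EX.St2

set_option autoImplicit false

open Matrix MeasureTheory
open scoped ContDiff ComplexConjugate FourierTransform SchwartzMap
open Pool.Agent.Helper54.Wav

noncomputable section

namespace Pool.Agent.Helper56.EX

private lemma st_A1 (x : ℝ) : Real.smoothTransition (1 - x) = 1 - Real.smoothTransition x := by
  unfold Real.smoothTransition
  have h := Real.smoothTransition.pos_denom x
  have h' := Real.smoothTransition.pos_denom (1 - x)
  have e : 1 - (1 - x) = x := by ring
  rw [e] at h' ⊢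
  rw [eq_sub_iff_add_eq]
  rw [add_comm (expNegInvGlue (1 - x)) (expNegInvGlue x)] at h' ⊢
  rw [← add_div]
  rw [add_comm (expNegInvGlue (1 - x)) (expNegInvGlue x)]
  exact div_self h.ne'

private lemma plateau_A1 {x : ℝ} (h : |x| ≤ 1 / 3) : ph x = 1 := by
  unfold ph
  rw [Real.smoothTransition.zero_of_nonpos (by linarith), mul_zero, Real.cos_zero]

private lemma smooth_A1 : ContDiff ℝ ∞ ph := by
  rw [contDiff_iff_contDiffAt]
  intro x
  by_cases hx : x = 0
  · subst hx
    have hev : ph =ᶠ[nhds 0] fun _ => (1 : ℝ) := by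
      have : Metric.ball (0 : ℝ) (1 / 3) ∈ nhds (0 : ℝ) :=
        Metric.ball_mem_nhds _ (by norm_num)
      filter_upwards [this] with y hy
      rw [Metric.mem_ball, Real.dist_eq, sub_zero] at hy
      exact plateau_A1 hy.le
    exact contDiffAt_const.congr_of_eventuallyEq hev
  · have h1 : ContDiffAt ℝ ∞ (fun y : ℝ => |y|) x := contDiffAt_abs hx
    have h2 : ContDiffAt ℝ ∞ (fun y : ℝ => 3 * |y| - 1) x :=
      (contDiffAt_const.mul h1).sub contDiffAt_const
    have h3 : ContDiff ℝ ∞ (fun t : ℝ => Real.cos (Real.pi / 2 * Real.smoothTransition t)) :=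
      Real.contDiff_cos.comp (contDiff_const.mul Real.smoothTransition.contDiff)
    exact h3.contDiffAt.comp x h2

theorem m_A1 : StA1 := by
  refine ⟨?_, ?_, ?_, ?_, smooth_A1, ?_⟩
  · intro x
    unfold ph
    have h0 := Real.smoothTransition.nonneg (3 * |x| - 1)
    have h1 := Real.smoothTransition.le_one (3 * |x| - 1)
    have hp := Real.pi_pos
    apply Real.cos_nonneg_of_neg_pi_div_two_le_of_le
    · have : 0 ≤ Real.pi / 2 * Real.smoothTransition (3 * |x| - 1) := by positivity
      linarith
    · nlinarith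
  · intro x
    unfold ph
    rw [abs_neg]
  · intro x hx
    exact plateau_A1 hx
  · intro x hx
    unfold ph
    rw [Real.smoothTransition.one_of_one_le (by linarith), mul_one, Real.cos_pi_div_two]
  · intro x h0 h1
    unfold ph
    rw [abs_of_nonneg h0, abs_of_nonneg (show (0 : ℝ) ≤ 1 - x by linarith)]
    have e : 3 * (1 - x) - 1 = 1 - (3 * x - 1) := by ring
    rw [e, st_A1, show Real.pi / 2 * (1 - Real.smoothTransition (3 * x - 1)) =
      Real.pi / 2 - Real.pi / 2 * Real.smoothTransition (3 * x - 1) by ring,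
      Real.cos_pi_div_two_sub]
    exact Real.cos_sq_add_sin_sq _

end Pool.Agent.Helper56.EX
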