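import Pool.Agent.Helper56.EX.St

set_option autoImplicit false

open Matrix
open scoped ContDiff

noncomputable section

namespace Pool.Agent.Helper56.EX

private lemma sides_B1O {w : W3} (hw : Pl w) (hi : ∀ i, 1 / 50 ≤ |w i|) :
    ∃ k : Fin 3, (1 / 50 ≤ w k ∧ w (k + 1) ≤ -(1 / 50) ∧ w (k + 2) ≤ -(1 / 50)) ∨
      (w k ≤ -(1 / 50) ∧ 1 / 50 ≤ w (k + 1) ∧ 1 / 50 ≤ w (k + 2)) := by
  have hs : ∀ i, 1 / 50 ≤ w i ∨ w i ≤ -(1 / 50) := by
    intro i
    rcases le_abs.mp (hi i) with h | h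
    · exact Or.inl h
    · exact Or.inr (by linarith)
  have hP := Pl_cyc hw 0
  rcases hs 0 with h0 | h0 <;> rcases hs (0 + 1) with h1 | h1 <;> rcases hs (0 + 2) with h2 | h2
  · exfalso; linarith
  · exact ⟨0 + 2, Or.inr ⟨h2, by rw [c21]; exact h0, by rw [c22]; exact h1⟩⟩
  · exact ⟨0 + 1, Or.inr ⟨h1, by rw [c11]; exact h2, by rw [c12]; exact h0⟩⟩
  · exact ⟨0, Or.inl ⟨h0, h1, h2⟩⟩
  · exact ⟨0, Or.inr ⟨h0, h1, h2⟩⟩
  · exact ⟨0 + 1, Or.inl ⟨h1, by rw [c11]; exact h2, by rw [c12]; exact h0⟩⟩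
  · exact ⟨0 + 2, Or.inl ⟨h2, by rw [c21]; exact h0, by rw [c22]; exact h1⟩⟩
  · exfalso; linarith

private lemma AA_B1O {w : W3} {k : Fin 3}
    (h : (1 / 50 ≤ w k ∧ w (k + 1) ≤ -(1 / 50) ∧ w (k + 2) ≤ -(1 / 50)) ∨
      (w k ≤ -(1 / 50) ∧ 1 / 50 ≤ w (k + 1) ∧ 1 / 50 ≤ w (k + 2))) :
    ∀ j, AA j w = if k = j then 1 else 0 := by
  intro j
  unfold AA
  rcases cyc_cases k j with rfl | rfl | rfl
  · rw [if_pos rfl]
    rcases h with ⟨a, b, c⟩ | ⟨a, b, c⟩
    · rw [Pp_high a, Nn_low b, Nn_low c, Nn_high a]; ring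
    · rw [Nn_low a, Pp_high b, Pp_high c, Pp_low a]; ring
  · rw [if_neg (ne1 k).symm, c11, c12]
    rcases h with ⟨a, b, c⟩ | ⟨a, b, c⟩
    · rw [Pp_low b, Pp_low c]; ring
    · rw [Nn_high b, Nn_high c]; ring
  · rw [if_neg (ne2 k).symm, c21, c22]
    rcases h with ⟨a, b, c⟩ | ⟨a, b, c⟩
    · rw [Pp_low b, Pp_low c]; ring
    · rw [Nn_high b, Nn_high c]; ring

theorem m_B1O (hO : StOut') : StB1o := by
  intro ℓ γ hp w hw hk hi
  obtain ⟨hg, hE⟩ := hO ℓ γ hp w hw hk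
  obtain ⟨k, hk'⟩ := sides_B1O hw hi
  have hA := AA_B1O hk'
  refine ⟨k, ?_, ?_, ?_, ?_⟩
  · intro i j _
    exact Subsingleton.elim i j
  · simp
  · intro i c b m hne
    have hi0 : i = 0 := Subsingleton.elim i 0
    subst hi0
    have h00 : (![((0 : Fin 3), (0 : Z3))] (0 : Fin 1)) = ((0 : Fin 3), (0 : Z3)) := rfl
    have hne0 := hne 0
    rw [h00] at hne0
    simp only [h00, uu_zero, add_zero]
    by_contra hc
    have hL := link_of_ne hc
    have key : ∀ (i : Fin 3) (v : W3), v i = w i → si i v ≠ 0 → False := by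
      intro i v hv hsi
      have := (si_ne hsi).1
      rw [hv] at this
      linarith [hi i]
    have key' : ∀ (i : Fin 3) (v : W3), v i = -w i → si i v ≠ 0 → False := by
      intro i v hv hsi
      have := (si_ne hsi).1
      rw [hv, abs_neg] at this
      linarith [hi i]
    have e1 : ∀ i, (w + uu ℓ (Ee i)) i = w i := by
      intro i; rw [Pi.add_apply, uu_self, add_zero]
    have e2 : ∀ i, (w + uu ℓ (-Ee i)) i = w i := by
      intro i; rw [Pi.add_apply, uu_neg, Pi.neg_apply, uu_self, neg_zero, add_zero]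
    rcases hL with ⟨h1, h2⟩ | ⟨_, _, h1, _⟩ | ⟨i, h | h | h | h | h⟩
    · apply hne0
      rw [← h1, h2]
      simp
    · exact h1 hg
    · exact absurd h.1 (by decide)
    · exact absurd h.1 (by decide)
    · exact absurd h.1 (by decide)
    · rcases h with ⟨_, _, ⟨hn, hs, _⟩ | ⟨_, hs, _⟩⟩
      · rw [hn] at hs
        exact key i _ (e2 i) hs
      · exact key i _ rfl hs
    · rcases h with ⟨_, _, ⟨hn, hs, _⟩ | ⟨_, hs, _⟩⟩
      · rw [hn] at hs
        exact key' i _ (by rw [Pi.neg_apply, e1 i]) hs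
      · exact key' i _ (by rw [Pi.neg_apply]) hs
  · intro i j c
    have hi0 : i = 0 := Subsingleton.elim i 0
    have hj0 : j = 0 := Subsingleton.elim j 0
    subst hi0
    subst hj0
    have h00 : (![((0 : Fin 3), (0 : Z3))] (0 : Fin 1)) = ((0 : Fin 3), (0 : Z3)) := rfl
    simp only [h00, uu_zero, add_zero, sub_self]
    rw [v_ee]
    simp only [Fin.sum_univ_one, Matrix.one_apply_eq, mul_one, Matrix.cons_val_fin_one]
    unfold Dg
    refine Fin.cases ?_ (fun j => ?_) c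
    · simp only [Fin.cases_zero]
      rw [if_neg (Fin.succ_ne_zero k)]
      simp [hg]
    · simp only [Fin.cases_succ]
      simp only [Fin.succ_inj]
      have : (![EE ℓ j w, pp j (-w) ^ 2, pp j w ^ 2] : Fin 3 → ℝ) 0 = EE ℓ j w := rfl
      rw [this, hE j, hA j]
      by_cases hkj : k = j
      · rw [if_pos hkj]; norm_num
      · rw [if_neg hkj]; norm_num

end Pool.Agent.Helper56.EX
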