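import Pool.Agent.Helper56.EX.St

/-!
# Project EX: module COLM (helper91)
-/

set_option autoImplicit false

open Matrix
open scoped ContDiff

noncomputable section

namespace Pool.Agent.Helper56.EX

private lemma Cg_eq_COLM (w : ℝ) : Cg w = Real.cos (th w / 2) - Real.sin (th w / 2) := by
  unfold Cg
  rw [th_neg, show (Real.pi / 2 - th w) / 2 = Real.pi / 4 - th w / 2 by ring, Real.sin_sub,
    Real.sin_pi_div_four, Real.cos_pi_div_four]
  have h : Real.sqrt 2 * Real.sqrt 2 = 2 := Real.mul_self_sqrt (by norm_num)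
  linear_combination (Real.cos (th w / 2) - Real.sin (th w / 2)) / 2 * h

private lemma Nn_eq_COLM (w : ℝ) :
    Nn w = Real.cos (th w / 2) ^ 2 - Real.sin (th w / 2) ^ 2 := by
  unfold Nn
  have h := Real.cos_sq_add_sin_sq (th w / 2)
  rw [show th w = 2 * (th w / 2) by ring, Real.cos_two_mul]
  rw [show 2 * (th w / 2) / 2 = th w / 2 by ring]
  linear_combination h

private lemma Pp_eq_COLM (w : ℝ) :
    Pp w = 2 * Real.sin (th w / 2) * Real.cos (th w / 2) := by
  unfold Pp
  rw [show th w = 2 * (th w / 2) by ring, Real.sin_two_mul]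
  rw [show 2 * (th w / 2) / 2 = th w / 2 by ring]

private lemma Cg_high_COLM {w : ℝ} (h : 1 / 50 ≤ w) : Cg w = 0 := by
  unfold Cg
  rw [th_low (by linarith), zero_div, Real.sin_zero, mul_zero]

private lemma Cg_low_COLM {w : ℝ} (h : w ≤ -(1 / 50)) : Cg w = 1 := by
  unfold Cg
  rw [th_high (by linarith), show Real.pi / 2 / 2 = Real.pi / 4 by ring, Real.sin_pi_div_four]
  have h : Real.sqrt 2 * Real.sqrt 2 = 2 := Real.mul_self_sqrt (by norm_num)
  linarith

private lemma Dh_high_COLM {w : ℝ} (h : 1 / 50 ≤ w) : Dh w = 1 := by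
  unfold Dh
  rw [th_high (by linarith), show Real.pi / 2 / 2 = Real.pi / 4 by ring, Real.sin_pi_div_four]
  have h : Real.sqrt 2 * Real.sqrt 2 = 2 := Real.mul_self_sqrt (by norm_num)
  linarith

private lemma Dh_low_COLM {w : ℝ} (h : w ≤ -(1 / 50)) : Dh w = 0 := by
  unfold Dh
  rw [th_low (by linarith), zero_div, Real.sin_zero, mul_zero]

private lemma ta_COLM {w : W3} (hw : Pl w) (h : ∃ k, 17 / 10 ≤ |w k|) : ta w = 1 := by
  unfold ta
  apply Real.smoothTransition.one_of_one_le
  obtain ⟨k, hk⟩ := h
  have h1 : (17 / 10 : ℝ) ^ 2 ≤ w k ^ 2 := by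
    rw [← sq_abs (w k)]
    exact pow_le_pow_left₀ (by norm_num) hk 2
  have h2 := Pl_cyc hw k
  have h3 : w 0 ^ 2 + w 1 ^ 2 + w 2 ^ 2 = w k ^ 2 + w (k + 1) ^ 2 + w (k + 2) ^ 2 := by
    have := sum3 k (fun j => w j ^ 2)
    rw [Fin.sum_univ_three] at this
    exact this
  rw [h3]
  have h4 : w k = -(w (k + 1) + w (k + 2)) := by linarith
  have h5 : 0 ≤ (w (k + 1) - w (k + 2)) ^ 2 := sq_nonneg _
  have h6 : w k ^ 2 = (w (k + 1) + w (k + 2)) ^ 2 := by rw [h4]; ring
  nlinarith

private lemma zz_COLM {w : W3} (h : ta w = 1) : zz w = qq w := by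
  unfold zz
  rw [h]
  ext j
  fin_cases j <;> simp

private lemma col_COLM {F : Matrix (Fin 3) (Fin 3) ℝ} {k : Fin 3} {v : Fin 3 → ℝ} {s : ℝ}
    (hs : s * s = 1) (h : ∀ x, F x k = s * v x) :
    F * Matrix.single k k 1 * Fᵀ = Matrix.vecMulVec v v := by
  have h1 : ∀ x j, (F * Matrix.single k k (1 : ℝ)) x j = if j = k then F x k else 0 := by
    intro x j
    rw [Matrix.mul_apply]
    by_cases hj : j = k
    · subst hj
      rw [if_pos rfl, Finset.sum_eq_single j]
      · simp
      · intro l _ hl
        rw [Matrix.single_apply_of_row_ne hl.symm, mul_zero]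
      · intro hl
        exact absurd (Finset.mem_univ _) hl
    · rw [if_neg hj]
      refine Finset.sum_eq_zero (fun l _ => ?_)
      rw [Matrix.single_apply_of_col_ne _ _ (Ne.symm hj), mul_zero]
  ext x y
  rw [Matrix.mul_apply, Finset.sum_eq_single k]
  · rw [h1, if_pos rfl, Matrix.transpose_apply, Matrix.vecMulVec_apply, h x, h y]
    linear_combination (v x * v y) * hs
  · intro l _ hl
    rw [h1, if_neg hl, zero_mul]
  · intro hl
    exact absurd (Finset.mem_univ _) hl

theorem m_COLM : StColM := by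
  intro w hw hk i hi k
  have hta := ta_COLM hw hk
  obtain ⟨hi1, hi2⟩ := hi
  have hz := zz_COLM hta
  obtain ⟨a, ha⟩ : ∃ a, a = Real.cos (th (w i) / 2) := ⟨_, rfl⟩
  obtain ⟨b, hb⟩ : ∃ b, b = Real.sin (th (w i) / 2) := ⟨_, rfl⟩
  have hab : a ^ 2 + b ^ 2 = 1 := by rw [ha, hb]; exact Real.cos_sq_add_sin_sq _
  have hc := Cg_eq_COLM (w i)
  have hd : Dh (w i) = Real.sqrt 2 * Real.sin (th (w i) / 2) := rfl
  have hN := Nn_eq_COLM (w i)
  have hP := Pp_eq_COLM (w i)
  rw [← ha, ← hb] at hc hN hP
  rw [← hb] at hd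
  have hr : Real.sqrt 2 * Real.sqrt 2 = 2 := Real.mul_self_sqrt (by norm_num)
  have hc1 := Cg_high_COLM hi1
  have hd1 := Dh_high_COLM hi1
  have hc2 := Cg_low_COLM hi2
  have hd2 := Dh_low_COLM hi2
  have hi' : i = 0 ∨ i = 1 ∨ i = 2 := by fin_cases i <;> simp
  rcases hi' with rfl | rfl | rfl
  · -- `i = 0`
    simp only [zero_add] at hc1 hd1 hc2 hd2
    have q0 : zz w 0 = (a + b) / 2 := by
      rw [hz]; simp only [qq, Matrix.cons_val_zero]
      rw [hc, hd, hc1, hd1, hc2, hd2]
      linear_combination b / 2 * hr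
    have q1 : zz w 1 = (a + b) / 2 := by
      rw [hz]; simp only [qq, Matrix.cons_val_one, Matrix.cons_val_zero]
      rw [hc, hd, hc1, hd1, hc2, hd2]
      linear_combination b / 2 * hr
    have q2 : zz w 2 = -((a - b) / 2) := by
      rw [hz]; simp only [qq, Matrix.cons_val]
      rw [hc, hd, hc1, hd1, hc2, hd2]
      ring
    have q3 : zz w 3 = (a - b) / 2 := by
      rw [hz]; simp only [qq, Matrix.cons_val]
      rw [hc, hd1, hc1, hc2, hd2]
      ring
    have hzn : zn w = 1 := by
      unfold zn
      rw [q0, q1, q2, q3]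
      linear_combination hab
    have hk' : k = 0 ∨ k = 1 ∨ k = 2 := by fin_cases k <;> simp
    rcases hk' with rfl | rfl | rfl
    · refine col_COLM (s := -1) (by norm_num) (fun x => ?_)
      unfold Fm
      rw [hzn, inv_one, one_smul]
      fin_cases x <;> simp [rotm, vM, q0, q1, q2, q3, hN, hP, g0] <;>
        first | ring1 | linear_combination hab | linear_combination -hab
    · refine col_COLM (s := 1) (by norm_num) (fun x => ?_)
      unfold Fm
      rw [hzn, inv_one, one_smul]
      fin_cases x <;> simp [rotm, vM, q0, q1, q2, q3, hN, hP, g0] <;>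
        first | ring1 | linear_combination hab | linear_combination -hab
    · refine col_COLM (s := 1) (by norm_num) (fun x => ?_)
      unfold Fm
      rw [hzn, inv_one, one_smul]
      fin_cases x <;> simp [rotm, vM, q0, q1, q2, q3, hN, hP, g0] <;>
        first | ring1 | linear_combination hab | linear_combination -hab
  · -- `i = 1`
    have e1 : (1 : Fin 3) + 1 = 2 := rfl
    have e2 : (1 : Fin 3) + 2 = 0 := rfl
    rw [e1] at hc1 hd1
    rw [e2] at hc2 hd2
    have q0 : zz w 0 = (a - b) / 2 := by
      rw [hz]; simp only [qq, Matrix.cons_val_zero]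
      rw [hc, hd, hc1, hd1, hc2, hd2]
      ring
    have q1 : zz w 1 = (a + b) / 2 := by
      rw [hz]; simp only [qq, Matrix.cons_val_one, Matrix.cons_val_zero]
      rw [hc, hd, hc1, hd1, hc2, hd2]
      linear_combination b / 2 * hr
    have q2 : zz w 2 = -((a + b) / 2) := by
      rw [hz]; simp only [qq, Matrix.cons_val]
      rw [hc, hd, hc1, hd1, hc2, hd2]
      linear_combination -b / 2 * hr
    have q3 : zz w 3 = -((a - b) / 2) := by
      rw [hz]; simp only [qq, Matrix.cons_val]
      rw [hd, hc, hc1, hc2, hd1]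
      ring
    have hzn : zn w = 1 := by
      unfold zn
      rw [q0, q1, q2, q3]
      linear_combination hab
    have hk' : k = 0 ∨ k = 1 ∨ k = 2 := by fin_cases k <;> simp
    rcases hk' with rfl | rfl | rfl
    · refine col_COLM (s := 1) (by norm_num) (fun x => ?_)
      unfold Fm
      rw [hzn, inv_one, one_smul]
      fin_cases x <;> simp [rotm, vM, q0, q1, q2, q3, hN, hP, g0] <;>
        first | ring1 | linear_combination hab | linear_combination -hab
    · refine col_COLM (s := 1) (by norm_num) (fun x => ?_)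
      unfold Fm
      rw [hzn, inv_one, one_smul]
      fin_cases x <;> simp [rotm, vM, q0, q1, q2, q3, hN, hP, g0] <;>
        first | ring1 | linear_combination hab | linear_combination -hab
    · refine col_COLM (s := 1) (by norm_num) (fun x => ?_)
      unfold Fm
      rw [hzn, inv_one, one_smul]
      fin_cases x <;> simp [rotm, vM, q0, q1, q2, q3, hN, hP, g0] <;>
        first | ring1 | linear_combination hab | linear_combination -hab
  · -- `i = 2`
    have e1 : (2 : Fin 3) + 1 = 0 := rfl
    have e2 : (2 : Fin 3) + 2 = 1 := rfl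
    rw [e1] at hc1 hd1
    rw [e2] at hc2 hd2
    have q0 : zz w 0 = a := by
      rw [hz]; simp only [qq, Matrix.cons_val_zero]
      rw [hc, hd, hc1, hd1, hc2, hd2]
      linear_combination b / 2 * hr
    have q1 : zz w 1 = 0 := by
      rw [hz]; simp only [qq, Matrix.cons_val_one, Matrix.cons_val_zero]
      rw [hc, hd, hc1, hd1, hc2, hd2]
      ring
    have q2 : zz w 2 = -b := by
      rw [hz]; simp only [qq, Matrix.cons_val]
      rw [hc, hd, hc1, hd1, hc2, hd2]
      linear_combination -b / 2 * hr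
    have q3 : zz w 3 = 0 := by
      rw [hz]; simp only [qq, Matrix.cons_val]
      rw [hd, hc, hc1, hc2, hd2]
      ring
    have hzn : zn w = 1 := by
      unfold zn
      rw [q0, q1, q2, q3]
      linear_combination hab
    have hk' : k = 0 ∨ k = 1 ∨ k = 2 := by fin_cases k <;> simp
    rcases hk' with rfl | rfl | rfl
    · refine col_COLM (s := 1) (by norm_num) (fun x => ?_)
      unfold Fm
      rw [hzn, inv_one, one_smul]
      fin_cases x <;> simp [rotm, vM, q0, q1, q2, q3, hN, hP, g0] <;>
        first | ring1 | linear_combination hab | linear_combination -hab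
    · refine col_COLM (s := 1) (by norm_num) (fun x => ?_)
      unfold Fm
      rw [hzn, inv_one, one_smul]
      fin_cases x <;> simp [rotm, vM, q0, q1, q2, q3, hN, hP, g0] <;>
        first | ring1 | linear_combination hab | linear_combination -hab
    · refine col_COLM (s := 1) (by norm_num) (fun x => ?_)
      unfold Fm
      rw [hzn, inv_one, one_smul]
      fin_cases x <;> simp [rotm, vM, q0, q1, q2, q3, hN, hP, g0] <;>
        first | ring1 | linear_combination hab | linear_combination -hab

end Pool.Agent.Helper56.EX
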