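import Pool.Agent.Helper56.EX.St3
import Pool.Agent.Helper56.EX.Basic

/-!
# Project EX, module E5 (MP_d629b1)
-/

set_option autoImplicit false

open Matrix MeasureTheory
open scoped ContDiff ComplexConjugate
open Pool.Agent.Helper54.Wav (zv)

noncomputable section

namespace Pool.Agent.Helper56.EX

/-- The linear map `WW t`. -/
private def WWl (t : ℝ) : (Fin 2 → ℝ) →ₗ[ℝ] W3 where
  toFun := WW t
  map_add' x y := by
    funext k
    simp only [WW, Pi.add_apply]
    ring
  map_smul' c x := by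
    funext k
    simp only [WW, Pi.smul_apply, smul_eq_mul, RingHom.id_apply]
    ring

private lemma WW_add (t : ℝ) (x y : Fin 2 → ℝ) : WW t (x + y) = WW t x + WW t y :=
  (WWl t).map_add x y

private lemma WW_smooth (t : ℝ) : ContDiff ℝ ∞ (WW t) := by
  rw [contDiff_pi]
  intro k
  unfold WW
  fun_prop

private lemma vec_add (t : ℝ) (m n : Z3) : vec t (m + n) = vec t m + vec t n := by
  funext a
  simp only [vec, Pi.add_apply, Int.cast_add, add_mul, Finset.sum_add_distrib]

private lemma vec_neg (t : ℝ) (n : Z3) : vec t (-n) = -vec t n := by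
  funext a
  simp only [vec, Pi.neg_apply, Int.cast_neg, neg_mul, Finset.sum_neg_distrib]

private lemma vec_sub (t : ℝ) (m n : Z3) : vec t (m - n) = vec t m - vec t n := by
  rw [sub_eq_add_neg, vec_add, vec_neg, ← sub_eq_add_neg]

private lemma vec_zero (t : ℝ) : vec t 0 = 0 := by
  funext a
  simp [vec]

open Classical in
/-- The kernel in actual coordinates. -/
private def KE (t : ℝ) (c : Fin 4) (η l : Fin 2 → ℝ) : Matrix (Fin 3) (Fin 3) ℝ :=
  if h : ∃ n, vec t n = l then Kp (lt t) g0 c (WW t η) h.choose else 0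

private lemma KE_vec {t : ℝ} (hi : Function.Injective (vec t)) (c : Fin 4) (η : Fin 2 → ℝ)
    (n : Z3) : KE t c η (vec t n) = Kp (lt t) g0 c (WW t η) n := by
  have h : ∃ m, vec t m = vec t n := ⟨n, rfl⟩
  unfold KE
  rw [dif_pos h]
  have := hi h.choose_spec
  rw [this]

private lemma KE_not {t : ℝ} (c : Fin 4) (η : Fin 2 → ℝ) {l : Fin 2 → ℝ}
    (h : ¬ ∃ n, vec t n = l) : KE t c η l = 0 := by
  unfold KE
  rw [dif_neg h]

open Classical in
/-- The finite sets. -/
private def LE (t : ℝ) (c : Fin 4) : Finset (Fin 2 → ℝ) := (Sh.filter (Lat c)).image (vec t)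

/-- Module E5. -/
theorem m_E5 (h1 : StE1) (h2 : StE2) (h3 : StE3) (h4 : StE4) (hP : StPhys) : StE5 := by
  classical
  intro t ht
  obtain ⟨hl, hPl, -, huu⟩ := h2 t ht
  obtain ⟨hinj, hex⟩ := h3 t ht
  obtain ⟨hi, hlat⟩ := h4 t ht
  have P := hP (lt t) hl
  have hW : ∀ η n, WW t (η + vec t n) = WW t η + uu (lt t) n := by
    intro η n
    rw [WW_add, huu]
  have hν : ∀ η, ((normSeminorm ℝ W3).comp (WWl t)) η = ‖WW t η‖ := fun η => rfl
  refine ⟨(normSeminorm ℝ W3).comp (WWl t), KE t, LE t, ?_⟩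
  refine ⟨?_, ?_, ?_, ?_, ?_, ?_, ?_, ?_, ?_, ?_, ?_⟩
  · -- nu_pos
    intro x hx
    rw [hν, norm_eq_zero] at hx
    exact hinj x hx
  · -- expand
    intro x
    rw [hν, hν]
    obtain ⟨k, hk⟩ := hex x
    have h5 : ‖WW t x‖ ≤ ‖WW t (Bt t *ᵥ x)‖ / 2 := by
      refine (pi_norm_le_iff_of_nonneg (by positivity)).mpr fun j => ?_
      have h6 := hk j
      have h7 := norm_le_pi_norm (WW t (Bt t *ᵥ x)) k
      rw [Real.norm_eq_abs] at h7 ⊢
      linarith
    linarith
  · -- smooth
    intro c l a b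
    by_cases h : ∃ n, vec t n = l
    · obtain ⟨n, rfl⟩ := h
      simp only [KE_vec hi]
      exact P.smooth (WW t) (WW_smooth t) hPl c n a b
    · simp only [KE_not c _ h]
      exact contDiff_const
  · -- supp
    intro c η l hl'
    by_cases h : ∃ n, vec t n = l
    · obtain ⟨n, rfl⟩ := h
      rw [KE_vec hi]
      by_contra hne
      apply hl'
      obtain ⟨h5, h6⟩ := P.lat c _ _ hne
      unfold LE
      exact Finset.mem_image.mpr ⟨n, Finset.mem_filter.mpr ⟨h5, h6⟩, rfl⟩
    · exact KE_not c _ h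
  · -- lat
    intro c l hl'
    unfold LE at hl'
    obtain ⟨n, hn, rfl⟩ := Finset.mem_image.mp hl'
    exact hlat c n (Finset.mem_filter.mp hn).2
  · -- symm
    intro c η l
    by_cases h : ∃ n, vec t n = l
    · obtain ⟨n, rfl⟩ := h
      rw [← vec_neg, KE_vec hi, KE_vec hi, hW]
      exact P.symm c _ (hPl η) n
    · rw [KE_not c _ h, KE_not, Matrix.transpose_zero]
      rintro ⟨n, hn⟩
      exact h ⟨-n, by rw [vec_neg, hn, neg_neg]⟩
  · -- idem
    intro c η k
    unfold LE
    rw [Finset.sum_image (fun x _ y _ hxy => hi hxy)]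
    by_cases h : ∃ n, vec t n = k
    · obtain ⟨m, rfl⟩ := h
      rw [KE_vec hi, ← P.idem c _ (hPl η) m, Finset.sum_filter]
      refine Finset.sum_congr rfl fun n _ => ?_
      split_ifs with h5
      · rw [← vec_sub, KE_vec hi, KE_vec hi, hW]
      · have : Kp (lt t) g0 c (WW t η) n = 0 := by
          by_contra hne
          exact h5 (P.lat c _ _ hne).2
        rw [this, Matrix.zero_mul]
    · rw [KE_not c _ h]
      refine Finset.sum_eq_zero fun n _ => ?_
      rw [KE_not c (η + vec t n), Matrix.mul_zero]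
      rintro ⟨m, hm⟩
      exact h ⟨m + n, by rw [vec_add, hm]; abel⟩
  · -- sum
    intro η l
    by_cases h : ∃ n, vec t n = l
    · obtain ⟨n, rfl⟩ := h
      simp only [KE_vec hi]
      rw [P.sum _ (hPl η) n]
      have : vec t n = 0 ↔ n = 0 := by
        rw [← vec_zero t]
        exact hi.eq_iff
      simp only [this]
    · simp only [KE_not _ _ h]
      rw [if_neg, Finset.sum_const_zero]
      rintro rfl
      exact h ⟨0, vec_zero t⟩
  · -- far
    intro η hη c l
    rw [hν] at hη
    have hk : ∃ k, 17 / 10 ≤ |WW t η k| := by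
      by_contra hcon
      push Not at hcon
      have : ‖WW t η‖ < 17 / 10 := (pi_norm_lt_iff (by norm_num)).mpr hcon
      linarith
    by_cases h : ∃ n, vec t n = l
    · obtain ⟨n, rfl⟩ := h
      rw [KE_vec hi, P.far _ (hPl η) hk]
      have : vec t n = 0 ↔ n = 0 := by
        rw [← vec_zero t]
        exact hi.eq_iff
      simp only [this]
    · rw [KE_not _ _ h, if_neg]
      rintro rfl
      exact h ⟨0, vec_zero t⟩
  · -- near
    intro η hη c l b
    rw [hν] at hη
    have hk : ∀ k, |WW t η k| ≤ 9 / 10 := fun k =>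
      le_trans (norm_le_pi_norm (WW t η) k) hη
    by_cases h : ∃ n, vec t n = l
    · obtain ⟨n, rfl⟩ := h
      rw [KE_vec hi, P.near _ (hPl η) hk]
      have : vec t n = 0 ↔ n = 0 := by
        rw [← vec_zero t]
        exact hi.eq_iff
      simp only [this]
    · rw [KE_not _ _ h, if_neg]
      · rfl
      · rintro ⟨-, rfl, -⟩
        exact h ⟨0, vec_zero t⟩
  · -- zero
    intro η l a b hab
    by_cases h : ∃ n, vec t n = l
    · obtain ⟨n, rfl⟩ := h
      rw [KE_vec hi]
      exact P.zero _ (hPl η) n a b hab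
    · rw [KE_not _ _ h]
      rfl

end Pool.Agent.Helper56.EX
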