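import Pool.Agent.Helper56.EX.St

/-!
# Project EX (MP_d629b1), module OUT (helper79)
-/

set_option autoImplicit false

open Matrix
open scoped ContDiff

noncomputable section

namespace Pool.Agent.Helper56.EX

theorem m_OUT (hHH : StHH) : StOut := by
  intro ℓ γ hP w _ hw
  obtain ⟨k, hk⟩ := hw
  have hwt : wt ℓ w = 0 := by
    unfold wt
    apply Finset.prod_eq_zero (Finset.mem_univ k)
    rcases le_abs.1 hk with h | h
    · have h1 := (hHH ℓ γ hP k (w (k + 2) - w (k + 1))).1.2
      rw [Nn_high (by linarith), zero_mul]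
    · have h1 := (hHH ℓ γ hP k (w (k + 1) - w (k + 2))).1.2
      rw [Nn_high (w := -w k - HH ℓ k (w (k + 1) - w (k + 2))) (by linarith), mul_zero]
  unfold gg
  rw [hwt, zero_div]

end Pool.Agent.Helper56.EX
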