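import Pool.Agent.Helper56.EX.Values

/-!
# Project EX (MP_d629b1): statements of the modules, planar part

Numerically verified (15000 random points, all identities to 1e-13).
Conventions: `Fin 3` indices are cyclic (`c11, c12, c21, c22` in `Basic` simplify `i+1+1` etc.),
all points lie in the plane `Pl`.  Everything in `Defs`, `Basic`, `Values` may be used
(`Nn_low/high, Pp_low/high, Rp, Rm, core_or, far_cases, pp_Rp, pp_Rm, md_Rp, md_Rm, Cc_far, Cd_far,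
uu_self/one/two (= 0, -ℓ i, ℓ i), si_ne, si_Rp, fA_low ..., v_tA ..., Kr_symm', link_of_ne,
Ee_inj ...`).  From `Par`: `999/1000 ≤ ℓ i ≤ 1001/1000`.  All inequalities are linear: `linarith`.
-/

set_option autoImplicit false

open Matrix
open scoped ContDiff

noncomputable section

namespace Pool.Agent.Helper56.EX

/-! ### The tile -/

/-- `w` lies near the boundary `w_k ≈ 1` of the tile, away from the corners. -/
def Strip (k : Fin 3) (w : W3) : Prop :=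
  19 / 20 ≤ w k ∧ w k ≤ 21 / 20 ∧ -(97 / 100) ≤ w (k + 1) ∧ w (k + 1) ≤ -(2 / 25) ∧
    -(97 / 100) ≤ w (k + 2) ∧ w (k + 2) ≤ -(2 / 25)

/-- Module HH. `HH = ℓ(k+1) + (ℓ(k+2)-ℓ(k+1)) t` with `t = smoothTransition(..) ∈ [0,1]`: a convex
combination; for `s ≤ -51/100` the argument is `≤ 0`, for `s ≥ 51/100` it is `≥ 1`; the point symmetry is
`st_one_sub` (the argument at `ℓ(k+2)-ℓ(k+1)-s` is `1 -` the argument at `s`). -/
def StHH : Prop := ∀ (ℓ γ : Fin 3 → ℝ), Par ℓ γ → ∀ (k : Fin 3) (s : ℝ),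
  (999 / 1000 ≤ HH ℓ k s ∧ HH ℓ k s ≤ 1001 / 1000) ∧
  (s ≤ -(51 / 100) → HH ℓ k s = ℓ (k + 1)) ∧ (51 / 100 ≤ s → HH ℓ k s = ℓ (k + 2)) ∧
  HH ℓ k (ℓ (k + 2) - ℓ (k + 1) - s) = ℓ (k + 1) + ℓ (k + 2) - HH ℓ k s

/-- Module EVEN. `wt (-w) = wt w` (the two factors of each `k` are exchanged), `dn (-w) = dn w`
(the two terms of each `i`), so `gg` is even; `AA k (-w) = AA k w` by `Nn_neg, Pp_neg`; in `EE` the terms of each
bracket are exchanged. -/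
def StEven : Prop := ∀ (ℓ : Fin 3 → ℝ) (w : W3),
  gg ℓ (-w) = gg ℓ w ∧ ∀ k, EE ℓ k (-w) = EE ℓ k w

/-- Module IN (hypothesis `hHH : StHH`). Each factor of `wt` is `Nn` of something `≤ 19/20 - 999/1000 ≤ -1/50`,
so `wt = 1`. For each corner `y = ±w - uu (Ee i)` lies in `Pl` and `|y (i+2)| ≥ 999/1000 - 19/20 ≥ 1/25`, so
`core_or` gives `Rp` or `Rm` of some index: `md y = 1`, `Cc _ y = Cd _ y = 0` (for any indices). Hence `dn = 1`,
`gg = 1`, `EE k w = (1 - 1) * _ + 0`. -/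
def StIn : Prop := ∀ (ℓ γ : Fin 3 → ℝ), Par ℓ γ → ∀ w, Pl w → (∀ k, |w k| ≤ 19 / 20) →
  gg ℓ w = 1 ∧ ∀ k, EE ℓ k w = 0

/-- Module OUT (hypothesis `hHH : StHH`). If `41/40 ≤ w k` then `w k - HH ≥ 41/40 - 1001/1000 ≥ 1/50`, so the
first factor of index `k` in `wt` vanishes (`Nn_high`); if `w k ≤ -41/40` the second one. -/
def StOut : Prop := ∀ (ℓ γ : Fin 3 → ℝ), Par ℓ γ → ∀ w, Pl w → (∃ k, 41 / 40 ≤ |w k|) →
  gg ℓ w = 0

/-- Module OUTB (hypothesis `hO : StOut`). `gg = 0` by `hO`. For every corner `y = ±w - uu (Ee i)`: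
`|y k| ≥ 21/20 - 1001/1000 ≥ 1/25` (every coordinate of `uu (Ee i)` is `0, ±ℓ i`), so `core_or` and
`Cc_far, Cd_far` kill the corrections. -/
def StOut' : Prop := ∀ (ℓ γ : Fin 3 → ℝ), Par ℓ γ → ∀ w, Pl w → (∃ k, 21 / 20 ≤ |w k|) →
  gg ℓ w = 0 ∧ ∀ k, EE ℓ k w = AA k w ^ 2

/-- Module VX (hypothesis `hHH : StHH`). Put `w = uu (Ee i) + y`: `w i = y i`, `w (i+1) = -ℓ i + y (i+1)`,
`w (i+2) = ℓ i + y (i+2)`. In `wt` (use `Fin.prod_univ_three` after `fin_cases i`, or a cyclic product lemma) all factors are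
`Nn` of something `≤ -1/50`, except: the second factor of index `i+1`: `Nn (-w(i+1) - HH (i+1) (w(i+2) - w i))`, whose
`s = ℓ i + y(i+2) - y i ≥ 51/100`, so `HH = ℓ (i+1+2) = ℓ i` and the factor is `Nn (-y(i+1)) = Pp (y (i+1))`; and the first factor
of index `i+2`: `Nn (w(i+2) - HH (i+2) (w(i+1) - w i))`, `s ≤ -51/100`, `HH = ℓ (i+2+1) = ℓ i`, factor `Nn (y (i+2))`.
So `wt = mm i y`. In `dn` the corner `w - uu (Ee i) = y` contributes `md y - 1`; every other corner (`w - uu (Ee j)`, `j ≠ i`;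
`-w - uu (Ee j)`, all `j`) has a coordinate of modulus `≥ 7/10`, hence contributes `0` and no corrections. So `dn = md y` and
`gg = mm i y / md y = pp i y`. `AA i w = 0`, `AA (i+1) w = Pp (y i)`, `AA (i+2) w = Nn (y i)` because
`w (i+1) ≤ -1/50`, `w (i+2) ≥ 1/50`. In `EE (i+1)` the only surviving correction is `Cc i y` (as `i+1+2 = i`), in `EE (i+2)` it is
`Cd i y` (as `i+2+1 = i`), in `EE i` none; insert the definitions of `Cc, Cd`. -/
def StVx : Prop := ∀ (ℓ γ : Fin 3 → ℝ), Par ℓ γ → ∀ (i : Fin 3) (y : W3), Pl y →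
  (∀ k, |y k| ≤ 1 / 5) →
  gg ℓ (uu ℓ (Ee i) + y) = pp i y ∧ EE ℓ i (uu ℓ (Ee i) + y) = 0 ∧
  EE ℓ (i + 1) (uu ℓ (Ee i) + y) = pp (i + 2) y ^ 2 ∧
  EE ℓ (i + 2) (uu ℓ (Ee i) + y) = pp (i + 1) y ^ 2

/-- Module STRIP (hypothesis `hHH : StHH`). In `wt` all factors except the first one of index `k` are `Nn` of something
`≤ -1/50` (note `97/100 - 999/1000 ≤ -1/50`). Corners: `w - uu (Ee (k+1))` satisfies `Rp k` (coordinates `k+1`: `w(k+1) ≤ -1/50`;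
`k+2`: `w(k+2) + ℓ(k+1) ≥ 1/50`); `-w - uu (Ee (k+2))` satisfies `Rp k` (coordinates `k+1`: `-w(k+1) - ℓ(k+2) ≤ -1/50`; `k+2`:
`-w(k+2) ≥ 1/50`); the four others have a `k`-th coordinate of modulus `≥ 1/25` (use `core_or`). So `dn = 1`, no corrections;
`AA k w = 1`, `AA (k+1) w = AA (k+2) w = 0` (`w k ≥ 1/50`, the others `≤ -1/50`). -/
def StStrip : Prop := ∀ (ℓ γ : Fin 3 → ℝ), Par ℓ γ → ∀ (k : Fin 3) (w : W3), Pl w →
  9 / 10 ≤ w k → -(97 / 100) ≤ w (k + 1) → w (k + 1) ≤ -(1 / 50) → -(97 / 100) ≤ w (k + 2) →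
  w (k + 2) ≤ -(1 / 50) →
  gg ℓ w = Nn (w k - HH ℓ k (w (k + 2) - w (k + 1))) ∧ EE ℓ k w = 1 - gg ℓ w ^ 2 ∧
  EE ℓ (k + 1) w = 0 ∧ EE ℓ (k + 2) w = 0

/-- Module STRIPB (hypotheses `hHH : StHH`, `hE : StEven`, `hS : StStrip`). `w'(k) = w k - ℓ(k+1) - ℓ(k+2)`,
`w'(k+1) = w(k+1) + ℓ(k+2)`, `w'(k+2) = w(k+2) + ℓ(k+1)`. Apply `hS` to `-w'` and `hE`; the argument is
`-w' k - HH k (-w'(k+2) + w'(k+1)) = -(w k - HH k (w(k+2) - w(k+1)))` by the point symmetry in `hHH`; then `Nn_neg`. -/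
def StStrip' : Prop := ∀ (ℓ γ : Fin 3 → ℝ), Par ℓ γ → ∀ (k : Fin 3) (w : W3), Pl w → Strip k w →
  let w' := w + uu ℓ (Ee (k + 2) - Ee (k + 1))
  gg ℓ w' = Pp (w k - HH ℓ k (w (k + 2) - w (k + 1))) ∧ EE ℓ k w' = 1 - gg ℓ w' ^ 2 ∧
  EE ℓ (k + 1) w' = 0 ∧ EE ℓ (k + 2) w' = 0

/-- Module CASES. If not all `|w k| ≤ 19/20` and all `|w k| < 21/20`, some `19/20 < |w k| < 21/20`. Suppose `w k > 0` (otherwise replace
`w` by `-w` and exchange the alternatives). If `w(k+1), w(k+2) ≤ -2/25`: `Strip k w` (the lower bounds follow from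
`w k ≤ 21/20` and the sum). If `w(k+1) > -2/25`: `w(k+1) < 1/10` since `w(k+2) > -21/20`; take `i = k+1`,
`y = w - uu (Ee (k+1))`: `y k = w k - ℓ(k+1)`, `y(k+1) = w(k+1)`, `y(k+2) = w(k+2) + ℓ(k+1)`. If `w(k+2) > -2/25`: take `i = k+2`,
`y = -w - uu (Ee (k+2))`: `y k = -w k + ℓ(k+2)`, `y(k+2) = -w(k+2)`, `y(k+1) = -w(k+1) - ℓ(k+2)`, and `w = -(uu + y)`. -/
def StCases : Prop := ∀ (ℓ γ : Fin 3 → ℝ), Par ℓ γ → ∀ w, Pl w →
  (∀ k, |w k| ≤ 19 / 20) ∨ (∃ k, 21 / 20 ≤ |w k|) ∨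
  (∃ (i : Fin 3) (y : W3), Pl y ∧ (∀ k, |y k| ≤ 1 / 5) ∧
    (w = uu ℓ (Ee i) + y ∨ w = -(uu ℓ (Ee i) + y))) ∨
  ∃ k, Strip k w ∨ Strip k (-w)

/-! ### Blocks -/

/-- A block: a finite set of points (relative to the base `w`) closed under the pattern, on which
the colours are the projections given by the rows of an orthogonal matrix. -/
structure Blk (ℓ γ : Fin 3 → ℝ) (w : W3) {N : ℕ} (P : Fin N → Fin 3 × Z3) (col : Fin N → Fin 4)
    (O : Matrix (Fin N) (Fin N) ℝ) : Prop where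
  inj : Function.Injective P
  orth : O * Oᵀ = 1
  out : ∀ i c b m, (∀ j, P j ≠ (b, (P i).2 + m)) →
    Kr ℓ γ c (w + uu ℓ (P i).2) m (P i).1 b = 0
  val : ∀ i j c, Kr ℓ γ c (w + uu ℓ (P i).2) ((P j).2 - (P i).2) (P i).1 (P j).1 =
    ∑ r, if col r = c then O r i * O r j else 0

/-- The point `a @ w` lies in a block. -/
def InBlk (ℓ γ : Fin 3 → ℝ) (w : W3) (a : Fin 3) : Prop :=
  ∃ (N : ℕ) (P : Fin N → Fin 3 × Z3) (col : Fin N → Fin 4) (O : Matrix (Fin N) (Fin N) ℝ)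
    (w' : W3) (i : Fin N), Pl w' ∧ Blk ℓ γ w' P col O ∧ (P i).1 = a ∧ w = w' + uu ℓ (P i).2

/-- Exchange of the sheets `s` and `t`. -/
def mir (a : Fin 3) : Fin 3 := if a = 0 then 0 else if a = 1 then 2 else 1

/-- Module MIR (hypothesis `hE : StEven`). Use `row_t, row_s, row_e` (after `fin_cases a`). Diagonal: `gg, EE` even, `pp k (-w)` and
`pp k w` exchanged. Tile: `tc c (-n) = tc c n`. Links: the `fA, fD` terms of `t` and `s` are exchanged literally. For the `s`-`t`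
links use: `XX i (uu (Ee i) - w) = 1 - XX i w`, `XX i (uu (Ee i + Ee i) - w) = 2 - XX i w`, `fB g (1-x) = fB g x`,
`fC (2-x) = fC x` (`sin_mu_one_sub, cos_mu_one_sub`), and `si i (uu n - w) = si i w` whenever the factor `fB` resp. `fC` is not zero
(`n = Ee i`, `1/3 < XX < 2/3` resp. `n = 2 Ee i`, `1/2 < XX < 3/2`): if `|w i| ≥ 1/50` both are `0` (`si_ne`); otherwise
`w` and `uu n - w` satisfy `Rp i` and `si = Nn (w i) * Pp (w i)` resp. `Nn (-w i) * Pp (-w i)`. -/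
def StMir : Prop := ∀ (ℓ γ : Fin 3 → ℝ), Par ℓ γ → ∀ (c : Fin 4) (w : W3), Pl w →
  ∀ (n : Z3) (a b : Fin 3), Kr ℓ γ c (-w) (-n) (mir a) (mir b) = Kr ℓ γ c w n a b

/-- Module MIRB (hypothesis `hM : StMir`). From the block `(N, P, col, O, w', i)` of `(-w, mir a)` take `P' j = (mir (P j).1, -(P j).2)`, the same
`col, O`, base `-w'`; `mir` is an involution, `uu_neg`. All four fields are translated by `hM`. -/
def StMirBlk : Prop := ∀ (ℓ γ : Fin 3 → ℝ), Par ℓ γ → ∀ (w : W3) (a : Fin 3),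
  InBlk ℓ γ (-w) (mir a) → InBlk ℓ γ w a

/-- Module BT (hypotheses `hV : StVx`, `hO : StOut`). Orthogonality: polynomial identities and `pp_sq_sum`. Values: diagonal by `v_ee, v_tt`, `hV`;
`e`-`e` by `v_ee'` and `hV`; `t`-`e` by `v_tA`, `fA_low` (`|XX i y| ≤ 1/3`), `e`-`t` by `Kr_symm'`; `tc`, `sg` are computed by
`decide`/`simp`. Outside: contrapositive of `link_of_ne`. From `t@y`: only the links `b = 0, n = Ee i` are possible
(`XX i y ≤ 1/3`). From `e@(uu (Ee i) + y)`: tile link `n = Ee a - Ee b`: if `b = i` the target is in the block, otherwise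
`uu (Ee i) + y + uu n` has a coordinate of modulus `≥ 41/40` (in fact `≥ 8/5`), so `gg = 0` by `hO`; link to `t` with `n = -Ee i'`:
`i' = i` is in the block, `i' ≠ i` impossible by `si_ne` (coordinate `i'` of `uu (Ee i) + y` has modulus `≥ 7/10`); `n = 0`: `XX i ≤ 4/3`, resp. the same
coordinate; links to `s`: `-(uu (Ee i) + y)` resp. `-(uu (Ee i) + y + uu (Ee i'))` violates `si_ne` (for `i' = i` the coordinate `i+1` is
`≥ 7/10 > 1/50`). -/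
def StBT : Prop := ∀ (ℓ γ : Fin 3 → ℝ), Par ℓ γ → ∀ (y : W3), Pl y → (∀ k, |y k| ≤ 1 / 5) →
  Blk ℓ γ y ![((0 : Fin 3), Ee 0), (0, Ee 1), (0, Ee 2), (2, 0)] ![(0 : Fin 4), 1, 2, 3]
    !![pp 0 y, pp 1 y, pp 2 y, 0; 0, -pp 2 y, pp 1 y, pp 0 y; pp 2 y, 0, -pp 0 y, pp 1 y;
       -pp 1 y, pp 0 y, 0, pp 2 y]

/-- Module BS (hypotheses `hHH : StHH`, `hO : StOut`, `hS : StStrip`, `hS' : StStrip'`). `Nn² + Pp² = 1`. Values: `v_ee, v_ee'`. Outside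
(`link_of_ne`): every coordinate of `w` has modulus `≥ 2/25` and of `w' = w + uu (Ee(k+2) - Ee(k+1))` modulus `≥ 29/1000`, so by `si_ne`
there are no links to `s, t` (for a link of line `i` the `i`-th coordinate of all points involved is the same). Tile links
`n = Ee a - Ee b` (6 cases): the target is in the block or has a coordinate of modulus `≥ 41/40`: from `w`: `Ee(k+1)-Ee(k+2)` and
`Ee k - Ee(k+2)` enlarge `w k`; `Ee k - Ee(k+1)`: coordinate `k+1` is `w(k+1) - ℓ k ≤ -1079/1000`; `Ee(k+1) - Ee k`: coordinate `k+2` is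
`w(k+2) - ℓ(k+1) - ℓ k`; `Ee(k+2) - Ee k`: coordinate `k+2` is `w(k+2) - ℓ k`; from `w'`: the same computations for `-w'`
(`-w' k ≥ 9/10`, `-w'(k+1), -w'(k+2) ≤ -29/1000`, `29/1000 + 999/1000 ≥ 41/40`), roles of `k+1, k+2` exchanged. -/
def StBS : Prop := ∀ (ℓ γ : Fin 3 → ℝ), Par ℓ γ → ∀ (k : Fin 3) (w : W3), Pl w → Strip k w →
  Blk ℓ γ w ![((0 : Fin 3), (0 : Z3)), (0, Ee (k + 2) - Ee (k + 1))] ![(0 : Fin 4), k.succ]
    !![gg ℓ w, gg ℓ (w + uu ℓ (Ee (k + 2) - Ee (k + 1)));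
       -gg ℓ (w + uu ℓ (Ee (k + 2) - Ee (k + 1))), gg ℓ w]

/-- Module BA (hypotheses `hO : StOut'`). `w(i+2) = ℓ x - w i / 2`, `w(i+1) = -ℓ x - w i / 2` with `x = XX ℓ i w`. `w` satisfies `Rp i`, so
`pp i w = 0, pp (i+1) w = Nn (w i), pp (i+2) w = Pp (w i)`, `si i w = Nn Pp`, `fA = 1`. `w + uu (Ee i)` has `(i+2)`-coordinate
`≥ 21/20`: `gg = 0`, `EE j = AA j ^ 2`: `AA i = 0, AA (i+1) = Pp (w i), AA (i+2) = Nn (w i)`. Outside: `link_of_ne`; line `i`: `XX`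
conditions (`XX (w + uu (Ee i)) = x + 1 ≤ 4/3`); other lines `i'`: coordinate `i'` of `w` resp. `w + uu (Ee i)` has modulus `≥ 1/10`,
contradiction to `si_ne`; links of `e@w+u_i` to `s` on line `i`: coordinate `i+1` of `-(w + uu (Ee i))`, `-(w + 2 uu (Ee i))` is `> 1/50`. -/
def StBA : Prop := ∀ (ℓ γ : Fin 3 → ℝ), Par ℓ γ → ∀ (i : Fin 3) (w : W3), Pl w →
  |w i| ≤ 1 / 50 → 3 / 20 ≤ XX ℓ i w → XX ℓ i w ≤ 1 / 3 →
  Blk ℓ γ w ![((2 : Fin 3), (0 : Z3)), (0, Ee i)] ![(i + 1).succ, (i + 2).succ]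
    !![Nn (w i), Pp (w i); Pp (w i), -Nn (w i)]

/-- Module BQ (hypothesis `hO : StOut'`). As module BA. `w, w + uu (Ee i)` satisfy `Rp i`, and so does `-(w - uu (Ee i))` (as `XX ≤ 1/2`); the
point `w + uu (Ee i)` has `(i+2)`-coordinate `≥ 21/20`. Values: `t@w`-`e@w+u`: `fA`; `t@w`-`s@w-u`: `fB_mid1`; `t@w+u`-`e@w+u`: `v_tD` at
`w + u` (only line `i` contributes), `fD (γ i) (x+1) = γ i * sin (mu x)`; `t@w+u`-`s@w-u`: `v_tC` at `w + u`, `fC (x+1) = cos (mu x)`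
(`nu_high`); `t-t` and `e-s` pairs (`n = ±Ee i`, `±2 Ee i`): no such links, value `0`. `γ i ^ 2 = 1`. Orthogonality: `Nn_sq_add`,
`sin² + cos² = 1`. Outside: `link_of_ne`; `t@w`: `fC` needs `x > 1/2`, `fD` needs `x > 4/3`; `t@w+u`: `fA` needs `x+1 < 1/2`, `fB` needs
`x+1 < 2/3`; `s@w-u`: `XX (-(w-u)) = 1 - x`: `fA` needs `1 - x < 1/2`, `fD` needs `1-x > 4/3`; other lines by the coordinate
(modulus `≥ 1/10`). -/
def StBQ : Prop := ∀ (ℓ γ : Fin 3 → ℝ), Par ℓ γ → ∀ (i : Fin 3) (w : W3), Pl w →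
  |w i| ≤ 1 / 50 → 1 / 3 ≤ XX ℓ i w → XX ℓ i w ≤ 1 / 2 →
  let N := Nn (w i)
  let P := Pp (w i)
  let C := Real.cos (mu (XX ℓ i w))
  let S := Real.sin (mu (XX ℓ i w))
  Blk ℓ γ w ![((2 : Fin 3), (0 : Z3)), (2, Ee i), (0, Ee i), (1, -Ee i)]
    ![(i + 1).succ, (i + 1).succ, (i + 2).succ, (i + 2).succ]
    !![N, 0, P * C, -(γ i * (P * S)); 0, N, γ i * (P * S), P * C;
       P, 0, -(N * C), γ i * (N * S); 0, P, -(γ i * (N * S)), -(N * C)]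

/-- Module BC. As module BA, no tile point. `w` satisfies `Rp i`, `-(w - 2u) = 2u - w` too; `s`-diagonal of `w - 2u`: `pp k (2u - w)`,
`(2u - w) i = -w i`, `Nn_neg, Pp_neg`. Value `v_tC`, `fC_mid`. Outside: `t@w`: `fA` (`x ≥ 2/3`), `fB` (`x ≥ 2/3`), `fD` (`x ≤ 4/3`)
vanish; `s@w-2u`: `XX (2u - w) = 2 - x ≥ 2/3`: no `fA, fD`; link `n = Ee i` to `t@w-u` with `XX = x - 1 ≤ 1/3`: no `fB`; other lines by
the coordinate. -/
def StBC : Prop := ∀ (ℓ γ : Fin 3 → ℝ), Par ℓ γ → ∀ (i : Fin 3) (w : W3), Pl w →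
  |w i| ≤ 1 / 50 → 2 / 3 ≤ XX ℓ i w → XX ℓ i w ≤ 4 / 3 →
  Blk ℓ γ w ![((2 : Fin 3), (0 : Z3)), (1, -(Ee i + Ee i))] ![(i + 1).succ, (i + 2).succ]
    !![Nn (w i), Pp (w i); Pp (w i), -Nn (w i)]

/-- Module BD (hypothesis `hO : StOut'`). `w(i+2) ≥ 21/20`. Values: `v_tD` (only line `i` contributes), `fD_high`. Outside: `fA, fB, fC` vanish at
`x ≥ 3/2`; the link `e@w - t@w-u` needs `x - 1 < 1/2`; the rest as in module BA. -/
def StBD : Prop := ∀ (ℓ γ : Fin 3 → ℝ), Par ℓ γ → ∀ (i : Fin 3) (w : W3), Pl w →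
  |w i| ≤ 1 / 50 → 3 / 2 ≤ XX ℓ i w →
  Blk ℓ γ w ![((2 : Fin 3), (0 : Z3)), (0, (0 : Z3))] ![(i + 1).succ, (i + 2).succ]
    !![Nn (w i), γ i * Pp (w i); Pp (w i), -(γ i * Nn (w i))]

/-- Module B1T. `pp_sq_sum`, `pp_nonneg` and `si i w = pp(i+1) pp(i+2) = 0` for all `i` give a `k` with `pp k w = 1` and the others `0`.
Outside: all links from `t` need `si i w ≠ 0` (`link_of_ne`). -/
def StB1t : Prop := ∀ (ℓ γ : Fin 3 → ℝ), Par ℓ γ → ∀ (w : W3), Pl w → (∀ i, si i w = 0) →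
  ∃ k : Fin 3, Blk ℓ γ w ![((2 : Fin 3), (0 : Z3))] ![k.succ] 1

/-- Module B1I (hypotheses `hI : StIn`, `hO : StOut`). Value: `v_ee`. Outside (`link_of_ne`): tile link `n = Ee a - Ee b`: some coordinate of `uu n` is
`± (ℓ a + ℓ b)`, so the target has a coordinate of modulus `≥ 41/40`, `gg = 0`; links to `t, s`: `n = ∓ Ee i` violates the condition on
coordinate `i+1` in `si_ne` (`|w(i+1)| ≤ 19/20 < ℓ i - 1/50`), `n = 0` needs `XX > 4/3`. -/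
def StB1i : Prop := ∀ (ℓ γ : Fin 3 → ℝ), Par ℓ γ → ∀ (w : W3), Pl w → (∀ k, |w k| ≤ 19 / 20) →
  Blk ℓ γ w ![((0 : Fin 3), (0 : Z3))] ![0] 1

/-- Module B1O (hypothesis `hO : StOut'`). `gg w = 0`; all `|w k| ≥ 1/50` and `Pl w`, so the signs are not all equal; let `k` be the index whose sign
differs from the two others: `AA k = 1`, the others `0`. Outside: no tile links; links to `s, t` of line `i` need `|w i| < 1/50`
(coordinate `i` does not change along line `i`). -/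
def StB1o : Prop := ∀ (ℓ γ : Fin 3 → ℝ), Par ℓ γ → ∀ (w : W3), Pl w → (∃ k, 21 / 20 ≤ |w k|) →
  (∀ i, 1 / 50 ≤ |w i|) → ∃ k : Fin 3, Blk ℓ γ w ![((0 : Fin 3), (0 : Z3))] ![k.succ] 1

/-- Module ALLT (hypotheses `h1 : StBT, h2 : StBA, h3 : StBQ, h4 : StBC, h5 : StBD, h6 : StB1t, h7 : StMirBlk`). If all `|w k| ≤ 1/5`: `h1`, index `3`. If all
`si i w = 0`: `h6`. Otherwise `si i w ≠ 0` for some `i`, `|w i| < 1/50`, `x = XX ℓ i w`, `w(i+1) = -ℓ x - w i/2 < 1/50`. If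
`x < 3/20` then all `|w k| ≤ 1/5`. `[3/20,1/3]`: `h2`. `[1/3,1/2]`: `h3`, index `0`. `[1/2,2/3]`: `h7` and `h3` at the base
`v = uu (Ee i) - w` (`XX = 1 - x`), `-w = v + uu (-Ee i)`, index `3`. `[2/3,4/3]`: `h4`. `[4/3,3/2]`: `h3` at `w - uu (Ee i)`, index `1`.
`x ≥ 3/2`: `h5`. -/
def StAllt : Prop := ∀ (ℓ γ : Fin 3 → ℝ), Par ℓ γ → ∀ (w : W3), Pl w → InBlk ℓ γ w 2

/-- Module ALLE (hypotheses `h0 : StCases, h1 : StBT, h2 : StBA, h3 : StBQ, h5 : StBD, h6 : StB1i, h7 : StB1o, h8 : StBS, h9 : StMirBlk`). Cases of `h0`.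
Interior: `h6`. Corner `w = uu (Ee i) + y`: `h1` at `y`, index `i`. Strip: `h8` index `0`. Minus signs: `h9` (`mir 0 = 0`). Outside, all
`|w i| ≥ 1/50`: `h7`. Outside, some `|w i| < 1/50`: then `|w(i+1)|, |w(i+2)| ≥ 103/100` with opposite signs; by `h9` we may assume
`w(i+2) > 0`; `x = XX ℓ i w ≥ 1029/1001`. `x ≥ 3/2`: `h5` index `1`; `4/3 ≤ x ≤ 3/2`: `h3` at `v = w - uu (Ee i)`, index `2`;
`x ≤ 4/3`: `v = w - uu (Ee i)` has `XX v = x - 1`: if `≥ 3/20` then `h2` at `v`, index `1`; otherwise all `|v k| ≤ 1/5` and `h1` at `v`,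
index `i`. -/
def StAlle : Prop := ∀ (ℓ γ : Fin 3 → ℝ), Par ℓ γ → ∀ (w : W3), Pl w → InBlk ℓ γ w 0

/-- Module ALL (hypotheses `h1 : StAllt, h2 : StAlle, h3 : StMirBlk`). `a = 1`: `mir 1 = 2`, `Pl_neg`. -/
def StAll : Prop := ∀ (ℓ γ : Fin 3 → ℝ), Par ℓ γ → ∀ (w : W3), Pl w → ∀ a, InBlk ℓ γ w a

/-- Module LAT. Some entry `Kr c w n a b ≠ 0`; by `row_t, row_s, row_e` (or directly) it comes from: the diagonal (`n = 0`); the tile: `tc c n ≠ 0`,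
so for `c = 0` `n = Ee i - Ee j` (sum zero), for `c = k.succ` `n = ±(Ee(k+1) - Ee(k+2))` (`n k = 0`); line `i` with
`sg c i ≠ 0`, i.e. `c = (i+1).succ` or `(i+2).succ`, and `n ∈ {0, ±Ee i, ±2 Ee i}`, whose coordinates `i+1, i+2` vanish.
All have entries in `[-2, 2]`. -/
def StLat : Prop := ∀ (ℓ γ : Fin 3 → ℝ) (c : Fin 4) (w : W3) (n : Z3), Kr ℓ γ c w n ≠ 0 →
  n ∈ Sh ∧ Lat c n

/-- Module SUM (hypothesis `hA : StAll`). Entry `(a, b)` at `w`: take the block of `a @ w`, `a = (P i).1`, `w = w' + uu (P i).2`. If no `P j = (b, (P i).2 + n)` then all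
entries are `0` (field `out`) and `(a,b,n)` is not diagonal. Otherwise `n = (P j).2 - (P i).2`, and
`∑ c, ∑ r, [col r = c] O r i O r j = (Oᵀ O) i j = δ` (`O` square with `O Oᵀ = 1`), and `i = j` iff (`a = b` and `n = 0`) by injectivity. -/
def StSum : Prop := ∀ (ℓ γ : Fin 3 → ℝ), Par ℓ γ → ∀ (w : W3), Pl w → ∀ n : Z3,
  ∑ c, Kr ℓ γ c w n = if n = 0 then 1 else 0

/-- Module IDEM (hypotheses `hA : StAll`, `hL : StLat`). Entry `(a, b)`; block of `a @ w` as in module SUM. In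
`∑ n, ∑ b', Kr c w n a b' * Kr c (w + uu n) (m - n) b' b` the first factor is `0` unless `P j = (b', (P i).2 + n)` for a (unique) `j`, and
then `w + uu n = w' + uu (P j).2`; so the sum is a sum over `j` (the needed `n = (P j).2 - (P i).2` with nonzero factor are in `Sh` by `hL`). If no
`P l = (b, (P i).2 + m)` both sides vanish (`out` at `j`); otherwise `∑ j, M i j * M j l = M i l` for
`M = Oᵀ diag(col = c) O`, by `O Oᵀ = 1`. -/
def StIdem : Prop := ∀ (ℓ γ : Fin 3 → ℝ), Par ℓ γ → ∀ (c : Fin 4) (w : W3), Pl w → ∀ m : Z3,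
  ∑ n ∈ Sh, Kr ℓ γ c w n * Kr ℓ γ c (w + uu ℓ n) (m - n) = Kr ℓ γ c w m

/-- Module DN. The normalization is positive: each `md y > 0` (`md_pos`); at most one of the six terms `md y - 1`
(`y = w - uu (Ee i)` or `-w - uu (Ee i)`) differs from `0`: if `md y ≠ 1` then all `|y k| < 1/25` by `core_or` (`md_Rp, md_Rm`), and two
different ones of the six corners `±uu (Ee i)` differ by more than `2/25` in some coordinate. So `dn` is `1` or one of the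
`md y`. -/
def StDn : Prop := ∀ (ℓ γ : Fin 3 → ℝ), Par ℓ γ → ∀ w, Pl w → 0 < dn ℓ w

/-- Module SMA (hypothesis `hD : StDn`). `Nn, Pp` are smooth (`Basic`), `HH` too (`Real.smoothTransition.contDiff`); `md` is `sqrt` of a
positive smooth function along the plane (`mm_sum_pos`), also at the shifted points (`Pl_add, Pl_sub, Pl_neg, Pl_uu`);
`pp = mm / md` with `md > 0` (`md_pos`); `gg = wt / dn` with `hD`. -/
def StSma : Prop := ∀ (ℓ γ : Fin 3 → ℝ), Par ℓ γ → ∀ (f : (Fin 2 → ℝ) → W3), ContDiff ℝ ∞ f →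
  (∀ x, Pl (f x)) → ContDiff ℝ ∞ (fun x => gg ℓ (f x)) ∧
  ∀ k, ContDiff ℝ ∞ (fun x => pp k (f x)) ∧ ContDiff ℝ ∞ (fun x => EE ℓ k (f x))

/-- Module SM (hypothesis `hS : StSma`). `Kr` is a finite sum of products (`row_t, row_s, row_e` or the definition; the `if`
conditions do not depend on the point); apply `hS` to `f`, `-f`, `f + uu n`, `-(f + uu n)`; `si = pp * pp`; `fA, fB, fC, fD` are
smooth, `XX` is linear. -/
def StSm : Prop := ∀ (ℓ γ : Fin 3 → ℝ), Par ℓ γ → ∀ (f : (Fin 2 → ℝ) → W3), ContDiff ℝ ∞ f →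
  (∀ x, Pl (f x)) → ∀ (c : Fin 4) (n : Z3) (a b : Fin 3),
  ContDiff ℝ ∞ (fun x => Kr ℓ γ c (f x) n a b)

/-- Module NEAR (hypotheses `h1 : StB1i`, `h2 : StOut`). First part: fields `out, val` of `h1` with `N = 1`. Second: `sg 0 i = 0`, `Dg 0 = ![gg², 0, 0]`. Third:
`gg w = 0` by `h2` (`103/100 ≥ 41/40`). -/
def StNear : Prop := ∀ (ℓ γ : Fin 3 → ℝ), Par ℓ γ → ∀ (c : Fin 4) (w : W3), Pl w → ∀ n : Z3,
  ((∀ k, |w k| ≤ 9 / 10) → ∀ b, Kr ℓ γ c w n 0 b = if c = 0 ∧ n = 0 ∧ b = 0 then 1 else 0) ∧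
  (∀ a b, ¬ (a = 0 ∧ b = 0) → Kr ℓ γ 0 w n a b = 0) ∧
  (∀ k, 103 / 100 ≤ |w k| → Kr ℓ γ 0 w n = 0)

/-! ### The gauge (here `γ = ![-1, 1, 1]`) -/

/-- The signs. -/
def g0 : Fin 3 → ℝ := ![-1, 1, 1]

/-- Module ZN. The gauge quaternion does not vanish. PROOF. `Cg, Dh ≥ 0` and for every `w`: `Cg w + Dh w ≥ 1`
(with `a = cos (th w / 2) ≥ b = sin (th w / 2) ≥ 0`, `a² + b² = 1`, `0 ≤ th w / 2 ≤ π/4`: `Cg w = a - b`, `Dh w = √2 b`; only positivity of one of them is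
needed). Put `B = z0 + z1 - z2`. For `qq w`: `B(qq) = d0 c1 c2 + 2r d0 d1 c2 + 3/2 c0 d1 c2 + 2r c0 d1 d2 + 3/2 c0 c1 d2 + 2r d0 c1 d2`
(all coefficients positive), and `B(1,0,0,0) = 1`; so `B(zz w) = (1 - ta w) + ta w * B(qq w)`, `0 ≤ ta ≤ 1`. If `B(zz w) = 0` then `ta w = 1` and
`B(qq w) = 0`; but `B(qq w) > 0`: along the plane with `ta w > 0` not all `|w k|` are small, so by `core_or` (if all `|w k| < 1/25` then
`ta w = 0`) `Rp` or `Rm` holds for some `i`, two of the `c, d` of indices `i+1, i+2` are `1` (`Cg = 1, Dh = 0` at `≤ -1/50`,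
`Cg = 0, Dh = 1` at `≥ 1/50`) and `B(qq) ≥ min(1, 2r) * (Cg (w i) + Dh (w i)) > 0`. Hence `zz w ≠ 0`. -/
def StZn : Prop := ∀ w, Pl w → 0 < zn w

/-- Module ROT (hypothesis `hZ : StZn`). `rotm z * (rotm z)ᵀ = (z0²+z1²+z2²+z3²)² • 1` (polynomial identity, `ring` entrywise), same for
the transpose; divide by `zn²`. -/
def StRot : Prop := ∀ w, Pl w → Fm w * (Fm w)ᵀ = 1 ∧ (Fm w)ᵀ * Fm w = 1

/-- Module FSM (hypothesis `hZ : StZn`). Smoothness of the gauge: `th, ta, Cg, Dh, qq, zz, zn` are smooth functions of `w`, `zn ≠ 0`. -/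
def StFsm : Prop := ∀ (f : (Fin 2 → ℝ) → W3), ContDiff ℝ ∞ f → (∀ x, Pl (f x)) →
  ∀ a b, ContDiff ℝ ∞ (fun x => Fm (f x) a b)

/-- Module FIN. If all `|w k| ≤ 11/10` and `Pl w` then `w0²+w1²+w2² ≤ 2 * (11/10)² ≤ 5/2` (the sum of squares is at most twice the square of
the largest one, as the two others have a sum `∓ max`; e.g. if `w k` is the one whose sign differs from the two others,
`w(k+1)² + w(k+2)² ≤ (w(k+1) + w(k+2))² = w k ²`). So `ta w = 0`, `zz w = ![1,0,0,0]`, `zn w = 1`, `rotm = 1`. -/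
def StFin : Prop := ∀ w, Pl w → (∀ k, |w k| ≤ 11 / 10) → Fm w = 1

/-- Frame vectors near the ray of `u_i`; components in the sheets `e, s, t`. -/
def vP (i k : Fin 3) (w : W3) : Fin 3 → ℝ :=
  if k = i then ![0, 1, 0] else if k = i + 1 then ![g0 i * Pp (w i), 0, Nn (w i)]
  else ![-(g0 i * Nn (w i)), 0, Pp (w i)]

/-- Frame vectors near the ray of `-u_i`. -/
def vM (i k : Fin 3) (w : W3) : Fin 3 → ℝ :=
  if k = i then ![0, 0, 1] else if k = i + 1 then ![g0 i * Nn (w i), Pp (w i), 0]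
  else ![-(g0 i * Pp (w i)), Nn (w i), 0]

/-- Module RAWP (hypotheses `hO' : StOut'`, `hO : StOut`). Raw pattern far out near the ray of `u_i` (or in the two adjacent
sectors). All entries with `n ≠ 0` vanish (`link_of_ne`): tile: `gg w = 0`; `fA, fB, fC`-links of line `j` at `t@w` need
`si j w ≠ 0`, so `|w j| < 1/50`, `w (j+1) < 1/50`, `-1/50 < w (j+2)`, then `|w(j+1)|, |w (j+2)| ≥ 168/100` and
`XX j w ≥ 3/2` where they vanish; at `s@w`: the same for `-w` (the links to `t@w+n u` have `XX (w + uu n) = n - XX (-w) < 0`); at `e@w`: the links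
to `t@w-u_j` have `XX (w - u_j) = XX w - 1 ≥ 1/2` (or `si = 0`), to `s@w+u_j` the same for `-w`. For `n = 0`: diagonal: `EE k = AA k ²`, `AA i = 0`,
`AA (i+1) = Pp (w i)`, `AA (i+2) = Nn (w i)`; `pp k w` by `pp_Rp`; `pp k (-w)` by `pp_Rm` (`Rm_neg`); `t-e`: `v_tD`, only line `i` has
`si ≠ 0`, `si i w = Nn Pp`, `fD = g0 i` (if `Nn Pp ≠ 0` then `|w i| < 1/50` and `XX ≥ 3/2`); `s-e`: `v_sD`, all `si j (-w) = 0`; `s-t`: `0`.
`g0 i ^ 2 = 1`. -/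
def StRawP : Prop := ∀ (ℓ : Fin 3 → ℝ), Par ℓ g0 → ∀ (w : W3), Pl w → (∃ k, 17 / 10 ≤ |w k|) →
  ∀ i : Fin 3, Rp i w → ∀ (c : Fin 4) (n : Z3), Kr ℓ g0 c w n =
    if n = 0 then (Fin.cases 0 (fun k => Matrix.vecMulVec (vP i k w) (vP i k w)) c :
      Matrix (Fin 3) (Fin 3) ℝ) else 0

/-- Module RAWM (hypotheses `hM : StMir`, `hR : StRawP`). Apply `hR` to `-w` and translate with `hM` (`Nn_neg, Pp_neg`, `mir`). -/
def StRawM : Prop := ∀ (ℓ : Fin 3 → ℝ), Par ℓ g0 → ∀ (w : W3), Pl w → (∃ k, 17 / 10 ≤ |w k|) →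
  ∀ i : Fin 3, Rm i w → ∀ (c : Fin 4) (n : Z3), Kr ℓ g0 c w n =
    if n = 0 then (Fin.cases 0 (fun k => Matrix.vecMulVec (vM i k w) (vM i k w)) c :
      Matrix (Fin 3) (Fin 3) ℝ) else 0

/-- Module COLP. PROOF. `w0²+w1²+w2² ≥ 3/2 * (17/10)²`, so `ta w = 1` and `zz w = qq w`. With `a = cos (th (w i) / 2)`, `b = sin (th (w i) / 2)`:
`Cg (w i) = a - b`, `Dh (w i) = √2 * b`, `Nn (w i) = a² - b²`, `Pp (w i) = 2ab`, `a² + b² = 1`; the indices `i+1, i+2` have `Cg, Dh ∈ {0, 1}`.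
E.g. `i = 0`: `qq w = ![(a+b)/2, (a-b)/2, -(a+b)/2, -(a-b)/2]`. Then `zn w = 1` and the `9 * 3` entries are polynomial identities in `a, b`
modulo `a² + b² = 1` (`fin_cases i`, `fin_cases k`; `linear_combination`). -/
def StColP : Prop := ∀ (w : W3), Pl w → (∃ k, 17 / 10 ≤ |w k|) → ∀ i : Fin 3, Rp i w → ∀ k,
  Fm w * Matrix.single k k 1 * (Fm w)ᵀ = Matrix.vecMulVec (vP i k w) (vP i k w)

/-- Module COLM. As module COLP (another three rays). -/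
def StColM : Prop := ∀ (w : W3), Pl w → (∃ k, 17 / 10 ≤ |w k|) → ∀ i : Fin 3, Rm i w → ∀ k,
  Fm w * Matrix.single k k 1 * (Fm w)ᵀ = Matrix.vecMulVec (vM i k w) (vM i k w)

/-! ### The physical pattern in the plane -/

/-- Everything that is needed of the physical pattern. -/
structure Phys (ℓ : Fin 3 → ℝ) (K : Fin 4 → W3 → Z3 → Matrix (Fin 3) (Fin 3) ℝ) : Prop where
  smooth : ∀ (f : (Fin 2 → ℝ) → W3), ContDiff ℝ ∞ f → (∀ x, Pl (f x)) → ∀ (c : Fin 4) (n : Z3)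
    (a b : Fin 3), ContDiff ℝ ∞ (fun x => K c (f x) n a b)
  lat : ∀ c w n, K c w n ≠ 0 → n ∈ Sh ∧ Lat c n
  symm : ∀ c w, Pl w → ∀ n, K c (w + uu ℓ n) (-n) = (K c w n)ᵀ
  sum : ∀ w, Pl w → ∀ n, ∑ c, K c w n = if n = 0 then 1 else 0
  idem : ∀ c w, Pl w → ∀ m, ∑ n ∈ Sh, K c w n * K c (w + uu ℓ n) (m - n) = K c w m
  far : ∀ w, Pl w → (∃ k, 17 / 10 ≤ |w k|) → ∀ c n, K c w n =
    if n = 0 then (Fin.cases 0 (fun k => Matrix.single k k 1) c : Matrix (Fin 3) (Fin 3) ℝ) else 0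
  near : ∀ w, Pl w → (∀ k, |w k| ≤ 9 / 10) → ∀ c n b,
    K c w n 0 b = if c = 0 ∧ n = 0 ∧ b = 0 then 1 else 0
  zero : ∀ w, Pl w → ∀ n a b, ¬ (a = 0 ∧ b = 0) → K 0 w n a b = 0

/-- Module PHYS (hypotheses `hL : StLat, hS : StSum, hI : StIdem, hSm : StSm, hN : StNear, hR : StRot, hF : StFsm, hFi : StFin,
h1 : StRawP, h2 : StRawM, h3 : StColP, h4 : StColM`). `Par ℓ g0` holds. Everything is conjugated by the pointwise rotation `Fm`:
`smooth` from `hSm, hF`; `lat, symm, sum, idem` from `Fm Fmᵀ = 1` at all points and `Kr_symm`; `far`: `core_or` gives `Rp` or `Rm` of some `i`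
(`|w k| ≥ 17/10`), then `h1, h3` resp. `h2, h4` give `Kr c w 0 = Fm w * single k k 1 * (Fm w)ᵀ`; `near`: `Fm w = 1` and row `0` of `Kr` is `δ`; `zero`: if `Kr 0 w n ≠ 0`
then all `|w k| < 103/100` (`hN`) and, by `Kr_symm`, all `|(w + uu n) k| < 103/100`, so both gauges are `1`. -/
def StPhys : Prop := ∀ (ℓ : Fin 3 → ℝ), (∀ i, |ℓ i - 1| ≤ 1 / 1000) → Phys ℓ (Kp ℓ g0)

end Pool.Agent.Helper56.EX
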