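import Pool.Agent.Helper54.Wav.Final
import Pool.Agent.Helper54.Wav.Reduce
import Pool.Agent.Helper54.Wav.Stmt2
import Pool.Agent.Helper54.Wav.Exp
import Pool.Agent.Helper48.Wav.W7

/-!
# Project EX (MP_d629b1): statements of the modules, part 2 (windows, freeness, assembly)
-/

set_option autoImplicit false

open Matrix MeasureTheory
open scoped ContDiff ComplexConjugate FourierTransform SchwartzMap
open Pool.Agent.Helper54.Wav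

noncomputable section

namespace Pool.Agent.Helper56.EX

/-! ### Part A: windows in the third direction -/

/-- The window: `1` for `|x| ≤ 1/3`, `0` for `|x| ≥ 2/3`, `ph x ^ 2 + ph (1-|x|) ^ 2 = 1`. -/
def ph (x : ℝ) : ℝ := Real.cos (Real.pi / 2 * Real.smoothTransition (3 * |x| - 1))

/-- `sqrt (ph (x/2)² - ph x ²)`. -/
def bw (x : ℝ) : ℝ := ph (x / 2) * ph (1 - |x|)

/-- The four windows. -/
def Om (a : Fin 4) (x : ℝ) : ℂ :=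
  ![(ph x : ℂ), ee (x / 4) * (bw (x / 2) / Real.sqrt 2 : ℝ), ee (3 * x / 8) * (bw (x / 4) / 2 : ℝ),
    ee (7 * x / 8) * (bw (x / 4) / 2 : ℝ)] a

/-- Scaled kernels in the third direction. -/
def KZ (a b : Fin 4) (M z l : ℝ) : ℂ :=
  open Classical in if ∃ n : ℤ, l = M * n then Om a (z / M) * conj (Om b ((z + l) / M)) else 0

/-- Module A1. Basic facts on `ph`: values in `[0,1]`, even, plateau, support, smoothness (near `0` it is locally constant, elsewhere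
`|x|` is smooth), partition (`st_one_sub`-type symmetry of `Real.smoothTransition`: see `Pool.Agent.Helper56.EX.st_one_sub` in `Basic`, which
may be imported). -/
def StA1 : Prop := (∀ x, 0 ≤ ph x) ∧ (∀ x, ph (-x) = ph x) ∧ (∀ x, |x| ≤ 1 / 3 → ph x = 1) ∧
  (∀ x, 2 / 3 ≤ |x| → ph x = 0) ∧ ContDiff ℝ ∞ ph ∧
  (∀ x, 0 ≤ x → x ≤ 1 → ph x ^ 2 + ph (1 - x) ^ 2 = 1)

/-- Module A2 (hypothesis `h : StA1`). Support of `bw`: `bw x = 0` for `|x| ≤ 1/3` and `|x| ≥ 4/3`; even; smooth (it vanishes near `0`, elsewhere `|x|` is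
smooth); on `[1/3,2/3]` it is `ph (1-x)`, on `[2/3,4/3]` it is `ph (x/2)`. -/
def StA2 : Prop := (∀ x, 0 ≤ bw x) ∧ (∀ x, bw (-x) = bw x) ∧ (∀ x, |x| ≤ 1 / 3 → bw x = 0) ∧
  (∀ x, 4 / 3 ≤ |x| → bw x = 0) ∧ ContDiff ℝ ∞ bw ∧
  (∀ x, 1 / 3 ≤ x → x ≤ 2 / 3 → bw x = ph (1 - x)) ∧
  (∀ x, 2 / 3 ≤ x → x ≤ 4 / 3 → bw x = ph (x / 2))

/-- Module A3 (hypotheses `h1 : StA1, h2 : StA2`). Smoothness and supports of the four windows (`ee_contDiff`). -/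
def StA3 : Prop := ∀ a : Fin 4, ContDiff ℝ ∞ (Om a) ∧ (∀ x, 16 / 3 ≤ |x| → Om a x = 0) ∧
  (a ≠ 0 → ∀ x, |x| ≤ 2 / 3 → Om a x = 0) ∧ (a = 0 → ∀ x, |x| ≤ 1 / 3 → Om a x = 1) ∧
  (a = 0 → ∀ x, 2 / 3 ≤ |x| → Om a x = 0)

/-- Module A4 (hypotheses `h1 : StA1, h2 : StA2`). The basic periodizations: `∑ ph(x+l)² = 1`, `∑_l bw(x+2l)... `: for every `x`:
(1) `∑ᶠ l, ph (x+l)^2 = 1`;
(2) `∑ᶠ l, bw (x+l)^2 = 1`. PROOF: both are `1`-periodic in `x`, so `0 ≤ x < 1` (shift the index); then only `l = 0, -1` resp. `l = -2, -1, 0, 1`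
contribute: for (2) on `[0,1/3]`: `bw (x+1)^2 + bw (x-1)^2 = ph((1+x)/2)^2 + ph ((1-x)/2)^2 = 1`; on `[1/3,2/3]`: `bw x^2 + bw (x-1)^2 = ph (1-x)^2 + ph x^2 = 1`
(`1 - |x-1| = x`); on `[2/3,1]`: `bw x^2 + bw (x-2)^2 = ph (x/2)^2 + ph (1-x/2)^2 = 1`. -/
def StA4 : Prop := (∀ x : ℝ, ∑ᶠ l : ℤ, ph (x + l) ^ 2 = 1) ∧ (∀ x : ℝ, ∑ᶠ l : ℤ, bw (x + l) ^ 2 = 1)

/-- Module A5 (hypotheses `h1 : StA1, h2 : StA2, h4 : StA4`). The four windows are orthonormal over `ℤ`. PROOF. All sums are finite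
(supports). `a = b = 0`: (1) of `StA4`. `a = b = 1`: `∑_l bw ((x+l)/2)^2 / 2`: split `l` by parity, twice (2). `a, b ∈ {2, 3}`:
`∑_l bw ((x+l)/4)^2 e(..)/4`: split `l = r + 4 m`, `r = 0..3`; `|ee| = 1` for `a = b`; for `a ≠ b` the factor is
`ee (±(x+l)/2)`, and `∑_{r<4} ee (± r/2) = 0`. `a = 0`, `b ≠ 0`: the product vanishes identically (`|x| < 2/3` resp. `> 2/3`). `a = 1`, `b ∈ {2,3}`: put
`y = (x+l)/2`: the product `bw y * bw (y/2)` is supported in `2/3 < |y| < 4/3`, where it is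
`ph (y/2) * ph (1 - |y|/2)`, invariant under `|y| ↦ 2 - |y|`; pair `l` (with `y > 0`) with `l - 4` (`y - 2 < 0`): the phase
`ee ((x+l)/4 - 3(x+l)/8)` resp. `ee ((x+l)/4 - 7(x+l)/8)` changes by `ee (4/8) = -1` resp. `ee (20/8) = -1`. So the sum is `0`. -/
def StA5 : Prop := ∀ (a b : Fin 4) (x : ℝ),
  ∑ᶠ l : ℤ, Om a (x + l) * conj (Om b (x + l)) = if a = b then 1 else 0

/-- Module A6 (hypotheses `h1 : StA1, h2 : StA2`). The two-scale identity. PROOF. If `l` is not an integer or odd, all terms vanish. With `v = z/8`, and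
`l = 2 n`: the three terms with `bw (v) bw (v + l/8)` have the coefficient `½ [4 ∣ l] ee (-l/16) + ¼ [2 ∣ l] (ee (-3l/16) + ee (-7l/16))`
(`z/4/4 = z/16`: the phases are `ee (z/16) * conj (ee ((z+l)/16)) = ee (-l/16)`, etc.; `(z/4)/2 = (z/2)/4 = z/8`), and
`ee (-3l/16) + ee (-7l/16) = ee (-3l/16) (1 + ee (-l/4))`, which is `0` for `l ≡ 2 mod 4`, `2 ee (-3l/16)` for `4 ∣ l`; then
`½ (ee (-l/16) + ee (-3l/16)) = ½ ee (-l/16) (1 + ee (-l/8))`, `0` for `l ≡ 4 mod 8`, and `ee (-l/16) = (-1)^(l/8)` for `8 ∣ l`. So it remains, with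
`l = 8 k`: `ph v ph (v+k) + (-1)^k bw v bw (v+k) = [2 ∣ k] ph (v/2) ph ((v+k)/2)`. `k = 0`: `ph v ^ 2 + bw v ^2 = ph (v/2)^2` (three ranges of `|v|`). `k = ±1`:
`ph v ph (v+1) = bw v bw (v+1)`: for `v ∈ [-2/3,-1/3]` both are `ph (-v) ph (1+v)`, otherwise both vanish. `k = ±2`: `ph v ph (v+2) = 0`, and
`bw v bw (v+2) = ph (v/2) ph (v/2+1)`, both supported in `v ∈ [-4/3,-2/3]`. `|k| ≥ 3`: everything vanishes. -/
def StA6 : Prop := ∀ z l : ℝ,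
  KZ 0 0 8 z l + KZ 1 1 4 z l + KZ 2 2 2 z l + KZ 3 3 2 z l = KZ 0 0 16 z l

/-! ### Part B: real planar kernels are free (after doubling) -/

/-- A real symmetric idempotent kernel over `ℤ²` with `s` sheets. -/
structure PK {s : ℕ} (Q : (Fin 2 → ℝ) → (Fin 2 → ℤ) → Matrix (Fin s) (Fin s) ℝ)
    (Λ : Finset (Fin 2 → ℤ)) (R : ℝ) : Prop where
  smooth : ∀ m a b, ContDiff ℝ ∞ (fun η => Q η m a b)
  supp : ∀ η m, m ∉ Λ → Q η m = 0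
  bdd : ∀ η m, R ≤ ‖η‖ → Q η m = 0
  symm : ∀ η m, Q (η + zv m) (-m) = (Q η m)ᵀ
  idem : ∀ η k, ∑ m ∈ Λ, Q η m * Q (η + zv m) (k - m) = Q η k

/-- Module B1. A generic constant vector is nowhere killed. PROOF. For a set `I` of indices with `2 |I| + n < 2 D` consider the smooth map
`(ξ, c) ↦ ∑_{i ∈ I} c_i (1 - T ξ) e_i` from `ℝⁿ × ℂ^I` to `ℂ^D`; its range has Hausdorff dimension `≤ n + 2|I| < 2 D`
(`ContDiff.dimH_range_le`), so some `v` is in none of these finitely many ranges (`Pool.Agent.Helper48.Wav.exists_notMem_of_dimH`, see the use in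
`Pool/Agent/Helper48/Wav/W7.lean`). If `T ξ v = 0` then `v = (1 - T ξ) v` lies in the range of `1 - T ξ`, which is spanned by some
`|I| = D - rank (T ξ)` of its columns (`rank (1 - T ξ) = D - rank (T ξ)`, idempotent), and `2 (D - rank) + n < 2 D`. Contradiction. -/
def StB1 : Prop := ∀ (n D : ℕ) (T : (Fin n → ℝ) → Matrix (Fin D) (Fin D) ℂ),
  (∀ i j, ContDiff ℝ ∞ (fun ξ => T ξ i j)) → (∀ ξ, T ξ * T ξ = T ξ) →
  (∀ ξ, n < 2 * (T ξ).rank) → ∃ v : Fin D → ℂ, ∀ ξ, T ξ *ᵥ v ≠ 0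

/-- The quaternionic structure. -/
def Jq {D : ℕ} (v : Fin D × Fin 2 → ℂ) : Fin D × Fin 2 → ℂ :=
  fun p => if p.2 = 0 then -conj (v (p.1, 1)) else conj (v (p.1, 0))

/-- Module B2 (hypothesis `h1 : StB1`). Smooth periodic families of Hermitian projections on `ℂ^D ⊗ ℂ²` over `ℝ²`, commuting with `Jq`, have a global smooth
periodic orthonormal frame. PROOF. Induction on `r` with the trace of `T ξ` equal to `r` for one (hence, by continuity and integrality: the trace of an idempotent is its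
rank, a continuous integer-valued function on `ℝ²`, for all) `ξ`. `r = 0`: `T = 0`, `q = 0`. `r > 0`: then `T ξ ≠ 0` for all `ξ`, and the rank is at least `2`, since for
`x = T ξ x ≠ 0` also `Jq x` is in the range and `⟪x, Jq x⟫ = 0` (`Jq (Jq x) = -x`, `⟪Jq x, Jq y⟫ = conj ⟪x, y⟫`). So `2 < 2 rank`, and `h1`
(reindex `Fin D × Fin 2 ≃ Fin (D*2)`) gives `v` with `s ξ = T ξ v / |T ξ v|` smooth, periodic, of norm one. Then `s` and `Jq s` are orthonormal and in the range;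
`T' = T - s s* - (Jq s)(Jq s)*` is again smooth, periodic, Hermitian, idempotent, commutes with `Jq`, with trace `r - 2`. -/
def StB2 : Prop := ∀ (D : ℕ) (T : (Fin 2 → ℝ) → Matrix (Fin D × Fin 2) (Fin D × Fin 2) ℂ),
  (∀ i j, ContDiff ℝ ∞ (fun ξ => T ξ i j)) → Per T → (∀ ξ, (T ξ)ᴴ = T ξ) →
  (∀ ξ, T ξ * T ξ = T ξ) → (∀ ξ v, T ξ *ᵥ Jq v = Jq (T ξ *ᵥ v)) →
  ∃ (q : ℕ) (s : Fin q → (Fin 2 → ℝ) → (Fin D × Fin 2 → ℂ)),
    (∀ n p, ContDiff ℝ ∞ (fun ξ => s n ξ p)) ∧ (∀ n, Per (s n)) ∧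
    (∀ ξ n m, ∑ p, conj (s n ξ p) * s m ξ p = if n = m then 1 else 0) ∧
    (∀ ξ p p', T ξ p p' = ∑ n, s n ξ p * conj (s n ξ p'))

/-- Module B3. A real Parseval family for all shifts by `ℤ²`, valid on a ball. PROOF. Choose a smooth `h : ℝ² → [0,1]`, `h = 1` on `‖η‖ ≤ R`, `h = 0` for `‖η‖ ≥ R+1`
(`Pool.Agent.Helper54.Wav.exists_cutoff`), and an integer `N > 2 (R+1)`. Take the `2 N²` functions
`h(η) cos(2π b·η/N)/N`, `h(η) sin (2π b·η/N)/N`, `b ∈ {0..N-1}²`. Then the sum is `h(η) h(η+m) ∑_b cos (2π b·m/N)/N²`, which is `h(η) h(η+m)` if `N ∣ m`, else `0`; if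
`N ∣ m ≠ 0` then `‖m‖ ≥ N`, so `η` and `η + m` are not both in the support; for `m = 0` it is `h(η)² = 1`. -/
def StB3 : Prop := ∀ R : ℝ, ∃ (B : ℕ) (h : Fin B → (Fin 2 → ℝ) → ℝ),
  (∀ b, ContDiff ℝ ∞ (h b)) ∧ (∃ R', ∀ b η, R' ≤ ‖η‖ → h b η = 0) ∧
  ∀ η, ‖η‖ ≤ R → ∀ m : Fin 2 → ℤ, ∑ b, h b η * h b (η + zv m) = if m = 0 then 1 else 0

/-- Module B4. From the kernel to a periodic real matrix. With the family of `StB3` (radius `R`) put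
`Γ ξ (a,b) (a',b') = ∑_l ∑_{m ∈ Λ} h_b (ξ+l) Q (ξ+l) m a a' h_{b'} (ξ+l+m)` (a locally finite sum over `l ∈ ℤ²`). Then `Γ` is smooth, periodic, symmetric and idempotent, and `Q` is recovered:
`Q η m a a' = ∑_{b,b'} h_b η Γ η (a,b) (a',b') h_{b'} (η+m)`, and `Γ` absorbs the Gram matrix of the family. PROOF. If `Q (ξ+l) m ≠ 0` then `‖ξ+l‖ < R` and, by symmetry, `‖ξ+l+m‖ < R`; so
`∑_b h_b (ξ+l+m) h_b (ξ+l') = [l' = l+m]`. All four claims are this identity; `Γ Γ = Γ` then is `idem`, the symmetry is `symm`. -/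
def StB4 : Prop := ∀ (s : ℕ) (Q : (Fin 2 → ℝ) → (Fin 2 → ℤ) → Matrix (Fin s) (Fin s) ℝ)
  (Λ : Finset (Fin 2 → ℤ)) (R : ℝ), PK Q Λ R →
  ∀ (B : ℕ) (h : Fin B → (Fin 2 → ℝ) → ℝ), (∀ b, ContDiff ℝ ∞ (h b)) →
  (∃ R', ∀ b η, R' ≤ ‖η‖ → h b η = 0) →
  (∀ η, ‖η‖ ≤ R → ∀ m : Fin 2 → ℤ, ∑ b, h b η * h b (η + zv m) = if m = 0 then 1 else 0) →
  ∃ Γ : (Fin 2 → ℝ) → Matrix (Fin s × Fin B) (Fin s × Fin B) ℝ,
    (∀ i j, ContDiff ℝ ∞ (fun ξ => Γ ξ i j)) ∧ Per Γ ∧ (∀ ξ, (Γ ξ)ᵀ = Γ ξ) ∧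
    (∀ ξ, Γ ξ * Γ ξ = Γ ξ) ∧
    (∀ η m a a', Q η m a a' = ∑ b, ∑ b', h b η * Γ η (a, b) (a', b') * h b' (η + zv m)) ∧
    (∀ ξ a b p, (∑ᶠ l : Fin 2 → ℤ, ∑ b', h b (ξ + zv l) * h b' (ξ + zv l) * Γ ξ (a, b') p) =
      Γ ξ (a, b) p)

/-- Frames of a planar kernel (with values in `ℂ^s ⊗ ℂ²`). -/
def HasFrame {s : ℕ} (Q : (Fin 2 → ℝ) → (Fin 2 → ℤ) → Matrix (Fin s) (Fin s) ℝ) : Prop :=
  ∃ (q : ℕ) (S : Fin q → (Fin 2 → ℝ) → Fin s → Fin 2 → ℂ),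
    (∀ n a e, ContDiff ℝ ∞ (fun η => S n η a e)) ∧ (∃ R', ∀ n η, R' ≤ ‖η‖ → S n η = 0) ∧
    (∀ η n, ∑ᶠ l : Fin 2 → ℤ, ∑ a, ∑ e, S n (η + zv l) a e * conj (S n (η + zv l) a e) = 1) ∧
    (∀ η m a a' e e', ∑ n, S n η a e * conj (S n (η + zv m) a' e') =
      if e = e' then (Q η m a a' : ℂ) else 0)

/-- Module B5 (hypotheses `h2 : StB2, h3 : StB3, h4 : StB4`). Every real planar kernel has frames. PROOF. Let `Γ` be as in `h4` with the family `h` of `h3`. The matrix `T ξ ((a,b),e) ((a',b'),e') = [e = e'] Γ ξ (a,b) (a',b')`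
(reindex `Fin s × Fin B ≃ Fin (s*B)`) is Hermitian, idempotent, smooth, periodic and commutes with `Jq` because `Γ` is real. Take its frame `s_n` from `h2` and put `S_n η a e = ∑_b h_b η * s_n η ((a,b),e)`. Kernel:
`∑_n S_n η a e conj (S_n (η+m) a' e') = ∑_{b,b'} h_b η [e=e'] Γ η (a,b) (a',b') h_{b'} (η+m)` (`s_n` is periodic). Gram: the sum is
`∑_{a,e,b,b'} (∑_l h_b h_{b'} (η+l)) s_n conj s_n`, and `s_n = T s_n` with the last claim of `h4` gives `∑_p |s_n η p|² = 1`. -/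
def StB5 : Prop := ∀ (s : ℕ) (Q : (Fin 2 → ℝ) → (Fin 2 → ℤ) → Matrix (Fin s) (Fin s) ℝ)
  (Λ : Finset (Fin 2 → ℤ)) (R : ℝ), PK Q Λ R → HasFrame Q

/-! ### Part D: assembly -/

/-- The planar part. -/
def pl (ξ : Fin 3 → ℝ) : Fin 2 → ℝ := ![ξ 0, ξ 1]

/-- The planar part of an integer vector. -/
def plz (m : Fin 3 → ℤ) : Fin 2 → ℤ := ![m 0, m 1]

/-- Module D1 (hypotheses `h3 : StA3, h5 : StA5`). Tensor product of planar frames and windows. PROOF. Let `S` be a frame of `Q`, `M = 2 M'`. For `n` and `b < M'` put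
`g (n,b) ξ = ∑_{a,e} S_n (pl ξ) a e * Om (om a) (ξ 2 / M) * ee ((2b+e) ξ 2 / M) / √M`. Kernel at an integer `m`: the sum over `n` gives `[e=e'] Q a a'`, the sum over `b, e` of
`ee (-(2b+e) m 2/M)/M` is `[M ∣ m 2]` (`sum_ee_fin`). Norm (`norm_one_of_gram`): for `ξ`, the sum over `m 2 = r + M l` of
`Om (om a) conj (Om (om a'))((ξ 2 + r)/M + l)` is `δ_{a a'}` (`h5`, `om` injective), then `∑_{r<M} ee ((e-e')(ξ 2+r)/M)/M = δ_{e e'}` (`M ≥ 2`), and the rest is the Gram identity of `S`. Last claim: the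
kernel of `S` at `m = 0` gives `∑_n |S_n η a e|² = Q η 0 a a`. -/
def StD1 : Prop := ∀ (Q : (Fin 2 → ℝ) → (Fin 2 → ℤ) → Matrix (Fin 3) (Fin 3) ℝ), HasFrame Q →
  ∀ (om : Fin 3 → Fin 4), Function.Injective om → ∀ M : ℕ, 0 < M → 2 ∣ M →
  ∃ (L : ℕ) (g : Fin L → (Fin 3 → ℝ) → ℂ), (∀ l, ContDiff ℝ ∞ (g l)) ∧
    (∀ l, HasCompactSupport (g l)) ∧ (∀ l, ∫ ξ, ‖g l ξ‖ ^ 2 = 1) ∧
    (∀ ξ (m : Fin 3 → ℤ), ∑ l, g l ξ * conj (g l (ξ + zv m)) =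
      ∑ a, ∑ b, (Q (pl ξ) (plz m) a b : ℂ) * KZ (om a) (om b) M (ξ 2) (m 2)) ∧
    (∀ l ξ, (∀ a, Q (pl ξ) 0 a a = 0 ∨ Om (om a) (ξ 2 / M) = 0) → g l ξ = 0)

/-- The planar pattern in actual coordinates, for the dilation `B`, with the norm `ν`. -/
structure Pat (B : Matrix (Fin 2) (Fin 2) ℝ) (ν : Seminorm ℝ (Fin 2 → ℝ))
    (K : Fin 4 → (Fin 2 → ℝ) → (Fin 2 → ℝ) → Matrix (Fin 3) (Fin 3) ℝ)
    (Λ : Fin 4 → Finset (Fin 2 → ℝ)) : Prop where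
  nu_pos : ∀ x, ν x = 0 → x = 0
  expand : ∀ x, 2 * ν x ≤ ν (B *ᵥ x)
  smooth : ∀ c l a b, ContDiff ℝ ∞ (fun η => K c η l a b)
  supp : ∀ c η l, l ∉ Λ c → K c η l = 0
  lat : ∀ c, ∀ l ∈ Λ c, ∃ m : Fin 2 → ℤ, l = (B ^ (c : ℕ)) *ᵥ zv m
  symm : ∀ c η l, K c (η + l) (-l) = (K c η l)ᵀ
  idem : ∀ c η k, ∑ l ∈ Λ c, K c η l * K c (η + l) (k - l) = K c η k
  sum : ∀ η l, ∑ c, K c η l = if l = 0 then 1 else 0
  far : ∀ η, 17 / 10 ≤ ν η → ∀ c l, K c η l =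
    if l = 0 then (Fin.cases 0 (fun k => Matrix.single k k 1) c : Matrix (Fin 3) (Fin 3) ℝ) else 0
  near : ∀ η, ν η ≤ 9 / 10 → ∀ c l b, K c η l 0 b = if c = 0 ∧ l = 0 ∧ b = 0 then 1 else 0
  zero : ∀ η l a b, ¬ (a = 0 ∧ b = 0) → K 0 η l a b = 0

/-- The four planar kernels of the generators. -/
def QQ4 (B : Matrix (Fin 2) (Fin 2) ℝ)
    (K : Fin 4 → (Fin 2 → ℝ) → (Fin 2 → ℝ) → Matrix (Fin 3) (Fin 3) ℝ) (i : Fin 4)
    (η : Fin 2 → ℝ) (m : Fin 2 → ℤ) : Matrix (Fin 3) (Fin 3) ℝ :=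
  Fin.cases (K 0 η (zv m)) (fun k => K k.succ ((B ^ (k.succ : ℕ)) *ᵥ η) ((B ^ (k.succ : ℕ)) *ᵥ zv m) +
    Matrix.single k k (K 0 η (zv m) 0 0 - if m = 0 then 1 else 0)) i

/-- Module D2. The four planar kernels satisfy `PK`. PROOF. Put `p = k+1`, `C = B ^ p`. `ν (C x) ≥ 2 ν x ≥ ν x`. `R`: choose it such that `‖η‖ ≥ R` implies `ν η ≥ 17/10` (`le_seminorm` in
`Pool/Agent/Helper54/Wav/Template.lean`). `Λ` = the finite set of integer `m` with `zv m ∈ Λ 0` or `C (zv m) ∈ Λ k.succ` (`C` is injective, as `ν (C x) ≥ ν x`). Boundedness: for `ν η ≥ 17/10` both terms are in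
the far state: `single k k 1 [m = 0] + single k k (0 - [m = 0]) = 0`. Idempotent: (i) if `ν η ≤ 9/10` then `K 0 η l 0 0 = [l = 0]` for all `l`, so the second term vanishes and the row is that of `K k.succ` at `C η`; every `m ≠ 0` with
`K k.succ (C η) (C m) ≠ 0` satisfies `ν (C (η+m)) < 17/10` (by `symm` and `far`), hence `ν (η+m) < 9/10` and the row at `η + m` is also that of `K k.succ`: use `idem` of `K k.succ` (sum over `Λ k.succ`, which consists of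
`C (zv m)`: field `lat`, `B ^ (c : ℕ) *ᵥ zv m`). (ii) if `ν η > 9/10` then `ν (C η) ≥ 9/5 ≥ 17/10`, the first term is `single k k 1 [m = 0]` and the row is `single k k (K 0 η m 0 0)`; every `m ≠ 0` with `K 0 η m 0 0 ≠ 0`
satisfies `ν (η + m) > 9/10` (by `symm` and `near`), so the row at `η + m` has the same form: use `idem` of `K 0` (entry `0 0`; the entries of `K 0` other than `0 0` vanish). Symmetry and smoothness are clear.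
For `i = 0` everything is a field of `Pat` (`lat` with `c = 0`). -/
def StD2 : Prop := ∀ (B : Matrix (Fin 2) (Fin 2) ℝ) (ν : Seminorm ℝ (Fin 2 → ℝ))
  (K : Fin 4 → (Fin 2 → ℝ) → (Fin 2 → ℝ) → Matrix (Fin 3) (Fin 3) ℝ)
  (Λ : Fin 4 → Finset (Fin 2 → ℝ)), Pat B ν K Λ →
  ∀ i, ∃ (Λ' : Finset (Fin 2 → ℤ)) (R : ℝ), PK (QQ4 B K i) Λ' R

/-- The `3 × 3` matrix `A = Bᵀ ⊕ 2`, so `Aᵀ = B ⊕ 2`. -/
def A3 (B : Matrix (Fin 2) (Fin 2) ℝ) : Matrix (Fin 3) (Fin 3) ℝ :=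
  !![B 0 0, B 1 0, 0; B 0 1, B 1 1, 0; 0, 0, 2]

/-- Module D3. Powers of `Aᵀ = B ⊕ 2`. -/
def StD3 : Prop := ∀ (B : Matrix (Fin 2) (Fin 2) ℝ), B.det ≠ 0 → ∀ (j : ℤ) (ξ : Fin 3 → ℝ),
  (A3 B).det ≠ 0 ∧ pl (((A3 B)ᵀ ^ j) *ᵥ ξ) = (B ^ j) *ᵥ pl ξ ∧
  (((A3 B)ᵀ ^ j) *ᵥ ξ) 2 = 2 ^ j * ξ 2

/-- Kernel of colour `c` of the basic pattern in `ℝ³`, as a function of planar and third coordinates. -/
def KK (K : Fin 4 → (Fin 2 → ℝ) → (Fin 2 → ℝ) → Matrix (Fin 3) (Fin 3) ℝ) (c : Fin 4)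
    (η l : Fin 2 → ℝ) (z y : ℝ) : ℂ :=
  ∑ a : Fin 3, ∑ b : Fin 3, (K c η l a b : ℂ) * KZ a.castSucc b.castSucc 16 z y

/-- The difference to the far state. -/
def DD0 (K : Fin 4 → (Fin 2 → ℝ) → (Fin 2 → ℝ) → Matrix (Fin 3) (Fin 3) ℝ) (c : Fin 4)
    (η l : Fin 2 → ℝ) (z y : ℝ) : ℂ :=
  KK K c η l z y - Fin.cases 0 (fun k : Fin 3 =>
    open Classical in if l = 0 then KZ k.castSucc k.castSucc 16 z y else 0) c

/-- The kernel of the wavelet space. -/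
def P0 (B : Matrix (Fin 2) (Fin 2) ℝ)
    (K : Fin 4 → (Fin 2 → ℝ) → (Fin 2 → ℝ) → Matrix (Fin 3) (Fin 3) ℝ) (ξ μ : Fin 3 → ℝ) : ℂ :=
  ∑ c : Fin 4, DD0 K c ((B ^ (c : ℕ)) *ᵥ pl ξ) ((B ^ (c : ℕ)) *ᵥ pl μ) (2 ^ (c : ℕ) * ξ 2)
    (2 ^ (c : ℕ) * μ 2)

/-- Module D4 (hypothesis `h6 : StA6`). The kernel `P0` at integer shifts is the sum of the four tensor kernels, and it vanishes at the other shifts. PROOF. `KZ a b 16 (2^p z) (2^p l) = KZ a b (16/2^p) z l`. For an integer `m`: the terms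
`c = k.succ` of `P0` are `∑_{a,b} K k.succ (Bᵖη) (Bᵖ m) a b KZ a b (M_i) - [m planar part = 0] KZ k k (M_i)` with `i = k.succ`, `M = ![2,8,4,2]`, and `c = 0` is
`K 0 η m 0 0 * KZ 0 0 16 = K 0 η m 0 0 * (KZ 0 0 8 + KZ 1 1 4 + KZ 2 2 2 + KZ 3 3 2)` by `h6` (`Pat.zero`: only the entry `0 0`). Regroup. `B` is injective (`B x = 0` implies `ν x = 0`), so `Bᵖ m = 0` iff `m = 0`. For a non-integer `μ`: a term `c` with a nonzero
`KZ .. 16 (2^c μ 2)` has `2^c μ 2 = 16 n`, so `μ 2` is an integer (`c ≤ 3`); `K c _ (B^c (pl μ)) ≠ 0` or `B^c (pl μ) = 0` imply `pl μ` integer (`supp`, `lat`, `B` injective). -/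
def StD4 : Prop := ∀ (B : Matrix (Fin 2) (Fin 2) ℝ) (ν : Seminorm ℝ (Fin 2 → ℝ))
  (K : Fin 4 → (Fin 2 → ℝ) → (Fin 2 → ℝ) → Matrix (Fin 3) (Fin 3) ℝ)
  (Λ : Fin 4 → Finset (Fin 2 → ℝ)), Pat B ν K Λ →
  (∀ ξ (m : Fin 3 → ℤ), P0 B K ξ (zv m) = ∑ i : Fin 4, ∑ a : Fin 3, ∑ b : Fin 3,
    (QQ4 B K i (pl ξ) (plz m) a b : ℂ) *
      KZ (if i = 0 then (if a = 0 then 3 else a.castSucc) else a.castSucc)
        (if i = 0 then (if b = 0 then 3 else b.castSucc) else b.castSucc)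
        ((![2, 8, 4, 2] i : ℕ) : ℝ) (ξ 2) (m 2)) ∧
  (∀ ξ μ, (¬ ∃ m : Fin 3 → ℤ, μ = zv m) → P0 B K ξ μ = 0)

/-- Module D5 (hypothesis `h : StA3`). The partial sums. For `j : ℤ` put (with `η_j = B^(-j) η`, `z_j = 2^(-j) z`, etc.) `X j = D_0(j) + D_0(j-1) + D_0(j-2) + D_1(j-1) + D_1(j-2) + D_2(j-2)`,
`D_c(j) = DD0 K c η_j l_j z_j y_j`. For `j` large `X j = [l = 0 and y = 0]`, for `-j` large `X j = 0`, provided `(η, z) ≠ 0`. PROOF. `j → ∞`: `ν (η_j) ≤ 2^(-j) ν η ≤ 9/10`, `|z_j| ≤ 1`, so (windows at `z_j/16`: `Om 0 = 1`, the others `0`)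
`D_0(j) = [l = 0] KZ 0 0 16 z_j y_j` (`near`), which is `[l = 0][y = 0]` for `j` large (`y_j = 16 n` with `|y_j| < 16` forces `y = 0`; if `y = 0` it is `Om 0 (z_j/16)^2 = 1`); `D_1(j) = 0 - [l=0][y=0]` (row `0` of `K 1` vanishes, the windows `1, 2` vanish at `z_j/16`),
`D_2(j) = 0`. So `X j = 3 δ - 2 δ`. `j → -∞`: if `z ≠ 0` all windows vanish (`|z_j/16| ≥ 16/3`). If `z = 0` then `η ≠ 0`, `ν (η_j) ≥ 2^(-j) ν η ≥ 17/10`: far state: `D_0 = 0`, and `D_c = 0` for `c ≥ 1`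
(`KK = [l=0] KZ k k 16`). -/
def StD5 : Prop := ∀ (B : Matrix (Fin 2) (Fin 2) ℝ) (ν : Seminorm ℝ (Fin 2 → ℝ))
  (K : Fin 4 → (Fin 2 → ℝ) → (Fin 2 → ℝ) → Matrix (Fin 3) (Fin 3) ℝ)
  (Λ : Fin 4 → Finset (Fin 2 → ℝ)), Pat B ν K Λ → ∀ (η l : Fin 2 → ℝ) (z y : ℝ),
  (η ≠ 0 ∨ z ≠ 0) → ∃ J : ℕ, ∀ j : ℤ,
    let D := fun (c : Fin 4) (i : ℤ) => DD0 K c ((B ^ (-i)) *ᵥ η) ((B ^ (-i)) *ᵥ l)
      (2 ^ (-i) * z) (2 ^ (-i) * y)
    ((J : ℤ) ≤ j → D 0 j + D 0 (j - 1) + D 0 (j - 2) + D 1 (j - 1) + D 1 (j - 2) + D 2 (j - 2) =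
      open Classical in if l = 0 ∧ y = 0 then 1 else 0) ∧
    (j ≤ -(J : ℤ) → D 0 j + D 0 (j - 1) + D 0 (j - 2) + D 1 (j - 1) + D 1 (j - 2) + D 2 (j - 2) = 0)

/-- Module D6 (hypotheses `h3 : StD3, h5 : StD5`). The kernel identity. PROOF. `∑_c DD0 K c η l z y = 0` (fields `sum`: `∑_c K c = [l=0] 1`, and the subtracted terms are `[l = 0] ∑_k KZ k k 16`). With `D_c(i)` as in `StD5`:
`P0 (Aᵀ^(-j) ξ) (Aᵀ^(-j) μ) = D_0(j) + D_1(j-1) + D_2(j-2) + D_3(j-3)` (`h3`; `B^c B^(-j) = B^(-(j-c))`, `B.det ≠ 0` because `B` is injective by `expand` and `nu_pos`), and `D_3(j-3) = -D_0(j-3) - D_1(j-3) - D_2(j-3)`, so it is `X j - X (j-1)`. `finsum_telescope` (in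
`Pool/Agent/Helper54/Wav/Final.lean`, applied to `a j = X (j-1)`). -/
def StD6 : Prop := ∀ (B : Matrix (Fin 2) (Fin 2) ℝ) (ν : Seminorm ℝ (Fin 2 → ℝ))
  (K : Fin 4 → (Fin 2 → ℝ) → (Fin 2 → ℝ) → Matrix (Fin 3) (Fin 3) ℝ)
  (Λ : Fin 4 → Finset (Fin 2 → ℝ)), Pat B ν K Λ → ∀ ξ μ : Fin 3 → ℝ, ξ ≠ 0 →
  ∑ᶠ j : ℤ, P0 B K (((A3 B)ᵀ ^ (-j)) *ᵥ ξ) (((A3 B)ᵀ ^ (-j)) *ᵥ μ) =
    open Classical in if μ = 0 then 1 else 0

/-- Module D7 (hypotheses `b : StB5, a3 : StA3, h1 : StD1, h2 : StD2, h3 : StD3, h4 : StD4, h6 : StD6`). Existence of the wavelet. PROOF. For `i : Fin 4` take the functions of `h1` for `QQ4 B K i` (`b`, `h2`), `om a = if i = 0 then (if a = 0 then 3 else a.castSucc) else a.castSucc`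
(injective), `M = ![2,8,4,2] i`. Join the four families (reindex the sigma type to one `Fin L`). Then `ker g ξ μ = P0 B K ξ μ` (`h4`) and `main_reduction'` applies (`hexp` by `hexp_of_norm` with a norm on `ℝ³`, e.g. `max (ν (pl ξ)) |ξ 2|`, factor `1/2`;
`g = 0` near `0`: last claim of `h1`: near `0` the windows `1,2,3` vanish, and for `i ≠ 0`, `a = 0`: `QQ4 B K i (pl ξ) 0 0 0 = 0 + [k = 0](1 - 1)` by `near`; for `i = 0`, `a ≠ 0`: `K 0 _ 0 a a = 0` by `zero`). Then unfold `HasSchwartzWavelet` (`L > 0`: otherwise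
the kernel identity fails), `IsSchwartz`, `BandLimited` as at the end of `existence_rational` / `existence_power` and `Pool/Agent/Results/MP_d629b1_an/RationalPower.lean`. -/
def StD7 : Prop := ∀ (B : Matrix (Fin 2) (Fin 2) ℝ) (ν : Seminorm ℝ (Fin 2 → ℝ))
  (K : Fin 4 → (Fin 2 → ℝ) → (Fin 2 → ℝ) → Matrix (Fin 3) (Fin 3) ℝ)
  (Λ : Fin 4 → Finset (Fin 2 → ℝ)), Pat B ν K Λ →
  Pool.Agent.Helper54.WavS.HasSchwartzWavelet (A3 B)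

end Pool.Agent.Helper56.EX
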