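import Pool.Agent.Helper56.EX.St
import Pool.Agent.Helper56.EX.St2

/-!
# Project EX (MP_d629b1): statements of the modules, part 3 (the explicit matrix)

`λ` is the real root of `x³ = 10 x² + 300 x + 9001` (`λ ≈ 30.00056`), `B` is the multiplication by `x` on
`ℝ[x]/(x² + (λ-10) x + 9001/λ)` in the basis `1, x`; note `(x-λ)(x² + (λ-10) x + 9001/λ) = x³ - 10x² - 300 x - 9001`.
`1, x, x², x³, ...` are the vectors `B^k e_1`.
-/

set_option autoImplicit false

open Matrix MeasureTheory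
open scoped ContDiff ComplexConjugate
open Pool.Agent.Helper54.Wav (zv)

noncomputable section

namespace Pool.Agent.Helper56.EX

/-- The cubic. -/
def Root (t : ℝ) : Prop := t ^ 3 = 10 * t ^ 2 + 300 * t + 9001

/-- The planar dilation (transposed). -/
def Bt (t : ℝ) : Matrix (Fin 2) (Fin 2) ℝ := !![0, -(9001 / t); 1, -(t - 10)]

/-- The three lengths. -/
def lt (t : ℝ) : Fin 3 → ℝ := ![1, t / 30, 10 * t ^ 2 / 9001]

/-- Image of the vector `x`. -/
def Wx (t : ℝ) : W3 := ![(lt t 1 + lt t 2) / 90010, -(lt t 2 / 90010), -(lt t 1 / 90010)]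

/-- Image of the vector `x²`. -/
def Wxx (t : ℝ) : W3 := ![-(lt t 2 / 3000), lt t 2 / 3000, 0]

/-- Image of the vector `1 = -(λ/9001)(x² + (λ-10) x)`. -/
def W1 (t : ℝ) : W3 := fun k => -(t / 9001) * (Wxx t k + (t - 10) * Wx t k)

/-- The plane coordinates of a vector. -/
def WW (t : ℝ) (η : Fin 2 → ℝ) : W3 := fun k => η 0 * W1 t k + η 1 * Wx t k

/-- The three vectors `300 x³`, `10 (300 x² + 9001 x)`, `3000 x²`. -/
def vv (t : ℝ) : Fin 3 → (Fin 2 → ℝ) :=
  ![(300 : ℝ) • ((Bt t ^ 3) *ᵥ ![1, 0]),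
    (3000 : ℝ) • ((Bt t ^ 2) *ᵥ ![1, 0]) + (90010 : ℝ) • ((Bt t) *ᵥ ![1, 0]),
    (3000 : ℝ) • ((Bt t ^ 2) *ᵥ ![1, 0])]

/-- Integer combinations. -/
def vec (t : ℝ) (n : Z3) : Fin 2 → ℝ := fun a => ∑ i, (n i : ℝ) * vv t i a

/-- Module E1. The root exists, lies in `(30, 30001/1000)` and is irrational. PROOF. Intermediate value theorem: `f(30) = -1 < 0 < f(30.001)`. Uniqueness: for `t ≤ 30`: `f(t) < 0` (`t³ - 10t² - 300t - 9001 = (t-30)(t²+20t+300) - 1`
and `t² + 20 t + 300 > 0`); the same formula shows `t > 30.001` impossible. A rational root would be an integer (monic integer polynomial; `isInteger_of_is_root_of_monic` or by hand). -/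
def StE1 : Prop := (∃ t, Root t) ∧ ∀ t, Root t → 30 < t ∧ t < 30001 / 1000 ∧ Irrational t

/-- Module E2 (hypothesis `h : StE1`). Lengths and images. PROOF. `ℓ 1 = t/30`; `10 t²/9001`: `30 < t < 30.001`. `B³ e_1 = 10 B² e_1 + 300 B e_1 + 9001 e_1` (Root; Cayley-Hamilton, or compute the entries), so
`WW (300 x³) = 300 (10 Wxx + 300 Wx + 9001 W1)`. All are identities of rational functions in `t` modulo `Root t` (`t ≠ 0`; `field_simp`, `linear_combination`). -/
def StE2 : Prop := ∀ t, Root t → (∀ i, |lt t i - 1| ≤ 1 / 1000) ∧ (∀ η, Pl (WW t η)) ∧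
  (∀ i, WW t (vv t i) = uu (lt t) (Ee i)) ∧ (∀ n, WW t (vec t n) = uu (lt t) n)

/-- Module E3 (hypothesis `h : StE1`). Expansion in the maximum norm of the plane coordinates (in fact a factor `10` instead of `2`), and injectivity. PROOF. Let `w = WW t (B η)`, `w' = WW t η`. `WW` is linear and injective, and both are in the plane; multiplication by `x⁻¹` is linear in
the coordinates `(w 0, w 1)`: with `B⁻¹ = !![-(t-10) t/9001, 1; -(t/9001), 0]` one gets `w' k = a_k w 0 + b_k w 1` with explicit `a_k, b_k`, `|a_k| + |b_k| ≤ 1/2` (numerically `≤ 0.2`), from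
`30 < t < 30.001`. -/
def StE3 : Prop := ∀ t, Root t → (∀ η, WW t η = 0 → η = 0) ∧
  ∀ η, ∃ k, ∀ j, 2 * |WW t η j| ≤ |WW t (Bt t *ᵥ η) k|

/-- Module E4 (hypothesis `h : StE1`). Lattices. PROOF. Modulo `Root t`: `v1 - v2 = 90010 x = (0, 90010)`, `v0 - v2 = 300 (300 x + 9001) = (2700300, 90000)` (colour `0`, `n 2 = -n 0 - n 1`). Colour `1` (`n 0 = 0`): `v1 = B (90010, 3000)`, `v2 = B (0, 3000)`.
Colour `2` (`n 1 = 0`): `v0 = B² (0, 300)`, `v2 = B² (3000, 0)`. Colour `3` (`n 2 = 0`): `v0 = B³ (300, 0)`, `v1 = B³ (-100, 10)` (`x⁴ = 10x³ + 300x² + 9001x`). Injectivity: `∑ n_i v_i = 0` is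
`a x³ + b x² + c x = 0` with `a = 300 n0, b = 3000 (n1+n2), c = 90010 n1`; i.e. (`B` invertible) `a x² + b x + c = 0`, `x² = (-9001/t, 10 - t)`: `c = 9001 a/t`, `b = a (t - 10)`; `a ≠ 0` would make `t` rational; so
`a = b = c = 0`. -/
def StE4 : Prop := ∀ t, Root t → Function.Injective (vec t) ∧
  ∀ (c : Fin 4) (n : Z3), Lat c n → ∃ m : Fin 2 → ℤ, vec t n = (Bt t ^ (c : ℕ)) *ᵥ zv m

/-- Module E5 (hypotheses `h1 : StE1, h2 : StE2, h3 : StE3, h4 : StE4, hP : StPhys`). The planar pattern in actual coordinates. PROOF. `ν η = max_k |WW t η k|` (a seminorm: e.g. `(normSeminorm ℝ W3).comp` of the linear map `WW t`), `K c η l = Kp (lt t) g0 c (WW t η) n` if `l = vec t n` (`n` unique, `Classical`),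
`0` otherwise; `Λ c` = the image under `vec t` of the `n ∈ Sh` with `Lat c n`. All fields of `Pat` are the fields of `Phys` (`WW (η + vec n) = WW η + uu n`, `vec` additive and injective). -/
def StE5 : Prop := ∀ t, Root t → ∃ ν K Λ, Pat (Bt t) ν K Λ

/-- The matrix `A`. -/
def AA3 (t : ℝ) : Matrix (Fin 3) (Fin 3) ℝ := !![0, 1, 0; -(9001 / t), 10 - t, 0; 0, 0, 2]

/-- Module E6 (hypothesis `h : StE1`). `A` is expansive and no power of `A` is rational. PROOF. Expansive: an eigenvalue satisfies `(z-2)(z² + (t-10) z + 9001/t) = 0` (`det (z - A) = 0`); if `|z| ≤ 1` then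
`|z² + (t-10) z| ≤ 1 + (t-10) < 22 < 9001/t`. No rational power: let `A^p`, `p ≥ 1`, be rational; then so is its upper left block, `A'^p`, `A' = Bᵀ` with `B = Bt t`, and `B^p = (A'^p)ᵀ`. If `p = 1`: entry `(1,1)` is `10 - t`, irrational. If `p ≥ 2`: `x^p = r + s x + u x²` with
natural numbers `r, s, u`, `u ≥ 1` (induction: `x³ = 10x² + 300x + 9001`, `(r,s,u) ↦ (9001u, r + 300u, s + 10u)`), so the second component of `B^p e_1` is `s + u (10 - t)`, irrational. -/
def StE6 : Prop := ∀ t, Root t → Wav.Expansive (AA3 t) ∧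
  ¬ Pool.Agent.Helper54.WavS.HasRationalPower (AA3 t)

/-- Module E7 (hypotheses `h1 : StE1, h5 : StE5, h6 : StE6, h7 : StD7`). Final assembly: `AA3 t = A3 (Bt t)`. -/
def StE7 : Prop := ∃ t : ℝ, t ^ 3 = 10 * t ^ 2 + 300 * t + 9001 ∧ Wav.Expansive (AA3 t) ∧
  ¬ Pool.Agent.Helper54.WavS.HasRationalPower (AA3 t) ∧
  Pool.Agent.Helper54.WavS.HasSchwartzWavelet (AA3 t)

end Pool.Agent.Helper56.EX
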