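import Pool.Agent.Helper56.EX.Basic

/-!
# Project EX: entries of the raw pattern
-/

set_option autoImplicit false

open Matrix
open scoped ContDiff

noncomputable section

namespace Pool.Agent.Helper56.EX

variable {ℓ γ : Fin 3 → ℝ}

/-- The raw pattern is symmetric. -/
lemma Kr_symm (c : Fin 4) (w : W3) (n : Z3) :
    Kr ℓ γ c (w + uu ℓ n) (-n) = (Kr ℓ γ c w n)ᵀ := by
  have e1 : w + uu ℓ n + uu ℓ (-n) = w := by rw [uu_neg]; abel
  have htc : tc c (-n) = tc c n := by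
    unfold tc
    refine Fin.cases ?_ (fun k => ?_) c
    · simp only [Fin.cases_zero]
      congr 1
      apply propext
      constructor
      · rintro ⟨i, j, hij, h⟩
        exact ⟨j, i, hij.symm, by rw [← neg_neg n, h]; abel⟩
      · rintro ⟨i, j, hij, h⟩
        exact ⟨j, i, hij.symm, by rw [h]; abel⟩
    · simp only [Fin.cases_succ]
      congr 1
      apply propext
      constructor
      · rintro (h | h)
        · right; rw [← neg_neg n, h]; abel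
        · left; rw [← neg_neg n, h]; abel
      · rintro (h | h)
        · right; rw [h]; abel
        · left; rw [h]; abel
  unfold Kr
  rw [e1, neg_neg]
  rw [Matrix.transpose_add, Matrix.transpose_add, Matrix.transpose_sum]
  congr 1
  · congr 1
    · by_cases hn : n = 0
      · subst hn
        simp [uu_zero]
      · rw [if_neg hn, if_neg (by simpa using hn)]
        simp
    · ext a b
      simp only [Matrix.of_apply, Matrix.transpose_apply, htc, and_comm (a := b = 0)]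
      split_ifs <;> ring
  · refine Finset.sum_congr rfl fun i _ => ?_
    rw [Matrix.transpose_smul, Matrix.transpose_add, Matrix.transpose_transpose, add_comm]

lemma Kr_symm' (c : Fin 4) (w : W3) (n : Z3) (a b : Fin 3) :
    Kr ℓ γ c w n a b = Kr ℓ γ c (w + uu ℓ n) (-n) b a := by
  rw [Kr_symm]; rfl

/-- Row of the sheet `t`. -/
lemma row_t (c : Fin 4) (w : W3) (n : Z3) (b : Fin 3) :
    Kr ℓ γ c w n 2 b = (if b = 2 ∧ n = 0 then Dg ℓ c w 2 else 0) +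
      ∑ i, sg c i * (
        (if b = 0 ∧ n = Ee i then si i w * fA (XX ℓ i w) else 0) +
        (if b = 0 ∧ n = 0 then si i w * fD (γ i) (XX ℓ i w) else 0) +
        (if b = 1 ∧ n = -Ee i then si i w * fB (γ i) (XX ℓ i w) else 0) +
        (if b = 1 ∧ n = -(Ee i + Ee i) then si i w * fC (XX ℓ i w) else 0)) := by
  unfold Kr
  simp only [Matrix.add_apply, Matrix.sum_apply, Matrix.smul_apply, Matrix.of_apply,
    Matrix.transpose_apply, LL, smul_eq_mul]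
  congr 1
  · by_cases hn : n = 0 <;> by_cases hb : b = 2 <;> simp [hn, hb, Matrix.diagonal, Ne.symm]
  · refine Finset.sum_congr rfl fun i _ => ?_
    congr 1
    have h20 : (2 : Fin 3) ≠ 0 := by decide
    have h21 : (2 : Fin 3) ≠ 1 := by decide
    simp [h20, h21]

/-- Row of the sheet `s`. -/
lemma row_s (c : Fin 4) (w : W3) (n : Z3) (b : Fin 3) :
    Kr ℓ γ c w n 1 b = (if b = 1 ∧ n = 0 then Dg ℓ c w 1 else 0) +
      ∑ i, sg c i * (
        (if b = 0 ∧ n = -Ee i then si i (-w) * fA (XX ℓ i (-w)) else 0) +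
        (if b = 0 ∧ n = 0 then si i (-w) * fD (γ i) (XX ℓ i (-w)) else 0) +
        (if b = 2 ∧ n = Ee i then
          si i (w + uu ℓ n) * fB (γ i) (XX ℓ i (w + uu ℓ n)) else 0) +
        (if b = 2 ∧ n = Ee i + Ee i then
          si i (w + uu ℓ n) * fC (XX ℓ i (w + uu ℓ n)) else 0)) := by
  unfold Kr
  simp only [Matrix.add_apply, Matrix.sum_apply, Matrix.smul_apply, Matrix.of_apply,
    Matrix.transpose_apply, LL, smul_eq_mul]
  congr 1
  · by_cases hn : n = 0 <;> by_cases hb : b = 1 <;> simp [hn, hb, Matrix.diagonal, Ne.symm]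
  · refine Finset.sum_congr rfl fun i _ => ?_
    congr 1
    have h10 : (1 : Fin 3) ≠ 0 := by decide
    have h12 : (1 : Fin 3) ≠ 2 := by decide
    simp only [h10, h12, false_and, true_and, and_false, if_false, add_zero, zero_add, neg_inj,
      neg_eq_zero]
    ring

/-- Row of the sheet `e`. -/
lemma row_e (c : Fin 4) (w : W3) (n : Z3) (b : Fin 3) :
    Kr ℓ γ c w n 0 b = (if b = 0 ∧ n = 0 then Dg ℓ c w 0 else 0) +
      (if b = 0 then tc c n * (gg ℓ w * gg ℓ (w + uu ℓ n)) else 0) +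
      ∑ i, sg c i * (
        (if b = 2 ∧ n = -Ee i then
          si i (w + uu ℓ n) * fA (XX ℓ i (w + uu ℓ n)) else 0) +
        (if b = 2 ∧ n = 0 then si i w * fD (γ i) (XX ℓ i w) else 0) +
        (if b = 1 ∧ n = Ee i then
          si i (-(w + uu ℓ n)) * fA (XX ℓ i (-(w + uu ℓ n))) else 0) +
        (if b = 1 ∧ n = 0 then si i (-w) * fD (γ i) (XX ℓ i (-w)) else 0)) := by
  unfold Kr
  simp only [Matrix.add_apply, Matrix.sum_apply, Matrix.smul_apply, Matrix.of_apply,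
    Matrix.transpose_apply, LL, smul_eq_mul, true_and]
  congr 1
  · by_cases hn : n = 0 <;> by_cases hb : b = 0 <;> simp [hn, hb, Matrix.diagonal, Ne.symm]
  · refine Finset.sum_congr rfl fun i _ => ?_
    congr 1
    have h02 : (0 : Fin 3) ≠ 2 := by decide
    have h01 : (0 : Fin 3) ≠ 1 := by decide
    have hE : Ee i ≠ 0 := by
      intro h
      have := congrFun h i
      simp [Ee] at this
    have e1 : (-n = Ee i) = (n = -Ee i) := propext neg_eq_iff_eq_neg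
    simp only [h02, h01, false_and, true_and, and_false, if_false, add_zero, zero_add, neg_inj,
      neg_eq_zero, e1]
    by_cases hn : n = 0
    · subst hn
      simp only [uu_zero, add_zero]
    · simp only [hn, and_false, if_false, add_zero]

/-! ### shifts -/

lemma Ee_inj {i j : Fin 3} : Ee i = Ee j ↔ i = j := by
  revert i j; unfold Ee; decide

lemma Ee_ne_zero (i : Fin 3) : Ee i ≠ 0 := by revert i; unfold Ee; decide

lemma Ee_ne_neg (i j : Fin 3) : Ee i ≠ -Ee j := by revert i j; unfold Ee; decide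

lemma Ee2_ne_zero (i : Fin 3) : Ee i + Ee i ≠ 0 := by revert i; unfold Ee; decide

lemma Ee2_ne (i j : Fin 3) : Ee i + Ee i ≠ Ee j := by revert i j; unfold Ee; decide

lemma Ee2_inj {i j : Fin 3} : Ee i + Ee i = Ee j + Ee j ↔ i = j := by
  revert i j; unfold Ee; decide

lemma nEe_ne_zero (i : Fin 3) : -Ee i ≠ 0 := by revert i; unfold Ee; decide

lemma nEe2_ne_zero (i : Fin 3) : -(Ee i + Ee i) ≠ 0 := by revert i; unfold Ee; decide

lemma tc_zero (c : Fin 4) : tc c 0 = 0 := by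
  have h1 : ¬ ∃ i j : Fin 3, i ≠ j ∧ (0 : Z3) = Ee i - Ee j := by
    rintro ⟨i, j, hij, h⟩
    exact hij (Ee_inj.mp (sub_eq_zero.mp h.symm))
  have h2 : ∀ i j : Fin 3, i ≠ j → (0 : Z3) ≠ Ee i - Ee j := fun i j hij h => h1 ⟨i, j, hij, h⟩
  unfold tc
  refine Fin.cases ?_ (fun k => ?_) c
  · simp only [Fin.cases_zero]
    rw [if_neg h1]
  · simp only [Fin.cases_succ]
    rw [if_neg]
    rintro (h | h)
    · exact h2 _ _ (ne12 k) h
    · exact h2 _ _ (ne12 k).symm h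

lemma v_tt (c : Fin 4) (w : W3) : Kr ℓ γ c w 0 2 2 = Dg ℓ c w 2 := by
  rw [row_t]; simp

lemma v_ss (c : Fin 4) (w : W3) : Kr ℓ γ c w 0 1 1 = Dg ℓ c w 1 := by
  rw [row_s]; simp

lemma v_ee (c : Fin 4) (w : W3) : Kr ℓ γ c w 0 0 0 = Dg ℓ c w 0 := by
  rw [row_e]; simp [tc_zero]

lemma v_ee' (c : Fin 4) (w : W3) {n : Z3} (hn : n ≠ 0) :
    Kr ℓ γ c w n 0 0 = tc c n * (gg ℓ w * gg ℓ (w + uu ℓ n)) := by
  rw [row_e]; simp [hn]

lemma v_tA (c : Fin 4) (w : W3) (i : Fin 3) :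
    Kr ℓ γ c w (Ee i) 2 0 = sg c i * (si i w * fA (XX ℓ i w)) := by
  rw [row_t]
  simp [Ee_inj, Ee_ne_zero]

lemma v_tD (c : Fin 4) (w : W3) :
    Kr ℓ γ c w 0 2 0 = ∑ i, sg c i * (si i w * fD (γ i) (XX ℓ i w)) := by
  rw [row_t]
  simp [(Ee_ne_zero _).symm]

lemma v_tB (c : Fin 4) (w : W3) (i : Fin 3) :
    Kr ℓ γ c w (-Ee i) 2 1 = sg c i * (si i w * fB (γ i) (XX ℓ i w)) := by
  rw [row_t]
  simp [Ee_inj, (Ee2_ne _ _).symm, -neg_add_rev]

lemma v_tC (c : Fin 4) (w : W3) (i : Fin 3) :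
    Kr ℓ γ c w (-(Ee i + Ee i)) 2 1 = sg c i * (si i w * fC (XX ℓ i w)) := by
  rw [row_t]
  simp [Ee2_inj, Ee2_ne, -neg_add_rev]

lemma v_sA (c : Fin 4) (w : W3) (i : Fin 3) :
    Kr ℓ γ c w (-Ee i) 1 0 = sg c i * (si i (-w) * fA (XX ℓ i (-w))) := by
  rw [row_s]
  simp [Ee_inj, Ee_ne_zero]

lemma v_sD (c : Fin 4) (w : W3) :
    Kr ℓ γ c w 0 1 0 = ∑ i, sg c i * (si i (-w) * fD (γ i) (XX ℓ i (-w))) := by
  rw [row_s]
  simp [eq_comm, Ee_ne_zero]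

/-- The possible links of a point `a @ w` to `b @ w + uu n`. -/
def Link (ℓ : Fin 3 → ℝ) (w : W3) (n : Z3) (a b : Fin 3) : Prop :=
  (a = b ∧ n = 0) ∨
  (a = 0 ∧ b = 0 ∧ gg ℓ w ≠ 0 ∧ gg ℓ (w + uu ℓ n) ≠ 0 ∧ ∃ i j : Fin 3, i ≠ j ∧ n = Ee i - Ee j) ∨
  ∃ i : Fin 3,
    (a = 2 ∧ si i w ≠ 0 ∧
      ((b = 0 ∧ n = Ee i ∧ XX ℓ i w < 1 / 2) ∨ (b = 0 ∧ n = 0 ∧ 4 / 3 < XX ℓ i w) ∨
       (b = 1 ∧ n = -Ee i ∧ 1 / 3 < XX ℓ i w ∧ XX ℓ i w < 2 / 3) ∨
       (b = 1 ∧ n = -(Ee i + Ee i) ∧ 1 / 2 < XX ℓ i w ∧ XX ℓ i w < 3 / 2))) ∨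
    (a = 1 ∧ si i (-w) ≠ 0 ∧
      ((b = 0 ∧ n = -Ee i ∧ XX ℓ i (-w) < 1 / 2) ∨ (b = 0 ∧ n = 0 ∧ 4 / 3 < XX ℓ i (-w)))) ∨
    (a = 1 ∧ b = 2 ∧ si i (w + uu ℓ n) ≠ 0 ∧
      ((n = Ee i ∧ 1 / 3 < XX ℓ i (w + uu ℓ n) ∧ XX ℓ i (w + uu ℓ n) < 2 / 3) ∨
       (n = Ee i + Ee i ∧ 1 / 2 < XX ℓ i (w + uu ℓ n) ∧ XX ℓ i (w + uu ℓ n) < 3 / 2))) ∨
    (a = 0 ∧ b = 2 ∧ ((n = -Ee i ∧ si i (w + uu ℓ n) ≠ 0 ∧ XX ℓ i (w + uu ℓ n) < 1 / 2) ∨
      (n = 0 ∧ si i w ≠ 0 ∧ 4 / 3 < XX ℓ i w))) ∨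
    (a = 0 ∧ b = 1 ∧ ((n = Ee i ∧ si i (-(w + uu ℓ n)) ≠ 0 ∧ XX ℓ i (-(w + uu ℓ n)) < 1 / 2) ∨
      (n = 0 ∧ si i (-w) ≠ 0 ∧ 4 / 3 < XX ℓ i (-w))))

lemma fA_ne {x : ℝ} (h : fA x ≠ 0) : x < 1 / 2 := by
  by_contra h'; exact h (fA_high (not_lt.mp h'))
lemma fB_ne {g x : ℝ} (h : fB g x ≠ 0) : 1 / 3 < x ∧ x < 2 / 3 := by
  constructor
  · by_contra h'; exact h (fB_low (not_lt.mp h'))
  · by_contra h'; exact h (fB_high (not_lt.mp h'))
lemma fC_ne {x : ℝ} (h : fC x ≠ 0) : 1 / 2 < x ∧ x < 3 / 2 := by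
  constructor
  · by_contra h'; exact h (fC_low (not_lt.mp h'))
  · by_contra h'; exact h (fC_high (not_lt.mp h'))
lemma fD_ne {g x : ℝ} (h : fD g x ≠ 0) : 4 / 3 < x := by
  by_contra h'; exact h (fD_low (not_lt.mp h'))

lemma tc_ne {c : Fin 4} {n : Z3} (h : tc c n ≠ 0) : ∃ i j : Fin 3, i ≠ j ∧ n = Ee i - Ee j := by
  unfold tc at h
  revert h
  refine Fin.cases ?_ (fun k => ?_) c
  · simp only [Fin.cases_zero]
    intro h
    by_contra h'
    rw [if_neg h'] at h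
    exact h rfl
  · simp only [Fin.cases_succ]
    intro h
    by_contra h'
    rw [if_neg] at h
    · exact h rfl
    · rintro (h2 | h2)
      · exact h' ⟨_, _, ne12 k, h2⟩
      · exact h' ⟨_, _, (ne12 k).symm, h2⟩

/-- Nonzero entries come from links. -/
lemma link_of_ne {c : Fin 4} {w : W3} {n : Z3} {a b : Fin 3} (h : Kr ℓ γ c w n a b ≠ 0) :
    Link ℓ w n a b := by
  by_contra hL
  unfold Link at hL
  rw [not_or, not_or] at hL
  obtain ⟨h1, h2, h3⟩ := hL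
  rw [not_exists] at h3
  apply h
  have key : ∀ (p : Prop) [Decidable p] (x y : ℝ), (p → x ≠ 0 → y ≠ 0 → False) →
      (if p then x * y else 0) = 0 := by
    intro p _ x y hxy
    by_cases hp : p
    · rw [if_pos hp]
      by_contra hc
      exact hxy hp (left_ne_zero_of_mul hc) (right_ne_zero_of_mul hc)
    · rw [if_neg hp]
  have key' : ∀ (p : Prop) [Decidable p] (x : ℝ), ¬ p → (if p then x else 0) = 0 := by
    intro p _ x hp; rw [if_neg hp]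
  have ha : a = 0 ∨ a = 1 ∨ a = 2 := by fin_cases a <;> simp
  rcases ha with rfl | rfl | rfl
  · rw [row_e, key' _ _ (fun hh => h1 ⟨hh.1.symm, hh.2⟩)]
    rw [Finset.sum_eq_zero]
    · rw [zero_add, add_zero]
      by_cases hb : b = 0
      · rw [if_pos hb]
        by_contra hc
        have a1 := left_ne_zero_of_mul hc
        have a2 := right_ne_zero_of_mul hc
        exact h2 ⟨rfl, hb, left_ne_zero_of_mul a2, right_ne_zero_of_mul a2, tc_ne a1⟩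
      · rw [if_neg hb]
    · intro i _
      have h3 := h3 i
      rw [key _ _ _ (fun hh x1 x2 => h3 (Or.inr (Or.inr (Or.inr (Or.inl
          ⟨rfl, hh.1, Or.inl ⟨hh.2, x1, fA_ne x2⟩⟩))))),
        key _ _ _ (fun hh x1 x2 => h3 (Or.inr (Or.inr (Or.inr (Or.inl
          ⟨rfl, hh.1, Or.inr ⟨hh.2, x1, fD_ne x2⟩⟩))))),
        key _ _ _ (fun hh x1 x2 => h3 (Or.inr (Or.inr (Or.inr (Or.inr
          ⟨rfl, hh.1, Or.inl ⟨hh.2, x1, fA_ne x2⟩⟩))))),
        key _ _ _ (fun hh x1 x2 => h3 (Or.inr (Or.inr (Or.inr (Or.inr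
          ⟨rfl, hh.1, Or.inr ⟨hh.2, x1, fD_ne x2⟩⟩)))))]
      ring
  · rw [row_s, key' _ _ (fun hh => h1 ⟨hh.1.symm, hh.2⟩)]
    rw [Finset.sum_eq_zero, zero_add]
    intro i _
    have h3 := h3 i
    rw [key _ _ _ (fun hh x1 x2 => h3 (Or.inr (Or.inl
          ⟨rfl, x1, Or.inl ⟨hh.1, hh.2, fA_ne x2⟩⟩))),
      key _ _ _ (fun hh x1 x2 => h3 (Or.inr (Or.inl
          ⟨rfl, x1, Or.inr ⟨hh.1, hh.2, fD_ne x2⟩⟩))),
      key _ _ _ (fun hh x1 x2 => h3 (Or.inr (Or.inr (Or.inl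
          ⟨rfl, hh.1, x1, Or.inl ⟨hh.2, fB_ne x2⟩⟩)))),
      key _ _ _ (fun hh x1 x2 => h3 (Or.inr (Or.inr (Or.inl
          ⟨rfl, hh.1, x1, Or.inr ⟨hh.2, fC_ne x2⟩⟩))))]
    ring
  · rw [row_t, key' _ _ (fun hh => h1 ⟨hh.1.symm, hh.2⟩)]
    rw [Finset.sum_eq_zero, zero_add]
    intro i _
    have h3 := h3 i
    rw [key _ _ _ (fun hh x1 x2 => h3 (Or.inl
          ⟨rfl, x1, Or.inl ⟨hh.1, hh.2, fA_ne x2⟩⟩)),
      key _ _ _ (fun hh x1 x2 => h3 (Or.inl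
          ⟨rfl, x1, Or.inr (Or.inl ⟨hh.1, hh.2, fD_ne x2⟩)⟩)),
      key _ _ _ (fun hh x1 x2 => h3 (Or.inl
          ⟨rfl, x1, Or.inr (Or.inr (Or.inl ⟨hh.1, hh.2, fB_ne x2⟩))⟩)),
      key _ _ _ (fun hh x1 x2 => h3 (Or.inl
          ⟨rfl, x1, Or.inr (Or.inr (Or.inr ⟨hh.1, hh.2, fC_ne x2⟩))⟩))]
    ring

end Pool.Agent.Helper56.EX
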